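import Pool.Agent.W823.QT.Stm

/-!
# Project QT, part CORE: second moments on the grid, discrete form
-/

set_option autoImplicit false

namespace Pool.Agent.W513.QTCORE

open MeasureTheory ProbabilityTheory Filter Topology Pool.Agent.W823.QT
open scoped ENNReal NNReal

theorem Ex_zero : Ex 0 = 1 := by simp [Ex]

theorem Ex_add (s t : ℝ≥0∞) : Ex (s + t) = Ex s * Ex t := by
  unfold Ex
  rw [EReal.coe_ennreal_add, EReal.exp_add]

theorem En_eq_inv (t : ℝ≥0∞) : En t = (Ex t)⁻¹ := by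
  unfold Ex En
  rw [EReal.exp_neg]

theorem Ex_mono : Monotone Ex := by
  intro s t h
  unfold Ex
  exact EReal.exp_monotone (by exact_mod_cast h)

theorem En_anti : Antitone En := by
  intro s t h
  rw [En_eq_inv, En_eq_inv]
  exact ENNReal.inv_le_inv.mpr (Ex_mono h)

theorem one_le_Ex (t : ℝ≥0∞) : 1 ≤ Ex t := by
  rw [← Ex_zero]; exact Ex_mono bot_le

theorem Ex_ne_top {t : ℝ≥0∞} (h : t ≠ ∞) : Ex t ≠ ∞ := by
  unfold Ex
  rw [Ne, EReal.exp_eq_top_iff]
  intro h'
  exact h (EReal.coe_ennreal_eq_top_iff.mp h')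

theorem En_eq (x y : ℝ≥0∞) (hy : y ≠ ∞) : En x = En (x + y) * Ex y := by
  have h0 : Ex y ≠ 0 := (lt_of_lt_of_le zero_lt_one (one_le_Ex y)).ne'
  have ht : Ex y ≠ ∞ := Ex_ne_top hy
  rw [En_eq_inv, En_eq_inv, Ex_add, ENNReal.mul_inv (Or.inr ht) (Or.inr h0), mul_assoc,
    ENNReal.inv_mul_cancel h0 ht, mul_one]

theorem En_add (x y : ℝ≥0∞) : En (x + y) = En x * En y := by
  by_cases hx : x = ∞
  · subst hx
    simp [En]
  by_cases hy : y = ∞
  · subst hy
    simp [En]
  rw [En_eq_inv, En_eq_inv, En_eq_inv, Ex_add, ENNReal.mul_inv (Or.inr (Ex_ne_top hy))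
    (Or.inl (Ex_ne_top hx))]

theorem En_fin {t : ℝ≥0∞} (h : t ≠ ∞) : En t = ENNReal.ofReal (Real.exp (-t.toReal)) := by
  unfold En
  lift t to ℝ≥0 using h
  have : -(((t : ℝ≥0∞) : EReal)) = ((-(t : ℝ) : ℝ) : EReal) := by
    rw [EReal.coe_neg]; rfl
  rw [this, EReal.exp_coe]
  simp

theorem Ex_sum {ι : Type} (s : Finset ι) (f : ι → ℝ≥0∞) :
    Ex (∑ i ∈ s, f i) = ∏ i ∈ s, Ex (f i) := by
  classical
  induction s using Finset.induction_on with
  | empty => simp [Ex_zero]
  | insert a s ha ih => rw [Finset.sum_insert ha, Finset.prod_insert ha, Ex_add, ih]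

theorem pos_add {d : ℕ} (a : ℕ → Fin d → ℤ) (k i : ℕ) : pos a (k + i) = pos a k + pos (sh k a) i := by
  unfold pos sh
  exact Finset.sum_range_add _ _ _

theorem pos_one {d : ℕ} (a : ℕ → Fin d → ℤ) (i : ℕ) : pos a (1 + i) = a 0 + pos (sh 1 a) i := by
  rw [pos_add]; congr 1; simp [pos]

theorem sh_sh {d : ℕ} (a : ℕ → Fin d → ℤ) (k : ℕ) : sh k (sh 1 a) = sh (1 + k) a := by
  funext i; simp only [sh]; congr 1; ring

theorem sumIcc (n : ℕ) (f : ℕ → ℝ≥0∞) :
    ∑ i ∈ Finset.Icc 1 n, f i = ∑ i ∈ Finset.range n, f (1 + i) := by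
  induction n with
  | zero => simp
  | succ n ih => rw [Finset.sum_Icc_succ_top (by omega), ih, Finset.sum_range_succ, add_comm 1 n]

theorem meas_Ex : Measurable Ex := Ex_mono.measurable

theorem meas_sh {d : ℕ} (k : ℕ) : Measurable (sh k : (ℕ → Fin d → ℤ) → ℕ → Fin d → ℤ) :=
  measurable_pi_lambda _ fun _ => measurable_pi_apply _

theorem meas_pos {d : ℕ} (k : ℕ) : Measurable (fun a : ℕ → Fin d → ℤ => pos a k) := by
  unfold pos
  exact Finset.measurable_sum _ fun i _ => measurable_pi_apply i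

theorem meas_disc {d : ℕ} (f : (Fin d → ℤ) → ℝ≥0∞) : Measurable f := measurable_of_countable f

theorem swap_bound {S : Type} [MeasurableSpace S] (μ : Measure S) [SFinite μ] (W : S → ℝ≥0∞)
    (T : S → S) (K A : ℝ≥0∞) (X : S → S → ℝ≥0∞) (f : S → S → ℝ≥0∞)
    (hW : Measurable fun a => W (T a)) (hX : Measurable (fun p : S × S => X p.2 p.1))
    (hf : ∀ a a', f a a' ≤ (K * W (T a')) * (K * (W (T a) * X a' a)))
    (hA : ∫⁻ a, W (T a) ∂μ = A) (h : ∀ a', ∫⁻ a, W (T a) * X a' a ∂μ ≤ 4 * A) :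
    ∫⁻ a, ∫⁻ a', f a a' ∂μ ∂μ ≤ 4 * (K * A) ^ 2 := by
  have mY2 : Measurable (Function.uncurry fun a a' => (K * W (T a')) *
      (K * (W (T a) * X a' a))) := by
    refine Measurable.mul ?_ ?_
    · exact (hW.comp measurable_snd).const_mul K
    · exact ((hW.comp measurable_fst).mul hX).const_mul K
  calc ∫⁻ a, ∫⁻ a', f a a' ∂μ ∂μ
      ≤ ∫⁻ a, ∫⁻ a', (K * W (T a')) * (K * (W (T a) * X a' a)) ∂μ ∂μ :=
        lintegral_mono fun a => lintegral_mono fun a' => hf a a'
    _ = ∫⁻ a', ∫⁻ a, (K * W (T a')) * (K * (W (T a) * X a' a)) ∂μ ∂μ :=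
        lintegral_lintegral_swap mY2.aemeasurable
    _ ≤ ∫⁻ a', (K * W (T a')) * (K * (4 * A)) ∂μ := by
        refine lintegral_mono fun a' => ?_
        have mz0 : Measurable fun a => X a' a := hX.comp (measurable_id.prodMk measurable_const)
        have mz : Measurable fun a => W (T a) * X a' a := hW.mul mz0
        dsimp only
        rw [lintegral_const_mul _ (mz.const_mul _), lintegral_const_mul _ mz]
        gcongr
        exact h a'
    _ = 4 * (K * A) ^ 2 := by
        rw [lintegral_mul_const _ (hW.const_mul _), lintegral_const_mul _ hW, hA]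
        ring

theorem main (h1 : MEAS_T) (h2 : MARK_T) (h3 : QF_T) (h4 : C1_T) (h5 : C2_T) (h6 : M2_T)
    (h7 : M3_T) (h8 : EPS_T) (h9 : SUPA_T) : CORE_T := by
  intro d q r _ _ hq hr e he ν hν g hg hb hs n hn
  obtain ⟨m, rfl⟩ : ∃ m, n = m + 1 := ⟨n - 1, by omega⟩
  have : IsProbabilityMeasure (iid q) := by unfold iid; infer_instance
  have : IsProbabilityMeasure (iid r) := by unfold iid; infer_instance
  obtain ⟨qloc, qsym, qle⟩ := h3 d r e he
  have he1 : (1 - e) ≠ ∞ := ne_top_of_le_ne_top ENNReal.one_ne_top tsub_le_self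
  have hηe : ∀ k z, 1 + etaT ν e r k z = Ex (ν * qf e r k z) := by
    intro k z
    unfold etaT
    exact add_tsub_cancel_of_le (one_le_Ex _)
  have ker : Ker d q (pk r) g (ν * (1 - e) ^ 2) (etaT ν e r) := by
    refine ⟨hg, hb, hs, ?_, ?_⟩
    · intro k z z' h
      unfold etaT
      rw [qloc k z z' h]
    · intro k z
      rw [hηe, mul_assoc]
      exact Ex_mono (by gcongr; exact qle k z)
  have hsym : SymW (etaT ν e r) := by
    intro k z
    unfold etaT
    rw [qsym hr k z]
  obtain ⟨eps1, eps2⟩ := h8 d q (pk r) g (ν * (1 - e) ^ 2) (etaT ν e r) ker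
  obtain ⟨hVm, hA1, hAt, -⟩ := h9 d q (etaT ν e r) _ ker.loc eps2 eps1.1
  obtain ⟨K, hK⟩ : ∃ K, K = En (ν * (((m : ℝ≥0∞) + 1) * (1 - e))) := ⟨_, rfl⟩
  have hKf : ν * (((m : ℝ≥0∞) + 1) * (1 - e)) ≠ ∞ :=
    ENNReal.mul_ne_top hν (ENNReal.mul_ne_top (by simp) he1)
  have id1 : ∀ a, En (ν * Cn e r (m + 1) (pos a)) = K * V (etaT ν e r) m (sh 1 a) := by
    intro a
    have c1 := h4 d r e he m (pos a)
    have hy0 : ∑ s ∈ arcs m, qf e r (s.2 - s.1) (fun i => pos a (1 + s.1 + i) - pos a (1 + s.1)) ≠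
        ∞ := by
      intro h
      rw [h, add_top] at c1
      exact (ENNReal.mul_ne_top (by simp) he1) c1.symm
    have hy : ν * ∑ s ∈ arcs m,
        qf e r (s.2 - s.1) (fun i => pos a (1 + s.1 + i) - pos a (1 + s.1)) ≠ ∞ :=
      ENNReal.mul_ne_top hν hy0
    rw [En_eq _ _ hy, ← mul_add, c1, ← hK]
    congr 1
    rw [Finset.mul_sum, Ex_sum]
    unfold V
    refine Finset.prod_congr rfl fun s _ => ?_
    unfold aw
    rw [hηe]
    congr 3
    funext i
    rw [pos_add, add_sub_cancel_left, sh_sh]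
  have mark1 : ∀ F : (ℕ → Fin d → ℤ) → (ℕ → Fin d → ℤ) → ℝ≥0∞, Measurable (Function.uncurry F) →
      (∀ a a' b : ℕ → Fin d → ℤ, a 0 = a' 0 → F a b = F a' b) →
      ∫⁻ a, F a (sh 1 a) ∂(iid q) = ∫⁻ a, ∫⁻ b, F a b ∂(iid q) ∂(iid q) := by
    intro F hF hF'
    exact h2 d q 1 F hF fun a a' b h => hF' a a' b (h 0 (by norm_num))
  have cVm : Measurable fun a : ℕ → Fin d → ℤ => V (etaT ν e r) m (sh 1 a) :=
    (hVm m).comp (meas_sh 1)
  have hVs : ∫⁻ a, V (etaT ν e r) m (sh 1 a) ∂(iid q) = A q (etaT ν e r) m := by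
    rw [mark1 (fun _ b => V (etaT ν e r) m b) ((hVm m).comp measurable_snd) (fun _ _ _ _ => rfl)]
    simp [A]
  have hZ : ∫⁻ a, En (ν * Cn e r (m + 1) (pos a)) ∂(iid q) = K * A q (etaT ν e r) m := by
    simp_rw [id1]
    rw [lintegral_const_mul _ cVm, hVs]
  refine ⟨?_, ?_, ?_⟩
  · rw [hZ]
    have e1 : ENNReal.ofReal (Real.exp (-(((m + 1 : ℕ) : ℝ) * (ν * (1 - e)).toReal))) = K := by
      rw [hK, En_fin hKf]
      congr 3
      rw [ENNReal.toReal_mul, ENNReal.toReal_mul, ENNReal.toReal_mul,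
        ENNReal.toReal_add (by simp) (by simp)]
      simp only [ENNReal.toReal_natCast, ENNReal.toReal_one]
      push_cast
      ring
    rw [e1]
    calc K = K * 1 := (mul_one K).symm
      _ ≤ K * A q (etaT ν e r) m := by gcongr; exact hA1 m
  · -- second moment
    obtain ⟨Y, hY⟩ : ∃ Y : (ℕ → Fin d → ℤ) → (ℕ → Fin d → ℤ) → (ℕ → Fin d → ℤ) → ℝ≥0∞,
      Y = fun a' a b => ν * (1 - e) ^ 2 * ∑ i ∈ Finset.range (m + 1), ∑ j ∈ Finset.range (m + 1),
        pk r ((i - j) + (j - i)) (pos b i - (pos a' (1 + j) - a 0)) := ⟨_, rfl⟩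
    have b1 : ∀ a a', En (ν * C2 e r (m + 1) (pos a) (pos a')) ≤
        (K * V (etaT ν e r) m (sh 1 a')) * (K * (V (etaT ν e r) m (sh 1 a) *
          Ex (Y a' a (sh 1 a)))) := by
      intro a a'
      have c2 := h5 d r hr e he (m + 1) (pos a) (pos a')
      have e2 : (1 - e) ^ 2 * ∑ i ∈ Finset.Icc 1 (m + 1), ∑ j ∈ Finset.Icc 1 (m + 1),
          pk r ((i - j) + (j - i)) (pos a i - pos a' j) = (1 - e) ^ 2 *
          ∑ i ∈ Finset.range (m + 1), ∑ j ∈ Finset.range (m + 1),
            pk r ((i - j) + (j - i)) (pos (sh 1 a) i - (pos a' (1 + j) - a 0)) := by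
        congr 1
        rw [sumIcc]
        refine Finset.sum_congr rfl fun i _ => ?_
        rw [sumIcc]
        refine Finset.sum_congr rfl fun j _ => ?_
        congr 1
        · omega
        · rw [pos_one a i]; abel
      rw [e2] at c2
      have c3 : ν * Cn e r (m + 1) (pos a) + ν * Cn e r (m + 1) (pos a') ≤
          ν * C2 e r (m + 1) (pos a) (pos a') + Y a' a (sh 1 a) := by
        rw [← mul_add, hY]
        change _ ≤ _ + ν * (1 - e) ^ 2 * _
        rw [mul_assoc, ← mul_add]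
        gcongr
      have hYf : Y a' a (sh 1 a) ≠ ∞ := by
        rw [hY]
        change ν * (1 - e) ^ 2 * _ ≠ ∞
        refine ENNReal.mul_ne_top (ENNReal.mul_ne_top hν (ENNReal.pow_ne_top he1)) ?_
        refine ENNReal.sum_ne_top.mpr fun i _ => ENNReal.sum_ne_top.mpr fun j _ => ?_
        unfold pk
        exact measure_ne_top _ _
      rw [En_eq _ _ hYf]
      calc En (ν * C2 e r (m + 1) (pos a) (pos a') + Y a' a (sh 1 a)) * Ex (Y a' a (sh 1 a))
          ≤ En (ν * Cn e r (m + 1) (pos a) + ν * Cn e r (m + 1) (pos a')) *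
            Ex (Y a' a (sh 1 a)) := by
            gcongr
            exact En_anti c3
        _ = _ := by
            rw [En_add, id1, id1]
            ring
    have mY : ∀ a', Measurable (Function.uncurry fun a b => V (etaT ν e r) m b *
        Ex (Y a' a b)) := by
      intro a'
      refine ((hVm m).comp measurable_snd).mul (meas_Ex.comp ?_)
      rw [hY]
      refine Measurable.const_mul ?_ _
      refine Finset.measurable_sum _ fun i _ => Finset.measurable_sum _ fun j _ => ?_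
      refine (meas_disc (pk r ((i - j) + (j - i)))).comp ?_
      refine ((meas_pos i).comp measurable_snd).sub (measurable_const.sub ?_)
      exact (measurable_pi_apply 0).comp measurable_fst
    have mY2 : Measurable fun p : (ℕ → Fin d → ℤ) × (ℕ → Fin d → ℤ) =>
        Ex (Y p.2 p.1 (sh 1 p.1)) := by
      refine meas_Ex.comp ?_
      rw [hY]
      refine Measurable.const_mul ?_ _
      refine Finset.measurable_sum _ fun i _ => Finset.measurable_sum _ fun j _ => ?_
      refine (meas_disc (pk r ((i - j) + (j - i)))).comp ?_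
      refine (((meas_pos i).comp (meas_sh 1)).comp measurable_fst).sub
        (((meas_pos (1 + j)).comp measurable_snd).sub ?_)
      exact (measurable_pi_apply 0).comp measurable_fst
    have b2 : ∀ a', ∫⁻ a, V (etaT ν e r) m (sh 1 a) * Ex (Y a' a (sh 1 a)) ∂(iid q) ≤
        4 * A q (etaT ν e r) m := by
      intro a'
      rw [mark1 (fun a b => V (etaT ν e r) m b * Ex (Y a' a b)) (mY a') (by
        intro a1 a2 b h
        change V (etaT ν e r) m b * Ex (Y a' a1 b) = V (etaT ν e r) m b * Ex (Y a' a2 b)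
        rw [hY]
        simp only [h])]
      calc ∫⁻ a, ∫⁻ b, V (etaT ν e r) m b * Ex (Y a' a b) ∂(iid q) ∂(iid q)
          ≤ ∫⁻ _a, 4 * A q (etaT ν e r) m ∂(iid q) := by
            refine lintegral_mono fun a => ?_
            have := h7 d q (pk r) g (ν * (1 - e) ^ 2) (etaT ν e r) ker m
              (fun j => pos a' (1 + j) - a 0)
            rw [hY]
            exact this
        _ = 4 * A q (etaT ν e r) m := by simp
    rw [hZ]
    exact swap_bound (iid q) (V (etaT ν e r) m) (sh 1) K (A q (etaT ν e r) m)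
      (fun a' a => Ex (Y a' a (sh 1 a))) (fun a a' => En (ν * C2 e r (m + 1) (pos a) (pos a')))
      cVm mY2 b1 hVs b2
  · intro i
    obtain ⟨s2, hs2⟩ : ∃ s2, s2 = ∫⁻ x, W823.QT.sq (x i) ∂q := ⟨_, rfl⟩
    have hsq : ∀ x y : ℤ, W823.QT.sq (x + y) ≤ 2 * W823.QT.sq x + 2 * W823.QT.sq y := by
      intro x y
      unfold Pool.Agent.W823.QT.sq
      have t2 : (2 : ℝ≥0∞) = ENNReal.ofReal 2 := by simp
      rw [t2, ← ENNReal.ofReal_mul (by norm_num), ← ENNReal.ofReal_mul (by norm_num),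
        ← ENNReal.ofReal_add (by positivity) (by positivity)]
      apply ENNReal.ofReal_le_ofReal
      push_cast
      nlinarith [sq_nonneg ((x : ℝ) - y)]
    have m0 : Measurable fun a : ℕ → Fin d → ℤ => W823.QT.sq (a 0 i) :=
      (meas_disc fun x : Fin d → ℤ => W823.QT.sq (x i)).comp (measurable_pi_apply 0)
    have m1 : Measurable fun a : ℕ → Fin d → ℤ => W823.QT.sq (pos a m i) :=
      (meas_disc fun x : Fin d → ℤ => W823.QT.sq (x i)).comp (meas_pos m)
    have m2 : Measurable fun a : ℕ → Fin d → ℤ =>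
        V (etaT ν e r) m a * W823.QT.sq (pos a m i) := (hVm m).mul m1
    have e0 : ∫⁻ a, W823.QT.sq (a 0 i) ∂(iid q) = s2 := by
      rw [hs2]
      have := (measurePreserving_eval_infinitePi (fun _ : ℕ => q) 0).lintegral_comp
        (meas_disc fun x : Fin d → ℤ => W823.QT.sq (x i))
      exact this
    have b3 := h6 d q hq (etaT ν e r) _ ker.loc hsym eps2 eps1 i m
    rw [← hs2] at b3
    calc ∫⁻ a, En (ν * Cn e r (m + 1) (pos a)) * W823.QT.sq (pos a (m + 1) i) ∂(iid q)
        ≤ ∫⁻ a, K * (V (etaT ν e r) m (sh 1 a) * (2 * W823.QT.sq (a 0 i) + 2 * W823.QT.sq (pos (sh 1 a) m i)))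
          ∂(iid q) := by
          refine lintegral_mono fun a => ?_
          dsimp only
          rw [id1, mul_assoc, add_comm m 1, pos_one]
          gcongr
          exact hsq _ _
      _ = K * ∫⁻ a, V (etaT ν e r) m (sh 1 a) * (2 * W823.QT.sq (a 0 i) + 2 * W823.QT.sq (pos (sh 1 a) m i))
          ∂(iid q) := by
          rw [lintegral_const_mul]
          exact cVm.mul
            ((m0.const_mul _).add ((m1.comp (meas_sh 1)).const_mul _))
      _ = K * ∫⁻ a, ∫⁻ b, V (etaT ν e r) m b * (2 * W823.QT.sq (a 0 i) + 2 * W823.QT.sq (pos b m i)) ∂(iid q)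
          ∂(iid q) := by
          congr 1
          refine mark1 (fun a b => V (etaT ν e r) m b * (2 * W823.QT.sq (a 0 i) + 2 * W823.QT.sq (pos b m i)))
            ?_ ?_
          · exact ((hVm m).comp measurable_snd).mul
              (((m0.comp measurable_fst).const_mul _).add ((m1.comp measurable_snd).const_mul _))
          · intro a a' b h
            simp only [h]
      _ = K * ∫⁻ a, (A q (etaT ν e r) m * (2 * W823.QT.sq (a 0 i)) +
          2 * ∫⁻ b, V (etaT ν e r) m b * W823.QT.sq (pos b m i) ∂(iid q)) ∂(iid q) := by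
          congr 1
          refine lintegral_congr fun a => ?_
          have e4 : ∀ b, V (etaT ν e r) m b * (2 * W823.QT.sq (a 0 i) + 2 * W823.QT.sq (pos b m i)) =
              V (etaT ν e r) m b * (2 * W823.QT.sq (a 0 i)) + 2 * (V (etaT ν e r) m b * W823.QT.sq (pos b m i)) :=
            fun b => by ring
          simp_rw [e4]
          rw [lintegral_add_left ((hVm m).mul_const _), lintegral_mul_const _ (hVm m),
            lintegral_const_mul _ m2]
          rfl
      _ = K * (A q (etaT ν e r) m * (2 * s2) +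
          2 * ∫⁻ b, V (etaT ν e r) m b * W823.QT.sq (pos b m i) ∂(iid q)) := by
          rw [lintegral_add_left ((m0.const_mul _).const_mul _), lintegral_const_mul _
            (m0.const_mul _), lintegral_const_mul _ m0, e0]
          simp
      _ ≤ K * (A q (etaT ν e r) m * (2 * s2) + 2 * (3 * m * s2 * A q (etaT ν e r) m)) := by
          gcongr
      _ = (2 + 6 * (m : ℝ≥0∞)) * (s2 * (K * A q (etaT ν e r) m)) := by ring
      _ ≤ (6 * ((m : ℝ≥0∞) + 1)) * (s2 * (K * A q (etaT ν e r) m)) := by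
          gcongr
          calc (2 + 6 * (m : ℝ≥0∞)) ≤ 6 + 6 * m := by
                have : (2 : ℝ≥0∞) ≤ 6 := by norm_num
                gcongr
            _ = _ := by ring
      _ = 6 * ((m + 1 : ℕ) : ℝ≥0∞) * (∫⁻ x, W823.QT.sq (x i) ∂q) *
          ∫⁻ a, En (ν * Cn e r (m + 1) (pos a)) ∂(iid q) := by
          rw [hZ, ← hs2]
          push_cast
          ring

end Pool.Agent.W513.QTCORE
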