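import Pool.Agent.W129.GB.Alg

/-!
# The Čech genus of a double cover, with ring homomorphisms
-/

set_option autoImplicit false

namespace Pool.Agent.W513

open Polynomial
open Pool.Agent.H666R3.NG
open Pool.Agent.W129.GB

theorem cech_genus_rh {k : Type} [Field k] {R0 R2 R02 S0 S2 S02 : Type}
    [CommRing R0] [CommRing R2] [CommRing R02] [CommRing S0] [CommRing S2] [CommRing S02]
    (σ0 : k →+* R0) (σ2 : k →+* R2)
    (r0 : R0 →+* R02) (r2 : R2 →+* R02) (s0 : S0 →+* S02) (s2 : S2 →+* S02)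
    (p0 : R0 →+* S0) (p2 : R2 →+* S2) (p : R02 →+* S02)
    (hσ : ∀ c, r0 (σ0 c) = r2 (σ2 c))
    (h0 : ∀ a, s0 (p0 a) = p (r0 a)) (h2 : ∀ a, s2 (p2 a) = p (r2 a))
    (w0 : S0) (w2 : S2) (x0 : R0) (x2 : R2)
    (hx : r0 x0 * r2 x2 = 1) (hw : s2 w2 = s0 w0 * p (r2 x2))
    (hd0 : ∀ s : S0, ∃ a b : R0, s = p0 a + p0 b * w0)
    (hd2 : ∀ s : S2, ∃ a b : R2, s = p2 a + p2 b * w2)
    (hd : ∀ s : S02, ∃ a b : R02, s = p a + p b * s0 w0)
    (huniq : ∀ a b : R02, p a + p b * s0 w0 = 0 → a = 0 ∧ b = 0)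
    (hglue : ∀ (a : R0) (b : R2), r0 a = r2 b → ∃ c : k, b = σ2 c)
    (hfin0 : (Polynomial.eval₂RingHom σ0 x0).Finite)
    (hloc0 : ∀ z : R02, ∃ (n : ℕ) (a : R0), z * r0 x0 ^ n = r0 a)
    (hloc2 : ∀ z : R02, ∃ (n : ℕ) (b : R2), z * r2 x2 ^ n = r2 b)
    {n : ℕ} (q : Fin (n + 1) → (R2 →+* k)) (hq : Function.Injective q)
    (hqσ : ∀ i c, q i (σ2 c) = c) (hqx : ∀ i, q i x2 = 0) :
    ∃ g, n ≤ g ∧ CokerDim (p.comp (r0.comp σ0)) s0 s2 g := by
  let _ : Algebra k R0 := σ0.toAlgebra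
  let _ : Algebra k R2 := σ2.toAlgebra
  let _ : Algebra k R02 := (r0.comp σ0).toAlgebra
  let _ : Algebra k S0 := (p0.comp σ0).toAlgebra
  let _ : Algebra k S2 := (p2.comp σ2).toAlgebra
  let _ : Algebra k S02 := (p.comp (r0.comp σ0)).toAlgebra
  let r0' : R0 →ₐ[k] R02 := { r0 with commutes' := fun _ => rfl }
  let r2' : R2 →ₐ[k] R02 := { r2 with commutes' := fun c => (hσ c).symm }
  let s0' : S0 →ₐ[k] S02 := { s0 with commutes' := fun c => h0 (σ0 c) }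
  let s2' : S2 →ₐ[k] S02 := { s2 with
    commutes' := fun c => (h2 (σ2 c)).trans (congrArg p (hσ c).symm) }
  let p0' : R0 →ₐ[k] S0 := { p0 with commutes' := fun _ => rfl }
  let p2' : R2 →ₐ[k] S2 := { p2 with commutes' := fun _ => rfl }
  let p' : R02 →ₐ[k] S02 := { p with commutes' := fun _ => rfl }
  let q' : Fin (n + 1) → (R2 →ₐ[k] k) := fun i => { q i with commutes' := fun c => hqσ i c }
  refine cech_genus r0' r2' s0' s2' p0' p2' p' h0 h2 w0 w2 x0 x2 hx hw hd0 hd2 hd huniq hglue ?_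
    hloc0 hloc2 q' ?_ hqx
  · have h3 : (aeval x0 : k[X] →ₐ[k] R0).toRingHom = Polynomial.eval₂RingHom σ0 x0 := by
      apply Polynomial.ringHom_ext
      · intro a
        simp
        rfl
      · simp
    rw [h3]
    exact hfin0
  · intro i j hij
    apply hq
    apply RingHom.ext
    intro z
    exact congrArg (fun f : R2 →ₐ[k] k => f z) hij

end Pool.Agent.W513
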