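import Pool.Agent.W513.Ext

/-!
# Local rings of a scheme seen in an affine chart
-/

set_option autoImplicit false

open AlgebraicGeometry CategoryTheory Limits

namespace Pool.Agent.W513

lemma loc_facts {R S : Type} [CommRing R] [CommRing S] (f : R →+* S) (p : Ideal R) [p.IsPrime]
    (h : letI := f.toAlgebra; IsLocalization.AtPrime S p) :
    (∀ s, ∃ a t : R, t ∉ p ∧ f t * s = f a) ∧
    (∀ t, t ∉ p → IsUnit (f t)) ∧
    (∀ a, f a = 0 → ∃ t, t ∉ p ∧ t * a = 0) := by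
  let _ := f.toAlgebra
  have h0 : ∀ a : R, f a = algebraMap R S a := fun a => rfl
  refine ⟨fun s => ?_, fun t ht => ?_, fun a ha => ?_⟩
  · obtain ⟨⟨a, t⟩, hat⟩ := IsLocalization.surj (M := p.primeCompl) s
    refine ⟨a, t, t.2, ?_⟩
    rw [mul_comm, h0, h0]
    exact hat
  · rw [h0]
    exact IsLocalization.map_units (M := p.primeCompl) _ ⟨t, ht⟩
  · rw [h0] at ha
    obtain ⟨t, ht⟩ := (IsLocalization.map_eq_zero_iff p.primeCompl S a).1 ha
    exact ⟨t, t.2, ht⟩

lemma toStalk_facts (R : Type) [CommRing R] (p : PrimeSpectrum R) :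
    (∀ s, ∃ a t : R, t ∉ p.asIdeal ∧ (StructureSheaf.toStalk R p).hom t * s = (StructureSheaf.toStalk R p).hom a) ∧
    (∀ t, t ∉ p.asIdeal → IsUnit ((StructureSheaf.toStalk R p).hom t)) ∧
    (∀ a, (StructureSheaf.toStalk R p).hom a = 0 → ∃ t, t ∉ p.asIdeal ∧ t * a = 0) :=
  loc_facts (StructureSheaf.toStalk R p).hom p.asIdeal (StructureSheaf.IsLocalization.to_stalk R p)

section factor

variable {A : CommRingCat.{0}} {E : Scheme.{0}} (e : Spec A ⟶ E) [IsOpenImmersion e]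

lemma exists_factor (B : CommRingCat.{0}) [IsLocalRing B] (g : Spec B ⟶ E)
    (h : g (IsLocalRing.closedPoint B) ∈ Set.range e) :
    ∃ φ : A ⟶ B, Spec.map φ ≫ e = g := by
  have hr : Set.range g ⊆ Set.range e := by
    rintro _ ⟨z, rfl⟩
    have h1 : g z ⤳ g (IsLocalRing.closedPoint B) :=
      (IsLocalRing.specializes_closedPoint z).map g.continuous
    exact h1.mem_open e.isOpenEmbedding.isOpen_range h
  obtain ⟨φ, hφ⟩ := Spec.map_surjective (IsOpenImmersion.lift e g hr)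
  exact ⟨φ, by rw [hφ, IsOpenImmersion.lift_fac]⟩

omit [IsOpenImmersion e] in
lemma factor_unique [Mono e] {B : CommRingCat.{0}} {φ ψ : A ⟶ B}
    (h : Spec.map φ ≫ e = Spec.map ψ ≫ e) : φ = ψ :=
  Spec.map_injective ((cancel_mono e).1 h)

lemma exists_toStk (x : E) (hx : x ∈ Set.range e) :
    ∃ φ : A ⟶ E.presheaf.stalk x, Spec.map φ ≫ e = E.fromSpecStalk x :=
  exists_factor e _ _ (by rwa [Scheme.fromSpecStalk_closedPoint])

omit [IsOpenImmersion e] in
/-- the point of the chart -/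
lemma comap_closedPoint (x : E) (φ : A ⟶ E.presheaf.stalk x)
    (hφ : Spec.map φ ≫ e = E.fromSpecStalk x) :
    e (Spec.map φ (IsLocalRing.closedPoint (E.presheaf.stalk x))) = x := by
  have h := congrArg (fun f : Spec (E.presheaf.stalk x) ⟶ E => f
    (IsLocalRing.closedPoint (E.presheaf.stalk x))) hφ
  exact h.trans Scheme.fromSpecStalk_closedPoint

set_option backward.isDefEq.respectTransparency false in
lemma toStk_eq (p : Spec A) (φ : A ⟶ E.presheaf.stalk (e p))
    (hφ : Spec.map φ ≫ e = E.fromSpecStalk (e p)) :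
    φ ≫ e.stalkMap p = StructureSheaf.toStalk A p := by
  have h1 : Spec.map (StructureSheaf.toStalk A p ≫ inv (e.stalkMap p)) ≫ e =
      E.fromSpecStalk (e p) := by
    rw [Spec.map_comp, Spec.map_inv, Category.assoc, IsIso.inv_comp_eq,
      Scheme.SpecMap_stalkMap_fromSpecStalk, Spec.fromSpecStalk_eq']
  have h2 : φ = StructureSheaf.toStalk A p ≫ inv (e.stalkMap p) :=
    factor_unique e (hφ.trans h1.symm)
  rw [h2, Category.assoc, IsIso.inv_hom_id, Category.comp_id]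

lemma exists_iso_stalk (p : Spec A) (φ : A ⟶ E.presheaf.stalk (e p))
    (hφ : Spec.map φ ≫ e = E.fromSpecStalk (e p)) :
    (∀ s, ∃ a t : A, t ∉ p.asIdeal ∧ φ.hom t * s = φ.hom a) ∧
    (∀ t, t ∉ p.asIdeal → IsUnit (φ.hom t)) ∧
    (∀ a, φ.hom a = 0 → ∃ t, t ∉ p.asIdeal ∧ t * a = 0) := by
  have h1 := toStk_eq e p φ hφ
  have hb : Function.Bijective (e.stalkMap p).hom := ConcreteCategory.bijective_of_isIso (e.stalkMap p)
  have h0 : ∀ a : A, (e.stalkMap p).hom (φ.hom a) = (StructureSheaf.toStalk A p).hom a := fun a =>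
    congrArg (fun f => f.hom a) h1
  obtain ⟨g1, g2, g3⟩ := toStalk_facts A p
  refine ⟨fun s => ?_, fun t ht => ?_, fun a ha => ?_⟩
  · obtain ⟨a, t, ht, hat⟩ := g1 ((e.stalkMap p).hom s)
    refine ⟨a, t, ht, hb.1 ?_⟩
    rw [map_mul, h0, h0]
    exact hat
  · have h3 : IsUnit ((e.stalkMap p).hom (φ.hom t)) := by
      rw [h0]
      exact g2 t ht
    exact isUnit_of_map_unit (e.stalkMap p).hom _ h3
  · exact g3 a (by rw [← h0, ha]; exact map_zero _)

lemma toStk_surj (x : E) (φ : A ⟶ E.presheaf.stalk x)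
    (hφ : Spec.map φ ≫ e = E.fromSpecStalk x) (s : E.presheaf.stalk x) :
    ∃ a t : A, IsUnit (φ.hom t) ∧ φ.hom t * s = φ.hom a := by
  obtain ⟨p, rfl⟩ : x ∈ Set.range e := ⟨_, comap_closedPoint e x φ hφ⟩
  obtain ⟨h1, h2, h3⟩ := exists_iso_stalk e p φ hφ
  obtain ⟨a, t, ht, h⟩ := h1 s
  exact ⟨a, t, h2 t ht, h⟩

lemma toStk_ker (x : E) (φ : A ⟶ E.presheaf.stalk x)
    (hφ : Spec.map φ ≫ e = E.fromSpecStalk x) (a : A) (ha : φ.hom a = 0) :
    ∃ t : A, IsUnit (φ.hom t) ∧ t * a = 0 := by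
  obtain ⟨p, rfl⟩ : x ∈ Set.range e := ⟨_, comap_closedPoint e x φ hφ⟩
  obtain ⟨h1, h2, h3⟩ := exists_iso_stalk e p φ hφ
  obtain ⟨t, ht, h⟩ := h3 a ha
  exact ⟨t, h2 t ht, h⟩

lemma toStk_injective [IsDomain A] (x : E) (φ : A ⟶ E.presheaf.stalk x)
    (hφ : Spec.map φ ≫ e = E.fromSpecStalk x) : Function.Injective φ.hom := by
  rw [injective_iff_map_eq_zero]
  intro a ha
  obtain ⟨t, ht, h⟩ := toStk_ker e x φ hφ a ha
  rcases mul_eq_zero.1 h with h1 | h1
  · rw [h1, map_zero] at ht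
    exact absurd ht not_isUnit_zero
  · exact h1

/-- the maximal ideal is generated by the elements of the chart ring which are no units. -/
lemma toStk_maximalIdeal (x : E) (φ : A ⟶ E.presheaf.stalk x)
    (hφ : Spec.map φ ≫ e = E.fromSpecStalk x) :
    IsLocalRing.maximalIdeal (E.presheaf.stalk x) =
      ((IsLocalRing.maximalIdeal (E.presheaf.stalk x)).comap φ.hom).map φ.hom := by
  apply le_antisymm
  · intro s hs
    obtain ⟨a, t, ht, h⟩ := toStk_surj e x φ hφ s
    have h1 : φ.hom a ∈ ((IsLocalRing.maximalIdeal (E.presheaf.stalk x)).comap φ.hom).map φ.hom := by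
      apply Ideal.mem_map_of_mem
      rw [Ideal.mem_comap, ← h]
      exact Ideal.mul_mem_left _ _ hs
    rw [← h] at h1
    exact (Ideal.unit_mul_mem_iff_mem _ ht).1 h1
  · exact Ideal.map_comap_le

end factor

end Pool.Agent.W513
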