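import Pool.Agent.W513.MapsE

/-!
# Iterated preimages of points of the elliptic curve
-/

set_option autoImplicit false

open AlgebraicGeometry CategoryTheory Limits IsLocalRing TopologicalSpace

namespace Pool.Agent.W513.EC

open Pool.Agent.Helper198.Sch

attribute [local instance] MvPolynomial.gradedAlgebra

variable {k : Type} [Field k] [CharZero k]

/-- `ψ` is an endomorphism which scales the derivation. -/
def IsE (ψ : curve k ⟶ curve k) : Prop := ∃ (s : FK k →+* FK k) (μ : k), IsEnd ψ s μ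

lemma IsE.comp {ψ₁ ψ₂ : curve k ⟶ curve k} (h₁ : IsE ψ₁) (h₂ : IsE ψ₂) : IsE (ψ₁ ≫ ψ₂) := by
  obtain ⟨s₁, μ₁, h₁⟩ := h₁
  obtain ⟨s₂, μ₂, h₂⟩ := h₂
  exact ⟨_, _, h₁.comp h₂ h₁.cst_eq⟩

lemma IsE.id : IsE (𝟙 (curve k)) := by
  refine ⟨RingHom.id _, 1, ?_, ?_, one_ne_zero, ?_⟩
  · rw [Category.id_comp]
  · rw [Category.comp_id]
    have : Spec.map (CommRingCat.ofHom (RingHom.id (FK k))) = 𝟙 _ := Spec.map_id _
    rw [this, Category.id_comp]
  · intro f
    rw [map_one, one_mul]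
    rfl

/-- iterates -/
noncomputable def iter (φ : curve k ⟶ curve k) : ℕ → (curve k ⟶ curve k)
  | 0 => 𝟙 _
  | n + 1 => iter φ n ≫ φ

lemma IsE.iter {φ : curve k ⟶ curve k} (h : IsE φ) (n : ℕ) : IsE (iter φ n) := by
  induction n with
  | zero => exact IsE.id
  | succ n ih => exact ih.comp h

/-- The rational points of the curve. -/
def Kp (k : Type) [Field k] : Type := {q : Spec (.of k) ⟶ curve k // q ≫ V.str (J k) = 𝟙 _}

omit [CharZero k] in
lemma card_preimages (φ : curve k ⟶ curve k)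
    (h : ∀ q : Spec (.of k) ⟶ curve k, q ≫ V.str (J k) = 𝟙 _ →
      ∃ q₁ q₂ : Spec (.of k) ⟶ curve k, q₁ ≫ V.str (J k) = 𝟙 _ ∧ q₂ ≫ V.str (J k) = 𝟙 _ ∧
        q₁ ≫ φ = q ∧ q₂ ≫ φ = q ∧ q₁ ≠ q₂) (n : ℕ) :
    ∀ q : Kp k, ∃ s : Finset (Kp k), s.card = 2 ^ n ∧ ∀ p ∈ s, p.1 ≫ iter φ n = q.1 := by
  classical
  induction n with
  | zero =>
    intro q
    refine ⟨{q}, by simp, ?_⟩
    intro p hp
    rw [Finset.mem_singleton] at hp
    rw [hp]
    exact Category.comp_id _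
  | succ n ih =>
    intro q
    obtain ⟨q₁, q₂, h1, h2, h3, h4, h5⟩ := h q.1 q.2
    obtain ⟨s₁, hs₁, hs₁'⟩ := ih ⟨q₁, h1⟩
    obtain ⟨s₂, hs₂, hs₂'⟩ := ih ⟨q₂, h2⟩
    refine ⟨s₁ ∪ s₂, ?_, ?_⟩
    · rw [Finset.card_union_of_disjoint, hs₁, hs₂, pow_succ]
      · ring
      · rw [Finset.disjoint_left]
        intro p hp1 hp2
        exact h5 ((hs₁' p hp1).symm.trans (hs₂' p hp2))
    · intro p hp
      change p.1 ≫ iter φ n ≫ φ = q.1
      rw [← Category.assoc]
      rcases Finset.mem_union.1 hp with hp | hp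
      · rw [hs₁' p hp, h3]
      · rw [hs₂' p hp, h4]

omit [CharZero k] in
lemma iter_fix {φ : curve k ⟶ curve k} {o : Spec (.of k) ⟶ curve k} (h : o ≫ φ = o) (n : ℕ) :
    o ≫ iter φ n = o := by
  induction n with
  | zero => exact Category.comp_id _
  | succ n ih =>
    change o ≫ iter φ n ≫ φ = o
    rw [← Category.assoc, ih, h]

omit [CharZero k] in
lemma iter_add (φ : curve k ⟶ curve k) (m n : ℕ) : iter φ (m + n) = iter φ m ≫ iter φ n := by
  induction n with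
  | zero => exact (Category.comp_id _).symm
  | succ n ih =>
    change iter φ (m + n) ≫ φ = iter φ m ≫ iter φ n ≫ φ
    rw [ih, Category.assoc]

variable [IsAlgClosed k]

/-- In every nonempty open subset there is a point with `φⁿ(p) = o` for all large `n`. -/
lemma exists_preimage_mem {φ : curve k ⟶ curve k}
    (h : ∀ q : Spec (.of k) ⟶ curve k, q ≫ V.str (J k) = 𝟙 _ →
      ∃ q₁ q₂ : Spec (.of k) ⟶ curve k, q₁ ≫ V.str (J k) = 𝟙 _ ∧ q₂ ≫ V.str (J k) = 𝟙 _ ∧
        q₁ ≫ φ = q ∧ q₂ ≫ φ = q ∧ q₁ ≠ q₂)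
    (o : Kp k) (ho : o.1 ≫ φ = o.1) (W : (curve k).Opens) (hW : (W : Set (curve k)).Nonempty) :
    ∃ (p : Kp k) (n₀ : ℕ), p.1 (closedPoint k) ∈ W ∧ ∀ n, n₀ ≤ n → p.1 ≫ iter φ n = o.1 := by
  have hfin : ((W : Set (curve k))ᶜ).Finite := by
    apply finite_of_isClosed _ W.2.isClosed_compl
    intro hcon
    exact hcon (((genericPoint_spec (curve k)).mem_open_set_iff W.2).2 (by simpa using hW))
  obtain ⟨s, hs, hs'⟩ := card_preimages φ h hfin.toFinset.card o
  obtain ⟨p, hp, hpW⟩ : ∃ p ∈ s, p.1 (closedPoint k) ∈ W := by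
    by_contra hcon
    push Not at hcon
    have h1 : s.card ≤ hfin.toFinset.card := by
      apply Finset.card_le_card_of_injOn (fun p => p.1 (closedPoint k))
      · intro p hp
        simp only [Set.Finite.coe_toFinset]
        exact hcon p hp
      · intro p _ q _ hpq
        exact Subtype.ext (ext_of_apply_closedPoint_eq (V.str (J k)) p.2 q.2 hpq)
    rw [hs] at h1
    exact absurd h1 (not_le.2 Nat.lt_two_pow_self)
  refine ⟨p, hfin.toFinset.card, hpW, ?_⟩
  intro n hn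
  obtain ⟨m, rfl⟩ := Nat.exists_eq_add_of_le hn
  rw [iter_add, ← Category.assoc, hs' p hp, iter_fix ho]

/-- An endomorphism is surjective on rational points. -/
lemma IsE.exists_point {ψ : curve k ⟶ curve k} (h : IsE ψ) (q : Kp k) :
    ∃ p : Kp k, p.1 ≫ ψ = q.1 := by
  obtain ⟨s, μ, h⟩ := h
  obtain ⟨z, hz⟩ : ∃ z : curve k, IsClosed ({z} : Set (curve k)) ∧ ψ z = q.1 (closedPoint k) := by
    have hqc : IsClosed ({q.1 (closedPoint k)} : Set (curve k)) :=
      (pointEquivClosedPoint (V.str (J k)) ⟨q.1, q.2⟩).2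
    obtain ⟨z, hz⟩ := h.surjective (q.1 (closedPoint k))
    rcases eq_generic_or_closed z with rfl | hcl
    · rw [h.apply_generic] at hz
      rw [← hz] at hqc
      exact absurd hqc not_isClosed_generic
    · exact ⟨z, hcl, hz⟩
  let q₁ := pointOfClosedPoint (V.str (J k)) z hz.1
  have hq₁ : q₁ ≫ V.str (J k) = 𝟙 _ := pointOfClosedPoint_comp _ _ _
  refine ⟨⟨q₁, hq₁⟩, ?_⟩
  refine ext_of_apply_closedPoint_eq (V.str (J k)) ?_ q.2 ?_
  · rw [Category.assoc, h.str, hq₁]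
  · have h2 : q₁ (closedPoint k) = z := pointOfClosedPoint_apply _ _ _ _
    change ψ (q₁ (closedPoint k)) = _
    rw [h2, hz.2]

end Pool.Agent.W513.EC
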