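import Pool.Agent.W513.DS
import Pool.Agent.W513.FamE

/-!
# The curves `C_ψ = {(c, t) : f c = ψ t}`
-/

set_option autoImplicit false

open CategoryTheory Limits AlgebraicGeometry IsLocalRing

namespace Pool.Agent.W513

open Pool.Agent.Helper198.Sch
open Pool.Agent.H666R3.NG

attribute [local instance] MvPolynomial.gradedAlgebra

section general

variable {k : Type} [Field k]

/-- The chart of the source of an affine endomorphism. -/
lemma exists_chart (ψ : EC.curve k ⟶ EC.curve k) [IsAffineHom ψ] (c : Bool) :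
    ∃ (B : CommRingCat.{0}) (w : Spec B ⟶ EC.curve k) (r : CommRingCat.of (EC.A k) ⟶ B),
      IsPullback w (Spec.map r) ψ (EC.ch c) := by
  have h1 : IsAffine (pullback ψ (EC.ch (R := k) c)) :=
    isAffine_of_isAffineHom (pullback.snd ψ (EC.ch (R := k) c))
  let P := pullback ψ (EC.ch (R := k) c)
  obtain ⟨r, hr⟩ := Spec.map_surjective (P.isoSpec.inv ≫ pullback.snd ψ (EC.ch (R := k) c))
  refine ⟨Γ(P, ⊤), P.isoSpec.inv ≫ pullback.fst _ _, r, ?_⟩
  rw [hr]
  exact IsPullback.of_iso (IsPullback.of_hasPullback ψ (EC.ch (R := k) c)) P.isoSpec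
    (Iso.refl _) (Iso.refl _) (Iso.refl _) (by simp) (by simp) (by simp) (by simp)

variable {ψ : EC.curve k ⟶ EC.curve k} {c : Bool} {B : CommRingCat.{0}}
  {w : Spec B ⟶ EC.curve k} {r : CommRingCat.of (EC.A k) ⟶ B}
  (h : IsPullback w (Spec.map r) ψ (EC.ch c))

include h

lemma isOpenImmersion_of_chart : IsOpenImmersion w :=
  MorphismProperty.of_isPullback h.flip (inferInstance : IsOpenImmersion (EC.ch (R := k) c))

lemma range_chart_psi : Set.range w = ψ ⁻¹' Set.range (EC.ch (R := k) c) := by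
  have h1 : w = h.isoPullback.hom ≫ pullback.fst _ _ := h.isoPullback_hom_fst.symm
  rw [← Scheme.Pullback.range_fst, h1]
  ext z
  constructor
  · rintro ⟨u, rfl⟩
    exact ⟨h.isoPullback.hom u, rfl⟩
  · rintro ⟨u, rfl⟩
    obtain ⟨v, rfl⟩ := h.isoPullback.hom.homeomorph.surjective u
    exact ⟨v, rfl⟩

/-- The double cover pulled back to `ψ`. -/
noncomputable abbrev cr (ψ : EC.curve k ⟶ EC.curve k) : Scheme.{0} := pullback (FQ.f k) ψ

lemma chart_comm : (Spec.map (CommRingCat.ofHom (rF r)) ≫ FQ.ch c) ≫ FQ.f k =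
    (Spec.map (CommRingCat.ofHom (dB (r.hom (EC.y k)))) ≫ w) ≫ ψ := by
  rw [Category.assoc, FQ.ch_f, Category.assoc, h.w, ← Category.assoc, ← Category.assoc,
    ← Spec.map_comp, (isPushout_DS r).w, Spec.map_comp]

/-- The chart of `C_ψ`. -/
noncomputable def cv : Spec (.of (DS (r.hom (EC.y k)))) ⟶ cr ψ :=
  pullback.lift (Spec.map (CommRingCat.ofHom (rF r)) ≫ FQ.ch c)
    (Spec.map (CommRingCat.ofHom (dB (r.hom (EC.y k)))) ≫ w) (chart_comm h)

lemma cv_fst : cv h ≫ pullback.fst (FQ.f k) ψ = Spec.map (CommRingCat.ofHom (rF r)) ≫ FQ.ch c :=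
  pullback.lift_fst _ _ _

lemma cv_snd : cv h ≫ pullback.snd (FQ.f k) ψ =
    Spec.map (CommRingCat.ofHom (dB (r.hom (EC.y k)))) ≫ w :=
  pullback.lift_snd _ _ _

theorem isPullback_cv : IsPullback (cv h) (Spec.map (CommRingCat.ofHom (dB (r.hom (EC.y k)))))
    (pullback.snd (FQ.f k) ψ) w := by
  have h1 := isPullback_SpecMap_of_isPushout _ _ _ _ (isPushout_DS r)
  have h2 : IsPullback (Spec.map (CommRingCat.ofHom (rF r)) ≫ FQ.ch c)
      (Spec.map (CommRingCat.ofHom (dB (r.hom (EC.y k))))) (FQ.f k) (Spec.map r ≫ EC.ch c) :=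
    h1.paste_horiz (FQ.isPullback_f c).flip
  rw [← h.w, ← cv_fst h] at h2
  exact IsPullback.of_right h2 (cv_snd h) (IsPullback.of_hasPullback (FQ.f k) ψ)

lemma isOpenImmersion_cv : IsOpenImmersion (cv h) := by
  have := isOpenImmersion_of_chart h
  exact MorphismProperty.of_isPullback (isPullback_cv h).flip this

lemma range_cv : Set.range (cv h) = (pullback.snd (FQ.f k) ψ) ⁻¹' Set.range w := by
  have h1 : cv h = (isPullback_cv h).isoPullback.hom ≫ pullback.fst _ _ :=
    (isPullback_cv h).isoPullback_hom_fst.symm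
  rw [← Scheme.Pullback.range_fst, h1]
  ext z
  constructor
  · rintro ⟨u, rfl⟩
    exact ⟨(isPullback_cv h).isoPullback.hom u, rfl⟩
  · rintro ⟨u, rfl⟩
    obtain ⟨v, rfl⟩ := (isPullback_cv h).isoPullback.hom.homeomorph.surjective u
    exact ⟨v, rfl⟩

end general

end Pool.Agent.W513
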