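import Pool.Agent.W513.Cn

/-!
# The curves `C_ψ` are integral
-/

set_option autoImplicit false

open CategoryTheory Limits AlgebraicGeometry IsLocalRing

namespace Pool.Agent.W513

open Pool.Agent.Helper198.Sch
open Pool.Agent.H666R3.NG

attribute [local instance] MvPolynomial.gradedAlgebra

variable {k : Type} [Field k] [CharZero k] [IsAlgClosed k]

namespace EC.IsEnd

variable {ψ : EC.curve k ⟶ EC.curve k} {s : EC.FK k →+* EC.FK k} {μ : k} (h : EC.IsEnd ψ s μ)

include h

/-- The pull back of the coordinate `y` is not a square in the function field. -/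
theorem nonsquare (c : Bool) (q : EC.FK k) : q ^ 2 ≠ s (EC.κ k c (EC.y k)) := by
  intro hq
  obtain ⟨a, ha⟩ := IsAlgClosed.exists_pow_nat_eq (-1 : k) (n := 4) (by norm_num)
  have hab : (0 : k) ^ 2 + a ^ 4 + 1 = 0 := by rw [ha]; ring
  have hker : (RingHom.ker (EC.lift a 0 hab : EC.A k →ₐ[k] k)).IsPrime := RingHom.ker_isPrime _
  let p : Spec (.of (EC.A k)) := (⟨_, hker⟩ : PrimeSpectrum (EC.A k))
  obtain ⟨z, hz⟩ := h.surjective (EC.ch c p)
  have hzr : ((EC.curve k).fromSpecStalk z ≫ ψ) (closedPoint ((EC.curve k).presheaf.stalk z)) =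
      EC.ch c p := by
    have h0 : (EC.curve k).fromSpecStalk z (closedPoint ((EC.curve k).presheaf.stalk z)) = z :=
      Scheme.fromSpecStalk_closedPoint
    exact (congrArg ψ h0).trans hz
  obtain ⟨α, hα⟩ := exists_factor (EC.ch c) ((EC.curve k).presheaf.stalk z)
    ((EC.curve k).fromSpecStalk z ≫ ψ) (by rw [hzr]; exact ⟨p, rfl⟩)
  have hy : α.hom (EC.y k) ∈ maximalIdeal ((EC.curve k).presheaf.stalk z) := by
    have h1 : EC.ch c (Spec.map α (closedPoint ((EC.curve k).presheaf.stalk z))) = EC.ch c p := by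
      rw [← hzr, ← hα]
      rfl
    have h2 := (EC.ch (R := k) c).isOpenEmbedding.injective h1
    have h3 : (maximalIdeal ((EC.curve k).presheaf.stalk z)).comap α.hom =
        RingHom.ker (EC.lift a 0 hab : EC.A k →ₐ[k] k) := congrArg PrimeSpectrum.asIdeal h2
    have h4 : EC.y k ∈ RingHom.ker (EC.lift a 0 hab : EC.A k →ₐ[k] k) := EC.lift_y _ _ _
    rw [← h3] at h4
    exact h4
  have hs := h.simple_zero z (α := α.hom) hα hy
  have hc := h.coord_toK z (α := α.hom) hα
  have hc' : EC.toK k z (α.hom (EC.y k)) = s (EC.κ k c (EC.y k)) :=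
    congrArg (fun f : EC.A k →+* EC.FK k => f (EC.y k)) hc
  have hv := EC.valuationRing_stalk z
  have hic : IsIntegrallyClosed ((EC.curve k).presheaf.stalk z) := inferInstance
  rw [← hc'] at hq
  obtain ⟨q', hq'⟩ := IsIntegrallyClosed.exists_algebraMap_eq_of_isIntegral_pow
    (R := (EC.curve k).presheaf.stalk z) (K := EC.FK k) (x := q) two_pos (by
      rw [hq]
      exact isIntegral_algebraMap)
  have h5 : q' ^ 2 = α.hom (EC.y k) := by
    apply EC.toK_injective k z
    rw [map_pow]
    exact (congrArg (fun t => t ^ 2) hq').trans hq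
  apply hs
  rw [← h5] at hy ⊢
  exact Ideal.pow_mem_pow (Ideal.IsPrime.mem_of_pow_mem inferInstance 2 hy) 2

section chart

variable {c : Bool} {B : CommRingCat.{0}}
  {w : Spec B ⟶ EC.curve k} {r : CommRingCat.of (EC.A k) ⟶ B}
  (hw : IsPullback w (Spec.map r) ψ (EC.ch c))

include hw

omit [IsAlgClosed k] in
lemma generic_mem_chart : genericPoint (EC.curve k) ∈ Set.range w := by
  rw [range_chart_psi hw, Set.mem_preimage, h.apply_generic]
  exact EC.generic_mem k c

omit [IsAlgClosed k] in
lemma isDomain_chart : IsDomain B := by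
  have h1 := isOpenImmersion_of_chart hw
  obtain ⟨z, _⟩ := h.generic_mem_chart hw
  have h2 : Nonempty (Spec B) := ⟨z⟩
  have h3 : IsIntegral (Spec B) := isIntegral_of_isOpenImmersion w
  exact (affine_isIntegral_iff B).1 h3

omit [IsAlgClosed k] in
/-- the chart in the function field. -/
lemma exists_toK : ∃ j : B →+* EC.FK k, Function.Injective j ∧
    Spec.map (CommRingCat.ofHom j) ≫ w = EC.gen k ∧ j.comp r.hom = s.comp (EC.κ k c) := by
  have h1 := isOpenImmersion_of_chart hw
  have h2 := h.isDomain_chart hw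
  obtain ⟨j, hj⟩ := exists_toStk w (genericPoint (EC.curve k)) (h.generic_mem_chart hw)
  refine ⟨j.hom, toStk_injective w _ j hj, hj, ?_⟩
  have h3 : Spec.map (CommRingCat.ofHom (j.hom.comp r.hom)) ≫ EC.ch c =
      Spec.map (CommRingCat.ofHom (s.comp (EC.κ k c))) ≫ EC.ch c := by
    rw [h.gen_coord, CommRingCat.ofHom_comp, Spec.map_comp, Category.assoc]
    change Spec.map j ≫ Spec.map r ≫ _ = _
    rw [← hw.w, ← Category.assoc, hj]
  exact congrArg (fun t => t.hom) (factor_unique (EC.ch c) h3)

theorem isDomain_DS_chart : IsDomain (DS (r.hom (EC.y k))) := by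
  have h1 := h.isDomain_chart hw
  obtain ⟨j, hj1, _, hj3⟩ := h.exists_toK hw
  apply isDomain_DS
  intro a b hab
  by_contra hb
  have hjb : j b ≠ 0 := by
    rw [← map_zero j]
    exact fun h => hb (hj1 h)
  apply h.nonsquare c (j a / j b)
  have h4 : j (r.hom (EC.y k)) = s (EC.κ k c (EC.y k)) :=
    congrArg (fun f : EC.A k →+* EC.FK k => f (EC.y k)) hj3
  rw [← h4, div_pow, ← map_pow, hab, map_mul, map_pow]
  field_simp

end chart

/-- The curve `C_ψ` is integral. -/
theorem isIntegral_cr : IsIntegral (cr ψ) := by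
  have hfin := h.isFinite
  have haff : IsAffineHom ψ := inferInstance
  choose B w r hw using fun c => exists_chart (k := k) ψ c
  have ho := fun c => isOpenImmersion_cv (hw c)
  have hcov : ∀ z : cr ψ, ∃ c, z ∈ Set.range (cv (hw c)) := by
    intro z
    obtain ⟨c, hc⟩ := EC.exists_mem_range_ch (ψ (pullback.snd (FQ.f k) ψ z))
    refine ⟨c, ?_⟩
    rw [range_cv, Set.mem_preimage, range_chart_psi (hw c)]
    exact hc
  have hdom := fun c => h.isDomain_DS_chart (hw c)
  have hdomB := fun c => h.isDomain_chart (hw c)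
  let ξ : cr ψ := cv (hw false) (genericPoint _)
  have hξ : ∀ c, ξ ∈ Set.range (cv (hw c)) := by
    intro c
    rw [range_cv, Set.mem_preimage]
    have h1 : pullback.snd (FQ.f k) ψ ξ = genericPoint (EC.curve k) := by
      have h2 : pullback.snd (FQ.f k) ψ ξ =
        w false (Spec.map (CommRingCat.ofHom (dB ((r false).hom (EC.y k)))) (genericPoint _)) := by
        change pullback.snd (FQ.f k) ψ (cv (hw false) (genericPoint _)) = _
        rw [← Scheme.Hom.comp_apply, cv_snd, Scheme.Hom.comp_apply]
      have h3 := isOpenImmersion_of_chart (hw false)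
      have h4 : Spec.map (CommRingCat.ofHom (dB ((r false).hom (EC.y k)))) (genericPoint _) =
          genericPoint (Spec (B false)) := by
        rw [genericPoint_eq_bot_of_affine, genericPoint_eq_bot_of_affine]
        apply PrimeSpectrum.ext
        change Ideal.comap (dB ((r false).hom (EC.y k))) ⊥ = ⊥
        exact (RingHom.injective_iff_ker_eq_bot _).1 (dB_injective _)
      rw [h2, h4]
      exact genericPoint_eq_of_isOpenImmersion (w false)
    rw [h1]
    exact h.generic_mem_chart (hw c)
  have h1 : IrreducibleSpace (cr ψ) := by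
    apply irreducibleSpace_of_cover (fun c => cv (hw c)) (fun c => (cv (hw c)).isOpenEmbedding) _
      hcov ξ hξ
    intro c
    have := hdom c
    have : IrreducibleSpace (Spec (.of (DS ((r c).hom (EC.y k))))) := inferInstance
    infer_instance
  let U : (cr ψ).AffineOpenCover :=
    { I₀ := Bool
      X := fun c => .of (DS ((r c).hom (EC.y k)))
      f := fun c => cv (hw c)
      idx := fun z => (hcov z).choose
      covers := fun z => (hcov z).choose_spec }
  have h2 : IsReduced (cr ψ) := by
    have : ∀ i, IsReduced (U.openCover.X i) := by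
      intro (i : Bool)
      have := hdom i
      change IsReduced (Spec (.of (DS ((r i).hom (EC.y k)))))
      infer_instance
    exact IsReduced.of_openCover _ U.openCover
  exact isIntegral_of_irreducibleSpace_of_isReduced _

end EC.IsEnd

end Pool.Agent.W513
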