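import Pool.Agent.W513.Cn2

/-!
# The curves `C_ψ` in the product surface
-/

set_option autoImplicit false

open CategoryTheory Limits AlgebraicGeometry IsLocalRing TopologicalSpace

namespace Pool.Agent.W513

open Pool.Agent.Helper198.Sch
open Pool.Agent.H666R3.NG

attribute [local instance] MvPolynomial.gradedAlgebra

lemma isClosedImmersion_lift {X Y S T : Scheme.{0}} (f : X ⟶ S) (g : Y ⟶ S) (i : S ⟶ T)
    [IsSeparated i] (a : X ⟶ T) (b : Y ⟶ T) (ha : f ≫ i = a) (hb : g ≫ i = b)
    (cond : pullback.fst f g ≫ a = pullback.snd f g ≫ b) :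
    IsClosedImmersion (pullback.lift (pullback.fst f g) (pullback.snd f g) cond :
      pullback f g ⟶ pullback a b) := by
  subst ha hb
  have h1 : IsClosedImmersion (pullback.mapDesc f g i) := inferInstance
  have h2 : (pullback.lift (pullback.fst f g) (pullback.snd f g) cond :
      pullback f g ⟶ pullback (f ≫ i) (g ≫ i)) = pullback.mapDesc f g i := by
    apply pullback.hom_ext
    · rw [pullback.lift_fst, pullback.lift_fst, Category.comp_id]
    · rw [pullback.lift_snd, pullback.lift_snd, Category.comp_id]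
  rw [h2]
  exact h1

lemma dB_finite {B : Type} [CommRing B] (s : B) : (dB s).Finite := by
  have h4 : Module.Finite B (DS s) := (dpol_monic s).finite_adjoinRoot
  exact RingHom.finite_algebraMap.2 h4

section incl

variable (k : Type) [Field k]

/-- The product of the Fermat quartic and the elliptic curve. -/
noncomputable abbrev YY : Scheme.{0} := pullback (V.str (Fermat.J k)) (V.str (EC.J k))

/-- The first projection. -/
noncomputable abbrev pr1 : YY k ⟶ FQ.crv k := pullback.fst _ _

/-- The second projection. -/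
noncomputable abbrev pr2 : YY k ⟶ EC.curve k := pullback.snd _ _

/-- The structure morphism. -/
noncomputable abbrev sY : YY k ⟶ Spec (.of k) := pr1 k ≫ V.str (Fermat.J k)

lemma sY_eq : sY k = pr2 k ≫ V.str (EC.J k) := pullback.condition

variable {k} (ψ : EC.curve k ⟶ EC.curve k) (h : ψ ≫ V.str (EC.J k) = V.str (EC.J k))

/-- The inclusion of the curve in the product. -/
noncomputable def jc : cr ψ ⟶ YY k :=
  pullback.lift (pullback.fst (FQ.f k) ψ) (pullback.snd (FQ.f k) ψ) (by
    conv_lhs => rw [← FQ.f_str (R := k)]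
    conv_rhs => rw [← h]
    rw [← Category.assoc, ← Category.assoc, pullback.condition])

@[reassoc (attr := simp)]
lemma jc_fst : jc ψ h ≫ pr1 k = pullback.fst (FQ.f k) ψ := pullback.lift_fst _ _ _

@[reassoc (attr := simp)]
lemma jc_snd : jc ψ h ≫ pr2 k = pullback.snd (FQ.f k) ψ := pullback.lift_snd _ _ _

instance isClosedImmersion_jc : IsClosedImmersion (jc ψ h) :=
  isClosedImmersion_lift (FQ.f k) ψ (V.str (EC.J k)) _ _ (FQ.f_str (R := k)) h _

end incl

section dim

variable {k : Type} [Field k] [CharZero k] [IsAlgClosed k]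

namespace EC.IsEnd

variable {ψ : EC.curve k ⟶ EC.curve k} {s : EC.FK k →+* EC.FK k} {μ : k} (h : EC.IsEnd ψ s μ)

include h

section chart

variable {c : Bool} {B : CommRingCat.{0}}
  {w : Spec B ⟶ EC.curve k} {r : CommRingCat.of (EC.A k) ⟶ B}
  (hw : IsPullback w (Spec.map r) ψ (EC.ch c))

include hw

lemma finite_chart : r.hom.Finite := by
  have h1 := h.isFinite
  have h2 : IsFinite (Spec.map r) := MorphismProperty.of_isPullback hw h1
  exact (IsFinite.SpecMap_iff r).1 h2

lemma krullDim_DS : ringKrullDim (DS (r.hom (EC.y k))) ≤ 1 := by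
  have hd := h.isDomain_DS_chart hw
  have hf := h.finite_chart hw
  let _ : Algebra (EC.A k) (DS (r.hom (EC.y k))) := ((dB (r.hom (EC.y k))).comp r.hom).toAlgebra
  have hint : Algebra.IsIntegral (EC.A k) (DS (r.hom (EC.y k))) := by
    refine ⟨fun z => ?_⟩
    exact ((dB_finite (r.hom (EC.y k))).comp hf).to_isIntegral z
  have hk : Ring.KrullDimLE 1 (DS (r.hom (EC.y k))) := by
    apply Ring.KrullDimLE.mk₁'
    intro I hI hI2
    have h1 : I.comap (algebraMap (EC.A k) (DS (r.hom (EC.y k)))) ≠ ⊥ := by
      intro h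
      exact hI (Ideal.eq_bot_of_comap_eq_bot h)
    have h2 : (I.comap (algebraMap (EC.A k) (DS (r.hom (EC.y k))))).IsPrime := inferInstance
    have h3 := EC.isMaximal_of_ne_bot k two_ne_zero _ h1 h2
    exact Ideal.isMaximal_of_isIntegral_of_isMaximal_comap I h3
  rwa [Ring.krullDimLE_iff, Nat.cast_one] at hk

end chart

lemma exists_cover : ∃ (B : Bool → CommRingCat.{0}) (w : ∀ c, Spec (B c) ⟶ EC.curve k)
    (r : ∀ c, CommRingCat.of (EC.A k) ⟶ B c)
    (hw : ∀ c, IsPullback (w c) (Spec.map (r c)) ψ (EC.ch c)),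
    ∀ z : cr ψ, ∃ c, z ∈ Set.range (cv (hw c)) := by
  have hfin := h.isFinite
  have haff : IsAffineHom ψ := inferInstance
  choose B w r hw using fun c => exists_chart (k := k) ψ c
  refine ⟨B, w, r, hw, fun z => ?_⟩
  obtain ⟨c, hc⟩ := EC.exists_mem_range_ch (ψ (pullback.snd (FQ.f k) ψ z))
  refine ⟨c, ?_⟩
  rw [range_cv, Set.mem_preimage, range_chart_psi (hw c)]
  exact hc

lemma surjective_toE : Function.Surjective (pullback.snd (FQ.f k) ψ) := by
  intro z
  have hfin := h.isFinite
  obtain ⟨c, hc⟩ := EC.exists_mem_range_ch (ψ z)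
  obtain ⟨B, w, r, hw⟩ := exists_chart (k := k) ψ c
  have hz : z ∈ Set.range w := by
    rw [range_chart_psi hw]
    exact hc
  obtain ⟨p, rfl⟩ := hz
  have hd := h.isDomain_DS_chart hw
  obtain ⟨q, hq⟩ := RingHom.IsIntegral.comap_surjective (dB_finite _).to_isIntegral
    (dB_injective (r.hom (EC.y k))) p
  let q' : Spec (.of (DS (r.hom (EC.y k)))) := q
  refine ⟨cv hw q', ?_⟩
  rw [← Scheme.Hom.comp_apply, cv_snd, Scheme.Hom.comp_apply]
  exact congrArg w hq

theorem dim_cr : topologicalKrullDim (cr ψ) = 1 := by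
  have hint := h.isIntegral_cr
  apply le_antisymm
  · obtain ⟨B, w, r, hw, hcov⟩ := h.exists_cover
    have ho := fun c => isOpenImmersion_cv (hw c)
    apply topologicalKrullDim_le_of_cover (fun c => cv (hw c)) (fun c => (cv (hw c)).isOpenEmbedding)
      hcov
    intro c
    change topologicalKrullDim (PrimeSpectrum _) ≤ 1
    rw [PrimeSpectrum.topologicalKrullDim_eq_ringKrullDim]
    exact h.krullDim_DS (hw c)
  · obtain ⟨z, hz⟩ := EC.exists_ne_generic (k := k)
    obtain ⟨p, hp⟩ := h.surjective_toE z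
    have h1 : closure {p} ≠ (Set.univ : Set (cr ψ)) := by
      intro hcon
      apply hz
      have h2 : IsGenericPoint z (Set.univ : Set (EC.curve k)) := by
        have h3 : IsGenericPoint p (Set.univ : Set (cr ψ)) := hcon
        have h4 := h3.image (pullback.snd (FQ.f k) ψ).continuous
        rwa [Set.image_univ, h.surjective_toE.range_eq, closure_univ, hp] at h4
      exact h2.eq (genericPoint_spec _)
    rw [topologicalKrullDim, Order.one_le_krullDim_iff]
    refine ⟨⟨closure {p}, isIrreducible_singleton.closure, isClosed_closure⟩,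
      ⟨Set.univ, IrreducibleSpace.isIrreducible_univ _, isClosed_univ⟩, ?_⟩
    exact lt_of_le_of_ne (Set.subset_univ _)
      (fun h => h1 (congrArg (fun t : IrreducibleCloseds (cr ψ) => (t : Set (cr ψ))) h))

end EC.IsEnd

end dim

end Pool.Agent.W513
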