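import Pool.Agent.Helper198.CurveDefs
import Pool.Agent.H666R3.NG.GenusDefs

/-!
# Blow-ups at a point, integral curves and their self-intersection
-/

set_option autoImplicit false

open AlgebraicGeometry CategoryTheory Limits

namespace Pool.Agent.W513

/-- For a morphism `g : W ⟶ Y` of schemes and a point `y` of `Y`: the ideal generated on `W` by the
maximal ideal of `y` is invertible along `g⁻¹(y)`, i.e. at every point `w` of `W` over `y`, the ideal
of the local ring of `W` at `w` generated by the maximal ideal of the local ring of `Y` at `y` is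
generated by one element which is not a zero divisor. -/
def InvertiblePullback {W Y : Scheme.{0}} (g : W ⟶ Y) (y : Y) : Prop :=
  ∀ w : W, g w = y → ∃ a ∈ nonZeroDivisors (W.presheaf.stalk w),
    (IsLocalRing.maximalIdeal (Y.presheaf.stalk (g w))).map (g.stalkMap w).hom = Ideal.span {a}

/-- `σ : X ⟶ Y` is the blow-up of `Y` at the (closed) point `y`: it is proper, the ideal sheaf of `y`
generates an invertible ideal on `X`, and `σ` is universal for this property: every morphism
`g : W ⟶ Y` such that the ideal sheaf of `y` generates an invertible ideal on `W` factors uniquely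
through `σ`. -/
structure IsBlowUpAt {X Y : Scheme.{0}} (σ : X ⟶ Y) (y : Y) : Prop where
  proper : IsProper σ
  invertible : InvertiblePullback σ y
  universal : ∀ (W : Scheme.{0}) (g : W ⟶ Y), InvertiblePullback g y → ∃! t : W ⟶ X, t ≫ σ = g

/-- The closed immersion `ι : C ⟶ X` is an integral curve in `X`. -/
structure IsIntegralCurve {C X : Scheme.{0}} (ι : C ⟶ X) : Prop where
  integral : IsIntegral C
  closed : IsClosedImmersion ι
  dim : topologicalKrullDim C = 1

/-- the map of local rings `𝒪_{X, ι z} → 𝒪_{X, ι η}`, where `η` is the generic point of `C`. -/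
noncomputable def toGeneric {C X : Scheme.{0}} [IrreducibleSpace C] (ι : C ⟶ X) (z : C) :
    X.presheaf.stalk (ι z) →+* X.presheaf.stalk (ι (genericPoint C)) :=
  (X.presheaf.stalkSpecializes ((genericPoint_specializes z).map ι.continuous)).hom

/-- Let `C` be an integral curve in `X`, `η` its generic point and `h` an element of the local ring
of `X` at `η` which generates the maximal ideal. Let `z` be a point of `C`. The ideal of `C` in
the local ring of `X` at `z` is generated by one element `g`, we have `h = (a / b) g` with elements
`a`, `b` of this local ring which do not vanish on `C`, and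
`d = ord_z (a|_C) - ord_z (b|_C)`. In other words, `d` is the order at `z` of the rational
section `h` of the conormal sheaf `I_C / I_C²` of `C`. -/
def ConormalOrder {C X : Scheme.{0}} [IrreducibleSpace C] (ι : C ⟶ X)
    (h : X.presheaf.stalk (ι (genericPoint C))) (z : C) (d : ℤ) : Prop :=
  ∃ g a b : X.presheaf.stalk (ι z),
    RingHom.ker (ι.stalkMap z).hom = Ideal.span {g} ∧
    (ι.stalkMap z).hom a ≠ 0 ∧ (ι.stalkMap z).hom b ≠ 0 ∧
    toGeneric ι z b * h = toGeneric ι z a * toGeneric ι z g ∧
    d = ((Ring.ord (C.presheaf.stalk z) ((ι.stalkMap z).hom a)).toNat : ℤ) -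
      ((Ring.ord (C.presheaf.stalk z) ((ι.stalkMap z).hom b)).toNat : ℤ)

/-- The self-intersection number of the integral curve `C` in `X` is `n`: this is minus the degree
of the conormal sheaf `I_C / I_C²` of `C`, which is computed as the sum of the orders of a
rational section `h` at the closed points of `C`. -/
def HasSelfIntersection {C X : Scheme.{0}} [IrreducibleSpace C] (ι : C ⟶ X) (n : ℤ) : Prop :=
  ∃ h : X.presheaf.stalk (ι (genericPoint C)),
    IsLocalRing.maximalIdeal (X.presheaf.stalk (ι (genericPoint C))) = Ideal.span {h} ∧
    ∃ d : C →₀ ℤ, (∀ z : C, IsClosed {z} → ConormalOrder ι h z (d z)) ∧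
      (∀ z : C, ¬ IsClosed {z} → d z = 0) ∧ n = -(d.sum fun _ m => m)

end Pool.Agent.W513
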