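import Pool.Agent.W513.KerE
import Pool.Agent.W513.Defs

/-!
# The conormal sheaf of `C_ψ` in the product surface
-/

set_option autoImplicit false

open CategoryTheory Limits AlgebraicGeometry IsLocalRing TopologicalSpace

namespace Pool.Agent.W513

open Pool.Agent.Helper198.Sch
open Pool.Agent.H666R3.NG

attribute [local instance] MvPolynomial.gradedAlgebra

lemma ord_congr {R : Type*} [CommRing R] {a b : R} (h : Ideal.span {a} = Ideal.span {b}) :
    Ring.ord R a = Ring.ord R b := by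
  unfold Ring.ord
  rw [h]

lemma span_mul_unit {R : Type*} [CommRing R] (a : R) {u : R} (hu : IsUnit u) :
    Ideal.span {a * u} = Ideal.span {a} := Ideal.span_singleton_mul_right_unit hu a

section al

variable {k : Type} [Field k] {ψ : EC.curve k ⟶ EC.curve k}

/-- The two coordinate systems at a point of the product. -/
def Al (ψ : EC.curve k ⟶ EC.curve k) (c : Bool) {y : YY k}
    (α1 α2 : CommRingCat.of (EC.A k) ⟶ (YY k).presheaf.stalk y) : Prop :=
  Spec.map α1 ≫ EC.ch c = (YY k).fromSpecStalk y ≫ pr1 k ≫ FQ.f k ∧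
    Spec.map α2 ≫ EC.ch c = (YY k).fromSpecStalk y ≫ pr2 k ≫ ψ

lemma Al.specializes {c : Bool} {y y' : YY k} (hy : y' ⤳ y)
    {α1 α2 : CommRingCat.of (EC.A k) ⟶ (YY k).presheaf.stalk y} (h : Al ψ c α1 α2) :
    Al ψ c (α1 ≫ (YY k).presheaf.stalkSpecializes hy)
      (α2 ≫ (YY k).presheaf.stalkSpecializes hy) := by
  constructor
  · rw [Spec.map_comp, Category.assoc, h.1, Scheme.SpecMap_stalkSpecializes_fromSpecStalk_assoc]
  · rw [Spec.map_comp, Category.assoc, h.2, Scheme.SpecMap_stalkSpecializes_fromSpecStalk_assoc]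

lemma Al.unique {c : Bool} {y : YY k}
    {α1 α2 β1 β2 : CommRingCat.of (EC.A k) ⟶ (YY k).presheaf.stalk y} (h : Al ψ c α1 α2)
    (h' : Al ψ c β1 β2) : α1 = β1 ∧ α2 = β2 :=
  ⟨factor_unique (EC.ch c) (h.1.trans h'.1.symm), factor_unique (EC.ch c) (h.2.trans h'.2.symm)⟩

lemma Al.rel {y : YY k}
    {α1 α2 β1 β2 : CommRingCat.of (EC.A k) ⟶ (YY k).presheaf.stalk y} (h : Al ψ false α1 α2)
    (h' : Al ψ true β1 β2) :
    (α1.hom (EC.x k) * β1.hom (EC.x k) = 1 ∧
      β1.hom (EC.y k) = α1.hom (EC.y k) * β1.hom (EC.x k) ^ 2) ∧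
    (α2.hom (EC.x k) * β2.hom (EC.x k) = 1 ∧
      β2.hom (EC.y k) = α2.hom (EC.y k) * β2.hom (EC.x k) ^ 2) := by
  constructor
  · exact EC.ch_rel (c := false) (f := α1.hom) (g := β1.hom) (h.1.trans h'.1.symm)
  · exact EC.ch_rel (c := false) (f := α2.hom) (g := β2.hom) (h.2.trans h'.2.symm)

lemma exists_Al (ψ : EC.curve k ⟶ EC.curve k) (c : Bool) (y : YY k)
    (h1 : FQ.f k (pr1 k y) ∈ Set.range (EC.ch (R := k) c))
    (h2 : ψ (pr2 k y) ∈ Set.range (EC.ch (R := k) c)) :
    ∃ α1 α2 : CommRingCat.of (EC.A k) ⟶ (YY k).presheaf.stalk y, Al ψ c α1 α2 := by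
  have e0 : (YY k).fromSpecStalk y (closedPoint ((YY k).presheaf.stalk y)) = y :=
    Scheme.fromSpecStalk_closedPoint
  obtain ⟨α1, hα1⟩ := exists_factor (EC.ch c) ((YY k).presheaf.stalk y)
    ((YY k).fromSpecStalk y ≫ pr1 k ≫ FQ.f k) (by
      have : ((YY k).fromSpecStalk y ≫ pr1 k ≫ FQ.f k) (closedPoint ((YY k).presheaf.stalk y)) =
        FQ.f k (pr1 k y) := congrArg (fun t => FQ.f k (pr1 k t)) e0
      rw [this]
      exact h1)
  obtain ⟨α2, hα2⟩ := exists_factor (EC.ch c) ((YY k).presheaf.stalk y)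
    ((YY k).fromSpecStalk y ≫ pr2 k ≫ ψ) (by
      have : ((YY k).fromSpecStalk y ≫ pr2 k ≫ ψ) (closedPoint ((YY k).presheaf.stalk y)) =
        ψ (pr2 k y) := congrArg (fun t => ψ (pr2 k t)) e0
      rw [this]
      exact h2)
  exact ⟨α1, α2, hα1, hα2⟩

lemma curve_al {y : YY k}
    {α1 α2 : CommRingCat.of (EC.A k) ⟶ (YY k).presheaf.stalk y} :
    (α1.hom (EC.y k) ^ 2 + α1.hom (EC.x k) ^ 4 + 1 = 0) ∧
    (α2.hom (EC.y k) ^ 2 + α2.hom (EC.x k) ^ 4 + 1 = 0) := by
  constructor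
  · rw [← map_pow, ← map_pow, ← map_one α1.hom, ← map_add, ← map_add, EC.rel]
    exact map_zero _
  · rw [← map_pow, ← map_pow, ← map_one α2.hom, ← map_add, ← map_add, EC.rel]
    exact map_zero _

end al

section con

variable {k : Type} [Field k] [CharZero k] [IsAlgClosed k]

namespace EC.IsEnd

variable {ψ : EC.curve k ⟶ EC.curve k} {s : EC.FK k →+* EC.FK k} {μ : k} (h : EC.IsEnd ψ s μ)
  [IsIntegral (cr ψ)]

include h

lemma snd_generic : pullback.snd (FQ.f k) ψ (genericPoint (cr ψ)) = genericPoint (EC.curve k) := by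
  have h3 : IsGenericPoint (genericPoint (cr ψ)) (Set.univ : Set (cr ψ)) := genericPoint_spec _
  have h4 := h3.image (pullback.snd (FQ.f k) ψ).continuous
  rw [Set.image_univ, h.surjective_toE.range_eq, closure_univ] at h4
  exact h4.eq (genericPoint_spec _)

variable (j : cr ψ ⟶ YY k)
  (hj1 : j ≫ pr1 k = pullback.fst (FQ.f k) ψ) (hj2 : j ≫ pr2 k = pullback.snd (FQ.f k) ψ)

include hj1 hj2

omit [CharZero k] [IsAlgClosed k] h [IsIntegral (cr ψ)] hj1 in
lemma pr2_j (z : cr ψ) : ψ (pr2 k (j z)) = ψ (pullback.snd (FQ.f k) ψ z) :=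
  congrArg (fun t : cr ψ ⟶ EC.curve k => ψ (t z)) hj2

omit [CharZero k] [IsAlgClosed k] h [IsIntegral (cr ψ)] hj2 in
lemma pr1_j (z : cr ψ) : FQ.f k (pr1 k (j z)) = ψ (pullback.snd (FQ.f k) ψ z) := by
  have h1 : FQ.f k (pr1 k (j z)) = FQ.f k (pullback.fst (FQ.f k) ψ z) :=
    congrArg (fun t : cr ψ ⟶ FQ.crv k => FQ.f k (t z)) hj1
  rw [h1]
  exact congrArg (fun t : cr ψ ⟶ EC.curve k => t z) pullback.condition

omit [CharZero k] [IsAlgClosed k] h [IsIntegral (cr ψ)] in
lemma exists_Al_z (z : cr ψ) (c : Bool)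
    (hc : ψ (pullback.snd (FQ.f k) ψ z) ∈ Set.range (EC.ch (R := k) c)) :
    ∃ α1 α2 : CommRingCat.of (EC.A k) ⟶ (YY k).presheaf.stalk (j z), Al ψ c α1 α2 := by
  apply exists_Al
  · rw [pr1_j j hj1 z]
    exact hc
  · rw [pr2_j j hj2 z]
    exact hc

omit [IsAlgClosed k] hj1 hj2 in
lemma j_generic_mem (c : Bool) (hη : pullback.snd (FQ.f k) ψ (genericPoint (cr ψ)) = genericPoint (EC.curve k)) :
    ψ (pullback.snd (FQ.f k) ψ (genericPoint (cr ψ))) ∈ Set.range (EC.ch (R := k) c) := by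
  rw [hη, h.apply_generic]
  exact EC.generic_mem k c

omit hj1 in
/-- Nonzero functions do not vanish on the curve. -/
lemma inj_generic {c : Bool}
    {α1 α2 : CommRingCat.of (EC.A k) ⟶ (YY k).presheaf.stalk (j (genericPoint (cr ψ)))}
    (hα : Al ψ c α1 α2) (p : EC.A k)
    (hp : (j.stalkMap (genericPoint (cr ψ))).hom (α2.hom p) = 0) : p = 0 := by
  have hη := h.snd_generic
  obtain ⟨f, hf⟩ := Pool.Agent.W488.BlowB.factor_local
    (R := (cr ψ).presheaf.stalk (genericPoint (cr ψ)))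
    ((cr ψ).fromSpecStalk (genericPoint (cr ψ)) ≫ pullback.snd (FQ.f k) ψ ≫ ψ)
    (genericPoint (EC.curve k)) (by
      have e0 : (cr ψ).fromSpecStalk (genericPoint (cr ψ))
        (closedPoint ((cr ψ).presheaf.stalk (genericPoint (cr ψ)))) = genericPoint (cr ψ) :=
        Scheme.fromSpecStalk_closedPoint
      have e1 := congrArg (fun t => ψ (pullback.snd (FQ.f k) ψ t)) e0
      exact e1.trans (by rw [hη, h.apply_generic]))
  have h1 : CommRingCat.ofHom (EC.κ k c) ≫ f = α2 ≫ j.stalkMap (genericPoint (cr ψ)) := by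
    apply factor_unique (EC.ch c)
    have e2 : Spec.map (j.stalkMap (genericPoint (cr ψ))) ≫
        (YY k).fromSpecStalk (j (genericPoint (cr ψ))) ≫ pr2 k ≫ ψ =
        (cr ψ).fromSpecStalk (genericPoint (cr ψ)) ≫ pullback.snd (FQ.f k) ψ ≫ ψ := by
      rw [← hj2, Scheme.SpecMap_stalkMap_fromSpecStalk_assoc, Category.assoc]
    rw [Spec.map_comp, Category.assoc, EC.κ_spec, Spec.map_comp, Category.assoc, hα.2, e2]
    exact hf
  have h2 : f.hom (EC.κ k c p) = 0 := (congrArg (fun t => t.hom p) h1).trans hp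
  have hfinj : Function.Injective f.hom := RingHom.injective (R := EC.FK k) f.hom
  apply EC.κ_injective k c
  rw [map_zero]
  exact hfinj (h2.trans (map_zero f.hom).symm)

/-- Nonzero functions do not vanish on the curve. -/
lemma inj_al (z : cr ψ) {c : Bool}
    {α1 α2 : CommRingCat.of (EC.A k) ⟶ (YY k).presheaf.stalk (j z)}
    (hα : Al ψ c α1 α2) (p : EC.A k) (hp : p ≠ 0) :
    (j.stalkMap z).hom (α1.hom p) ≠ 0 ∧ (j.stalkMap z).hom (α2.hom p) ≠ 0 := by
  have e0 := stalk_j j hj1 hj2 z α1 α2 hα.1 hα.2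
  have e1 : (j.stalkMap z).hom (α1.hom p) = (j.stalkMap z).hom (α2.hom p) :=
    congrArg (fun f => f.hom p) e0
  have h2 : (j.stalkMap z).hom (α2.hom p) ≠ 0 := by
    intro hcon
    apply hp
    have hα' := hα.specializes ((genericPoint_specializes z).map j.continuous)
    apply h.inj_generic j hj2 hα' p
    change (j.stalkMap (genericPoint (cr ψ))).hom (((YY k).presheaf.stalkSpecializes
      ((genericPoint_specializes z).map j.continuous)).hom (α2.hom p)) = 0
    have h3 := Scheme.Hom.stalkSpecializes_stalkMap j (genericPoint (cr ψ)) z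
      (genericPoint_specializes z)
    have h4 := congrArg (fun t => t.hom (α2.hom p)) h3
    refine Eq.trans h4 ?_
    change ((cr ψ).presheaf.stalkSpecializes (genericPoint_specializes z)).hom
      ((j.stalkMap z).hom (α2.hom p)) = 0
    rw [hcon, map_zero]
  exact ⟨fun h => h2 (e1.symm.trans h), h2⟩

/-- The generator of the conormal sheaf. -/
lemma exists_hη : ∃ hη : (YY k).presheaf.stalk (j (genericPoint (cr ψ))),
    maximalIdeal ((YY k).presheaf.stalk (j (genericPoint (cr ψ)))) = Ideal.span {hη} ∧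
    ∀ α1 α2 : CommRingCat.of (EC.A k) ⟶ (YY k).presheaf.stalk (j (genericPoint (cr ψ))),
      Al ψ false α1 α2 → α1.hom (EC.y k) * hη = α1.hom (EC.x k) - α2.hom (EC.x k) := by
  obtain ⟨α1, α2, hα⟩ := exists_Al_z j hj1 hj2 (genericPoint (cr ψ)) false
    (h.j_generic_mem false h.snd_generic)
  have hci := isClosedImmersion_j h.str j hj1 hj2
  have hmax : maximalIdeal ((YY k).presheaf.stalk (j (genericPoint (cr ψ)))) =
      RingHom.ker (j.stalkMap (genericPoint (cr ψ))).hom := by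
    ext t
    rw [mem_maximalIdeal, mem_nonunits_iff, RingHom.mem_ker]
    constructor
    · intro ht
      by_contra hcon
      have h1 : IsUnit ((j.stalkMap (genericPoint (cr ψ))).hom t) :=
        IsUnit.mk0 (G₀ := (cr ψ).functionField) _ hcon
      exact ht (isUnit_of_map_unit (j.stalkMap (genericPoint (cr ψ))).hom t h1)
    · intro ht hu
      have h1 := hu.map (j.stalkMap (genericPoint (cr ψ))).hom
      rw [ht] at h1
      exact not_isUnit_zero h1
  have hy : IsUnit (α1.hom (EC.y k)) := by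
    by_contra hcon
    have h1 : α1.hom (EC.y k) ∈ maximalIdeal _ := (mem_maximalIdeal _).2 hcon
    rw [hmax] at h1
    exact (h.inj_al j hj1 hj2 _ hα (EC.y k) (EC.y_ne_zero k)).1 h1
  obtain ⟨u, hu⟩ := hy
  refine ⟨(α1.hom (EC.x k) - α2.hom (EC.x k)) * ↑u⁻¹, ?_, ?_⟩
  · rw [span_mul_unit _ (Units.isUnit _), hmax, ker_j h.str j hj1 hj2 _ α1 α2 hα.1 hα.2]
    apply le_antisymm
    · rw [Ideal.span_le]
      rintro _ (rfl | rfl)
      · exact Ideal.subset_span rfl
      · refine diag_y (EC.isUnit_two_of α1.hom) (curve_al (α2 := α2)).1 (curve_al (α1 := α1)).2 ?_ ?_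
        · rw [hmax]
          change (j.stalkMap (genericPoint (cr ψ))).hom _ = 0
          have e0 := stalk_j j hj1 hj2 _ α1 α2 hα.1 hα.2
          rw [map_sub, sub_eq_zero]
          exact congrArg (fun f => f.hom (EC.y k)) e0
        · rw [← hu]
          exact u.isUnit
    · exact Ideal.span_mono (by simp)
  · intro β1 β2 hβ
    obtain ⟨rfl, rfl⟩ := hα.unique hβ
    rw [← hu, mul_comm, mul_assoc, Units.inv_mul, mul_one]

omit [CharZero k] [IsAlgClosed k] h [IsIntegral (cr ψ)] in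
lemma sub_mem_max (z : cr ψ) {c : Bool}
    {α1 α2 : CommRingCat.of (EC.A k) ⟶ (YY k).presheaf.stalk (j z)}
    (hα : Al ψ c α1 α2) (p : EC.A k) :
    α1.hom p - α2.hom p ∈ maximalIdeal ((YY k).presheaf.stalk (j z)) := by
  rw [mem_maximalIdeal, mem_nonunits_iff]
  intro hu
  have h1 := hu.map (j.stalkMap z).hom
  have e0 := stalk_j j hj1 hj2 z α1 α2 hα.1 hα.2
  have e1 : (j.stalkMap z).hom (α1.hom p) = (j.stalkMap z).hom (α2.hom p) :=
    congrArg (fun f => f.hom p) e0
  rw [map_sub, e1, sub_self] at h1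
  exact not_isUnit_zero h1

omit [IsAlgClosed k] [IsIntegral (cr ψ)] in
lemma ker_case_A (z : cr ψ) {c : Bool}
    {α1 α2 : CommRingCat.of (EC.A k) ⟶ (YY k).presheaf.stalk (j z)}
    (hα : Al ψ c α1 α2) (hy : IsUnit (α1.hom (EC.y k))) :
    RingHom.ker (j.stalkMap z).hom = Ideal.span {α1.hom (EC.x k) - α2.hom (EC.x k)} := by
  rw [ker_j h.str j hj1 hj2 _ α1 α2 hα.1 hα.2]
  apply le_antisymm
  · rw [Ideal.span_le]
    rintro _ (rfl | rfl)
    · exact Ideal.subset_span rfl
    · exact diag_y (EC.isUnit_two_of α1.hom) (curve_al (α2 := α2)).1 (curve_al (α1 := α1)).2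
        (sub_mem_max j hj1 hj2 z hα _) hy
  · exact Ideal.span_mono (by simp)

omit [IsAlgClosed k] [IsIntegral (cr ψ)] in
lemma ker_case_B (z : cr ψ) {c : Bool}
    {α1 α2 : CommRingCat.of (EC.A k) ⟶ (YY k).presheaf.stalk (j z)}
    (hα : Al ψ c α1 α2) (hy : α1.hom (EC.y k) ∈ maximalIdeal ((YY k).presheaf.stalk (j z))) :
    RingHom.ker (j.stalkMap z).hom = Ideal.span {α1.hom (EC.y k) - α2.hom (EC.y k)} := by
  rw [ker_j h.str j hj1 hj2 _ α1 α2 hα.1 hα.2]
  apply le_antisymm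
  · rw [Ideal.span_le]
    rintro _ (rfl | rfl)
    · exact diag_x (EC.isUnit_two_of α1.hom) (curve_al (α2 := α2)).1 (curve_al (α1 := α1)).2
        (sub_mem_max j hj1 hj2 z hα _) hy
    · exact Ideal.subset_span rfl
  · exact Ideal.span_mono (by simp)

omit [CharZero k] [IsAlgClosed k] h hj1 hj2 in
lemma toGeneric_al (z : cr ψ) {c : Bool}
    {α1 α2 : CommRingCat.of (EC.A k) ⟶ (YY k).presheaf.stalk (j z)}
    {β1 β2 : CommRingCat.of (EC.A k) ⟶ (YY k).presheaf.stalk (j (genericPoint (cr ψ)))}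
    (hα : Al ψ c α1 α2) (hβ : Al ψ c β1 β2) (p : EC.A k) :
    toGeneric j z (α1.hom p) = β1.hom p ∧ toGeneric j z (α2.hom p) = β2.hom p := by
  have h1 := (hα.specializes ((genericPoint_specializes z).map j.continuous)).unique hβ
  exact ⟨congrArg (fun t => t.hom p) h1.1, congrArg (fun t => t.hom p) h1.2⟩

/-- The conormal sheaf of the curve in the product surface is trivial. -/
theorem conormal (hη : (YY k).presheaf.stalk (j (genericPoint (cr ψ))))
    (hh : ∀ α1 α2 : CommRingCat.of (EC.A k) ⟶ (YY k).presheaf.stalk (j (genericPoint (cr ψ))),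
      Al ψ false α1 α2 → α1.hom (EC.y k) * hη = α1.hom (EC.x k) - α2.hom (EC.x k)) (z : cr ψ) :
    ConormalOrder j hη z 0 := by
  have hgen := fun c => h.j_generic_mem c h.snd_generic
  obtain ⟨β1, β2, hβ⟩ := exists_Al_z j hj1 hj2 (genericPoint (cr ψ)) false (hgen false)
  have hηβ := hh β1 β2 hβ
  have cβ := curve_al (α1 := β1) (α2 := β2)
  by_cases hz : ψ (pullback.snd (FQ.f k) ψ z) ∈ Set.range (EC.ch (R := k) false)
  · obtain ⟨α1, α2, hα⟩ := exists_Al_z j hj1 hj2 z false hz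
    have tg := fun p => toGeneric_al j z hα hβ p
    have nz := h.inj_al j hj1 hj2 z hα (EC.y k) (EC.y_ne_zero k)
    have e0 := stalk_j j hj1 hj2 z α1 α2 hα.1 hα.2
    have e1 : ∀ p, (j.stalkMap z).hom (α2.hom p) = (j.stalkMap z).hom (α1.hom p) := fun p =>
      (congrArg (fun f => f.hom p) e0).symm
    by_cases hy : IsUnit (α1.hom (EC.y k))
    · refine ⟨α1.hom (EC.x k) - α2.hom (EC.x k), 1, α1.hom (EC.y k),
        h.ker_case_A j hj1 hj2 z hα hy, ?_, nz.1, ?_, ?_⟩
      · rw [map_one]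
        exact one_ne_zero
      · rw [map_one, one_mul, map_sub, (tg _).1, (tg _).1, (tg _).2]
        exact hηβ
      · have h5 : Ring.ord ((cr ψ).presheaf.stalk z) ((j.stalkMap z).hom 1) =
            Ring.ord ((cr ψ).presheaf.stalk z) ((j.stalkMap z).hom (α1.hom (EC.y k))) := by
          apply ord_congr
          rw [map_one, Ideal.span_singleton_one]
          exact (Ideal.span_singleton_eq_top.2 (hy.map _)).symm
        rw [h5, sub_self]
    · have hy' : α1.hom (EC.y k) ∈ maximalIdeal ((YY k).presheaf.stalk (j z)) :=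
        (mem_maximalIdeal _).2 hy
      have hx1 := isUnit_X (curve_al (α2 := α2)).1 hy'
      have hw := diag_x_unit (EC.isUnit_two_of α1.hom) (sub_mem_max j hj1 hj2 z hα (EC.x k)) hx1
      have h2u : IsUnit (2 : (YY k).presheaf.stalk (j z)) := EC.isUnit_two_of α1.hom
      have ha : (j.stalkMap z).hom (-(α1.hom (EC.y k) + α2.hom (EC.y k))) =
          (j.stalkMap z).hom (α1.hom (EC.y k)) * (j.stalkMap z).hom (-2) := by
        rw [map_neg, map_add, e1, map_neg, map_ofNat]
        ring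
      have hu2 : IsUnit ((j.stalkMap z).hom (-2)) := h2u.neg.map _
      have hb : (j.stalkMap z).hom (α1.hom (EC.y k) * ((α1.hom (EC.x k) + α2.hom (EC.x k)) *
          (α1.hom (EC.x k) ^ 2 + α2.hom (EC.x k) ^ 2))) =
          (j.stalkMap z).hom (α1.hom (EC.y k)) * (j.stalkMap z).hom
            ((α1.hom (EC.x k) + α2.hom (EC.x k)) * (α1.hom (EC.x k) ^ 2 + α2.hom (EC.x k) ^ 2)) :=
        map_mul _ _ _
      have huw := hw.map (j.stalkMap z).hom
      refine ⟨α1.hom (EC.y k) - α2.hom (EC.y k), -(α1.hom (EC.y k) + α2.hom (EC.y k)),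
        α1.hom (EC.y k) * ((α1.hom (EC.x k) + α2.hom (EC.x k)) *
          (α1.hom (EC.x k) ^ 2 + α2.hom (EC.x k) ^ 2)),
        h.ker_case_B j hj1 hj2 z hα hy', ?_, ?_, ?_, ?_⟩
      · rw [ha]
        exact fun h => nz.1 (hu2.mul_left_eq_zero.1 h)
      · rw [hb]
        exact fun h => nz.1 (huw.mul_left_eq_zero.1 h)
      · simp only [map_mul, map_add, map_sub, map_neg, map_pow, (tg _).1, (tg _).2]
        linear_combination ((β1.hom (EC.x k) + β2.hom (EC.x k)) *
          (β1.hom (EC.x k) ^ 2 + β2.hom (EC.x k) ^ 2)) * hηβ + cβ.1 - cβ.2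
      · rw [ord_congr ((congrArg (fun t => Ideal.span {t}) ha).trans (span_mul_unit _ hu2)),
          ord_congr ((congrArg (fun t => Ideal.span {t}) hb).trans (span_mul_unit _ huw)), sub_self]
  · have hz' : ψ (pullback.snd (FQ.f k) ψ z) ∈ Set.range (EC.ch (R := k) true) := by
      obtain ⟨c, hc⟩ := EC.exists_mem_range_ch (ψ (pullback.snd (FQ.f k) ψ z))
      cases c
      · exact absurd hc hz
      · exact hc
    obtain ⟨α1, α2, hα⟩ := exists_Al_z j hj1 hj2 z true hz'
    obtain ⟨γ1, γ2, hγ⟩ := exists_Al_z j hj1 hj2 (genericPoint (cr ψ)) true (hgen true)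
    have tg := fun p => toGeneric_al j z hα hγ p
    obtain ⟨⟨r1, r2⟩, r3, r4⟩ := hβ.rel hγ
    have e0 := stalk_j j hj1 hj2 z α1 α2 hα.1 hα.2
    have e1 : ∀ p, (j.stalkMap z).hom (α2.hom p) = (j.stalkMap z).hom (α1.hom p) := fun p =>
      (congrArg (fun f => f.hom p) e0).symm
    have nz := h.inj_al j hj1 hj2 z hα (EC.x k) (EC.x_ne_zero k)
    have hx : α1.hom (EC.x k) ∈ maximalIdeal ((YY k).presheaf.stalk (j z)) := by
      let p1 : Spec (.of (EC.A k)) := Spec.map α1 (closedPoint ((YY k).presheaf.stalk (j z)))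
      have h1 : EC.ch true p1 = ψ (pullback.snd (FQ.f k) ψ z) := by
        have e5 : (YY k).fromSpecStalk (j z) (closedPoint ((YY k).presheaf.stalk (j z))) = j z :=
          Scheme.fromSpecStalk_closedPoint
        have e6 := congrArg (fun t : Spec ((YY k).presheaf.stalk (j z)) ⟶ EC.curve k =>
          t (closedPoint ((YY k).presheaf.stalk (j z)))) hα.1
        exact e6.trans ((congrArg (fun t => FQ.f k (pr1 k t)) e5).trans (pr1_j j hj1 z))
      by_contra hcon
      apply hz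
      rw [← h1]
      exact (EC.mem_range_ch_not false p1).2 hcon
    have hy : IsUnit (α1.hom (EC.y k)) := by
      by_contra hcon
      have h1 := isUnit_X (curve_al (α2 := α2)).1 ((mem_maximalIdeal _).2 hcon)
      exact (mem_maximalIdeal _).1 hx h1
    have ha : (j.stalkMap z).hom (-α1.hom (EC.x k)) =
        (j.stalkMap z).hom (α1.hom (EC.x k)) * (-1) := by
      rw [map_neg]
      ring
    have hu1 : IsUnit (-1 : (cr ψ).presheaf.stalk z) := isUnit_one.neg
    have hb : (j.stalkMap z).hom (α2.hom (EC.x k) * α1.hom (EC.y k)) =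
        (j.stalkMap z).hom (α1.hom (EC.x k)) * (j.stalkMap z).hom (α1.hom (EC.y k)) := by
      rw [map_mul, e1]
    have huy := hy.map (j.stalkMap z).hom
    refine ⟨α1.hom (EC.x k) - α2.hom (EC.x k), -α1.hom (EC.x k),
      α2.hom (EC.x k) * α1.hom (EC.y k), h.ker_case_A j hj1 hj2 z hα hy, ?_, ?_, ?_, ?_⟩
    · rw [ha]
      exact fun h => nz.1 (hu1.mul_left_eq_zero.1 h)
    · rw [hb]
      exact fun h => nz.1 (huy.mul_left_eq_zero.1 h)
    · simp only [map_mul, map_sub, map_neg, (tg _).1, (tg _).2]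
      rw [r2]
      linear_combination (γ2.hom (EC.x k) * γ1.hom (EC.x k) ^ 2) * hηβ +
        (γ1.hom (EC.x k) * γ2.hom (EC.x k)) * r1 - (γ1.hom (EC.x k) ^ 2) * r3
    · rw [ord_congr ((congrArg (fun t => Ideal.span {t}) ha).trans (span_mul_unit _ hu1)),
        ord_congr ((congrArg (fun t => Ideal.span {t}) hb).trans (span_mul_unit _ huy)), sub_self]

end EC.IsEnd

end con

end Pool.Agent.W513
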