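import Pool.Agent.W513.FC2

/-!
# The double cover over a ring: `S = B[w] / (w² - s)`
-/

set_option autoImplicit false

open Polynomial CategoryTheory Limits AlgebraicGeometry

namespace Pool.Agent.W513

section ring

variable {B : Type} [CommRing B] (s : B)

/-- The polynomial `w² - s`. -/
noncomputable def dpol : B[X] := X ^ 2 - C s

lemma dpol_monic : (dpol s).Monic := by
  unfold dpol
  monicity!

lemma natDegree_dpol [Nontrivial B] : (dpol s).natDegree = 2 := by
  unfold dpol
  compute_degree!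

/-- The ring `B[w] / (w² - s)`. -/
abbrev DS : Type := AdjoinRoot (dpol s)

/-- the element `w`. -/
noncomputable def dw : DS s := AdjoinRoot.root (dpol s)

/-- the inclusion of `B`. -/
noncomputable def dB : B →+* DS s := AdjoinRoot.of (dpol s)

lemma dw_sq : dw s ^ 2 = dB s s := by
  have h := AdjoinRoot.eval₂_root (dpol s)
  rw [dpol, eval₂_sub, eval₂_pow, eval₂_X, eval₂_C, sub_eq_zero] at h
  exact h

/-- universal property -/
noncomputable def dLift {Q : Type} [CommRing Q] (g : B →+* Q) (q : Q) (h : q ^ 2 = g s) : DS s →+* Q :=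
  AdjoinRoot.lift g q (by
    rw [dpol, eval₂_sub, eval₂_pow, eval₂_X, eval₂_C, h, sub_self])

@[simp] lemma dLift_w {Q : Type} [CommRing Q] (g : B →+* Q) (q : Q) (h : q ^ 2 = g s) :
    dLift s g q h (dw s) = q := by
  simp [dLift, dw]

@[simp] lemma dLift_B {Q : Type} [CommRing Q] (g : B →+* Q) (q : Q) (h : q ^ 2 = g s) (b : B) :
    dLift s g q h (dB s b) = g b := by
  simp [dLift, dB]

lemma exists_dec (z : DS s) : ∃ a b : B, z = dB s a + dB s b * dw s := by
  rcases subsingleton_or_nontrivial B with hB | hB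
  · have h1 : (1 : DS s) = 0 := by
      rw [← map_one (dB s), ← map_zero (dB s), Subsingleton.elim (1 : B) 0]
    exact ⟨0, 0, by rw [← mul_one z, h1, mul_zero, map_zero, zero_mul, add_zero]⟩
  obtain ⟨p, rfl⟩ := AdjoinRoot.mk_surjective z
  have h1 := modByMonic_add_div p (dpol s)
  have h2 : (p %ₘ dpol s).natDegree < 2 := by
    have := natDegree_modByMonic_lt p (dpol_monic s) (by
      intro h
      have := congrArg natDegree h
      rw [natDegree_dpol, natDegree_one] at this
      omega)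
    rwa [natDegree_dpol] at this
  have h3 : AdjoinRoot.mk (dpol s) p = AdjoinRoot.mk (dpol s) (p %ₘ dpol s) := by
    conv_lhs => rw [← h1]
    rw [map_add, map_mul, AdjoinRoot.mk_self, zero_mul, add_zero]
  have h4 := (p %ₘ dpol s).as_sum_range' 2 h2
  refine ⟨(p %ₘ dpol s).coeff 0, (p %ₘ dpol s).coeff 1, ?_⟩
  rw [h3]
  conv_lhs => rw [h4]
  rw [Finset.sum_range_succ, Finset.sum_range_one, map_add, ← C_mul_X_pow_eq_monomial,
    ← C_mul_X_pow_eq_monomial, map_mul, map_mul, map_pow, map_pow, AdjoinRoot.mk_X,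
    AdjoinRoot.mk_C, AdjoinRoot.mk_C, pow_zero, mul_one, pow_one]
  rfl

lemma dec_unique (a b : B) (h : dB s a + dB s b * dw s = 0) : a = 0 ∧ b = 0 := by
  nontriviality B
  have h1 : AdjoinRoot.mk (dpol s) (C a + C b * X) = 0 := by
    rw [map_add, map_mul, AdjoinRoot.mk_C, AdjoinRoot.mk_C, AdjoinRoot.mk_X]
    exact h
  rw [AdjoinRoot.mk_eq_zero] at h1
  have h2 : C a + C b * X = 0 := by
    by_contra hne
    have h4 : (C a + C b * X).natDegree ≤ 1 := by compute_degree
    exact (dpol_monic s).not_dvd_of_natDegree_lt hne (by rw [natDegree_dpol]; omega) h1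
  constructor
  · have := congrArg (fun p => coeff p 0) h2
    simpa using this
  · have := congrArg (fun p => coeff p 1) h2
    simpa using this

lemma dB_injective : Function.Injective (dB s) := by
  rw [injective_iff_map_eq_zero]
  intro a ha
  exact (dec_unique s a 0 (by rw [ha, map_zero, zero_mul, add_zero])).1

lemma ring_ext {Q : Type} [CommRing Q] {f g : DS s →+* Q} (h1 : ∀ b, f (dB s b) = g (dB s b))
    (h2 : f (dw s) = g (dw s)) : f = g := by
  apply RingHom.ext
  intro z
  obtain ⟨a, b, rfl⟩ := exists_dec s z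
  rw [map_add, map_mul, map_add, map_mul, h1, h1, h2]

/-- If `s` is not a square in the fraction field, then `B[w] / (w² - s)` is a domain. -/
theorem isDomain_DS [IsDomain B] (h : ∀ a b : B, a ^ 2 = b ^ 2 * s → b = 0) : IsDomain (DS s) := by
  have hn : ∀ a b : B, a ^ 2 - b ^ 2 * s = 0 → a = 0 ∧ b = 0 := by
    intro a b hab
    have hb := h a b (sub_eq_zero.1 hab)
    rw [hb] at hab
    refine ⟨?_, hb⟩
    simpa using hab
  have hnt : Nontrivial (DS s) := (dB_injective s).nontrivial
  have : NoZeroDivisors (DS s) := by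
    refine ⟨?_⟩
    intro u v huv
    obtain ⟨a, b, rfl⟩ := exists_dec s u
    obtain ⟨c, d, rfl⟩ := exists_dec s v
    have h1 : dB s ((a ^ 2 - b ^ 2 * s) * (c ^ 2 - d ^ 2 * s)) = 0 := by
      have h2 : dB s ((a ^ 2 - b ^ 2 * s) * (c ^ 2 - d ^ 2 * s)) =
          ((dB s a + dB s b * dw s) * (dB s c + dB s d * dw s)) *
          ((dB s a - dB s b * dw s) * (dB s c - dB s d * dw s)) := by
        simp only [map_mul, map_sub, map_pow, ← dw_sq]
        ring
      rw [h2, huv, zero_mul]
    rw [← map_zero (dB s)] at h1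
    rcases mul_eq_zero.1 (dB_injective s h1) with h3 | h3
    · left
      obtain ⟨h4, h5⟩ := hn _ _ h3
      rw [h4, h5, map_zero, zero_mul, add_zero]
    · right
      obtain ⟨h4, h5⟩ := hn _ _ h3
      rw [h4, h5, map_zero, zero_mul, add_zero]
  exact NoZeroDivisors.to_isDomain _

end ring

section pushout

open Pool.Agent.H666R3.NG

variable {k : Type} [Field k] {B : CommRingCat.{0}} (r : CommRingCat.of (EC.A k) ⟶ B)

/-- The ring map from the Fermat chart. -/
noncomputable def rF : Fermat.A k →+* DS (r.hom (EC.y k)) :=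
  letI : Algebra k (DS (r.hom (EC.y k))) :=
    ((dB _).comp (r.hom.comp (algebraMap k (EC.A k)))).toAlgebra
  (Fermat.lift (E := DS (r.hom (EC.y k))) (dB _ (r.hom (EC.x k))) (dw _) (by
    have h1 : (dw (r.hom (EC.y k))) ^ 4 = dB _ (r.hom (EC.y k) ^ 2) := by
      rw [map_pow, ← dw_sq]
      ring
    rw [h1, ← map_pow, ← map_one (dB (r.hom (EC.y k))), ← map_add, ← map_add, ← map_pow,
      ← map_pow, ← map_one r.hom, ← map_add, ← map_add]
    have h2 : EC.x k ^ 4 + EC.y k ^ 2 + 1 = 0 := by linear_combination EC.rel k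
    rw [h2]
    exact (congrArg _ (map_zero r.hom)).trans (map_zero _))).toRingHom

lemma rF_x : rF r (Fermat.x k) = dB _ (r.hom (EC.x k)) :=
  letI : Algebra k (DS (r.hom (EC.y k))) :=
    ((dB _).comp (r.hom.comp (algebraMap k (EC.A k)))).toAlgebra
  Fermat.lift_x _ _ _

lemma rF_y : rF r (Fermat.y k) = dw _ :=
  letI : Algebra k (DS (r.hom (EC.y k))) :=
    ((dB _).comp (r.hom.comp (algebraMap k (EC.A k)))).toAlgebra
  Fermat.lift_y _ _ _

lemma rF_alg (a : k) : rF r (algebraMap k _ a) = dB _ (r.hom (algebraMap k _ a)) :=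
  letI : Algebra k (DS (r.hom (EC.y k))) :=
    ((dB _).comp (r.hom.comp (algebraMap k (EC.A k)))).toAlgebra
  AlgHom.commutes _ _

lemma rF_comm : (rF r).comp (FQ.fr k).toRingHom = (dB _).comp r.hom := by
  apply EC.ext_ring
  · intro a
    change rF r (FQ.fr k (algebraMap k _ a)) = _
    rw [(FQ.fr k).commutes, rF_alg]
    rfl
  · change rF r (FQ.fr k (EC.x k)) = _
    rw [FQ.fr_x, rF_x]
    rfl
  · change rF r (FQ.fr k (EC.y k)) = _
    rw [FQ.fr_y, map_pow, rF_y, dw_sq]
    rfl

lemma fermat_ext {Q : Type} [CommRing Q] {f g : Fermat.A k →+* Q}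
    (h0 : ∀ a : k, f (algebraMap k _ a) = g (algebraMap k _ a))
    (h1 : f (Fermat.x k) = g (Fermat.x k)) (h2 : f (Fermat.y k) = g (Fermat.y k)) : f = g := by
  let _ : Algebra k Q := (f.comp (algebraMap k _)).toAlgebra
  let f' : Fermat.A k →ₐ[k] Q := { f with commutes' := fun _ => rfl }
  let g' : Fermat.A k →ₐ[k] Q := { g with commutes' := fun a => (h0 a).symm }
  have h3 : f' = g' := Fermat.ext_A h1 h2
  exact congrArg (fun t : Fermat.A k →ₐ[k] Q => t.toRingHom) h3

theorem isPushout_DS : IsPushout (CommRingCat.ofHom (FQ.fr k).toRingHom) r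
    (CommRingCat.ofHom (rF r)) (CommRingCat.ofHom (dB (r.hom (EC.y k)))) := by
  have hw : CommRingCat.ofHom (FQ.fr k).toRingHom ≫ CommRingCat.ofHom (rF r) =
      r ≫ CommRingCat.ofHom (dB (r.hom (EC.y k))) := by
    ext : 1
    exact rF_comm r
  have hsq : ∀ t : PushoutCocone (CommRingCat.ofHom (FQ.fr k).toRingHom) r,
      (t.inl.hom (Fermat.y k)) ^ 2 = t.inr.hom (r.hom (EC.y k)) := by
    intro t
    have h := congrArg (fun q => q.hom (EC.y k)) t.condition
    have h2 : t.inl.hom (FQ.fr k (EC.y k)) = t.inr.hom (r.hom (EC.y k)) := h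
    rw [FQ.fr_y, map_pow] at h2
    exact h2
  refine ⟨⟨hw⟩, ⟨PushoutCocone.IsColimit.mk hw
    (fun t => CommRingCat.ofHom (dLift _ t.inr.hom (t.inl.hom (Fermat.y k)) (hsq t))) ?_ ?_ ?_⟩⟩
  · intro t
    ext : 1
    apply fermat_ext
    · intro a
      change dLift _ _ _ (hsq t) (rF r _) = _
      rw [rF_alg, dLift_B]
      have h := congrArg (fun q => q.hom (algebraMap k _ a)) t.condition
      have h2 : t.inl.hom (FQ.fr k (algebraMap k _ a)) = t.inr.hom (r.hom (algebraMap k _ a)) := h
      rw [(FQ.fr k).commutes] at h2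
      exact h2.symm
    · change dLift _ _ _ (hsq t) (rF r _) = _
      rw [rF_x, dLift_B]
      have h := congrArg (fun q => q.hom (EC.x k)) t.condition
      have h2 : t.inl.hom (FQ.fr k (EC.x k)) = t.inr.hom (r.hom (EC.x k)) := h
      rw [FQ.fr_x] at h2
      exact h2.symm
    · change dLift _ _ _ (hsq t) (rF r _) = _
      rw [rF_y, dLift_w]
  · intro t
    ext b
    change dLift _ _ _ (hsq t) (dB _ b) = _
    rw [dLift_B]
  · intro t m hm1 hm2
    ext : 1
    apply ring_ext
    · intro b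
      change _ = dLift _ _ _ (hsq t) (dB _ b)
      rw [dLift_B, ← hm2]
      rfl
    · change _ = dLift _ _ _ (hsq t) (dw _)
      rw [dLift_w, ← hm1]
      change _ = m.hom (rF r (Fermat.y k))
      rw [rF_y]

end pushout

end Pool.Agent.W513
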