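import Pool.Agent.W513.Cn3
import Pool.Agent.W488.Segre.Final

/-!
# The product surface
-/

set_option autoImplicit false

open CategoryTheory Limits AlgebraicGeometry IsLocalRing TopologicalSpace

namespace Pool.Agent.W513

open Pool.Agent.Helper198.Sch
open Pool.Agent.Helper198.CurveFamily
open Pool.Agent.H666R3.NG
open Pool.Agent.W488.Segre

attribute [local instance] MvPolynomial.gradedAlgebra

section

variable (k : Type) [Field k] [CharZero k]

instance smooth_crv : SmoothOfRelativeDimension 1 (V.str (Fermat.J k)) :=
  Fermat.smooth_curve k two_ne_zero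

instance integral_crv : IsIntegral (FQ.crv k) := Fermat.isIntegral_curve k two_ne_zero

instance geomInt_crv : GeometricallyIntegral (V.str (Fermat.J k)) :=
  Fermat.geometricallyIntegral_curve k two_ne_zero

instance flat_crv : Flat (V.str (Fermat.J k)) := by
  have := SmoothOfRelativeDimension.smooth 1 (V.str (Fermat.J k))
  infer_instance

instance univOpen_crv : UniversallyOpen (V.str (Fermat.J k)) := by
  have := SmoothOfRelativeDimension.smooth 1 (V.str (Fermat.J k))
  infer_instance

instance integral_YY : IsIntegral (YY k) := by
  infer_instance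

theorem smooth_YY : SmoothOfRelativeDimension 2 (sY k) := by
  have hs : MorphismProperty.IsStableUnderBaseChange (@SmoothOfRelativeDimension.{0} 1) :=
    smoothOfRelativeDimension_isStableUnderBaseChange 1
  have h1 : SmoothOfRelativeDimension 1 (pr1 k) :=
    hs.of_isPullback (IsPullback.of_hasPullback (V.str (Fermat.J k)) (V.str (EC.J k))).flip
      (EC.smooth_inst (k := k))
  exact inferInstanceAs (SmoothOfRelativeDimension (1 + 1) (pr1 k ≫ V.str (Fermat.J k)))

omit [CharZero k] in
theorem projective_YY : IsProjective (sY k) := by
  apply isProjective_prod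
  · exact ⟨2, emb (Fermat.J k) (Equiv.refl (Fin 3)),
      inferInstanceAs (IsClosedImmersion (emb (Fermat.J k) (Equiv.refl (Fin 3)))), emb_str _ _⟩
  · exact ⟨3, emb (EC.J k) (Equiv.refl (Fin 4)),
      inferInstanceAs (IsClosedImmersion (emb (EC.J k) (Equiv.refl (Fin 4)))), emb_str _ _⟩

theorem surface_YY : IsSmoothProjectiveSurface (sY k) :=
  ⟨integral_YY k, smooth_YY k, projective_YY k⟩

end

end Pool.Agent.W513
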