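import Pool.Agent.W513.LiftX
import Pool.Agent.W513.Surf

/-!
# The base points are dense
-/

set_option autoImplicit false

open CategoryTheory Limits AlgebraicGeometry IsLocalRing TopologicalSpace

namespace Pool.Agent.W513

open Pool.Agent.Helper198.Sch
open Pool.Agent.H666R3.NG

attribute [local instance] MvPolynomial.gradedAlgebra

section pts

variable {k : Type} [Field k]

namespace FQ

/-- The points of the first chart with nonzero second coordinate. -/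
def D (k : Type) [Field k] : Set (crv k) :=
  ch false '' {p : Spec (.of (Fermat.A k)) | Fermat.y k ∉ p.asIdeal}

lemma isOpen_D : IsOpen (D k) := by
  apply (ch (R := k) false).isOpenEmbedding.isOpenMap
  exact (PrimeSpectrum.basicOpen (Fermat.y k)).2

lemma fpt_mem_D {a b : k} (h : a ^ 4 + b ^ 4 + 1 = 0) (hb : b ≠ 0) :
    fpt false a b h (closedPoint k) ∈ D k := by
  refine ⟨Spec.map (CommRingCat.ofHom (Fermat.lift a b h : Fermat.A k →ₐ[k] k).toRingHom)
    (closedPoint k), ?_, rfl⟩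
  intro h1
  have h2 : (Fermat.lift a b h : Fermat.A k →ₐ[k] k) (Fermat.y k) ∈ maximalIdeal k := h1
  rw [Fermat.lift_y, maximalIdeal_eq_bot] at h2
  exact hb h2

lemma exists_fpt (c : Spec (.of k) ⟶ crv k) (hc : c ≫ V.str (Fermat.J k) = 𝟙 _)
    (hD : c (closedPoint k) ∈ D k) :
    ∃ (a b : k) (h : a ^ 4 + b ^ 4 + 1 = 0), b ≠ 0 ∧ c = fpt false a b h := by
  obtain ⟨p, hp, hpc⟩ := hD
  obtain ⟨φ, hφ⟩ := exists_factor (ch false) (.of k) c ⟨p, hpc⟩
  have hp2 : Spec.map φ (closedPoint k) = p := by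
    apply (ch (R := k) false).isOpenEmbedding.injective
    rw [hpc, ← hφ]
    rfl
  have hb : φ.hom (Fermat.y k) ≠ 0 := by
    intro h0
    apply hp
    rw [← hp2]
    change φ.hom (Fermat.y k) ∈ maximalIdeal k
    rw [h0]
    exact Ideal.zero_mem _
  have h1 : ∀ r, φ.hom (algebraMap k (Fermat.A k) r) = r := by
    rw [← hφ, Category.assoc, ch_str, ← Spec.map_comp, ← Spec.map_id] at hc
    exact fun r => congrArg (fun t => t.hom r) (Spec.map_injective hc)
  have h2 : (φ.hom (Fermat.x k)) ^ 4 + (φ.hom (Fermat.y k)) ^ 4 + 1 = 0 := by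
    rw [← map_pow, ← map_pow, ← map_one φ.hom, ← map_add, ← map_add, Fermat.rel]
    exact map_zero φ.hom
  refine ⟨φ.hom (Fermat.x k), φ.hom (Fermat.y k), h2, hb, ?_⟩
  rw [fpt, ← hφ]
  congr 2
  ext : 1
  apply fermat_ext
  · intro r
    rw [h1]
    exact ((Fermat.lift _ _ h2 : Fermat.A k →ₐ[k] k).commutes r).symm
  · exact (Fermat.lift_x _ _ h2).symm
  · exact (Fermat.lift_y _ _ h2).symm

end FQ

variable [CharZero k]

instance locFin_YY : LocallyOfFiniteType (sY k) := by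
  infer_instance

instance jacobson_YY : JacobsonSpace (YY k) :=
  LocallyOfFiniteType.jacobsonSpace (sY k)

variable [IsAlgClosed k]

/-- A closed point with first coordinate in the open set `D`. -/
lemma exists_closed (U : (YY k).Opens) (hU : (U : Set (YY k)).Nonempty) :
    ∃ u : Spec (.of k) ⟶ YY k, u ≫ sY k = 𝟙 _ ∧ u (closedPoint k) ∈ U ∧
      (u ≫ pr1 k) (closedPoint k) ∈ FQ.D k := by
  obtain ⟨ζ, hζ⟩ := IsAlgClosed.exists_pow_nat_eq (-1 : k) (n := 4) (by norm_num)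
  have h0 : (0 : k) ^ 4 + ζ ^ 4 + 1 = 0 := by rw [hζ]; ring
  have hζ0 : ζ ≠ 0 := by
    rintro rfl
    norm_num at hζ
  obtain ⟨b, hb⟩ := IsAlgClosed.exists_pow_nat_eq (-1 : k) (n := 2) two_pos
  have hb0 : b ^ 2 + (0 : k) ^ 4 + 1 = 0 := by rw [hb]; ring
  let u₀ : Spec (.of k) ⟶ YY k := pullback.lift (FQ.fpt false 0 ζ h0) (EC.kpt false 0 b hb0)
    (by rw [FQ.fpt_str, EC.kpt_str])
  have hu₀ : u₀ ≫ pr1 k = FQ.fpt false 0 ζ h0 := pullback.lift_fst _ _ _
  have hne : ((pr1 k) ⁻¹' FQ.D k).Nonempty := by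
    refine ⟨u₀ (closedPoint k), ?_⟩
    have h1 : pr1 k (u₀ (closedPoint k)) = FQ.fpt false 0 ζ h0 (closedPoint k) :=
      congrArg (fun t : Spec (.of k) ⟶ FQ.crv k => t (closedPoint k)) hu₀
    rw [Set.mem_preimage, h1]
    exact FQ.fpt_mem_D h0 hζ0
  have hop : IsOpen ((pr1 k) ⁻¹' FQ.D k) := FQ.isOpen_D.preimage (pr1 k).continuous
  have hn := nonempty_preirreducible_inter U.2 hop hU hne
  obtain ⟨y, ⟨hyU, hyD⟩, hyc⟩ := nonempty_inter_closedPoints hn (U.2.inter hop).isLocallyClosed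
  have hyc' : IsClosed ({y} : Set (YY k)) := hyc
  have h2 : pointOfClosedPoint (sY k) y hyc' (closedPoint k) = y :=
    pointOfClosedPoint_apply _ _ _ _
  refine ⟨pointOfClosedPoint (sY k) y hyc', pointOfClosedPoint_comp _ _ _, ?_, ?_⟩
  · rw [h2]
    exact hyU
  · have h3 : (pointOfClosedPoint (sY k) y hyc' ≫ pr1 k) (closedPoint k) = pr1 k y :=
      congrArg (fun t => pr1 k t) h2
    rw [h3]
    exact hyD

theorem main (U : (YY k).Opens) (hU : (U : Set (YY k)).Nonempty) :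
    ∃ y ∈ U, IsClosed ({y} : Set (YY k)) ∧ ∀ (X : Scheme.{0}) (σ : X ⟶ YY k), IsBlowUpAt σ y →
      ∀ N : ℕ, ∃ (C : Scheme.{0}) (_ : IsIntegral C) (ι : C ⟶ X), IsIntegralCurve ι ∧
        σ (ι (genericPoint C)) ≠ y ∧ HasSelfIntersection ι (-1) ∧
        ∃ g, N ≤ g ∧ HasGenus (ι ≫ σ ≫ sY k) g := by
  obtain ⟨i, hi⟩ := IsAlgClosed.exists_pow_nat_eq (-1 : k) (n := 2) two_pos
  obtain ⟨φ, sφ, hφ, hφO, hφ2⟩ := EC.exists_phi hi
  obtain ⟨u, hu, huU, huD⟩ := exists_closed U hU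
  have hc1 : (u ≫ pr1 k) ≫ V.str (Fermat.J k) = 𝟙 _ := by rw [Category.assoc, hu]
  obtain ⟨a, b, hab, hb, hc⟩ := FQ.exists_fpt (u ≫ pr1 k) hc1 huD
  have hab' : (b ^ 2) ^ 2 + a ^ 4 + 1 = 0 := by linear_combination hab
  -- the section
  let sec : EC.curve k ⟶ YY k := pullback.lift (V.str (EC.J k) ≫ FQ.fpt false a b hab) (𝟙 _)
    (by rw [Category.assoc, FQ.fpt_str, Category.comp_id, Category.id_comp])
  have hs1 : sec ≫ pr1 k = V.str (EC.J k) ≫ FQ.fpt false a b hab := pullback.lift_fst _ _ _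
  have hs2 : sec ≫ pr2 k = 𝟙 _ := pullback.lift_snd _ _ _
  have hpt : ∀ (v : Spec (.of k) ⟶ YY k) (p : Spec (.of k) ⟶ EC.curve k),
      p ≫ V.str (EC.J k) = 𝟙 _ → v ≫ pr1 k = FQ.fpt false a b hab → v ≫ pr2 k = p →
      v = p ≫ sec := by
    intro v p hp h1 h2
    apply pullback.hom_ext
    · rw [Category.assoc]
      exact h1.trans (by rw [hs1, ← Category.assoc, hp, Category.id_comp])
    · rw [Category.assoc]
      exact h2.trans (by rw [hs2, Category.comp_id])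
  have hup : (u ≫ pr2 k) ≫ V.str (EC.J k) = 𝟙 _ := by rw [Category.assoc, ← sY_eq, hu]
  have hW : ((sec ⁻¹ᵁ U : (EC.curve k).Opens) : Set (EC.curve k)).Nonempty := by
    refine ⟨(u ≫ pr2 k) (closedPoint k), ?_⟩
    have h1 := hpt u (u ≫ pr2 k) hup hc rfl
    have h2 : sec ((u ≫ pr2 k) (closedPoint k)) = u (closedPoint k) :=
      (congrArg (fun t : Spec (.of k) ⟶ YY k => t (closedPoint k)) h1).symm
    change sec ((u ≫ pr2 k) (closedPoint k)) ∈ U
    rw [h2]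
    exact huU
  obtain ⟨p, n₀, hpW, hp⟩ := EC.exists_preimage_mem hφ2 ⟨EC.O hi, EC.kpt_str _ _ _ _⟩ hφO
    (sec ⁻¹ᵁ U) hW
  refine ⟨sec (p.1 (closedPoint k)), hpW, ?_, ?_⟩
  · have h1 : (p.1 ≫ sec) ≫ sY k = 𝟙 _ := by
      rw [sY_eq, Category.assoc, ← Category.assoc sec, hs2, Category.id_comp]
      exact p.2
    exact (pointEquivClosedPoint (sY k) ⟨p.1 ≫ sec, h1⟩).2
  · intro X σ hσ N
    obtain ⟨τ, sτ, hτ, hτO⟩ := EC.exists_tau hi a (b ^ 2) hab' (pow_ne_zero 2 hb)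
    set n := max N n₀ with hn
    obtain ⟨b₁, hb₁⟩ := IsAlgClosed.exists_pow_nat_eq (-1 : k) (n := 2) two_pos
    have hb₁' : b₁ ^ 2 + (0 : k) ^ 4 + 1 = 0 := by rw [hb₁]; ring
    have hE : EC.IsE φ := ⟨sφ, _, hφ⟩
    have hEτ : EC.IsE τ := ⟨sτ, _, hτ⟩
    obtain ⟨q₀, hq₀⟩ := hEτ.exists_point ⟨EC.kpt true 0 b₁ hb₁', EC.kpt_str _ _ _ _⟩
    obtain ⟨S, hS, hS'⟩ := EC.card_preimages φ hφ2 n q₀
    have hcard : n + 1 ≤ S.card := by
      rw [hS]
      exact Nat.lt_two_pow_self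
    let P : Fin (n + 1) → EC.Kp k := fun t => (S.equivFin.symm (Fin.castLE hcard t)).1
    have hPinj : Function.Injective P := by
      intro t t' htt
      have h1 := S.equivFin.symm.injective (Subtype.ext htt)
      exact Fin.castLE_injective hcard h1
    have hPψ : ∀ t, (P t).1 ≫ EC.iter φ n ≫ τ = EC.kpt true 0 b₁ hb₁' := by
      intro t
      rw [← Category.assoc, hS' _ (S.equivFin.symm (Fin.castLE hcard t)).2, hq₀]
    obtain ⟨C, hC, ι, h1, h2, h3, g, hg, h4⟩ := curve_on_blowUp ((hE.iter n).comp hEτ) σ hσ (by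
        have h1 : (p.1 ≫ sec) ≫ sY k = 𝟙 _ := by
          rw [sY_eq, Category.assoc, ← Category.assoc sec, hs2, Category.id_comp]
          exact p.2
        exact (pointEquivClosedPoint (sY k) ⟨p.1 ≫ sec, h1⟩).2) hab hb p.1 (by
        rw [FQ.fpt_f false a b hab hab', ← Category.assoc, hp n (le_max_right _ _), hτO]) (by
        intro v hv1 hv2
        rw [hpt v p.1 p.2 hv1 hv2]
        rfl) hb₁' P hPinj hPψ
    exact ⟨C, hC, ι, h1, h2, h3, g, (le_max_left _ _).trans hg, h4⟩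

end pts

end Pool.Agent.W513
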