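import Pool.Agent.W513.MapsE

/-!
# Translations which map a given point to the origin
-/

set_option autoImplicit false

open AlgebraicGeometry CategoryTheory Limits IsLocalRing TopologicalSpace

namespace Pool.Agent.W513.EC

open Pool.Agent.Helper198.Sch

attribute [local instance] MvPolynomial.gradedAlgebra

variable {k : Type} [Field k] [CharZero k]

variable {i : k} (hi : i ^ 2 = -1) [IsAlgClosed k]

include hi in
/-- The translation by the point `(a, b)`, with formulas. -/
theorem exists_tau_formula (a b : k) (hab : b ^ 2 + a ^ 4 + 1 = 0) (hb : b ≠ 0) :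
    ∃ (τ : curve k ⟶ curve k) (s : FK k →+* FK k), IsEnd τ s 1 ∧
      κ k false (1 - cA k a ^ 2 * x k ^ 2) ≠ 0 ∧
      s (κ k false (x k)) = cst k i * κ k false (cA k b * x k + cA k a * y k) /
        κ k false (1 - cA k a ^ 2 * x k ^ 2) ∧
      s (κ k false (y k)) = cst k i * κ k false (cA k b * y k * (1 + cA k a ^ 2 * x k ^ 2) -
        2 * cA k a * x k * (x k ^ 2 + cA k a ^ 2)) /
        κ k false (1 - cA k a ^ 2 * x k ^ 2) ^ 2 := by
  have hI : cst k i ^ 2 = -1 := by rw [← map_pow, hi, map_neg, map_one]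
  have hc0 : ∀ r, κ k false (cA k r) = cst k r := κ_cst k false
  have hcab : cst k b ^ 2 + cst k a ^ 4 + 1 = 0 := by
    rw [← map_pow, ← map_pow, ← map_one (cst k), ← map_add, ← map_add, hab, map_zero]
  have hc := κ_curve k false
  set M : A k := 1 - cA k a ^ 2 * x k ^ 2 with hMdef
  set N : A k := cA k b * x k + cA k a * y k with hNdef
  set T : A k := cA k b * y k * (1 + cA k a ^ 2 * x k ^ 2) -
    2 * cA k a * x k * (x k ^ 2 + cA k a ^ 2) with hTdef
  have eM : (lift 0 (-i) (O_rel hi) : A k →ₐ[k] k) M = 1 := by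
    simp only [M, map_sub, map_mul, map_pow, map_one, lift_x, lift_cA]
    ring
  have eT : (lift 0 (-i) (O_rel hi) : A k →ₐ[k] k) T = -(i * b) := by
    simp only [T, map_sub, map_add, map_mul, map_pow, map_one, lift_x, lift_y, lift_cA]
    ring
  have hM : κ k false M ≠ 0 := κ_ne_zero_of_ev (O_rel hi) _ (by rw [eM]; exact one_ne_zero)
  have hT : κ k false T ≠ 0 := κ_ne_zero_of_ev (O_rel hi) _ (by
    rw [eT]
    exact neg_ne_zero.2 (mul_ne_zero (i_ne_zero hi) hb))
  have hIne : cst k i ≠ 0 := by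
    rw [← map_zero (cst k)]
    exact fun h => i_ne_zero hi ((cst k).injective h)
  have kM : κ k false M = 1 - cst k a ^ 2 * κ k false (x k) ^ 2 := by
    simp only [M, map_sub, map_mul, map_pow, map_one, hc0]
  have kN : κ k false N = cst k b * κ k false (x k) + cst k a * κ k false (y k) := by
    simp only [N, map_add, map_mul, hc0]
  have kT : κ k false T = cst k b * κ k false (y k) * (1 + cst k a ^ 2 * κ k false (x k) ^ 2) -
      2 * cst k a * κ k false (x k) * (κ k false (x k) ^ 2 + cst k a ^ 2) := by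
    simp only [T, map_sub, map_add, map_mul, map_pow, map_one, map_ofNat, hc0]
  have hrel : (cst k i * κ k false T / κ k false M ^ 2) ^ 2 +
      (cst k i * κ k false N / κ k false M) ^ 4 + 1 = 0 := by
    have h4 : cst k i ^ 4 = 1 := by linear_combination (cst k i ^ 2 - 1) * hI
    have h5 : -(κ k false T) ^ 2 + (κ k false N) ^ 4 + (κ k false M) ^ 4 = 0 := by
      rw [kT, kN, kM]
      set X := κ k false (x k)
      set Y := κ k false (y k)
      set a' := cst k a
      set b' := cst k b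
      linear_combination (-6 * a' ^ 2 * X ^ 2 * (1 + a' ^ 4) + 4 * a' ^ 3 * b' * X * Y +
        a' ^ 4 * (Y ^ 2 - 1 - X ^ 4) + (1 + a' ^ 2 * X ^ 2) ^ 2 * (1 + a' ^ 4)) * hc +
        (X ^ 4 * (b' ^ 2 - 1 - a' ^ 4) + 4 * a' * b' * X ^ 3 * Y +
        (6 * a' ^ 2 * X ^ 2 - (1 + a' ^ 2 * X ^ 2) ^ 2) * Y ^ 2) * hcab
    field_simp
    linear_combination h5 + (κ k false N) ^ 4 * h4 + (κ k false T) ^ 2 * hI
  obtain ⟨τ, s, h, hX, hY⟩ := exists_end (cst k i * κ k false N / κ k false M)
    (cst k i * κ k false T / κ k false M ^ 2) hrel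
    (div_ne_zero (mul_ne_zero hIne hT) (pow_ne_zero 2 hM)) 1 one_ne_zero (by
      have dM : D k (κ k false M) = -(2 * cst k a ^ 2 * κ k false (x k) * κ k false (y k)) := by
        rw [kM, D_sub, D_one, ← map_pow, D_cst_mul, D_pow k _ 1, D_x0]
        push_cast
        ring
      have dN : D k (κ k false N) = cst k b * κ k false (y k) +
          cst k a * (-2 * κ k false (x k) ^ 3) := by
        rw [kN, D_add, D_cst_mul, D_cst_mul, D_x0, D_y0]
      rw [D_div _ _ hM, D_cst_mul, dM, dN, map_one, one_mul]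
      rw [div_eq_div_iff (pow_ne_zero 2 hM) (pow_ne_zero 2 hM), kT, kN, kM]
      set X := κ k false (x k)
      set Y := κ k false (y k)
      set a' := cst k a
      set b' := cst k b
      linear_combination (2 * a' ^ 3 * X * cst k i * (1 - a' ^ 2 * X ^ 2) ^ 2) * hc)
  exact ⟨τ, s, h, hM, hX, hY⟩

/-- A translation which maps the point `(a, b)` to `O`. -/
theorem exists_tau_neg (a b : k) (hab : b ^ 2 + a ^ 4 + 1 = 0) (hb : b ≠ 0) (ha : a ^ 4 ≠ 1) :
    ∃ (τ : curve k ⟶ curve k) (s : FK k →+* FK k), IsEnd τ s 1 ∧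
      kpt false a b hab ≫ τ = O hi := by
  have hab' : b ^ 2 + (-a) ^ 4 + 1 = 0 := by linear_combination hab
  obtain ⟨τ, s, h, hM, hX, hY⟩ := exists_tau_formula hi (-a) b hab' hb
  have hc0 : ∀ r, κ k false (cA k r) = cst k r := κ_cst k false
  have ha' : 1 - a ^ 4 ≠ 0 := fun h => ha (by linear_combination -h)
  have eM : (lift a b hab : A k →ₐ[k] k) (1 - cA k (-a) ^ 2 * x k ^ 2) = 1 - a ^ 4 := by
    simp only [map_sub, map_mul, map_pow, map_one, lift_x, lift_cA]
    ring
  have eN : (lift a b hab : A k →ₐ[k] k) (cA k b * x k + cA k (-a) * y k) = 0 := by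
    simp only [map_add, map_mul, lift_x, lift_y, lift_cA]
    ring
  have eT : (lift a b hab : A k →ₐ[k] k) (cA k b * y k * (1 + cA k (-a) ^ 2 * x k ^ 2) -
      2 * cA k (-a) * x k * (x k ^ 2 + cA k (-a) ^ 2)) = -(1 - a ^ 4) ^ 2 := by
    simp only [map_sub, map_add, map_mul, map_pow, map_one, map_ofNat, lift_x, lift_y, lift_cA]
    linear_combination (1 + a ^ 4) * hab
  refine ⟨τ, s, h, ?_⟩
  refine h.eval false false hab ((1 - cA k (-a) ^ 2 * x k ^ 2) ^ 2)
    (cA k i * (cA k b * x k + cA k (-a) * y k) * (1 - cA k (-a) ^ 2 * x k ^ 2))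
    (cA k i * (cA k b * y k * (1 + cA k (-a) ^ 2 * x k ^ 2) -
      2 * cA k (-a) * x k * (x k ^ 2 + cA k (-a) ^ 2))) ?_ ?_ ?_ (O_rel hi) ?_ ?_
  · rw [map_pow, eM]
    exact pow_ne_zero 2 ha'
  · rw [hX, map_mul, map_mul, map_pow, hc0]
    field_simp
  · rw [hY, map_mul, map_pow, hc0]
    field_simp
  · rw [map_pow, map_mul, map_mul, eM, eN, lift_cA]
    ring
  · rw [map_pow, map_mul, eM, eT, lift_cA]
    ring

end Pool.Agent.W513.EC
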