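import Pool.Agent.W513.Dens
import Pool.Agent.W513.MapsF

/-!
# All points of a nonempty open subset are base points
-/

set_option autoImplicit false

open CategoryTheory Limits AlgebraicGeometry IsLocalRing TopologicalSpace

namespace Pool.Agent.W513

open Pool.Agent.Helper198.Sch
open Pool.Agent.H666R3.NG

attribute [local instance] MvPolynomial.gradedAlgebra

variable {k : Type} [Field k]

namespace EC

/-- The points of the first chart with `y ≠ 0` and `x⁴ ≠ 1`. -/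
def D0 (k : Type) [Field k] : Set (curve k) :=
  ch false '' {p : Spec (.of (A k)) | y k * (1 - x k ^ 4) ∉ p.asIdeal}

lemma isOpen_D0 : IsOpen (D0 k) := by
  apply (ch (R := k) false).isOpenEmbedding.isOpenMap
  exact (PrimeSpectrum.basicOpen (y k * (1 - x k ^ 4))).2

lemma kpt_mem_D0 {a b : k} (h : b ^ 2 + a ^ 4 + 1 = 0) (hb : b ≠ 0) (ha : a ^ 4 ≠ 1) :
    kpt false a b h (closedPoint k) ∈ D0 k := by
  refine ⟨Spec.map (CommRingCat.ofHom (lift a b h : A k →ₐ[k] k).toRingHom)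
    (closedPoint k), ?_, rfl⟩
  intro h1
  have h2 : (lift a b h : A k →ₐ[k] k) (y k * (1 - x k ^ 4)) ∈ maximalIdeal k := h1
  rw [map_mul, map_sub, map_pow, map_one, lift_x, lift_y, maximalIdeal_eq_bot] at h2
  rcases mul_eq_zero.1 h2 with h3 | h3
  · exact hb h3
  · exact ha (by linear_combination -h3)

lemma exists_kpt_D0 (c : Spec (.of k) ⟶ curve k) (hc : c ≫ V.str (J k) = 𝟙 _)
    (hD : c (closedPoint k) ∈ D0 k) :
    ∃ (a b : k) (h : b ^ 2 + a ^ 4 + 1 = 0), b ≠ 0 ∧ a ^ 4 ≠ 1 ∧ c = kpt false a b h := by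
  obtain ⟨p, hp, hpc⟩ := hD
  obtain ⟨φ, hφ⟩ := exists_factor (ch false) (.of k) c ⟨p, hpc⟩
  have hp2 : Spec.map φ (closedPoint k) = p := by
    apply (ch (R := k) false).isOpenEmbedding.injective
    rw [hpc, ← hφ]
    rfl
  have hb : φ.hom (y k * (1 - x k ^ 4)) ≠ 0 := by
    intro h0
    apply hp
    rw [← hp2]
    change φ.hom (y k * (1 - x k ^ 4)) ∈ maximalIdeal k
    rw [h0]
    exact Ideal.zero_mem _
  rw [map_mul, map_sub, map_pow, map_one] at hb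
  have h1 : ∀ r, φ.hom (algebraMap k (A k) r) = r := by
    rw [← hφ, Category.assoc, ch_str, ← Spec.map_comp, ← Spec.map_id] at hc
    exact fun r => congrArg (fun t => t.hom r) (Spec.map_injective hc)
  have h2 : (φ.hom (y k)) ^ 2 + (φ.hom (x k)) ^ 4 + 1 = 0 := by
    rw [← map_pow, ← map_pow, ← map_one φ.hom, ← map_add, ← map_add, rel]
    exact map_zero φ.hom
  refine ⟨φ.hom (x k), φ.hom (y k), h2, left_ne_zero_of_mul hb, ?_, ?_⟩
  · intro h3
    apply right_ne_zero_of_mul hb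
    rw [h3]
    exact sub_self _
  rw [kpt, ← hφ]
  congr 2
  ext : 1
  apply ext_ring
  · intro r
    rw [h1]
    exact ((lift _ _ h2 : A k →ₐ[k] k).commutes r).symm
  · exact (lift_x _ _ h2).symm
  · exact (lift_y _ _ h2).symm

end EC

variable (k) in
/-- The open set of the product. -/
noncomputable def U0 : (YY k).Opens :=
  ⟨(pr1 k) ⁻¹' FQ.D k ∩ (pr2 k) ⁻¹' EC.D0 k,
    (FQ.isOpen_D.preimage (pr1 k).continuous).inter (EC.isOpen_D0.preimage (pr2 k).continuous)⟩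

variable [CharZero k] [IsAlgClosed k]

lemma nonempty_U0 : ((U0 k : (YY k).Opens) : Set (YY k)).Nonempty := by
  obtain ⟨ζ, hζ⟩ := IsAlgClosed.exists_pow_nat_eq (-1 : k) (n := 4) (by norm_num)
  have h0 : (0 : k) ^ 4 + ζ ^ 4 + 1 = 0 := by rw [hζ]; ring
  have hζ0 : ζ ≠ 0 := by
    rintro rfl
    norm_num at hζ
  obtain ⟨b, hb⟩ := IsAlgClosed.exists_pow_nat_eq (-1 : k) (n := 2) two_pos
  have hb0 : b ^ 2 + (0 : k) ^ 4 + 1 = 0 := by rw [hb]; ring
  have hb1 : b ≠ 0 := by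
    rintro rfl
    norm_num at hb
  let u₀ : Spec (.of k) ⟶ YY k := pullback.lift (FQ.fpt false 0 ζ h0) (EC.kpt false 0 b hb0)
    (by rw [FQ.fpt_str, EC.kpt_str])
  have hu₁ : u₀ ≫ pr1 k = FQ.fpt false 0 ζ h0 := pullback.lift_fst _ _ _
  have hu₂ : u₀ ≫ pr2 k = EC.kpt false 0 b hb0 := pullback.lift_snd _ _ _
  refine ⟨u₀ (closedPoint k), ?_, ?_⟩
  · have h1 : pr1 k (u₀ (closedPoint k)) = FQ.fpt false 0 ζ h0 (closedPoint k) :=
      congrArg (fun t : Spec (.of k) ⟶ FQ.crv k => t (closedPoint k)) hu₁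
    rw [Set.mem_preimage, h1]
    exact FQ.fpt_mem_D h0 hζ0
  · have h1 : pr2 k (u₀ (closedPoint k)) = EC.kpt false 0 b hb0 (closedPoint k) :=
      congrArg (fun t : Spec (.of k) ⟶ EC.curve k => t (closedPoint k)) hu₂
    rw [Set.mem_preimage, h1]
    exact EC.kpt_mem_D0 hb0 hb1 (by simp)

theorem main2 (y : YY k) (hyU : y ∈ U0 k) (hyc : IsClosed ({y} : Set (YY k))) (X : Scheme.{0})
    (σ : X ⟶ YY k) (hσ : IsBlowUpAt σ y) (n : ℕ) :
    ∃ (C : Scheme.{0}) (_ : IsIntegral C) (ι : C ⟶ X), IsIntegralCurve ι ∧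
        σ (ι (genericPoint C)) ≠ y ∧ HasSelfIntersection ι (-1) ∧
        ∃ g, n ≤ g ∧ HasGenus (ι ≫ σ ≫ sY k) g := by
  obtain ⟨i, hi⟩ := IsAlgClosed.exists_pow_nat_eq (-1 : k) (n := 2) two_pos
  obtain ⟨φ, sφ, hφ, hφO, hφ2⟩ := EC.exists_phi hi
  set u := pointOfClosedPoint (sY k) y hyc with hudef
  have hu : u ≫ sY k = 𝟙 _ := pointOfClosedPoint_comp _ _ _
  have huy : u (closedPoint k) = y := pointOfClosedPoint_apply _ _ _ _
  have hc1 : (u ≫ pr1 k) ≫ V.str (Fermat.J k) = 𝟙 _ := by rw [Category.assoc, hu]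
  have hc2 : (u ≫ pr2 k) ≫ V.str (EC.J k) = 𝟙 _ := by rw [Category.assoc, ← sY_eq, hu]
  obtain ⟨a, b, hab, hb, hc⟩ := FQ.exists_fpt (u ≫ pr1 k) hc1 (by
    have h3 : (u ≫ pr1 k) (closedPoint k) = pr1 k y := congrArg (fun t => pr1 k t) huy
    rw [h3]
    exact hyU.1)
  obtain ⟨a', b', hab', hb', ha', hp⟩ := EC.exists_kpt_D0 (u ≫ pr2 k) hc2 (by
    have h3 : (u ≫ pr2 k) (closedPoint k) = pr2 k y := congrArg (fun t => pr2 k t) huy
    rw [h3]
    exact hyU.2)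
  have hb2 : (b ^ 2) ^ 2 + a ^ 4 + 1 = 0 := by linear_combination hab
  obtain ⟨τ, sτ, hτ, hτO⟩ := EC.exists_tau hi a (b ^ 2) hb2 (pow_ne_zero 2 hb)
  obtain ⟨τ', sτ', hτ', hτO'⟩ := EC.exists_tau_neg hi a' b' hab' hb' ha'
  obtain ⟨b₁, hb₁⟩ := IsAlgClosed.exists_pow_nat_eq (-1 : k) (n := 2) two_pos
  have hb₁' : b₁ ^ 2 + (0 : k) ^ 4 + 1 = 0 := by rw [hb₁]; ring
  have hE : EC.IsE φ := ⟨sφ, _, hφ⟩
  have hEτ : EC.IsE τ := ⟨sτ, _, hτ⟩
  have hEτ' : EC.IsE τ' := ⟨sτ', _, hτ'⟩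
  obtain ⟨q₀, hq₀⟩ := hEτ.exists_point ⟨EC.kpt true 0 b₁ hb₁', EC.kpt_str _ _ _ _⟩
  obtain ⟨S, hS, hS'⟩ := EC.card_preimages φ hφ2 n q₀
  have hcard : n + 1 ≤ S.card := by
    rw [hS]
    exact Nat.lt_two_pow_self
  choose lf hlf using fun q : EC.Kp k => hEτ'.exists_point q
  let P : Fin (n + 1) → EC.Kp k := fun t => lf (S.equivFin.symm (Fin.castLE hcard t)).1
  have hPinj : Function.Injective P := by
    intro t t' htt
    have h1 : (S.equivFin.symm (Fin.castLE hcard t)).1 =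
        (S.equivFin.symm (Fin.castLE hcard t')).1 := by
      apply Subtype.ext
      exact (hlf _).symm.trans ((congrArg (fun q : EC.Kp k => q.1 ≫ τ') htt).trans (hlf _))
    have h2 := S.equivFin.symm.injective (Subtype.ext h1)
    exact Fin.castLE_injective hcard h2
  have hPψ : ∀ t, (P t).1 ≫ τ' ≫ EC.iter φ n ≫ τ = EC.kpt true 0 b₁ hb₁' := by
    intro t
    have h1 : (P t).1 ≫ τ' = (S.equivFin.symm (Fin.castLE hcard t)).1.1 := hlf _
    rw [← Category.assoc, h1, ← Category.assoc,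
      hS' _ (S.equivFin.symm (Fin.castLE hcard t)).2, hq₀]
  refine curve_on_blowUp (hEτ'.comp ((hE.iter n).comp hEτ)) σ hσ hyc hab hb
    (EC.kpt false a' b' hab') ?_ ?_ hb₁' P hPinj hPψ
  · rw [FQ.fpt_f false a b hab hb2, ← Category.assoc, hτO', ← Category.assoc, EC.iter_fix hφO,
      hτO]
  · intro v hv1 hv2
    rw [← huy]
    have : v = u := by
      apply pullback.hom_ext
      · exact hv1.trans hc.symm
      · exact hv2.trans hp.symm
    rw [this]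

end Pool.Agent.W513
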