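import Pool.Agent.W513.FnE

/-!
# Endomorphisms of the elliptic curve which scale the derivation
-/

set_option autoImplicit false

open AlgebraicGeometry CategoryTheory Limits IsLocalRing

namespace Pool.Agent.W513.EC

open Pool.Agent.Helper198.Sch

attribute [local instance] MvPolynomial.gradedAlgebra

variable {k : Type} [Field k] [CharZero k]

/-- The endomorphism `ψ` of the curve acts by `s` on the function field and multiplies the
derivation by `μ`. -/
structure IsEnd (ψ : curve k ⟶ curve k) (s : FK k →+* FK k) (μ : k) : Prop where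
  str : ψ ≫ V.str (J k) = V.str (J k)
  gen : Spec.map (CommRingCat.ofHom s) ≫ gen k = gen k ≫ ψ
  ne : μ ≠ 0
  der : ∀ f, D k (s f) = cst k μ * s (D k f)

namespace IsEnd

lemma comp {ψ₁ ψ₂ : curve k ⟶ curve k} {s₁ s₂ : FK k →+* FK k} {μ₁ μ₂ : k}
    (h₁ : IsEnd ψ₁ s₁ μ₁) (h₂ : IsEnd ψ₂ s₂ μ₂) (hs : ∀ r, s₁ (cst k r) = cst k r) :
    IsEnd (ψ₁ ≫ ψ₂) (s₁.comp s₂) (μ₁ * μ₂) where
  str := by rw [Category.assoc, h₂.str, h₁.str]
  gen := by
    rw [CommRingCat.ofHom_comp, Spec.map_comp, Category.assoc, h₂.gen, ← Category.assoc, h₁.gen,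
      Category.assoc]
  ne := mul_ne_zero h₁.ne h₂.ne
  der f := by
    rw [RingHom.comp_apply, RingHom.comp_apply, h₁.der, h₂.der, map_mul, map_mul, hs]
    ring

variable {ψ : curve k ⟶ curve k} {s : FK k →+* FK k} {μ : k} (h : IsEnd ψ s μ)

include h

lemma cst_eq (r : k) : s (cst k r) = cst k r := by
  have h1 := congrArg (fun t => t ≫ V.str (J k)) h.gen
  simp only [Category.assoc] at h1
  rw [h.str, gen_str, ← Spec.map_comp, ← CommRingCat.ofHom_comp] at h1
  exact congrArg (fun t => t.hom r) (Spec.map_injective h1)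

lemma gen_coord (c : Bool) : Spec.map (CommRingCat.ofHom (s.comp (κ k c))) ≫ ch c = EC.gen k ≫ ψ := by
  rw [CommRingCat.ofHom_comp, Spec.map_comp, Category.assoc, κ_spec, h.gen]

lemma apply_generic : ψ (genericPoint (curve k)) = genericPoint (curve k) := by
  have h1 := congrArg (fun f : Spec (FK k) ⟶ curve k => f (closedPoint (FK k))) h.gen
  have h2 : (EC.gen k) (closedPoint (FK k)) = genericPoint (curve k) :=
    Scheme.fromSpecStalk_closedPoint
  have h3 : (Spec.map (CommRingCat.ofHom s)) (closedPoint (FK k)) = closedPoint (FK k) :=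
    Subsingleton.elim (α := PrimeSpectrum (FK k)) _ _
  have h4 : (EC.gen k) ((Spec.map (CommRingCat.ofHom s)) (closedPoint (FK k))) =
    ψ ((EC.gen k) (closedPoint (FK k))) := h1
  rw [h3, h2] at h4
  exact h4.symm

lemma isProper : IsProper ψ := by
  have h1 : IsProper (ψ ≫ V.str (J k)) := by
    rw [h.str]
    infer_instance
  exact IsProper.of_comp ψ (V.str (J k))

lemma surjective : Function.Surjective ψ := by
  have hp := h.isProper
  have hc : IsClosed (Set.range ψ) := ψ.isClosedMap.isClosed_range
  have hd : genericPoint (curve k) ∈ Set.range ψ := ⟨_, h.apply_generic⟩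
  intro z
  have h1 : (genericPoint (curve k)) ⤳ z := genericPoint_specializes z
  exact h1.mem_closed hc hd

end IsEnd

section create

/-- A ring homomorphism from the chart ring extends to the function field. -/
lemma exists_extend (g : A k →+* FK k) (hg : Function.Injective g) :
    ∃ s : FK k →+* FK k, s.comp (κ k false) = g := by
  let _ : Algebra (A k) (FK k) := (κ k false).toAlgebra
  have hfr : IsFractionRing (A k) (FK k) := by
    refine ⟨?_, ?_, ?_⟩
    · rintro ⟨t, ht⟩
      exact IsUnit.mk0 _ (by
        change κ k false t ≠ 0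
        rw [← map_zero (κ k false)]
        exact fun h => nonZeroDivisors.ne_zero ht (κ_injective k false h))
    · intro f
      obtain ⟨a, t, ht, h⟩ := κ_surj k false f
      refine ⟨⟨a, ⟨t, mem_nonZeroDivisors_of_ne_zero ?_⟩⟩, ?_⟩
      · rintro rfl
        exact ht (map_zero _)
      · change f * κ k false t = κ k false a
        rw [mul_comm, h]
    · intro a b hab
      exact ⟨1, by rw [κ_injective k false hab]⟩
  have hu : ∀ t : nonZeroDivisors (A k), IsUnit (g t) := by
    rintro ⟨t, ht⟩
    exact IsUnit.mk0 _ (by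
      rw [← map_zero g]
      exact fun h => nonZeroDivisors.ne_zero ht (hg h))
  refine ⟨IsLocalization.lift (M := nonZeroDivisors (A k)) hu, ?_⟩
  apply RingHom.ext
  intro a
  exact IsLocalization.lift_eq hu a

variable [IsAlgClosed k]

/-- A solution of the equation of the curve in the function field whose derivative is a multiple
defines an endomorphism. -/
theorem exists_end (X Y : FK k) (hXY : Y ^ 2 + X ^ 4 + 1 = 0) (hY : Y ≠ 0) (μ : k) (hμ : μ ≠ 0)
    (hD : D k X = cst k μ * Y) :
    ∃ (ψ : curve k ⟶ curve k) (s : FK k →+* FK k), IsEnd ψ s μ ∧ s (κ k false (x k)) = X ∧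
      s (κ k false (y k)) = Y := by
  let _ : Algebra k (FK k) := (cst k).toAlgebra
  let g : A k →ₐ[k] FK k := lift X Y hXY
  have gx : g (x k) = X := lift_x _ _ _
  have gy : g (y k) = Y := lift_y _ _ _
  have gc : ∀ r, g (algebraMap k (A k) r) = cst k r := fun r => g.commutes r
  have hcμ : cst k μ ≠ 0 := by
    rw [← map_zero (cst k)]
    exact fun h => hμ ((cst k).injective h)
  have hg : Function.Injective g := by
    rw [RingHom.injective_iff_ker_eq_bot]
    by_contra hbot
    have h1 := isMaximal_of_ne_bot k two_ne_zero _ hbot (RingHom.ker_isPrime _)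
    obtain ⟨a, b, h, hab⟩ := exists_ev _ h1
    have h2 : x k - algebraMap k (A k) a ∈ RingHom.ker g := by
      rw [hab, RingHom.mem_ker, map_sub, lift_x, AlgHom.commutes]
      exact sub_self _
    rw [RingHom.mem_ker, map_sub, gx, gc, sub_eq_zero] at h2
    rw [h2, D_cst] at hD
    exact mul_ne_zero hcμ hY hD.symm
  obtain ⟨s, hs⟩ := exists_extend g.toRingHom hg
  have hs' : ∀ a, s (κ k false a) = g a := fun a => congrArg (fun f : A k →+* FK k => f a) hs
  have hgen : (Spec.map (CommRingCat.ofHom g.toRingHom) ≫ ch false) ≫ V.str (J k) =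
      (curve k).fromSpecStalk (genericPoint (curve k)) ≫ V.str (J k) := by
    have h3 := gen_str k
    rw [Category.assoc, spec_alg, h3]
    congr 2
    ext r
    exact gc r
  obtain ⟨ψ, hψ1, hψ2⟩ := exists_extension (V.str (J k)) (V.str (J k)) valuationRing_stalk
    (Spec.map (CommRingCat.ofHom g.toRingHom) ≫ ch false) hgen
  refine ⟨ψ, s, ⟨hψ1, ?_, hμ, ?_⟩, by rw [hs', gx], by rw [hs', gy]⟩
  · rw [← κ_spec k false, ← Category.assoc, ← Spec.map_comp, ← CommRingCat.ofHom_comp, hs,
      κ_spec]
    exact hψ2.symm
  · let S : Subalgebra k (A k) :=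
      { carrier := {a | D k (s (κ k false a)) = cst k μ * s (D k (κ k false a))}
        mul_mem' := by
          intro a b ha hb
          simp only [Set.mem_ofPred_eq] at ha hb ⊢
          rw [map_mul, map_mul, D_mul, D_mul, ha, hb, map_add, map_mul, map_mul]
          ring
        add_mem' := by
          intro a b ha hb
          simp only [Set.mem_ofPred_eq] at ha hb ⊢
          rw [map_add, map_add, D_add, D_add, ha, hb, map_add]
          ring
        algebraMap_mem' := by
          intro r
          simp only [Set.mem_ofPred_eq]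
          rw [hs', gc, D_cst, κ_cst, D_cst, map_zero, mul_zero] }
    have hS : S = ⊤ := by
      apply subalgebra_eq_top
      · change D k (s (κ k false (x k))) = cst k μ * s (D k (κ k false (x k)))
        rw [hs', gx, hD, D_x0, hs', gy]
      · change D k (s (κ k false (y k))) = cst k μ * s (D k (κ k false (y k)))
        rw [hs', gy, D_y_of k hXY hY hD, D_y0, map_mul, map_pow, hs', gx, map_neg, map_ofNat]
        ring
    have hA : ∀ a, D k (s (κ k false a)) = cst k μ * s (D k (κ k false a)) := by
      intro a
      have h1 : a ∈ S := by rw [hS]; trivial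
      exact h1
    intro f
    obtain ⟨a, t, ht, h⟩ := κ_surj k false f
    have e1 := hA a
    have e2 := hA t
    rw [← h, map_mul, D_mul, D_mul, map_add, map_mul, map_mul, e2] at e1
    have hst : s (κ k false t) ≠ 0 := by
      rw [← map_zero s]
      exact fun h => ht (s.injective h)
    apply mul_left_cancel₀ hst
    linear_combination e1

end create

end Pool.Agent.W513.EC
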