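import Mathlib

/-!
# Morphisms from a curve to a proper scheme are determined by, and extend from, the generic point
-/

set_option autoImplicit false

open AlgebraicGeometry CategoryTheory Limits

namespace Pool.Agent.W513

variable {X Y S : Scheme.{0}} (sX : X ⟶ S) (sY : Y ⟶ S)

instance isDominant_fromSpecStalk_generic (X : Scheme.{0}) [IsIntegral X] :
    IsDominant (X.fromSpecStalk (genericPoint X)) := by
  refine ⟨?_⟩
  have h : Dense ({genericPoint X} : Set X) := by
    rw [dense_iff_closure_eq]
    exact (genericPoint_spec X)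
  refine h.mono ?_
  rintro _ rfl
  rw [Scheme.range_fromSpecStalk]
  exact specializes_rfl

lemma hom_ext_generic [IsIntegral X] [IsSeparated sY] {f g : X ⟶ Y} (hf : f ≫ sY = g ≫ sY)
    (h : X.fromSpecStalk (genericPoint X) ≫ f = X.fromSpecStalk (genericPoint X) ≫ g) : f = g :=
  ext_of_isDominant_of_isSeparated sY hf (X.fromSpecStalk (genericPoint X)) h

lemma specMap_algebraMap_fromSpecStalk [IsIntegral X] (x : X) :
    Spec.map (CommRingCat.ofHom (algebraMap (X.presheaf.stalk x) X.functionField)) ≫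
      X.fromSpecStalk x = X.fromSpecStalk (genericPoint X) :=
  Scheme.SpecMap_stalkSpecializes_fromSpecStalk ((genericPoint_spec X).specializes trivial)

lemma fromSpecStalkOfMem_specializes [IsIntegral X] {P : X.PartialMap Y} {x : X}
    (hx : x ∈ P.domain) :
    Spec.map (CommRingCat.ofHom (algebraMap (X.presheaf.stalk x) X.functionField)) ≫
      P.fromSpecStalkOfMem hx = P.fromFunctionField := by
  unfold Scheme.PartialMap.fromFunctionField Scheme.PartialMap.fromSpecStalkOfMem
  rw [← Category.assoc]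
  congr 1
  rw [← cancel_mono P.domain.ι, Category.assoc, Scheme.Opens.fromSpecStalkOfMem_ι,
    Scheme.Opens.fromSpecStalkOfMem_ι]
  exact specMap_algebraMap_fromSpecStalk x

lemma exists_lift {R K : Type} [CommRing R] [IsDomain R] [ValuationRing R] [Field K] [Algebra R K]
    [IsFractionRing R K] [IsProper sY] (g : Spec (.of K) ⟶ Y) (i : Spec (.of R) ⟶ S)
    (h : g ≫ sY = Spec.map (CommRingCat.ofHom (algebraMap R K)) ≫ i) :
    ∃ l : Spec (.of R) ⟶ Y, Spec.map (CommRingCat.ofHom (algebraMap R K)) ≫ l = g ∧ l ≫ sY = i := by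
  have hprop : (ValuativeCriterion ⊓ @QuasiCompact ⊓ @QuasiSeparated ⊓ @LocallyOfFiniteType) sY := by
    rw [← IsProper.eq_valuativeCriterion]
    infer_instance
  obtain ⟨⟨⟨h1, _⟩, _⟩, _⟩ := hprop
  let sq : ValuativeCommSq sY := { R := R, K := K, i₁ := g, i₂ := i, commSq := ⟨h⟩ }
  have h2 := h1.existence sq
  exact ⟨sq.commSq.lift, sq.commSq.fac_left, sq.commSq.fac_right⟩

lemma exists_lift' (R K : CommRingCat.{0}) [IsDomain R] [ValuationRing R] (hK : IsField K)
    (φ : R ⟶ K) (hφ : letI := φ.hom.toAlgebra; IsFractionRing R K) [IsProper sY]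
    (g : Spec K ⟶ Y) (i : Spec R ⟶ S) (h : g ≫ sY = Spec.map φ ≫ i) :
    ∃ l : Spec R ⟶ Y, Spec.map φ ≫ l = g ∧ l ≫ sY = i := by
  let _ : Field K := hK.toField
  let _ := φ.hom.toAlgebra
  exact exists_lift (R := R) (K := K) sY g i h

/-- A morphism from the generic point of an integral scheme, all of whose local rings are valuation
rings, to a proper scheme extends to the whole scheme. -/
theorem exists_extension [IsIntegral X] [Y.IsSeparated] [S.IsSeparated] [IsProper sY]
    (hX : ∀ x : X, ValuationRing (X.presheaf.stalk x))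
    (g : Spec X.functionField ⟶ Y)
    (hg : g ≫ sY = X.fromSpecStalk (genericPoint X) ≫ sX) :
    ∃ ψ : X ⟶ Y, ψ ≫ sY = sX ∧ X.fromSpecStalk (genericPoint X) ≫ ψ = g := by
  let r : X.RationalMap Y := Scheme.RationalMap.ofFunctionField sX sY g hg
  have hr : r.fromFunctionField = g := Scheme.RationalMap.fromFunctionField_ofFunctionField _ _ _ _
  have hdom : r.domain = ⊤ := by
    rw [eq_top_iff]
    intro x _
    have hv := hX x
    have hx : g ≫ sY = Spec.map (CommRingCat.ofHom (algebraMap (X.presheaf.stalk x)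
        X.functionField)) ≫ X.fromSpecStalk x ≫ sX := by
      rw [hg, ← Category.assoc, specMap_algebraMap_fromSpecStalk]
    have hfr : IsFractionRing (X.presheaf.stalk x) X.functionField := inferInstance
    obtain ⟨l, hl1, hl2⟩ := exists_lift' sY (X.presheaf.stalk x) X.functionField
      (Field.toIsField _) _ hfr g (X.fromSpecStalk x ≫ sX) hx
    have hP := Scheme.PartialMap.mem_domain_ofFromSpecStalk sX sY l hl2
    rw [Scheme.RationalMap.mem_domain]
    refine ⟨Scheme.PartialMap.ofFromSpecStalk sX sY l hl2, hP, ?_⟩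
    apply Scheme.RationalMap.eq_of_fromFunctionField_eq
    rw [hr, Scheme.RationalMap.fromFunctionField_toRationalMap, ← fromSpecStalkOfMem_specializes hP,
      Scheme.PartialMap.fromSpecStalkOfMem_ofFromSpecStalk]
    exact hl1
  have hdom' : r.toPartialMap.domain = ⊤ := hdom
  obtain ⟨ψ, h3⟩ : ∃ ψ : X ⟶ Y, ψ.toPartialMap = r.toPartialMap := by
    generalize r.toPartialMap = P at hdom' ⊢
    obtain ⟨U, hU, f⟩ := P
    obtain rfl : U = ⊤ := hdom'
    exact ⟨X.topIso.inv ≫ f, Scheme.PartialMap.ext _ _ rfl (by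
      change X.topIso.hom ≫ X.topIso.inv ≫ f = (X.isoOfEq (refl _)).hom ≫ f
      rw [Scheme.isoOfEq_rfl]
      simp)⟩
  have h4 : X.fromSpecStalk (genericPoint X) ≫ ψ = g := by
    have h5 : ψ.toRationalMap = r := by
      rw [Scheme.Hom.toRationalMap, h3, Scheme.RationalMap.toRationalMap_toPartialMap]
    have h6 := congrArg Scheme.RationalMap.fromFunctionField h5
    rw [hr] at h6
    rw [← h6]
    exact (Scheme.PartialMap.fromSpecStalkOfMem_toPartialMap ψ _).symm
  refine ⟨ψ, ?_, h4⟩
  refine ext_of_isDominant (ι := X.fromSpecStalk (genericPoint X)) ?_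
  rw [← Category.assoc, h4, hg]

end Pool.Agent.W513
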