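import Pool.Agent.W513.SchE2

/-!
# The double cover `f : C → E` of the elliptic curve by the Fermat quartic
-/

set_option autoImplicit false

open MvPolynomial AlgebraicGeometry CategoryTheory Limits TopologicalSpace

namespace Pool.Agent.W513.FQ

open Pool.Agent.Helper198.Sch
open Pool.Agent.H666R3.NG

attribute [local instance] MvPolynomial.gradedAlgebra

section defs

variable {R : Type} [CommRing R]

/-- The two orderings of the coordinates. -/
def tt (c : Bool) : Fermat.Ord :=
  if c then ⟨1, 2, 0, by decide, by decide, by decide⟩ else ⟨0, 2, 1, by decide, by decide, by decide⟩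

lemma tt_a (c : Bool) : (tt c).a = 2 := by cases c <;> rfl

lemma tt_b (c : Bool) : (tt c).b = (tt (!c)).c := by cases c <;> rfl

variable (R) in
/-- The Fermat curve. -/
noncomputable abbrev crv : Scheme.{0} := Fermat.curve R

/-- The chart `Spec B → C`. -/
noncomputable def ch (c : Bool) : Spec (.of (Fermat.A R)) ⟶ crv R :=
  Spec.map (CommRingCat.ofHom (Fermat.chEquiv (R := R) (tt c)).toRingEquiv.toRingHom) ≫
    V.chart (Fermat.J R) (tt c).c

instance isIso_chEquiv (c : Bool) :
    IsIso (Spec.map (CommRingCat.ofHom (Fermat.chEquiv (R := R) (tt c)).toRingEquiv.toRingHom)) := by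
  have : IsIso (CommRingCat.ofHom (Fermat.chEquiv (R := R) (tt c)).toRingEquiv.toRingHom) :=
    (RingEquiv.toCommRingCatIso (Fermat.chEquiv (R := R) (tt c)).toRingEquiv).isIso_hom
  infer_instance

instance isOpenImmersion_ch (c : Bool) : IsOpenImmersion (ch (R := R) c) := by
  unfold ch
  infer_instance

lemma ch_str (c : Bool) :
    ch (R := R) c ≫ V.str (Fermat.J R) =
      Spec.map (CommRingCat.ofHom (algebraMap R (Fermat.A R))) := by
  rw [ch, Category.assoc, V.chart_str, ← Spec.map_comp, ← CommRingCat.ofHom_comp]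
  congr 2
  ext r
  exact (Fermat.chEquiv (R := R) (tt c)).commutes r

lemma range_ch (c : Bool) :
    Set.range (ch (R := R) c) = Set.range (V.chart (Fermat.J R) (tt c).c) := by
  unfold ch
  ext z
  constructor
  · rintro ⟨w, rfl⟩
    exact ⟨_, rfl⟩
  · rintro ⟨w, rfl⟩
    obtain ⟨v, rfl⟩ := (Spec.map (CommRingCat.ofHom
      (Fermat.chEquiv (R := R) (tt c)).toRingEquiv.toRingHom)).homeomorph.surjective w
    exact ⟨v, rfl⟩

lemma exists_mem_range_ch (z : crv R) : ∃ c : Bool, z ∈ Set.range (ch (R := R) c) := by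
  obtain ⟨i, hi⟩ := V.exists_mem_D (Fermat.J R) z
  by_contra hcon
  push Not at hcon
  have h0 := hcon false
  have h1 := hcon true
  rw [range_ch, V.mem_range_chart, V.mem_D_iff, not_not] at h0 h1
  rw [V.mem_D_iff] at hi
  have g1 : gen (Fermat.J R) 2 ^ 4 = -(gen (Fermat.J R) 0 ^ 4 + gen (Fermat.J R) 1 ^ 4) := by
    have : Ideal.Quotient.mk (Fermat.J R).toIdeal (Fermat.form R) = 0 :=
      Ideal.Quotient.eq_zero_iff_mem.2 (mem_ofSet rfl)
    rw [Fermat.form, map_sum, Fin.sum_univ_three] at this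
    simp only [map_pow] at this
    exact eq_neg_of_add_eq_zero_right this
  let P : Ideal (MvPolynomial (Fin 3) R ⧸ (Fermat.J R).toIdeal) :=
    (ProjectiveSpectrum.asHomogeneousIdeal (𝒜 := qgrad (Fermat.J R).toIdeal) z).toIdeal
  have hP : P.IsPrime := ProjectiveSpectrum.isPrime (𝒜 := qgrad (Fermat.J R).toIdeal) z
  have h0' : gen (Fermat.J R) 0 ∈ P := h0
  have h1' : gen (Fermat.J R) 1 ∈ P := h1
  have h2' : gen (Fermat.J R) 2 ∈ P := hP.mem_of_pow_mem 4 (by
    rw [g1]
    exact P.neg_mem (P.add_mem (P.pow_mem_of_mem h0' 4 (by norm_num))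
      (P.pow_mem_of_mem h1' 4 (by norm_num))))
  apply hi
  fin_cases i
  · exact h0'
  · exact h1'
  · exact h2'

/-- Transition between the charts. -/
lemma ch_rel {B : Type} [CommRing B] {c : Bool} {f g : Fermat.A R →+* B}
    (h : Spec.map (CommRingCat.ofHom f) ≫ ch c = Spec.map (CommRingCat.ofHom g) ≫ ch (!c)) :
    f (Fermat.x R) * g (Fermat.x R) = 1 ∧
      g (Fermat.y R) = f (Fermat.y R) * g (Fermat.x R) := by
  have h' : Spec.map (CommRingCat.ofHom
        (f.comp (Fermat.chEquiv (R := R) (tt c)).toRingEquiv.toRingHom)) ≫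
      V.chart (Fermat.J R) (tt c).c =
      Spec.map (CommRingCat.ofHom
        (g.comp (Fermat.chEquiv (R := R) (tt (!c))).toRingEquiv.toRingHom)) ≫
      V.chart (Fermat.J R) (tt (!c)).c := by
    rw [CommRingCat.ofHom_comp, CommRingCat.ofHom_comp, Spec.map_comp, Spec.map_comp,
      Category.assoc, Category.assoc]
    exact h
  have e2 := chart_eq_rel (Fermat.J R) _ _ _ _ h' (tt (!c)).c
  have e3 := chart_eq_rel (Fermat.J R) _ _ _ _ h' 2
  rw [frac_self, map_one] at e2
  have k1 : ∀ (c : Bool) (f : Fermat.A R →+* B),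
      (f.comp (Fermat.chEquiv (R := R) (tt c)).toRingEquiv.toRingHom)
      (frac (Fermat.J R) (tt c).c (tt (!c)).c) = f (Fermat.x R) := fun c f => by
    rw [← tt_b]
    exact congrArg f (Fermat.chEquiv_b (tt c))
  have k3 : ∀ (c : Bool) (f : Fermat.A R →+* B),
      (f.comp (Fermat.chEquiv (R := R) (tt c)).toRingEquiv.toRingHom)
      (frac (Fermat.J R) (tt c).c 2) = f (Fermat.y R) := fun c f => by
    rw [← tt_a c]
    exact congrArg f (Fermat.chEquiv_a (tt c))
  have k4 : (g.comp (Fermat.chEquiv (R := R) (tt (!c))).toRingEquiv.toRingHom)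
      (frac (Fermat.J R) (tt (!c)).c (tt c).c) = g (Fermat.x R) := by
    have := k1 (!c) g
    rwa [Bool.not_not] at this
  rw [k1, k4] at e2
  rw [k3, k4, k3] at e3
  exact ⟨e2, e3.symm⟩

lemma mem_range_ch_not (c : Bool) (p : Spec (.of (Fermat.A R))) :
    ch (!c) p ∈ Set.range (ch (R := R) c) ↔ Fermat.x R ∉ p.asIdeal := by
  rw [range_ch, V.mem_range_chart]
  have h1 : ch (!c) p = V.chart (Fermat.J R) (tt (!c)).c (Spec.map (CommRingCat.ofHom
    (Fermat.chEquiv (R := R) (tt (!c))).toRingEquiv.toRingHom) p) := rfl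
  rw [h1, V.chart_mem_D]
  have h2 : (Fermat.chEquiv (R := R) (tt (!c))) (frac (Fermat.J R) (tt (!c)).c (tt c).c) =
      Fermat.x R := by
    have := Fermat.chEquiv_b (R := R) (tt (!c))
    rwa [tt_b, Bool.not_not] at this
  have h3 : frac (Fermat.J R) (tt (!c)).c (tt c).c ∈ (Spec.map (CommRingCat.ofHom
      (Fermat.chEquiv (R := R) (tt (!c))).toRingEquiv.toRingHom) p).asIdeal ↔
      (Fermat.chEquiv (R := R) (tt (!c))) (frac (Fermat.J R) (tt (!c)).c (tt c).c) ∈ p.asIdeal :=
    Iff.rfl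
  rw [h3, h2]

end defs

end Pool.Agent.W513.FQ

namespace Pool.Agent.W513.EC

open Pool.Agent.Helper198.Sch

attribute [local instance] MvPolynomial.gradedAlgebra

variable {R : Type} [CommRing R]

lemma mem_range_ch_not (c : Bool) (p : Spec (.of (A R))) :
    ch (!c) p ∈ Set.range (ch (R := R) c) ↔ x R ∉ p.asIdeal := by
  rw [range_ch, V.mem_range_chart]
  have h1 : ch (!c) p = V.chart (J R) (cc (!c)) (Spec.map (CommRingCat.ofHom
    (chEquiv (R := R) (!c)).toRingEquiv.toRingHom) p) := rfl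
  rw [h1, V.chart_mem_D]
  have h2 : (chEquiv (R := R) (!c)) (frac (J R) (cc (!c)) (cc c)) = x R ^ 2 := by
    cases c <;> exact chEquiv_co _
  have h3 : frac (J R) (cc (!c)) (cc c) ∈ (Spec.map (CommRingCat.ofHom
      (chEquiv (R := R) (!c)).toRingEquiv.toRingHom) p).asIdeal ↔
      (chEquiv (R := R) (!c)) (frac (J R) (cc (!c)) (cc c)) ∈ p.asIdeal :=
    Iff.rfl
  rw [h3, h2, p.isPrime.pow_mem_iff_mem 2 two_pos]

end Pool.Agent.W513.EC
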