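import Pool.Agent.W513.FC

/-!
# The double cover `f : C → E` of the elliptic curve by the Fermat quartic: gluing
-/

set_option autoImplicit false

open MvPolynomial AlgebraicGeometry CategoryTheory Limits TopologicalSpace

namespace Pool.Agent.W513.FQ

open Pool.Agent.Helper198.Sch
open Pool.Agent.H666R3.NG

attribute [local instance] MvPolynomial.gradedAlgebra

variable {R : Type} [CommRing R]

lemma fr_rel : (Fermat.y R ^ 2) ^ 2 + Fermat.x R ^ 4 + 1 = 0 := by
  linear_combination Fermat.rel R

variable (R) in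
/-- The ring map `A → B`, `x ↦ x`, `y ↦ w²`. -/
noncomputable def fr : EC.A R →ₐ[R] Fermat.A R :=
  EC.lift (Fermat.x R) (Fermat.y R ^ 2) fr_rel

lemma fr_x : fr R (EC.x R) = Fermat.x R := EC.lift_x _ _ _

lemma fr_y : fr R (EC.y R) = Fermat.y R ^ 2 := EC.lift_y _ _ _

/-- the ring map as a map of schemes -/
noncomputable abbrev sfr (R : Type) [CommRing R] : Spec (.of (Fermat.A R)) ⟶ Spec (.of (EC.A R)) :=
  Spec.map (CommRingCat.ofHom (fr R).toRingHom)

/-- The cover by the two charts. -/
noncomputable def cover : (crv R).AffineOpenCover where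
  I₀ := Bool
  X _ := .of (Fermat.A R)
  f c := ch c
  idx z := (exists_mem_range_ch z).choose
  covers z := (exists_mem_range_ch z).choose_spec

lemma spec_alg {B : Type} [CommRing B] {c : Bool} (f : Fermat.A R →+* B) :
    Spec.map (CommRingCat.ofHom f) ≫ ch c ≫ V.str (Fermat.J R) =
      Spec.map (CommRingCat.ofHom (f.comp (algebraMap R (Fermat.A R)))) := by
  rw [ch_str, ← Spec.map_comp, ← CommRingCat.ofHom_comp]

lemma compat {B : Type} [CommRing B] {c : Bool} (f g : Fermat.A R →+* B)
    (h : Spec.map (CommRingCat.ofHom f) ≫ ch c = Spec.map (CommRingCat.ofHom g) ≫ ch (!c)) :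
    Spec.map (CommRingCat.ofHom f) ≫ sfr R ≫ EC.ch c =
      Spec.map (CommRingCat.ofHom g) ≫ sfr R ≫ EC.ch (!c) := by
  obtain ⟨h1, h2⟩ := ch_rel h
  have h3 : ∀ r, f (algebraMap R _ r) = g (algebraMap R _ r) := by
    have h4 := congrArg (fun t => t ≫ V.str (Fermat.J R)) h
    simp only [Category.assoc] at h4
    rw [spec_alg, spec_alg] at h4
    exact fun r => congrArg (fun t => t.hom r) (Spec.map_injective h4)
  rw [← Category.assoc, ← Category.assoc, ← Spec.map_comp, ← Spec.map_comp,
    ← CommRingCat.ofHom_comp, ← CommRingCat.ofHom_comp]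
  apply EC.ch_eq
  · intro r
    change f (fr R (algebraMap R _ r)) = g (fr R (algebraMap R _ r))
    rw [(fr R).commutes, h3]
  · change f (fr R (EC.x R)) * g (fr R (EC.x R)) = 1
    rw [fr_x, h1]
  · change g (fr R (EC.y R)) = f (fr R (EC.y R)) * g (fr R (EC.x R)) ^ 2
    rw [fr_x, fr_y, map_pow, map_pow, h2]
    ring

lemma hom_eq_of_affine {P X : Scheme.{0}} (a b : P ⟶ X)
    (h : ∀ (B : CommRingCat.{0}) (u : Spec B ⟶ P), u ≫ a = u ≫ b) : a = b :=
  P.affineCover.hom_ext _ _ (fun _ => h _ _)

lemma compat' (c : Bool) : pullback.fst (ch (R := R) c) (ch (!c)) ≫ sfr R ≫ EC.ch c =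
    pullback.snd (ch (R := R) c) (ch (!c)) ≫ sfr R ≫ EC.ch (!c) := by
  apply hom_eq_of_affine
  intro B u
  obtain ⟨φ1, h1⟩ := Spec.map_surjective (u ≫ pullback.fst _ _)
  obtain ⟨φ2, h2⟩ := Spec.map_surjective (u ≫ pullback.snd _ _)
  have h3 : Spec.map (CommRingCat.ofHom φ1.hom) ≫ ch c =
      Spec.map (CommRingCat.ofHom φ2.hom) ≫ ch (!c) := by
    change Spec.map φ1 ≫ _ = Spec.map φ2 ≫ _
    rw [h1, h2, Category.assoc, Category.assoc, pullback.condition]
  have h4 := compat φ1.hom φ2.hom h3
  change Spec.map φ1 ≫ _ = Spec.map φ2 ≫ _ at h4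
  rw [h1, h2, Category.assoc, Category.assoc] at h4
  exact h4

theorem exists_f : ∃ f : crv R ⟶ EC.curve R, ∀ c, ch c ≫ f = sfr R ≫ EC.ch c := by
  let F : ∀ c : (cover (R := R)).openCover.I₀, (cover (R := R)).openCover.X c ⟶ EC.curve R :=
    fun c => sfr R ≫ EC.ch (c : Bool)
  have hF : ∀ c d : (cover (R := R)).openCover.I₀,
      pullback.fst ((cover (R := R)).openCover.f c) ((cover (R := R)).openCover.f d) ≫ F c =
      pullback.snd ((cover (R := R)).openCover.f c) ((cover (R := R)).openCover.f d) ≫ F d := by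
    intro (c : Bool) (d : Bool)
    by_cases h : d = c
    · subst h
      change pullback.fst (ch (R := R) d) (ch d) ≫ sfr R ≫ EC.ch d =
        pullback.snd (ch (R := R) d) (ch d) ≫ sfr R ≫ EC.ch d
      have h1 : pullback.fst (ch (R := R) d) (ch d) = pullback.snd (ch d) (ch d) := by
        rw [← cancel_mono (ch d), pullback.condition]
      rw [h1]
    · have h' : d = !c := by
        cases c <;> cases d <;> simp_all
      subst h'
      exact compat' c
  refine ⟨(cover (R := R)).openCover.glueMorphisms F hF, ?_⟩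
  intro (c : Bool)
  exact (cover (R := R)).openCover.ι_glueMorphisms F hF c

variable (R) in
/-- The double cover. -/
noncomputable def f : crv R ⟶ EC.curve R := (exists_f (R := R)).choose

lemma ch_f (c : Bool) : ch c ≫ f R = sfr R ≫ EC.ch c := (exists_f (R := R)).choose_spec c

lemma f_str : f R ≫ V.str (EC.J R) = V.str (Fermat.J R) := by
  apply (cover (R := R)).openCover.hom_ext
  intro (c : Bool)
  change ch c ≫ f R ≫ V.str (EC.J R) = ch c ≫ V.str (Fermat.J R)
  rw [← Category.assoc, ch_f, Category.assoc, EC.ch_str, ch_str, ← Spec.map_comp,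
    ← CommRingCat.ofHom_comp]
  congr 2
  ext r
  exact (fr R).commutes r

lemma f_ch_apply (c : Bool) (p : Spec (.of (Fermat.A R))) :
    f R (ch c p) = EC.ch c (sfr R p) := by
  rw [← Scheme.Hom.comp_apply, ← Scheme.Hom.comp_apply, ch_f]

lemma mem_range_of_f (c : Bool) (z : crv R) (hz : f R z ∈ Set.range (EC.ch (R := R) c)) :
    z ∈ Set.range (ch (R := R) c) := by
  obtain ⟨d, p, rfl⟩ := exists_mem_range_ch (R := R) z
  by_cases h : d = c
  · subst h
    exact ⟨p, rfl⟩
  · have h' : d = !c := by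
      cases c <;> cases d <;> simp_all
    subst h'
    rw [f_ch_apply, EC.mem_range_ch_not] at hz
    rw [mem_range_ch_not c p]
    intro h3
    apply hz
    have h4 : fr R (EC.x R) ∈ p.asIdeal := by
      rw [fr_x]
      exact h3
    exact h4

/-- The square of the charts is a pull back square. -/
theorem isPullback_f (c : Bool) : IsPullback (sfr R) (ch c) (EC.ch c) (f R) := by
  apply IsOpenImmersion.isPullback
  · exact ch_f (R := R) c
  · apply le_antisymm
    · intro z hz
      have h1 : f R z ∈ Set.range (EC.ch (R := R) c) := hz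
      exact mem_range_of_f c z h1
    · intro z hz
      obtain ⟨p, hp⟩ : ∃ p, ch (R := R) c p = z := hz
      have h1 : f R z = EC.ch c (sfr R p) := by rw [← hp, f_ch_apply]
      have h2 : f R z ∈ Set.range (EC.ch (R := R) c) := ⟨sfr R p, h1.symm⟩
      exact h2

end Pool.Agent.W513.FQ
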