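import Pool.Agent.W513.StkE

/-!
# The function field of the elliptic curve and its derivation
-/

set_option autoImplicit false

open AlgebraicGeometry CategoryTheory Limits IsLocalRing

namespace Pool.Agent.W513.EC

open Pool.Agent.Helper198.Sch

attribute [local instance] MvPolynomial.gradedAlgebra

section deriv

variable {k : Type} [Field k] {K : Type} [Field K] (κ : A k →+* K) (hinj : Function.Injective κ)
  (hsurj : ∀ f : K, ∃ a t : A k, κ t ≠ 0 ∧ κ t * f = κ a)

/-- The ring homomorphism to the dual numbers. -/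
noncomputable def dualA : A k →+* DualNumber K :=
  letI : Algebra k (DualNumber K) :=
    ((algebraMap K (DualNumber K)).comp (κ.comp (algebraMap k (A k)))).toAlgebra
  (lift (E := DualNumber K) (TrivSqZeroExt.inl (κ (x k)) + TrivSqZeroExt.inr (κ (y k)))
    (TrivSqZeroExt.inl (κ (y k)) + TrivSqZeroExt.inr (-2 * κ (x k) ^ 3)) (by
      have r1 : κ (y k) ^ 2 + κ (x k) ^ 4 + 1 = 0 := by
        rw [← map_pow, ← map_pow, ← map_one κ, ← map_add, ← map_add, rel, map_zero]
      apply TrivSqZeroExt.ext
      · simpa using r1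
      · simp [pow_succ]
        ring)).toRingHom

lemma dualA_x : dualA κ (x k) = TrivSqZeroExt.inl (κ (x k)) + TrivSqZeroExt.inr (κ (y k)) :=
  letI : Algebra k (DualNumber K) :=
    ((algebraMap K (DualNumber K)).comp (κ.comp (algebraMap k (A k)))).toAlgebra
  lift_x _ _ _

lemma dualA_y : dualA κ (y k) =
    TrivSqZeroExt.inl (κ (y k)) + TrivSqZeroExt.inr (-2 * κ (x k) ^ 3) :=
  letI : Algebra k (DualNumber K) :=
    ((algebraMap K (DualNumber K)).comp (κ.comp (algebraMap k (A k)))).toAlgebra
  lift_y _ _ _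

lemma dualA_alg (r : k) : dualA κ (algebraMap k (A k) r) =
    TrivSqZeroExt.inl (κ (algebraMap k (A k) r)) :=
  letI : Algebra k (DualNumber K) :=
    ((algebraMap K (DualNumber K)).comp (κ.comp (algebraMap k (A k)))).toAlgebra
  AlgHom.commutes _ r

lemma fst_dualA (a : A k) : (dualA κ a).fst = κ a := by
  have h : (TrivSqZeroExt.fstHom K K K : DualNumber K →ₐ[K] K).toRingHom.comp (dualA κ) = κ := by
    apply ext_ring
    · intro r
      change (dualA κ (algebraMap k (A k) r)).fst = _
      rw [dualA_alg]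
      rfl
    · change (dualA κ (x k)).fst = _
      rw [dualA_x]
      simp
    · change (dualA κ (y k)).fst = _
      rw [dualA_y]
      simp
  exact congrArg (fun f : A k →+* K => f a) h

include hinj hsurj

/-- The derivation `D` with `D x = y` and `D y = -2 x³`. -/
theorem exists_D : ∃ D : K → K, (∀ f g, D (f + g) = D f + D g) ∧
    (∀ f g, D (f * g) = f * D g + g * D f) ∧ (∀ r, D (κ (algebraMap k (A k) r)) = 0) ∧
    D (κ (x k)) = κ (y k) ∧ D (κ (y k)) = -2 * κ (x k) ^ 3 := by
  let _ : Algebra (A k) K := κ.toAlgebra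
  have hd : IsDomain (A k) := hinj.isDomain κ
  have hfr : IsFractionRing (A k) K := by
    refine ⟨?_, ?_, ?_⟩
    · rintro ⟨t, ht⟩
      exact IsUnit.mk0 _ (by
        change κ t ≠ 0
        rw [← map_zero κ]
        exact fun h => nonZeroDivisors.ne_zero ht (hinj h))
    · intro f
      obtain ⟨a, t, ht, h⟩ := hsurj f
      refine ⟨⟨a, ⟨t, mem_nonZeroDivisors_of_ne_zero ?_⟩⟩, ?_⟩
      · rintro rfl
        exact ht (map_zero κ)
      · change f * κ t = κ a
        rw [mul_comm, h]
    · intro a b hab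
      exact ⟨1, by rw [hinj hab]⟩
  have hu : ∀ t : nonZeroDivisors (A k), IsUnit (dualA κ t) := by
    rintro ⟨t, ht⟩
    rw [TrivSqZeroExt.isUnit_iff_isUnit_fst, fst_dualA]
    exact IsUnit.mk0 _ (by
        rw [← map_zero κ]
        exact fun h => nonZeroDivisors.ne_zero ht (hinj h))
  let δ : K →+* DualNumber K := IsLocalization.lift (M := nonZeroDivisors (A k)) hu
  have hδ : ∀ a, δ (κ a) = dualA κ a := fun a => IsLocalization.lift_eq hu a
  have hfst : ∀ f : K, (δ f).fst = f := by
    intro f
    obtain ⟨a, t, ht, h⟩ := hsurj f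
    have h1 := congrArg (fun z => (δ z).fst) h
    simp only [map_mul, TrivSqZeroExt.fst_mul, hδ, fst_dualA] at h1
    rw [← h] at h1
    exact mul_left_cancel₀ ht h1
  refine ⟨fun f => (δ f).snd, ?_, ?_, ?_, ?_, ?_⟩
  · intro f g
    simp
  · intro f g
    simp only [map_mul, TrivSqZeroExt.snd_mul, hfst]
    simp
    ring
  · intro r
    simp only [hδ, dualA_alg]
    simp
  · simp only [hδ, dualA_x]
    simp
  · simp only [hδ, dualA_y]
    simp

end deriv

section K

variable (k : Type) [Field k] [CharZero k]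

lemma generic_mem (c : Bool) : genericPoint (curve k) ∈ Set.range (ch (R := k) c) := by
  have h1 : (ch (R := k) c).opensRange.1.Nonempty := by
    have hd : IsDomain (A k) := inferInstance
    let z : Spec (.of (A k)) := (⟨⊥, Ideal.isPrime_bot⟩ : PrimeSpectrum _)
    exact ⟨ch c z, z, rfl⟩
  exact ((genericPoint_spec (curve k)).mem_open_set_iff (ch (R := k) c).opensRange.2).2
    (by simpa using h1)

/-- The function field. -/
noncomputable abbrev FK : CommRingCat.{0} := (curve k).functionField

/-- The generic point. -/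
noncomputable abbrev gen : Spec (FK k) ⟶ curve k := (curve k).fromSpecStalk (genericPoint (curve k))

/-- The chart ring in the function field. -/
noncomputable def κ (c : Bool) : A k →+* FK k :=
  (exists_toStk (ch c) (genericPoint (curve k)) (generic_mem k c)).choose.hom

lemma κ_spec (c : Bool) : Spec.map (CommRingCat.ofHom (κ k c)) ≫ ch c = gen k :=
  (exists_toStk (ch c) (genericPoint (curve k)) (generic_mem k c)).choose_spec

lemma κ_injective (c : Bool) : Function.Injective (κ k c) :=
  toStk_injective (ch c) (genericPoint (curve k)) (CommRingCat.ofHom (κ k c)) (κ_spec k c)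

lemma κ_surj (c : Bool) (f : FK k) : ∃ a t : A k, κ k c t ≠ 0 ∧ κ k c t * f = κ k c a := by
  obtain ⟨a, t, ht, h⟩ := toStk_surj (ch c) (genericPoint (curve k)) (CommRingCat.ofHom (κ k c))
    (κ_spec k c) f
  exact ⟨a, t, ht.ne_zero, h⟩

lemma κ_rel (c : Bool) : κ k c (x k) * κ k (!c) (x k) = 1 ∧
    κ k (!c) (y k) = κ k c (y k) * κ k (!c) (x k) ^ 2 :=
  ch_rel ((κ_spec k c).trans (κ_spec k (!c)).symm)

/-- The constants. -/
noncomputable def cst : k →+* FK k := (κ k false).comp (algebraMap k (A k))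

omit [CharZero k] in
lemma spec_alg {B : Type} [CommRing B] {c : Bool} (f : A k →+* B) :
    Spec.map (CommRingCat.ofHom f) ≫ ch c ≫ V.str (J k) =
      Spec.map (CommRingCat.ofHom (f.comp (algebraMap k (A k)))) := by
  rw [ch_str, ← Spec.map_comp, ← CommRingCat.ofHom_comp]

lemma κ_cst (c : Bool) (r : k) : κ k c (algebraMap k (A k) r) = cst k r := by
  have h1 := congrArg (fun t => t ≫ V.str (J k)) ((κ_spec k c).trans (κ_spec k false).symm)
  simp only [Category.assoc] at h1
  rw [spec_alg, spec_alg] at h1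
  exact congrArg (fun t => t.hom r) (Spec.map_injective h1)

lemma gen_str : gen k ≫ V.str (J k) = Spec.map (CommRingCat.ofHom (cst k)) := by
  rw [← κ_spec k false, Category.assoc, spec_alg]
  rfl

lemma κ_curve (c : Bool) : κ k c (y k) ^ 2 + κ k c (x k) ^ 4 + 1 = 0 := by
  rw [← map_pow, ← map_pow, ← map_one (κ k c), ← map_add, ← map_add, rel, map_zero]

lemma κx_ne_zero (c : Bool) : κ k c (x k) ≠ 0 := by
  rw [← map_zero (κ k c)]
  exact fun h => x_ne_zero k (κ_injective k c h)

lemma κy_ne_zero (c : Bool) : κ k c (y k) ≠ 0 := by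
  rw [← map_zero (κ k c)]
  exact fun h => y_ne_zero k (κ_injective k c h)

/-- The derivation. -/
noncomputable def D : FK k → FK k :=
  (exists_D (κ k false) (κ_injective k false) (κ_surj k false)).choose

lemma D_add (f g : FK k) : D k (f + g) = D k f + D k g :=
  (exists_D (κ k false) (κ_injective k false) (κ_surj k false)).choose_spec.1 f g

lemma D_mul (f g : FK k) : D k (f * g) = f * D k g + g * D k f :=
  (exists_D (κ k false) (κ_injective k false) (κ_surj k false)).choose_spec.2.1 f g

lemma D_cst (r : k) : D k (cst k r) = 0 :=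
  (exists_D (κ k false) (κ_injective k false) (κ_surj k false)).choose_spec.2.2.1 r

lemma D_x0 : D k (κ k false (x k)) = κ k false (y k) :=
  (exists_D (κ k false) (κ_injective k false) (κ_surj k false)).choose_spec.2.2.2.1

lemma D_y0 : D k (κ k false (y k)) = -2 * κ k false (x k) ^ 3 :=
  (exists_D (κ k false) (κ_injective k false) (κ_surj k false)).choose_spec.2.2.2.2

lemma D_zero : D k 0 = 0 := by
  have := D_cst k 0
  rwa [map_zero] at this

lemma D_one : D k 1 = 0 := by
  have := D_cst k 1
  rwa [map_one] at this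

lemma D_neg (f : FK k) : D k (-f) = -D k f := by
  have := D_add k f (-f)
  rw [add_neg_cancel, D_zero] at this
  exact (neg_eq_of_add_eq_zero_right this.symm).symm

lemma D_sub (f g : FK k) : D k (f - g) = D k f - D k g := by
  rw [sub_eq_add_neg, D_add, D_neg, sub_eq_add_neg]

lemma D_cst_mul (r : k) (f : FK k) : D k (cst k r * f) = cst k r * D k f := by
  rw [D_mul, D_cst, mul_zero, add_zero]

lemma D_pow (f : FK k) (n : ℕ) : D k (f ^ (n + 1)) = (n + 1) * f ^ n * D k f := by
  induction n with
  | zero => simp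
  | succ m ih =>
    rw [pow_succ, D_mul, ih]
    push_cast
    ring

/-- The sign of the chart. -/
def sg (c : Bool) : ℤ := if c then -1 else 1

lemma D_y_of {X Y : FK k} (h : Y ^ 2 + X ^ 4 + 1 = 0) (hY : Y ≠ 0) {m : FK k}
    (hD : D k X = m * Y) : D k Y = -2 * m * X ^ 3 := by
  have h1 := congrArg (D k) h
  rw [D_add, D_add, D_one, D_zero, add_zero, D_pow k Y 1, D_pow k X 3, hD] at h1
  have h2 : (2 : FK k) ≠ 0 := by
    rw [← map_ofNat (cst k) 2]
    exact fun h => two_ne_zero ((cst k).injective (h.trans (map_zero _).symm))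
  have h3 : (2 * Y) * (D k Y - (-2 * m * X ^ 3)) = 0 := by
    push_cast at h1
    linear_combination h1
  rcases mul_eq_zero.1 h3 with h4 | h4
  · exact absurd h4 (mul_ne_zero h2 hY)
  · exact sub_eq_zero.1 h4

lemma D_x (c : Bool) : D k (κ k c (x k)) = (sg c : FK k) * κ k c (y k) := by
  cases c
  · rw [D_x0]
    simp [sg]
  · obtain ⟨h1, h2⟩ := κ_rel k false
    have h3 := congrArg (D k) h1
    rw [D_mul, D_one, D_x0] at h3
    have hx := κx_ne_zero k false
    simp only [Bool.not_false] at h1 h2 h3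
    have h4 : D k (κ k true (x k)) = -(κ k true (y k)) := by
      apply mul_left_cancel₀ hx
      rw [h2]
      linear_combination h3 + κ k false (y k) * κ k true (x k) * h1
    rw [h4]
    simp [sg]

lemma D_y (c : Bool) : D k (κ k c (y k)) = -2 * (sg c : FK k) * κ k c (x k) ^ 3 :=
  D_y_of k (κ_curve k c) (κy_ne_zero k c) (D_x k c)

omit [CharZero k] in
lemma subalgebra_eq_top (S : Subalgebra k (A k)) (hx : x k ∈ S) (hy : y k ∈ S) : S = ⊤ := by
  have h1 : S.val.comp (lift (E := S) ⟨x k, hx⟩ ⟨y k, hy⟩ (Subtype.ext (rel k))) =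
      AlgHom.id k (A k) := by
    apply ext_A
    · rw [AlgHom.comp_apply, lift_x]
      rfl
    · rw [AlgHom.comp_apply, lift_y]
      rfl
  rw [eq_top_iff]
  intro z _
  have h2 := congrArg (fun f : A k →ₐ[k] A k => f z) h1
  simp only [AlgHom.comp_apply, AlgHom.id_apply] at h2
  rw [← h2]
  exact Subtype.property _

/-- the derivation preserves the chart ring -/
lemma D_κ (c : Bool) (a : A k) : ∃ a', D k (κ k c a) = κ k c a' := by
  let S : Subalgebra k (A k) :=
    { carrier := {a | ∃ a', D k (κ k c a) = κ k c a'}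
      mul_mem' := by
        rintro a b ⟨a', ha⟩ ⟨b', hb⟩
        exact ⟨a * b' + b * a', by rw [map_mul, D_mul, ha, hb, map_add, map_mul, map_mul]⟩
      add_mem' := by
        rintro a b ⟨a', ha⟩ ⟨b', hb⟩
        exact ⟨a' + b', by rw [map_add, D_add, ha, hb, map_add]⟩
      algebraMap_mem' := by
        intro r
        exact ⟨0, by rw [κ_cst, D_cst, map_zero]⟩ }
  have hS : S = ⊤ := by
    apply subalgebra_eq_top
    · exact ⟨(sg c : A k) * y k, by rw [D_x, map_mul, map_intCast]⟩
    · exact ⟨-2 * (sg c : A k) * x k ^ 3, by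
        rw [D_y, map_mul, map_mul, map_intCast, map_pow, map_neg, map_ofNat]⟩
  have h1 : a ∈ S := by rw [hS]; trivial
  exact h1

end K

section stalk

variable (k : Type) [Field k] [CharZero k] (z : curve k)

/-- The local ring in the function field. -/
noncomputable abbrev toK : (curve k).presheaf.stalk z →+* FK k :=
  algebraMap ((curve k).presheaf.stalk z) (FK k)

lemma toK_injective : Function.Injective (toK k z) :=
  IsFractionRing.injective ((curve k).presheaf.stalk z) (FK k)

lemma toK_comp {c : Bool} {φ : A k →+* (curve k).presheaf.stalk z}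
    (hφ : Spec.map (CommRingCat.ofHom φ) ≫ ch c = (curve k).fromSpecStalk z) :
    (toK k z).comp φ = κ k c := by
  have h1 : Spec.map (CommRingCat.ofHom ((toK k z).comp φ)) ≫ ch c =
      Spec.map (CommRingCat.ofHom (κ k c)) ≫ ch c := by
    rw [CommRingCat.ofHom_comp, Spec.map_comp, Category.assoc, hφ, κ_spec]
    exact specMap_algebraMap_fromSpecStalk z
  have h2 := factor_unique (ch c) h1
  exact congrArg (fun t => t.hom) h2

omit [CharZero k] in
lemma exists_φ : ∃ (c : Bool) (φ : A k →+* (curve k).presheaf.stalk z),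
    Spec.map (CommRingCat.ofHom φ) ≫ ch c = (curve k).fromSpecStalk z := by
  obtain ⟨c, hc⟩ := exists_mem_range_ch z
  obtain ⟨φ, hφ⟩ := exists_toStk (ch c) z hc
  exact ⟨c, φ.hom, hφ⟩

/-- the derivation preserves the local rings -/
lemma D_stalk (s : (curve k).presheaf.stalk z) : ∃ s', toK k z s' = D k (toK k z s) := by
  obtain ⟨c, φ, hφ⟩ := exists_φ k z
  obtain ⟨a, t, ht, h⟩ := toStk_surj (ch c) z (CommRingCat.ofHom φ) hφ s
  have hc := toK_comp k z hφ
  have hc' : ∀ a, toK k z (φ a) = κ k c a := fun a => congrArg (fun f : A k →+* FK k => f a) hc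
  obtain ⟨a', ha'⟩ := D_κ k c a
  obtain ⟨t', ht'⟩ := D_κ k c t
  obtain ⟨u, hu⟩ := ht
  have h1 : toK k z (φ t) * toK k z s = toK k z (φ a) := by
    rw [← map_mul]
    exact congrArg _ h
  have h2 : toK k z (φ t) ≠ 0 := by
    have : IsUnit (toK k z (φ t)) := by
      have h3 : IsUnit (φ t) := ⟨u, hu⟩
      exact h3.map (toK k z)
    exact this.ne_zero
  refine ⟨↑u⁻¹ * (φ a' - s * φ t'), ?_⟩
  apply mul_left_cancel₀ h2
  have h3 : φ t * (↑u⁻¹ * (φ a' - s * φ t')) = φ a' - s * φ t' := by
    have : φ t = ↑u := hu.symm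
    rw [this, ← mul_assoc, Units.mul_inv, one_mul]
  rw [← map_mul, h3, map_sub, map_mul, hc', hc', ← ha', ← ht', ← hc' a, ← h1, ← hc' t, D_mul]
  ring

/-- the derivation maps the square of the maximal ideal to the maximal ideal -/
lemma D_stalk_sq [IsAlgClosed k] (s : (curve k).presheaf.stalk z)
    (hs : s ∈ maximalIdeal ((curve k).presheaf.stalk z) ^ 2) :
    ∃ s' ∈ maximalIdeal ((curve k).presheaf.stalk z), toK k z s' = D k (toK k z s) := by
  rw [pow_two] at hs
  induction hs using Submodule.mul_induction_on' with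
  | mem_mul_mem a ha b hb =>
    obtain ⟨a', ha'⟩ := D_stalk k z a
    obtain ⟨b', hb'⟩ := D_stalk k z b
    refine ⟨a * b' + b * a', ?_, ?_⟩
    · exact Ideal.add_mem _ (Ideal.mul_mem_right _ _ ha) (Ideal.mul_mem_right _ _ hb)
    · rw [map_add, map_mul, map_mul, ha', hb', map_mul, D_mul]
  | add a _ b _ ha hb =>
    obtain ⟨a', h1, h2⟩ := ha
    obtain ⟨b', h3, h4⟩ := hb
    exact ⟨a' + b', Ideal.add_mem _ h1 h3, by rw [map_add, h2, h4, map_add, D_add]⟩

end stalk

end Pool.Agent.W513.EC
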