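import Pool.Agent.W129.GB.Charts

/-!
# Sections on two charts which agree on the intersection are constant
-/

set_option autoImplicit false

open CategoryTheory Limits AlgebraicGeometry TopologicalSpace Opposite

namespace Pool.Agent.W513

open Pool.Agent.H666R3.NG
open Pool.Agent.W129.GB

/-- Global functions on a proper integral scheme are constant. -/
lemma surjective_appTop {k : Type} [Field k] [IsAlgClosed k] {X : Scheme.{0}}
    (sX : X ⟶ Spec (.of k)) [IsIntegral X] [IsProper sX] :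
    Function.Surjective ((Scheme.ΓSpecIso (.of k)).inv ≫ sX.appTop).hom := by
  have h1 : sX.appTop.hom.Finite := finite_appTop_of_universallyClosed k sX
  have h2 : ((Scheme.ΓSpecIso (.of k)).inv ≫ sX.appTop).hom.IsIntegral := by
    rw [CommRingCat.hom_comp]
    apply RingHom.IsIntegral.trans
    · apply RingHom.isIntegral_of_surjective
      exact (Scheme.ΓSpecIso (.of k)).symm.commRingCatIsoToRingEquiv.surjective
    · exact h1.to_isIntegral
  exact (IsAlgClosed.ringHom_bijective_of_isIntegral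
    ((Scheme.ΓSpecIso (.of k)).inv ≫ sX.appTop).hom h2).2

theorem glue_const {k : Type} [Field k] [IsAlgClosed k] {X : Scheme.{0}}
    (sX : X ⟶ Spec (.of k)) [IsIntegral X] [IsProper sX]
    {S0 S2 S02 : CommRingCat.{0}} (v0 : Spec S0 ⟶ X) (v2 : Spec S2 ⟶ X) (v02 : Spec S02 ⟶ X)
    [IsOpenImmersion v0] [IsOpenImmersion v2] [IsOpenImmersion v02]
    (h1 : v0.opensRange ⊔ v2.opensRange = ⊤)
    (h2 : v02.opensRange = v0.opensRange ⊓ v2.opensRange)
    (ρ0 : S0 ⟶ S02) (ρ2 : S2 ⟶ S02) (e0 : Spec.map ρ0 ≫ v0 = v02) (e2 : Spec.map ρ2 ≫ v2 = v02)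
    (σ : CommRingCat.of k ⟶ S2) (eσ : Spec.map σ = v2 ≫ sX)
    (a : S0) (b : S2) (hab : ρ0.hom a = ρ2.hom b) : ∃ c : k, b = σ.hom c := by
  have hr : ∀ {S : CommRingCat.{0}} (v : Spec S ⟶ X) [IsOpenImmersion v] (U : X.Opens),
      v.opensRange ≤ U → (⊤ : (Spec S).Opens) ≤ v ⁻¹ᵁ U := by
    intro S v _ U hU x _
    exact hU ⟨x, rfl⟩
  have hU0 := hr v0 v0.opensRange le_rfl
  have hU2 := hr v2 v2.opensRange le_rfl
  have hW : (⊤ : (Spec S02).Opens) ≤ v02 ⁻¹ᵁ (v0.opensRange ⊓ v2.opensRange) :=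
    hr v02 _ h2.le
  have hW0 : (⊤ : (Spec S02).Opens) ≤ v02 ⁻¹ᵁ v0.opensRange := hr v02 _ (h2.le.trans inf_le_left)
  have hW2 : (⊤ : (Spec S02).Opens) ≤ v02 ⁻¹ᵁ v2.opensRange := hr v02 _ (h2.le.trans inf_le_right)
  have i0 := chartHom_isIso v0 _ rfl hU0
  have i2 := chartHom_isIso v2 _ rfl hU2
  have iW := chartHom_isIso v02 _ h2.symm hW
  obtain ⟨a', ha'⟩ := (ConcreteCategory.bijective_of_isIso (chartHom v0 _ hU0)).surjective a
  obtain ⟨b', hb'⟩ := (ConcreteCategory.bijective_of_isIso (chartHom v2 _ hU2)).surjective b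
  have h3 : X.presheaf.map (homOfLE (inf_le_left : v0.opensRange ⊓ v2.opensRange ≤ _)).op ≫
      chartHom v02 _ hW = chartHom v0 _ hU0 ≫ ρ0 := by
    rw [map_chartHom v02 _ _ inf_le_left hW hW0, chartHom_comp v0 v02 ρ0 e0 _ hU0 hW0]
  have h4 : X.presheaf.map (homOfLE (inf_le_right : v0.opensRange ⊓ v2.opensRange ≤ _)).op ≫
      chartHom v02 _ hW = chartHom v2 _ hU2 ≫ ρ2 := by
    rw [map_chartHom v02 _ _ inf_le_right hW hW2, chartHom_comp v2 v02 ρ2 e2 _ hU2 hW2]
  have h5 : X.presheaf.map (homOfLE (inf_le_left : v0.opensRange ⊓ v2.opensRange ≤ _)).op a' =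
      X.presheaf.map (homOfLE (inf_le_right : v0.opensRange ⊓ v2.opensRange ≤ _)).op b' := by
    apply (ConcreteCategory.bijective_of_isIso (chartHom v02 _ hW)).injective
    have h6 := congrArg (fun φ => φ.hom a') h3
    have h7 := congrArg (fun φ => φ.hom b') h4
    refine Eq.trans h6 (Eq.trans ?_ h7.symm)
    change ρ0.hom ((chartHom v0 _ hU0).hom a') = ρ2.hom ((chartHom v2 _ hU2).hom b')
    have ha'' : (chartHom v0 _ hU0).hom a' = a := ha'
    have hb'' : (chartHom v2 _ hU2).hom b' = b := hb'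
    rw [ha'', hb'', hab]
  let t := (X.sheaf.objSupIsoProdEqLocus v0.opensRange v2.opensRange).inv ⟨(a', b'), h5⟩
  have ht : X.presheaf.map (homOfLE le_sup_right).op t = b' :=
    TopCat.Sheaf.objSupIsoProdEqLocus_inv_snd X.sheaf v0.opensRange v2.opensRange ⟨(a', b'), h5⟩
  let t' := X.presheaf.map (homOfLE h1.ge).op t
  have ht' : X.presheaf.map (homOfLE le_top).op t' = b' := by
    rw [← ht]
    change (X.presheaf.map (homOfLE h1.ge).op ≫ X.presheaf.map (homOfLE le_top).op) t = _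
    rw [← X.presheaf.map_comp]
    rfl
  obtain ⟨c, hc⟩ := surjective_appTop sX t'
  refine ⟨c, ?_⟩
  rw [← fnHom_chartHom sX v2 _ hU2 σ eσ c]
  have hb'' : (chartHom v2 _ hU2).hom b' = b := hb'
  rw [← hb'']
  congr 1
  rw [← ht', ← hc]
  rfl

end Pool.Agent.W513
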