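import Pool.Agent.W513.Cn3

/-!
# Charts of `C_ψ` for the computation of the genus
-/

set_option autoImplicit false

open CategoryTheory Limits AlgebraicGeometry IsLocalRing TopologicalSpace

namespace Pool.Agent.W513

open Pool.Agent.Helper198.Sch
open Pool.Agent.H666R3.NG

attribute [local instance] MvPolynomial.gradedAlgebra

namespace FQ

variable {k : Type} [Field k]

/-- Transition between the charts, converse. -/
lemma ch_eq {B : Type} [CommRing B] {c : Bool} {f g : Fermat.A k →+* B}
    (h0 : ∀ r, f (algebraMap k (Fermat.A k) r) = g (algebraMap k (Fermat.A k) r))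
    (h1 : f (Fermat.x k) * g (Fermat.x k) = 1)
    (h2 : g (Fermat.y k) = f (Fermat.y k) * g (Fermat.x k)) :
    Spec.map (CommRingCat.ofHom f) ≫ ch c = Spec.map (CommRingCat.ofHom g) ≫ ch (!c) := by
  have hu : IsUnit ((f.comp (Fermat.chEquiv (R := k) (tt c)).toRingEquiv.toRingHom)
      (frac (Fermat.J k) (tt c).c (tt (!c)).c)) := by
    have h3 : (f.comp (Fermat.chEquiv (R := k) (tt c)).toRingEquiv.toRingHom)
      (frac (Fermat.J k) (tt c).c (tt (!c)).c) = f (Fermat.x k) := by
      rw [← tt_b]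
      exact congrArg f (Fermat.chEquiv_b (tt c))
    rw [h3]
    exact IsUnit.of_mul_eq_one _ h1
  obtain ⟨g', hg'⟩ := exists_other_chart (Fermat.J k) _ _ _ hu
  let g'' : Fermat.A k →+* B :=
    g'.comp (Fermat.chEquiv (R := k) (tt (!c))).symm.toRingEquiv.toRingHom
  have h4 : Spec.map (CommRingCat.ofHom f) ≫ ch c = Spec.map (CommRingCat.ofHom g'') ≫ ch (!c) := by
    have h5 : Spec.map (CommRingCat.ofHom g') = Spec.map (CommRingCat.ofHom g'') ≫
        Spec.map (CommRingCat.ofHom (Fermat.chEquiv (R := k) (tt (!c))).toRingEquiv.toRingHom) := by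
      rw [← Spec.map_comp, ← CommRingCat.ofHom_comp]
      congr 2
      ext z
      exact congrArg g' ((Fermat.chEquiv (R := k) (tt (!c))).symm_apply_apply z).symm
    rw [h5, CommRingCat.ofHom_comp, Spec.map_comp, Category.assoc, Category.assoc] at hg'
    exact hg'
  obtain ⟨h6, h7⟩ := ch_rel h4
  have hx : g'' (Fermat.x k) = g (Fermat.x k) := by
    calc g'' (Fermat.x k) = f (Fermat.x k) * g (Fermat.x k) * g'' (Fermat.x k) := by
          rw [h1, one_mul]
      _ = f (Fermat.x k) * g'' (Fermat.x k) * g (Fermat.x k) := by ring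
      _ = g (Fermat.x k) := by rw [h6, one_mul]
  have h8 : g'' = g := by
    apply fermat_ext _ hx
    · rw [h7, h2, hx]
    · intro r
      rw [← h0]
      have h9 := congrArg (fun t => t ≫ V.str (Fermat.J k)) h4
      simp only [Category.assoc, ch_str, ← Spec.map_comp, ← CommRingCat.ofHom_comp] at h9
      have h10 := Spec.map_injective h9
      exact (congrArg (fun t => t.hom r) h10).symm
  rw [h4, h8]

end FQ

section dmap

/-- base change of the double cover -/
noncomputable def dMap {B B' : Type} [CommRing B] [CommRing B'] (ρ : B →+* B') (s : B) :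
    DS s →+* DS (ρ s) :=
  dLift s ((dB (ρ s)).comp ρ) (dw (ρ s)) (dw_sq _)

lemma dMap_B {B B' : Type} [CommRing B] [CommRing B'] (ρ : B →+* B') (s b : B) :
    dMap ρ s (dB s b) = dB _ (ρ b) := dLift_B _ _ _ _ _

lemma dMap_w {B B' : Type} [CommRing B] [CommRing B'] (ρ : B →+* B') (s : B) :
    dMap ρ s (dw s) = dw _ := dLift_w _ _ _ _

lemma isPushout_dMap {B B' : CommRingCat.{0}} (ρ : B ⟶ B') (s : B) :
    IsPushout (CommRingCat.ofHom (dB s)) ρ (CommRingCat.ofHom (dMap ρ.hom s))
      (CommRingCat.ofHom (dB (ρ.hom s))) := by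
  have hw : CommRingCat.ofHom (dB s) ≫ CommRingCat.ofHom (dMap ρ.hom s) =
      ρ ≫ CommRingCat.ofHom (dB (ρ.hom s)) := by
    ext b
    exact dMap_B ρ.hom s b
  have hsq : ∀ t : PushoutCocone (CommRingCat.ofHom (dB s)) ρ,
      (t.inl.hom (dw s)) ^ 2 = t.inr.hom (ρ.hom s) := by
    intro t
    have h := congrArg (fun q => q.hom s) t.condition
    have h2 : t.inl.hom (dB s s) = t.inr.hom (ρ.hom s) := h
    rw [← dw_sq, map_pow] at h2
    exact h2
  refine ⟨⟨hw⟩, ⟨PushoutCocone.IsColimit.mk hw
    (fun t => CommRingCat.ofHom (dLift _ t.inr.hom (t.inl.hom (dw s)) (hsq t))) ?_ ?_ ?_⟩⟩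
  · intro t
    ext : 1
    apply ring_ext
    · intro b
      change dLift _ _ _ (hsq t) (dMap ρ.hom s (dB s b)) = _
      rw [dMap_B, dLift_B]
      have h := congrArg (fun q => q.hom b) t.condition
      exact h.symm
    · change dLift _ _ _ (hsq t) (dMap ρ.hom s (dw s)) = _
      rw [dMap_w, dLift_w]
  · intro t
    ext b
    change dLift _ _ _ (hsq t) (dB _ b) = _
    rw [dLift_B]
  · intro t m hm1 hm2
    ext : 1
    apply ring_ext
    · intro b
      change _ = dLift _ _ _ (hsq t) (dB _ b)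
      rw [dLift_B, ← hm2]
      rfl
    · change _ = dLift _ _ _ (hsq t) (dw _)
      rw [dLift_w, ← hm1]
      change _ = m.hom (dMap ρ.hom s (dw s))
      rw [dMap_w]

end dmap

section charts

variable {k : Type} [Field k] {ψ : EC.curve k ⟶ EC.curve k} {B : Bool → CommRingCat.{0}}
  {w : ∀ c, Spec (B c) ⟶ EC.curve k} {r : ∀ c, CommRingCat.of (EC.A k) ⟶ B c}
  (hw : ∀ c, IsPullback (w c) (Spec.map (r c)) ψ (EC.ch c))

/-- The coordinate `x` on a chart. -/
noncomputable abbrev xx (r : ∀ c, CommRingCat.of (EC.A k) ⟶ B c) (c : Bool) : B c :=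
  (r c).hom (EC.x k)

/-- The ring of the intersection. -/
noncomputable abbrev LL (r : ∀ c, CommRingCat.of (EC.A k) ⟶ B c) (c : Bool) : CommRingCat.{0} :=
  .of (Localization.Away (xx r c))

/-- The localisation map. -/
noncomputable abbrev lm (r : ∀ c, CommRingCat.of (EC.A k) ⟶ B c) (c : Bool) : B c ⟶ LL r c :=
  CommRingCat.ofHom (algebraMap (B c) (Localization.Away (xx r c)))

instance isOpenImmersion_lm (c : Bool) : IsOpenImmersion (Spec.map (lm r c)) := by
  infer_instance

include hw

lemma isOpenImmersion_lmw (c : Bool) : IsOpenImmersion (Spec.map (lm r c) ≫ w c) := by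
  have := isOpenImmersion_of_chart (hw c)
  infer_instance

lemma mem_range_not (c : Bool) (q : Spec (B c)) :
    w c q ∈ Set.range (w (!c)) ↔ xx r c ∉ q.asIdeal := by
  rw [range_chart_psi (hw (!c)), Set.mem_preimage]
  have h1 : ψ (w c q) = EC.ch c (Spec.map (r c) q) := by
    rw [← Scheme.Hom.comp_apply, ← Scheme.Hom.comp_apply, (hw c).w]
  have h2 : ∀ (c : Bool) (p : Spec (.of (EC.A k))),
      EC.ch c p ∈ Set.range (EC.ch (R := k) (!c)) ↔ EC.x k ∉ p.asIdeal := by
    intro c p
    cases c
    · exact EC.mem_range_ch_not true p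
    · exact EC.mem_range_ch_not false p
  rw [h1, h2]
  rfl

lemma range_lmw (c : Bool) : Set.range (Spec.map (lm r c) ≫ w c) =
    Set.range (w c) ∩ Set.range (w (!c)) := by
  ext z
  have h2 : Set.range (Spec.map (lm r c)) =
      ((PrimeSpectrum.basicOpen (xx r c) : Opens (PrimeSpectrum (B c))) : Set (PrimeSpectrum (B c))) :=
    PrimeSpectrum.localization_away_comap_range (Localization.Away (xx r c)) (xx r c)
  constructor
  · rintro ⟨p, rfl⟩
    rw [Scheme.Hom.comp_apply]
    refine ⟨⟨_, rfl⟩, ?_⟩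
    rw [mem_range_not hw]
    have h3 : Spec.map (lm r c) p ∈ Set.range (Spec.map (lm r c)) := ⟨p, rfl⟩
    exact h2.le h3
  · rintro ⟨⟨q, rfl⟩, hq⟩
    rw [mem_range_not hw] at hq
    have h3 : q ∈ Set.range (Spec.map (lm r c)) := h2.ge hq
    obtain ⟨p, rfl⟩ := h3
    exact ⟨p, rfl⟩

lemma exists_rho (c : Bool) : ∃ ρ : B (!c) ⟶ LL r c, Spec.map ρ ≫ w (!c) = Spec.map (lm r c) ≫ w c := by
  have h1 := isOpenImmersion_of_chart (hw (!c))
  have hr : Set.range (Spec.map (lm r c) ≫ w c) ⊆ Set.range (w (!c)) := by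
    rw [range_lmw hw]
    exact Set.inter_subset_right
  obtain ⟨g, hg⟩ := Spec.map_surjective (IsOpenImmersion.lift (w (!c)) _ hr)
  exact ⟨g, by rw [hg, IsOpenImmersion.lift_fac]⟩

/-- The intersection chart is the localisation of both charts. -/
lemma exists_pow (ρ : B true ⟶ LL r false)
    (hρ : Spec.map ρ ≫ w true = Spec.map (lm r false) ≫ w false) (z : LL r false) :
    ∃ (n : ℕ) (b : B true), z * ρ.hom (xx r true) ^ n = ρ.hom b := by
  have h0 := isOpenImmersion_of_chart (hw false)
  have h1 := isOpenImmersion_of_chart (hw true)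
  have i1 := isOpenImmersion_lmw hw false
  have i2 := isOpenImmersion_lmw hw true
  have hr : Set.range (Spec.map (lm r false) ≫ w false) = Set.range (Spec.map (lm r true) ≫ w true) := by
    rw [range_lmw hw, range_lmw hw, Set.inter_comm]
    rfl
  obtain ⟨θ, hθ⟩ := Spec.map_surjective (IsOpenImmersion.lift (Spec.map (lm r true) ≫ w true)
    (Spec.map (lm r false) ≫ w false) hr.le)
  obtain ⟨θ', hθ'⟩ := Spec.map_surjective (IsOpenImmersion.lift (Spec.map (lm r false) ≫ w false)
    (Spec.map (lm r true) ≫ w true) hr.ge)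
  have e1 : Spec.map θ ≫ Spec.map (lm r true) ≫ w true = Spec.map (lm r false) ≫ w false := by
    rw [hθ, IsOpenImmersion.lift_fac]
  have e2 : Spec.map θ' ≫ Spec.map (lm r false) ≫ w false = Spec.map (lm r true) ≫ w true := by
    rw [hθ', IsOpenImmersion.lift_fac]
  have e3 : θ' ≫ θ = 𝟙 _ := by
    apply factor_unique (Spec.map (lm r false) ≫ w false)
    rw [Spec.map_comp, Category.assoc, e2, e1, Spec.map_id, Category.id_comp]
  have e4 : lm r true ≫ θ = ρ := by
    apply factor_unique (w true)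
    rw [Spec.map_comp, Category.assoc, e1, hρ]
  obtain ⟨n, b, hb⟩ := IsLocalization.Away.surj (xx r true) (θ'.hom z)
  refine ⟨n, b, ?_⟩
  have h5 : ∀ t, θ.hom (θ'.hom t) = t := fun t => congrArg (fun f => f.hom t) e3
  have h6 : ∀ t, θ.hom (algebraMap (B true) (Localization.Away (xx r true)) t) = ρ.hom t :=
    fun t => congrArg (fun f => f.hom t) e4
  have h7 := congrArg θ.hom hb
  rw [map_mul, map_pow, h5, h6, h6] at h7
  exact h7

/-- The transition relation. -/
lemma rho_rel (ρ : B true ⟶ LL r false)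
    (hρ : Spec.map ρ ≫ w true = Spec.map (lm r false) ≫ w false) :
    (lm r false).hom (xx r false) * ρ.hom (xx r true) = 1 ∧
      ρ.hom ((r true).hom (EC.y k)) = (lm r false).hom ((r false).hom (EC.y k)) *
        ρ.hom (xx r true) ^ 2 := by
  have h1 : Spec.map (r false ≫ lm r false) ≫ EC.ch false =
      Spec.map (r true ≫ ρ) ≫ EC.ch (!false) := by
    rw [Spec.map_comp, Spec.map_comp, Category.assoc, Category.assoc]
    change Spec.map (lm r false) ≫ Spec.map (r false) ≫ EC.ch false =
      Spec.map ρ ≫ Spec.map (r true) ≫ EC.ch true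
    rw [← (hw false).w, ← (hw true).w, ← Category.assoc, ← Category.assoc, hρ]
  exact EC.ch_rel (f := (lm r false).hom.comp (r false).hom) (g := ρ.hom.comp (r true).hom) h1

end charts

end Pool.Agent.W513
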