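import Pool.Agent.W513.Gn1
import Pool.Agent.W513.Glue
import Pool.Agent.W513.CechR

/-!
# The genus of `C_ψ`
-/

set_option autoImplicit false

open CategoryTheory Limits AlgebraicGeometry IsLocalRing TopologicalSpace

namespace Pool.Agent.W513

open Pool.Agent.Helper198.Sch
open Pool.Agent.H666R3.NG
open Pool.Agent.W129.GB

attribute [local instance] MvPolynomial.gradedAlgebra

variable {k : Type} [Field k] [CharZero k] [IsAlgClosed k]

namespace EC.IsEnd

variable {ψ : EC.curve k ⟶ EC.curve k} {s : EC.FK k →+* EC.FK k} {μ : k} (h : EC.IsEnd ψ s μ)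

include h

theorem exists_genus {b : k} (hb : b ^ 2 + (0 : k) ^ 4 + 1 = 0) {n : ℕ}
    (P : Fin (n + 1) → EC.Kp k) (hP : Function.Injective P)
    (hPψ : ∀ i, (P i).1 ≫ ψ = EC.kpt true 0 b hb) :
    ∃ g, n ≤ g ∧ HasGenus (pullback.snd (FQ.f k) ψ ≫ V.str (EC.J k)) g := by
  have hint := h.isIntegral_cr
  obtain ⟨B, w, r, hw, hcov⟩ := h.exists_cover
  obtain ⟨ρ, hρ⟩ := exists_rho hw false
  change B true ⟶ _ at ρ
  change Spec.map ρ ≫ w true = _ at hρ
  obtain ⟨hx, hy⟩ := rho_rel hw ρ hρ
  have o0 := isOpenImmersion_cv (hw false)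
  have o2 := isOpenImmersion_cv (hw true)
  have u0 := isOpenImmersion_of_chart (hw false)
  have u2 := isOpenImmersion_of_chart (hw true)
  -- the second map
  have hsq : (dw ((lm r false).hom ((r false).hom (EC.y k))) * dB _ (ρ.hom (xx r true))) ^ 2 =
      ((dB ((lm r false).hom ((r false).hom (EC.y k)))).comp ρ.hom) ((r true).hom (EC.y k)) := by
    rw [mul_pow, dw_sq, RingHom.comp_apply, hy, map_mul, map_pow]
  let s0 := dMap (lm r false).hom ((r false).hom (EC.y k))
  let s2 := dLift ((r true).hom (EC.y k))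
    ((dB ((lm r false).hom ((r false).hom (EC.y k)))).comp ρ.hom) _ hsq
  let v02 := Spec.map (CommRingCat.ofHom s0) ≫ cv (hw false)
  have pb := isPullback_SpecMap_of_isPushout _ _ _ _
    (isPushout_dMap (lm r false) ((r false).hom (EC.y k)))
  have pb2 : IsPullback v02 (Spec.map (CommRingCat.ofHom
      (dB ((lm r false).hom ((r false).hom (EC.y k)))))) (pullback.snd (FQ.f k) ψ)
      (Spec.map (lm r false) ≫ w false) := pb.paste_horiz (isPullback_cv (hw false))
  have o02 : IsOpenImmersion v02 :=
    MorphismProperty.of_isPullback pb2.flip (isOpenImmersion_lmw hw false)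
  have hr02 : Set.range v02 = (pullback.snd (FQ.f k) ψ) ⁻¹' (Set.range (w false) ∩ Set.range (w true)) := by
    have h1 : v02 = pb2.isoPullback.hom ≫ pullback.fst _ _ := pb2.isoPullback_hom_fst.symm
    have h2 : Set.range v02 = Set.range (pullback.fst (pullback.snd (FQ.f k) ψ)
        (Spec.map (lm r false) ≫ w false)) := by
      rw [h1]
      ext z
      constructor
      · rintro ⟨u, rfl⟩
        exact ⟨pb2.isoPullback.hom u, rfl⟩
      · rintro ⟨u, rfl⟩
        obtain ⟨v, rfl⟩ := pb2.isoPullback.hom.homeomorph.surjective u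
        exact ⟨v, rfl⟩
    rw [h2, Scheme.Pullback.range_fst, range_lmw hw false]
    rfl
  have hstr : ∀ c, w c ≫ V.str (EC.J k) =
      Spec.map (r c) ≫ Spec.map (CommRingCat.ofHom (algebraMap k (EC.A k))) := by
    intro c
    rw [← EC.ch_str c, ← Category.assoc (Spec.map (r c)), ← (hw c).w, Category.assoc, h.str]
  have hσ : ∀ a : k, (lm r false).hom ((r false).hom (algebraMap k (EC.A k) a)) =
      ρ.hom ((r true).hom (algebraMap k (EC.A k) a)) := by
    have h1 := congrArg (fun t => t ≫ V.str (EC.J k)) hρ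
    simp only [Category.assoc] at h1
    rw [hstr, hstr, ← Spec.map_comp, ← Spec.map_comp, ← Spec.map_comp, ← Spec.map_comp] at h1
    have h2 := Spec.map_injective h1
    exact fun a => (congrArg (fun t => t.hom a) h2).symm
  have s0B : ∀ z, s0 (dB _ z) = dB _ ((lm r false).hom z) := dMap_B _ _
  have s0w : s0 (dw _) = dw _ := dMap_w _ _
  have s2B : ∀ z, s2 (dB _ z) = dB _ (ρ.hom z) := dLift_B _ _ _ hsq
  have s2w : s2 (dw _) = dw _ * dB _ (ρ.hom (xx r true)) := dLift_w _ _ _ hsq
  have e2 : Spec.map (CommRingCat.ofHom s2) ≫ cv (hw true) = v02 := by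
    apply pullback.hom_ext
    · rw [Category.assoc, Category.assoc, cv_fst, cv_fst, ← Category.assoc, ← Category.assoc,
        ← Spec.map_comp, ← Spec.map_comp, ← CommRingCat.ofHom_comp, ← CommRingCat.ofHom_comp]
      symm
      apply FQ.ch_eq (c := false)
      · intro a
        change s0 (rF (r false) _) = s2 (rF (r true) _)
        rw [rF_alg, rF_alg, s0B, s2B, hσ]
      · change s0 (rF (r false) _) * s2 (rF (r true) _) = 1
        rw [rF_x, rF_x, s0B, s2B, ← map_mul, hx, map_one]
      · change s2 (rF (r true) _) = s0 (rF (r false) _) * s2 (rF (r true) _)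
        rw [rF_y, rF_y, rF_x, s0w, s2w, s2B]
    · rw [Category.assoc, cv_snd, pb2.w, ← hρ, ← Category.assoc, ← Category.assoc,
        ← Spec.map_comp, ← Spec.map_comp]
      congr 2
      ext z
      exact s2B z
  have c1 : (cv (hw false)).opensRange ⊔ (cv (hw true)).opensRange = ⊤ := by
    rw [eq_top_iff]
    intro z _
    obtain ⟨c, hc⟩ := hcov z
    cases c
    · exact Or.inl hc
    · exact Or.inr hc
  have c2 : Scheme.Hom.opensRange v02 = (cv (hw false)).opensRange ⊓ (cv (hw true)).opensRange := by
    apply TopologicalSpace.Opens.ext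
    change Set.range v02 = Set.range (cv (hw false)) ∩ Set.range (cv (hw true))
    rw [hr02, range_cv, range_cv, Set.preimage_inter]
  -- the ring homomorphisms from the ground field
  let σ : ∀ c, k →+* B c := fun c => (r c).hom.comp (algebraMap k (EC.A k))
  -- the charts of the elliptic curve
  have i02 := isOpenImmersion_lmw hw false
  have hwr : ∀ z, ∃ c, z ∈ Set.range (w c) := by
    intro z
    obtain ⟨c, hc⟩ := EC.exists_mem_range_ch (ψ z)
    refine ⟨c, ?_⟩
    rw [range_chart_psi (hw c)]
    exact hc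
  have hglue : ∀ (a : B false) (b : B true), (lm r false).hom a = ρ.hom b →
      ∃ c : k, b = σ true c := by
    intro a b hab
    refine glue_const (V.str (EC.J k)) (w false) (w true) (Spec.map (lm r false) ≫ w false) ?_ ?_
      (lm r false) ρ rfl hρ (CommRingCat.ofHom (σ true)) ?_ a b hab
    · rw [eq_top_iff]
      intro z _
      obtain ⟨c, hc⟩ := hwr z
      cases c
      · exact Or.inl hc
      · exact Or.inr hc
    · apply TopologicalSpace.Opens.ext
      exact range_lmw hw false
    · rw [hstr, ← Spec.map_comp]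
      rfl
  have hfin0 : (Polynomial.eval₂RingHom (σ false) (xx r false)).Finite := by
    have h1 : (algebraMap (Polynomial k) (EC.A k)).Finite :=
      RingHom.finite_algebraMap.2 (EC.pol_monic k).finite_adjoinRoot
    have h2 := (h.finite_chart (hw false)).comp h1
    have h3 : Polynomial.eval₂RingHom (σ false) (xx r false) =
        (r false).hom.comp (algebraMap (Polynomial k) (EC.A k)) := by
      apply Polynomial.ringHom_ext
      · intro a
        rw [Polynomial.coe_eval₂RingHom, Polynomial.eval₂_C]
        rfl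
      · rw [Polynomial.coe_eval₂RingHom, Polynomial.eval₂_X]
        rfl
    rw [h3]
    exact h2
  have hloc0 : ∀ z : LL r false, ∃ (n : ℕ) (a : B false),
      z * (lm r false).hom (xx r false) ^ n = (lm r false).hom a :=
    fun z => IsLocalization.Away.surj (xx r false) z
  -- the points
  have hPq : ∀ i, ∃ q : B true →+* k, Spec.map (CommRingCat.ofHom q) ≫ w true = (P i).1 := by
    intro i
    have h1 : (P i).1 (closedPoint k) ∈ Set.range (w true) := by
      rw [range_chart_psi (hw true), Set.mem_preimage]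
      have h2 : ψ ((P i).1 (closedPoint k)) = EC.kpt true 0 b hb (closedPoint k) :=
        congrArg (fun t : Spec (.of k) ⟶ EC.curve k => t (closedPoint k)) (hPψ i)
      rw [h2]
      exact ⟨_, rfl⟩
    obtain ⟨q, hq⟩ := exists_factor (w true) (.of k) (P i).1 h1
    exact ⟨q.hom, hq⟩
  choose q hq using hPq
  have hqinj : Function.Injective q := by
    intro i j hij
    apply hP
    apply Subtype.ext
    rw [← hq i, ← hq j, hij]
  have hqσ : ∀ i c, q i (σ true c) = c := by
    intro i c
    have h1 := (P i).2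
    rw [← hq i, Category.assoc, hstr, ← Spec.map_comp, ← Spec.map_comp, ← Spec.map_id] at h1
    exact congrArg (fun t => t.hom c) (Spec.map_injective h1)
  have hqx : ∀ i, q i (xx r true) = 0 := by
    intro i
    have h1 : Spec.map (r true ≫ CommRingCat.ofHom (q i)) ≫ EC.ch true =
        Spec.map (CommRingCat.ofHom (EC.lift 0 b hb : EC.A k →ₐ[k] k).toRingHom) ≫ EC.ch true := by
      rw [Spec.map_comp, Category.assoc, ← (hw true).w, ← Category.assoc, hq i, hPψ i]
      rfl
    have h2 := factor_unique (EC.ch true) h1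
    have h3 := congrArg (fun t => t.hom (EC.x k)) h2
    exact h3.trans (EC.lift_x _ _ hb)
  obtain ⟨g, hg, hC⟩ := cech_genus_rh (σ false) (σ true) (lm r false).hom ρ.hom s0 s2 (dB _) (dB _)
    (dB _) hσ s0B s2B (dw _) (dw _) (xx r false) (xx r true) hx (by rw [s2w, s0w]) (exists_dec _)
    (exists_dec _) (by rw [s0w]; exact exists_dec _) (by rw [s0w]; exact dec_unique _)
    hglue hfin0 hloc0 (exists_pow hw ρ hρ) q hqinj hqσ hqx
  refine ⟨g, hg, ?_⟩
  refine hasGenus_of_charts _ (cv (hw false)) (cv (hw true)) v02 c1 c2 (CommRingCat.ofHom s0)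
    (CommRingCat.ofHom s2) rfl e2 (CommRingCat.ofHom _) ?_ g hC
  rw [← Category.assoc, pb2.w, Category.assoc, Category.assoc, hstr, ← Spec.map_comp,
    ← Spec.map_comp, ← Spec.map_comp]
  rfl

end EC.IsEnd

end Pool.Agent.W513
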