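import Pool.Agent.W960.HC.Defs

open Set Topology Filter MeasureTheory

namespace Pool.Agent.W513.HC

open Pool.Agent.W960.HC

/-- the arc at level zero -/
noncomputable def Z (x : ℝ) : ℝ := Real.sqrt (1 + x ^ 2)

theorem Z_sq (x : ℝ) : Z x ^ 2 = 1 + x ^ 2 := Real.sq_sqrt (by positivity)

theorem Z_ge1 (x : ℝ) : 1 ≤ Z x := by
  unfold Z
  rw [Real.one_le_sqrt]
  nlinarith [sq_nonneg x]

theorem Z_le (x : ℝ) : Z x ≤ 1 + x ^ 2 := by
  have h1 := Z_sq x
  have h2 := Z_ge1 x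
  nlinarith

theorem Z_le' (x : ℝ) (hx : 0 ≤ x) : Z x ≤ 1 + x := by
  unfold Z
  rw [Real.sqrt_le_left (by linarith)]
  nlinarith

theorem Z_ge_x (x : ℝ) : x ≤ Z x := by
  unfold Z
  apply Real.le_sqrt_of_sq_le
  linarith

theorem Z_cont : Continuous Z := by
  unfold Z
  fun_prop

theorem Y_cont (κ : ℝ) : Continuous (fun x => Y κ x) := by
  unfold Y
  fun_prop

theorem Y_nonneg (κ x : ℝ) : 0 ≤ Y κ x := Real.sqrt_nonneg _

theorem Y_le (κ x : ℝ) (hκ : 0 ≤ κ) : Y κ x ≤ Z x := by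
  unfold Y Z
  apply Real.sqrt_le_sqrt
  have : 0 ≤ κ * Real.exp (x ^ 2) := by positivity
  linarith

theorem kp_nonneg (X : ℝ) : 0 ≤ kp X := by
  unfold kp
  positivity

theorem kp_pos (X : ℝ) : 0 < kp X := by
  unfold kp
  positivity

theorem kp_mul (X x : ℝ) : kp X * Real.exp (x ^ 2) = (1 + X ^ 2) * Real.exp (x ^ 2 - X ^ 2) := by
  unfold kp
  rw [Real.exp_sub, Real.exp_neg]
  field_simp

theorem kp_out (X x : ℝ) (hX : 0 ≤ X) (hx : X ≤ x) : 1 + x ^ 2 ≤ kp X * Real.exp (x ^ 2) := by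
  rw [kp_mul]
  have h1 := Real.add_one_le_exp (x ^ 2 - X ^ 2)
  have h2 : 0 ≤ x ^ 2 - X ^ 2 := by nlinarith
  have h3 : 0 ≤ X ^ 2 := sq_nonneg X
  nlinarith

theorem kp_in (X x : ℝ) (hx0 : 0 ≤ x) (hx : x ≤ X) : kp X * Real.exp (x ^ 2) ≤ 1 + x ^ 2 := by
  rw [kp_mul]
  have h1 := Real.add_one_le_exp (X ^ 2 - x ^ 2)
  have h2 : 0 ≤ X ^ 2 - x ^ 2 := by nlinarith
  have h3 : 0 ≤ x ^ 2 := sq_nonneg x
  have h4 : Real.exp (x ^ 2 - X ^ 2) * Real.exp (X ^ 2 - x ^ 2) = 1 := by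
    rw [← Real.exp_add]
    simp
  have h5 : 1 + X ^ 2 ≤ (1 + x ^ 2) * Real.exp (X ^ 2 - x ^ 2) := by nlinarith
  have h6 : 0 < Real.exp (x ^ 2 - X ^ 2) := Real.exp_pos _
  calc (1 + X ^ 2) * Real.exp (x ^ 2 - X ^ 2)
      ≤ ((1 + x ^ 2) * Real.exp (X ^ 2 - x ^ 2)) * Real.exp (x ^ 2 - X ^ 2) :=
        mul_le_mul_of_nonneg_right h5 h6.le
    _ = (1 + x ^ 2) * (Real.exp (x ^ 2 - X ^ 2) * Real.exp (X ^ 2 - x ^ 2)) := by ring
    _ = 1 + x ^ 2 := by rw [h4, mul_one]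

theorem Y_out (X x : ℝ) (hX : 0 ≤ X) (hx : X ≤ x) : Y (kp X) x = 0 := by
  unfold Y
  apply Real.sqrt_eq_zero_of_nonpos
  linarith [kp_out X x hX hx]

theorem Y_sq_in (X x : ℝ) (hx0 : 0 ≤ x) (hx : x ≤ X) :
    Y (kp X) x ^ 2 = 1 + x ^ 2 - kp X * Real.exp (x ^ 2) := by
  unfold Y
  apply Real.sq_sqrt
  linarith [kp_in X x hx0 hx]

theorem kp_le_one (X : ℝ) (hX : 0 ≤ X) : kp X ≤ 1 := by
  have h := kp_in X 0 le_rfl hX
  simpa using h

theorem kp_sq (X : ℝ) : X ^ 2 * kp X ≤ 2 := by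
  have h1 := Real.quadratic_le_exp_of_nonneg (sq_nonneg X)
  have h2 : kp X * Real.exp (X ^ 2) = 1 + X ^ 2 := by
    rw [kp_mul]
    simp
  have h3 : 0 < Real.exp (X ^ 2) := Real.exp_pos _
  have h4 : X ^ 2 * (kp X * Real.exp (X ^ 2)) ≤ 2 * Real.exp (X ^ 2) := by
    rw [h2]
    nlinarith [sq_nonneg X]
  have h5 : (X ^ 2 * kp X) * Real.exp (X ^ 2) ≤ 2 * Real.exp (X ^ 2) := by linarith
  exact le_of_mul_le_mul_right h5 h3

theorem kp_lin (X : ℝ) (hX : 0 ≤ X) : X * kp X ≤ 2 := by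
  have h1 := kp_sq X
  have h2 := kp_le_one X hX
  have h3 := kp_nonneg X
  nlinarith [sq_nonneg (X - 1)]

/-- the dominating function -/
noncomputable def dom (x : ℝ) : ℝ := Real.exp (-x ^ 2) * (1 + x ^ 2) ^ 2

theorem dom_int : Integrable dom := by
  have h0 : Integrable (fun x : ℝ => Real.exp (-x ^ 2)) := by
    have h := integrable_exp_neg_mul_sq (b := 1) one_pos
    simpa using h
  have h2 : Integrable (fun x : ℝ => x ^ 2 * Real.exp (-x ^ 2)) := by
    have h := integrable_rpow_mul_exp_neg_mul_sq (b := 1) one_pos (s := (2 : ℕ)) (by norm_num)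
    simp only [Real.rpow_natCast] at h
    simpa using h
  have h4 : Integrable (fun x : ℝ => x ^ 4 * Real.exp (-x ^ 2)) := by
    have h := integrable_rpow_mul_exp_neg_mul_sq (b := 1) one_pos (s := (4 : ℕ)) (by norm_num)
    simp only [Real.rpow_natCast] at h
    simpa using h
  have h := (h0.add (h2.const_mul 2)).add h4
  refine h.congr (Filter.Eventually.of_forall (fun x => ?_))
  simp only [Pi.add_apply, dom]
  ring

/-- a continuous function dominated by `C * dom` -/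
theorem int_of_le (f : ℝ → ℝ) (hf : Continuous f) (C : ℝ) (S : Set ℝ) (hS : MeasurableSet S)
    (h : ∀ x ∈ S, |f x| ≤ C * dom x) : IntegrableOn f S := by
  refine Integrable.mono' ((dom_int.const_mul C).integrableOn (s := S)) hf.aestronglyMeasurable ?_
  refine (ae_restrict_iff' hS).mpr (Filter.Eventually.of_forall ?_)
  intro x hx
  rw [Real.norm_eq_abs]
  exact h x hx

/-- the integrand -/
noncomputable def F (a c X x : ℝ) : ℝ :=
  Real.exp (-x ^ 2) * Y (kp X) x * (a + c * x ^ 2 + Y (kp X) x ^ 2)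

/-- the limit integrand -/
noncomputable def F0 (a c x : ℝ) : ℝ := Real.exp (-x ^ 2) * Z x * (a + c * x ^ 2 + Z x ^ 2)

theorem F_cont (a c X : ℝ) : Continuous (F a c X) := by
  unfold F
  have := Y_cont (kp X)
  fun_prop

theorem F0_cont (a c : ℝ) : Continuous (F0 a c) := by
  unfold F0
  have := Z_cont
  fun_prop

theorem gen_bound (a c x y : ℝ) (hy0 : 0 ≤ y) (hy : y ≤ Z x) :
    |Real.exp (-x ^ 2) * y * (a + c * x ^ 2 + y ^ 2)| ≤ (|a| + |c| + 1) * dom x := by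
  have hZ := Z_sq x
  have hZ1 := Z_ge1 x
  have hx : 0 ≤ x ^ 2 := sq_nonneg x
  have hy2 : y ^ 2 ≤ 1 + x ^ 2 := by
    rw [← hZ]
    exact pow_le_pow_left₀ hy0 hy 2
  have h1 : |a + c * x ^ 2 + y ^ 2| ≤ (|a| + |c| + 1) * (1 + x ^ 2) := by
    have h2 : |a + c * x ^ 2 + y ^ 2| ≤ |a| + |c| * x ^ 2 + y ^ 2 := by
      have h3 := abs_add_le (a + c * x ^ 2) (y ^ 2)
      have h4 := abs_add_le a (c * x ^ 2)
      rw [abs_mul, abs_of_nonneg hx] at h4
      rw [abs_of_nonneg (sq_nonneg y)] at h3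
      linarith
    have ha := abs_nonneg a
    have hc := abs_nonneg c
    nlinarith
  have hE : 0 < Real.exp (-x ^ 2) := Real.exp_pos _
  rw [abs_mul, abs_mul, abs_of_pos hE, abs_of_nonneg hy0]
  have hyZ : y ≤ 1 + x ^ 2 := hy.trans (Z_le x)
  unfold dom
  have hk : 0 ≤ (|a| + |c| + 1) * (1 + x ^ 2) := by positivity
  calc Real.exp (-x ^ 2) * y * |a + c * x ^ 2 + y ^ 2|
      ≤ Real.exp (-x ^ 2) * (1 + x ^ 2) * ((|a| + |c| + 1) * (1 + x ^ 2)) := by
        apply mul_le_mul _ h1 (abs_nonneg _) (by positivity)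
        exact mul_le_mul_of_nonneg_left hyZ hE.le
    _ = _ := by ring

theorem F_bound (a c X x : ℝ) : |F a c X x| ≤ (|a| + |c| + 1) * dom x :=
  gen_bound a c x _ (Y_nonneg _ _) (Y_le _ _ (kp_nonneg X))

theorem F0_bound (a c x : ℝ) : |F0 a c x| ≤ (|a| + |c| + 1) * dom x :=
  gen_bound a c x _ (by linarith [Z_ge1 x]) le_rfl

theorem F_int (a c X : ℝ) (S : Set ℝ) (hS : MeasurableSet S) : IntegrableOn (F a c X) S :=
  int_of_le _ (F_cont a c X) _ S hS (fun x _ => F_bound a c X x)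

theorem F0_int (a c : ℝ) (S : Set ℝ) (hS : MeasurableSet S) : IntegrableOn (F0 a c) S :=
  int_of_le _ (F0_cont a c) _ S hS (fun x _ => F0_bound a c x)

theorem Mel_eq (a c X : ℝ) (hX : 0 < X) : Mel a c X = ∫ x in Ioi (0 : ℝ), F a c X x := by
  unfold Mel
  rw [intervalIntegral.integral_of_le hX.le]
  refine (setIntegral_eq_of_subset_of_forall_sdiff_eq_zero measurableSet_Ioi
    (fun x hx => hx.1) ?_).symm
  intro x hx
  have h1 : X ≤ x := by
    by_contra hlt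
    exact hx.2 ⟨hx.1, (not_le.mp hlt).le⟩
  show Real.exp (-x ^ 2) * Y (kp X) x * (a + c * x ^ 2 + Y (kp X) x ^ 2) = 0
  rw [Y_out X x hX.le h1]
  ring

/-- the limit -/
noncomputable def Lim (a c : ℝ) : ℝ := ∫ x in Ioi (0 : ℝ), F0 a c x

theorem kp_tendsto : Tendsto kp atTop (𝓝 0) := by
  have h1 : Tendsto (fun X : ℝ => 2 / X) atTop (𝓝 0) := tendsto_const_nhds.div_atTop tendsto_id
  refine squeeze_zero' (Filter.Eventually.of_forall kp_nonneg) ?_ h1
  filter_upwards [eventually_gt_atTop 0] with X hX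
  rw [le_div_iff₀ hX, mul_comm]
  exact kp_lin X hX.le

theorem Mel_tendsto (a c : ℝ) : Tendsto (fun X => Mel a c X) atTop (𝓝 (Lim a c)) := by
  have h : Tendsto (fun X => ∫ x in Ioi (0 : ℝ), F a c X x) atTop (𝓝 (Lim a c)) := by
    unfold Lim
    refine tendsto_integral_filter_of_dominated_convergence (fun x => (|a| + |c| + 1) * dom x)
      (Filter.Eventually.of_forall (fun X => (F_cont a c X).aestronglyMeasurable)) ?_
      ((dom_int.const_mul _).integrableOn) ?_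
    · refine Filter.Eventually.of_forall (fun X => Filter.Eventually.of_forall (fun x => ?_))
      rw [Real.norm_eq_abs]
      exact F_bound a c X x
    · refine Filter.Eventually.of_forall (fun x => ?_)
      have h1 : Tendsto (fun X => Y (kp X) x) atTop (𝓝 (Z x)) := by
        unfold Y Z
        have h2 : Tendsto (fun X => 1 + x ^ 2 - kp X * Real.exp (x ^ 2)) atTop (𝓝 (1 + x ^ 2)) := by
          have h3 := (kp_tendsto.mul_const (Real.exp (x ^ 2))).const_sub (1 + x ^ 2)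
          simpa using h3
        exact (Real.continuous_sqrt.tendsto _).comp h2
      unfold F F0
      exact ((h1.const_mul _)).mul ((h1.pow 2).const_add _)
  refine h.congr' ?_
  filter_upwards [eventually_gt_atTop 0] with X hX
  exact (Mel_eq a c X hX).symm

/-! ### the limit functional -/

noncomputable def b0 : ℝ := ∫ x in Ioi (0 : ℝ), Real.exp (-x ^ 2) * Z x
noncomputable def b1 : ℝ := ∫ x in Ioi (0 : ℝ), Real.exp (-x ^ 2) * Z x * x ^ 2
noncomputable def b3 : ℝ := ∫ x in Ioi (0 : ℝ), Real.exp (-x ^ 2) * Z x * Z x ^ 2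

theorem i0 : IntegrableOn (fun x => Real.exp (-x ^ 2) * Z x) (Ioi 0) := by
  refine int_of_le _ ?_ 1 _ measurableSet_Ioi (fun x _ => ?_)
  · have := Z_cont
    fun_prop
  · have h := Z_le x
    have h1 := Z_ge1 x
    have hE : 0 < Real.exp (-x ^ 2) := Real.exp_pos _
    rw [abs_of_nonneg (by positivity)]
    unfold dom
    rw [one_mul]
    apply mul_le_mul_of_nonneg_left _ hE.le
    nlinarith [sq_nonneg x]

theorem i1 : IntegrableOn (fun x => Real.exp (-x ^ 2) * Z x * x ^ 2) (Ioi 0) := by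
  refine int_of_le _ ?_ 1 _ measurableSet_Ioi (fun x _ => ?_)
  · have := Z_cont
    fun_prop
  · have h := Z_le x
    have h1 := Z_ge1 x
    have hE : 0 < Real.exp (-x ^ 2) := Real.exp_pos _
    rw [abs_of_nonneg (by positivity), mul_assoc]
    unfold dom
    rw [one_mul]
    apply mul_le_mul_of_nonneg_left _ hE.le
    have h2 : Z x * x ^ 2 ≤ (1 + x ^ 2) * x ^ 2 := mul_le_mul_of_nonneg_right h (sq_nonneg x)
    nlinarith [sq_nonneg x]

theorem i3 : IntegrableOn (fun x => Real.exp (-x ^ 2) * Z x * Z x ^ 2) (Ioi 0) := by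
  refine int_of_le _ ?_ 1 _ measurableSet_Ioi (fun x _ => ?_)
  · have := Z_cont
    fun_prop
  · have h := Z_le x
    have h1 := Z_ge1 x
    have hE : 0 < Real.exp (-x ^ 2) := Real.exp_pos _
    rw [abs_of_nonneg (by positivity), mul_assoc, Z_sq]
    unfold dom
    rw [one_mul]
    apply mul_le_mul_of_nonneg_left _ hE.le
    have h2 : Z x * (1 + x ^ 2) ≤ (1 + x ^ 2) * (1 + x ^ 2) :=
      mul_le_mul_of_nonneg_right h (by positivity)
    nlinarith [sq_nonneg x]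

theorem Lim_eq (a c : ℝ) : Lim a c = a * b0 + c * b1 + b3 := by
  unfold Lim b0 b1 b3
  have e1 : ∫ x in Ioi (0 : ℝ), (a * (Real.exp (-x ^ 2) * Z x) + c * (Real.exp (-x ^ 2) * Z x * x ^ 2)) =
      (∫ x in Ioi (0 : ℝ), a * (Real.exp (-x ^ 2) * Z x)) +
        ∫ x in Ioi (0 : ℝ), c * (Real.exp (-x ^ 2) * Z x * x ^ 2) :=
    integral_add (i0.const_mul a) (i1.const_mul c)
  have e2 : ∫ x in Ioi (0 : ℝ), ((a * (Real.exp (-x ^ 2) * Z x) + c * (Real.exp (-x ^ 2) * Z x * x ^ 2)) +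
      Real.exp (-x ^ 2) * Z x * Z x ^ 2) =
      (∫ x in Ioi (0 : ℝ), (a * (Real.exp (-x ^ 2) * Z x) + c * (Real.exp (-x ^ 2) * Z x * x ^ 2))) +
        ∫ x in Ioi (0 : ℝ), Real.exp (-x ^ 2) * Z x * Z x ^ 2 :=
    integral_add ((i0.const_mul a).add (i1.const_mul c)) i3
  rw [← integral_const_mul, ← integral_const_mul, ← e1, ← e2]
  refine integral_congr_ae (Filter.Eventually.of_forall (fun x => ?_))
  simp only [F0]
  ring

theorem b0_pos : 0 < b0 := by
  unfold b0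
  rw [setIntegral_pos_iff_support_of_nonneg_ae ?_ i0]
  · have h : Function.support (fun x => Real.exp (-x ^ 2) * Z x) ∩ Ioi 0 = Ioi 0 := by
      rw [inter_eq_right]
      intro x _
      have h1 := Z_ge1 x
      have hE : 0 < Real.exp (-x ^ 2) := Real.exp_pos _
      have : 0 < Real.exp (-x ^ 2) * Z x := by positivity
      exact this.ne'
    rw [h, Real.volume_Ioi]
    exact ENNReal.zero_lt_top
  · refine Filter.Eventually.of_forall (fun x => ?_)
    have h1 := Z_ge1 x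
    show (0 : ℝ) ≤ Real.exp (-x ^ 2) * Z x
    positivity

theorem Z_deriv (x : ℝ) : HasDerivAt Z (x / Z x) x := by
  have h1 : HasDerivAt (fun x : ℝ => 1 + x ^ 2) (2 * x) x := by
    have h : HasDerivAt (fun x : ℝ => 1 + x ^ 2) ((2 : ℕ) * x ^ (2 - 1)) x :=
      (hasDerivAt_pow 2 x).const_add 1
    simpa using h
  have h2 : (1 + x ^ 2) ≠ 0 := by positivity
  have h3 := h1.sqrt h2
  have h4 : 2 * x / (2 * Real.sqrt (1 + x ^ 2)) = x / Z x := by
    unfold Z
    rw [mul_div_mul_left _ _ two_ne_zero]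
  rw [h4] at h3
  exact h3

theorem E_deriv (x : ℝ) : HasDerivAt (fun x : ℝ => Real.exp (-x ^ 2)) (-(2 * x) * Real.exp (-x ^ 2)) x := by
  have h1 : HasDerivAt (fun x : ℝ => -x ^ 2) (-(2 * x)) x := by
    have h : HasDerivAt (fun x : ℝ => -(x ^ 2)) (-((2 : ℕ) * x ^ (2 - 1))) x :=
      (hasDerivAt_pow 2 x).neg
    simpa using h
  have h2 := h1.exp
  rw [mul_comm] at h2
  exact h2

/-- integration by parts -/
theorem parts : ∫ x in Ioi (0 : ℝ), Real.exp (-x ^ 2) * Z x * (2 * x ^ 2 - 1) =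
    ∫ x in Ioi (0 : ℝ), x ^ 2 * Real.exp (-x ^ 2) / Z x := by
  have hA : IntegrableOn (fun x => Real.exp (-x ^ 2) * Z x * (2 * x ^ 2 - 1)) (Ioi 0) := by
    have h := (i1.const_mul 2).sub i0
    refine h.congr (Filter.Eventually.of_forall (fun x => ?_))
    simp only [Pi.sub_apply]
    ring
  have hB : IntegrableOn (fun x => x ^ 2 * Real.exp (-x ^ 2) / Z x) (Ioi 0) := by
    refine int_of_le _ ?_ 1 _ measurableSet_Ioi (fun x _ => ?_)
    · apply Continuous.div (by fun_prop) Z_cont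
      intro x
      have := Z_ge1 x
      linarith
    · have h1 := Z_ge1 x
      have hE : 0 < Real.exp (-x ^ 2) := Real.exp_pos _
      rw [abs_of_nonneg (by positivity), one_mul, div_le_iff₀ (by linarith)]
      unfold dom
      have h2 : x ^ 2 ≤ (1 + x ^ 2) ^ 2 := by nlinarith [sq_nonneg x, sq_nonneg (x ^ 2)]
      have h3 : x ^ 2 * Real.exp (-x ^ 2) ≤ Real.exp (-x ^ 2) * (1 + x ^ 2) ^ 2 := by
        rw [mul_comm]
        exact mul_le_mul_of_nonneg_left h2 hE.le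
      have h4 : 0 ≤ Real.exp (-x ^ 2) * (1 + x ^ 2) ^ 2 := by positivity
      nlinarith
  have hder : ∀ x ∈ Ioi (0 : ℝ), HasDerivAt (fun x => x * Real.exp (-x ^ 2) * Z x)
      (x ^ 2 * Real.exp (-x ^ 2) / Z x - Real.exp (-x ^ 2) * Z x * (2 * x ^ 2 - 1)) x := by
    intro x _
    have h1 := (((hasDerivAt_id' x).fun_mul (E_deriv x)).fun_mul (Z_deriv x))
    have hZ := Z_ge1 x
    have hZ0 : Z x ≠ 0 := by linarith
    refine h1.congr_deriv ?_
    field_simp
    ring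
  have htend : Tendsto (fun x : ℝ => x * Real.exp (-x ^ 2) * Z x) atTop (𝓝 0) := by
    have h1 : Tendsto (fun X : ℝ => 2 / X) atTop (𝓝 0) := tendsto_const_nhds.div_atTop tendsto_id
    refine squeeze_zero' ?_ ?_ h1
    · filter_upwards [eventually_gt_atTop 0] with x hx
      have hZ := Z_ge1 x
      positivity
    · filter_upwards [eventually_gt_atTop 0] with x hx
      have hZ := Z_ge1 x
      rw [le_div_iff₀ hx]
      have h2 := kp_sq x
      unfold kp at h2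
      have h3 : x * Real.exp (-x ^ 2) * Z x ≤ x * Real.exp (-x ^ 2) * (1 + x ^ 2) :=
        mul_le_mul_of_nonneg_left (Z_le x) (by positivity)
      nlinarith
  have hcont : ContinuousWithinAt (fun x : ℝ => x * Real.exp (-x ^ 2) * Z x) (Ici 0) 0 := by
    have := Z_cont
    apply Continuous.continuousWithinAt
    fun_prop
  have h := integral_Ioi_of_hasDerivAt_of_tendsto hcont hder (hB.sub hA) htend
  rw [integral_sub hB hA] at h
  simp only [zero_mul, sub_zero] at h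
  linarith

theorem ab_pos : 0 < 3 * b1 - b3 := by
  have h1 : 3 * b1 - b3 = ∫ x in Ioi (0 : ℝ), Real.exp (-x ^ 2) * Z x * (2 * x ^ 2 - 1) := by
    unfold b1 b3
    rw [← integral_const_mul, ← integral_sub (i1.const_mul 3) i3]
    refine integral_congr_ae (Filter.Eventually.of_forall (fun x => ?_))
    show 3 * (Real.exp (-x ^ 2) * Z x * x ^ 2) - Real.exp (-x ^ 2) * Z x * Z x ^ 2 =
      Real.exp (-x ^ 2) * Z x * (2 * x ^ 2 - 1)
    rw [Z_sq]
    ring
  rw [h1, parts]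
  have hB : IntegrableOn (fun x => x ^ 2 * Real.exp (-x ^ 2) / Z x) (Ioi 0) := by
    refine int_of_le _ ?_ 1 _ measurableSet_Ioi (fun x _ => ?_)
    · apply Continuous.div (by fun_prop) Z_cont
      intro x
      have := Z_ge1 x
      linarith
    · have h1 := Z_ge1 x
      have hE : 0 < Real.exp (-x ^ 2) := Real.exp_pos _
      rw [abs_of_nonneg (by positivity), one_mul, div_le_iff₀ (by linarith)]
      unfold dom
      have h2 : x ^ 2 ≤ (1 + x ^ 2) ^ 2 := by nlinarith [sq_nonneg x, sq_nonneg (x ^ 2)]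
      have h3 : x ^ 2 * Real.exp (-x ^ 2) ≤ Real.exp (-x ^ 2) * (1 + x ^ 2) ^ 2 := by
        rw [mul_comm]
        exact mul_le_mul_of_nonneg_left h2 hE.le
      have h4 : 0 ≤ Real.exp (-x ^ 2) * (1 + x ^ 2) ^ 2 := by positivity
      nlinarith
  rw [setIntegral_pos_iff_support_of_nonneg_ae ?_ hB]
  · have h : Function.support (fun x => x ^ 2 * Real.exp (-x ^ 2) / Z x) ∩ Ioi 0 = Ioi 0 := by
      rw [inter_eq_right]
      intro x hx
      have hx' : (0 : ℝ) < x := hx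
      have h1 := Z_ge1 x
      have hE : 0 < Real.exp (-x ^ 2) := Real.exp_pos _
      have : 0 < x ^ 2 * Real.exp (-x ^ 2) / Z x := by positivity
      exact this.ne'
    rw [h, Real.volume_Ioi]
    exact ENNReal.zero_lt_top
  · refine Filter.Eventually.of_forall (fun x => ?_)
    have h1 := Z_ge1 x
    show (0 : ℝ) ≤ x ^ 2 * Real.exp (-x ^ 2) / Z x
    positivity

/-! ### linearity of `Mel` -/

noncomputable def B0 (X : ℝ) : ℝ := ∫ x in (0:ℝ)..X, Real.exp (-x ^ 2) * Y (kp X) x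
noncomputable def B1 (X : ℝ) : ℝ := ∫ x in (0:ℝ)..X, Real.exp (-x ^ 2) * Y (kp X) x * x ^ 2

theorem Mel_lin (a c a' c' X : ℝ) : Mel a c X = Mel a' c' X + (a - a') * B0 X + (c - c') * B1 X := by
  unfold Mel B0 B1
  have hY := Y_cont (kp X)
  rw [← intervalIntegral.integral_const_mul, ← intervalIntegral.integral_const_mul,
    ← intervalIntegral.integral_add, ← intervalIntegral.integral_add]
  · refine intervalIntegral.integral_congr (fun x _ => ?_)
    ring
  all_goals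
    apply Continuous.intervalIntegrable
    fun_prop

/-! ### differences -/

theorem split (a c X : ℝ) (hX : 0 < X) : Lim a c - Mel a c X =
    (∫ x in Ioc 0 X, (F0 a c x - F a c X x)) + ∫ x in Ioi X, (F0 a c x - F a c X x) := by
  have h1 : Lim a c - Mel a c X = ∫ x in Ioi (0 : ℝ), (F0 a c x - F a c X x) := by
    rw [Mel_eq a c X hX]
    unfold Lim
    exact (integral_sub (F0_int a c _ measurableSet_Ioi) (F_int a c X _ measurableSet_Ioi)).symm
  rw [h1, ← Ioc_union_Ioi_eq_Ioi hX.le]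
  refine setIntegral_union ?_ measurableSet_Ioi ?_ ?_
  · rw [Set.disjoint_left]
    intro t ht ht'
    exact absurd ht.2 (not_le.mpr ht')
  · exact (F0_int a c _ measurableSet_Ioc).sub (F_int a c X _ measurableSet_Ioc)
  · exact (F0_int a c _ measurableSet_Ioi).sub (F_int a c X _ measurableSet_Ioi)

/-- the quantity `exp (-x^2) (Z - Y)` -/
theorem u_facts (X x : ℝ) (hx0 : 0 ≤ x) (hx : x ≤ X) :
    let u := Real.exp (-x ^ 2) * (Z x - Y (kp X) x)
    0 ≤ u ∧ u * (Z x + Y (kp X) x) = kp X ∧ u * Z x ≤ kp X ∧ kp X ≤ u * (2 * Z x) ∧ u ≤ kp X := by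
  intro u
  have hZ := Z_ge1 x
  have hZs := Z_sq x
  have hY0 := Y_nonneg (kp X) x
  have hYle := Y_le (kp X) x (kp_nonneg X)
  have hYs := Y_sq_in X x hx0 hx
  have hE : 0 < Real.exp (-x ^ 2) := Real.exp_pos _
  have hu0 : 0 ≤ u := mul_nonneg hE.le (by linarith)
  have hEE : Real.exp (-x ^ 2) * Real.exp (x ^ 2) = 1 := by
    rw [← Real.exp_add]
    simp
  have hu : u * (Z x + Y (kp X) x) = kp X := by
    have h1 : u * (Z x + Y (kp X) x) = Real.exp (-x ^ 2) * (Z x ^ 2 - Y (kp X) x ^ 2) := by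
      show Real.exp (-x ^ 2) * (Z x - Y (kp X) x) * (Z x + Y (kp X) x) = _
      ring
    rw [h1, hZs, hYs]
    have h2 : Real.exp (-x ^ 2) * (1 + x ^ 2 - (1 + x ^ 2 - kp X * Real.exp (x ^ 2))) =
        kp X * (Real.exp (-x ^ 2) * Real.exp (x ^ 2)) := by ring
    rw [h2, hEE, mul_one]
  refine ⟨hu0, hu, ?_, ?_, ?_⟩
  · have : 0 ≤ u * Y (kp X) x := mul_nonneg hu0 hY0
    nlinarith
  · have : u * Y (kp X) x ≤ u * Z x := mul_le_mul_of_nonneg_left hYle hu0
    nlinarith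
  · have h1 : 0 ≤ u * Y (kp X) x := mul_nonneg hu0 hY0
    have h2 : 0 ≤ u * (Z x - 1) := mul_nonneg hu0 (by linarith)
    nlinarith

theorem diff_eq (a c X x : ℝ) : F0 a c x - F a c X x =
    Real.exp (-x ^ 2) * (Z x - Y (kp X) x) *
      (a + c * x ^ 2 + Z x ^ 2 + Z x * Y (kp X) x + Y (kp X) x ^ 2) := by
  unfold F0 F
  ring

theorem ediv (x : ℝ) (hx : 0 ≤ x) :
    Real.exp (x ^ 2) / Z x ≤ 3 + 4 * x ^ 3 * Real.exp (x ^ 2) / (1 + x ^ 2) ^ 2 := by
  have hZ := Z_ge1 x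
  have hZx := Z_ge_x x
  have hE : 0 < Real.exp (x ^ 2) := Real.exp_pos _
  rcases le_total x 1 with h | h
  · have h1 : Real.exp (x ^ 2) ≤ 3 := by
      have h2 : Real.exp (x ^ 2) ≤ Real.exp 1 := Real.exp_le_exp.mpr (by nlinarith)
      have h3 := Real.exp_one_lt_d9
      linarith
    have h4 : Real.exp (x ^ 2) / Z x ≤ Real.exp (x ^ 2) := div_le_self hE.le hZ
    have h5 : 0 ≤ 4 * x ^ 3 * Real.exp (x ^ 2) / (1 + x ^ 2) ^ 2 := by positivity
    linarith
  · have hx0 : 0 < x := by linarith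
    have h1 : Real.exp (x ^ 2) / Z x ≤ Real.exp (x ^ 2) / x :=
      div_le_div_of_nonneg_left hE.le hx0 hZx
    have h2 : Real.exp (x ^ 2) / x ≤ 4 * x ^ 3 * Real.exp (x ^ 2) / (1 + x ^ 2) ^ 2 := by
      rw [div_le_div_iff₀ hx0 (by positivity)]
      have h3 : (1 + x ^ 2) ^ 2 ≤ 4 * x ^ 4 := by
        have h4 : 1 + x ^ 2 ≤ 2 * x ^ 2 := by nlinarith
        have h5 : (1 + x ^ 2) ^ 2 ≤ (2 * x ^ 2) ^ 2 := pow_le_pow_left₀ (by positivity) h4 2
        nlinarith
      have h6 := mul_le_mul_of_nonneg_left h3 hE.le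
      nlinarith
    linarith

theorem low1 (a X x : ℝ) (ha : 0 ≤ a) (hx0 : 0 ≤ x) (hx : x ≤ X) :
    kp X * (3 / 2 * (1 + x)⁻¹ - 2 * kp X * (3 + 4 * x ^ 3 * Real.exp (x ^ 2) / (1 + x ^ 2) ^ 2)) ≤
      F0 a (-3) x - F a (-3) X x := by
  obtain ⟨hu0, hu, hu1, hu2, hu3⟩ := u_facts X x hx0 hx
  have hZ := Z_ge1 x
  have hZs := Z_sq x
  have hZl := Z_le' x hx0
  have hY0 := Y_nonneg (kp X) x
  have hYle := Y_le (kp X) x (kp_nonneg X)
  have hYs := Y_sq_in X x hx0 hx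
  have hk := kp_pos X
  have he := ediv x hx0
  rw [diff_eq]
  obtain ⟨u, hudef⟩ : ∃ u, u = Real.exp (-x ^ 2) * (Z x - Y (kp X) x) := ⟨_, rfl⟩
  rw [← hudef] at hu0 hu hu1 hu2 hu3 ⊢
  obtain ⟨w, hw⟩ : ∃ w, w = kp X * Real.exp (x ^ 2) := ⟨_, rfl⟩
  have hw0 : 0 ≤ w := by rw [hw]; positivity
  have hbr : a + 3 - 2 * w ≤ a + -3 * x ^ 2 + Z x ^ 2 + Z x * Y (kp X) x + Y (kp X) x ^ 2 := by
    have h1 : Y (kp X) x ^ 2 ≤ Z x * Y (kp X) x := by nlinarith
    rw [← hw] at hYs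
    nlinarith
  have h1 : u * (a + 3 - 2 * w) ≤
      u * (a + -3 * x ^ 2 + Z x ^ 2 + Z x * Y (kp X) x + Y (kp X) x ^ 2) :=
    mul_le_mul_of_nonneg_left hbr hu0
  refine le_trans ?_ h1
  have hu4 : kp X * (1 / 2 * (1 + x)⁻¹) ≤ u := by
    have h2 : kp X ≤ u * (2 * (1 + x)) := hu2.trans (mul_le_mul_of_nonneg_left (by linarith) hu0)
    have h3 : 0 < 1 + x := by linarith
    have h4 : kp X * (1 / 2 * (1 + x)⁻¹) = kp X / (2 * (1 + x)) := by field_simp
    rw [h4, div_le_iff₀ (by positivity)]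
    exact h2
  have hu5 : u * w ≤ kp X * (kp X * (3 + 4 * x ^ 3 * Real.exp (x ^ 2) / (1 + x ^ 2) ^ 2)) := by
    have h2 : u ≤ kp X / Z x := by
      rw [le_div_iff₀ (by linarith)]
      exact hu1
    have h3 : u * w ≤ kp X / Z x * w := mul_le_mul_of_nonneg_right h2 hw0
    have h4 : kp X / Z x * w = kp X * (kp X * (Real.exp (x ^ 2) / Z x)) := by
      rw [hw]
      ring
    rw [h4] at h3
    refine h3.trans ?_
    exact mul_le_mul_of_nonneg_left (mul_le_mul_of_nonneg_left he hk.le) hk.le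
  have h6 : 0 ≤ u * a := mul_nonneg hu0 ha
  nlinarith

theorem up1 (a d X x : ℝ) (ha : 0 ≤ a) (hd : 0 < d) (hx0 : 0 ≤ x) (hx : x ≤ X) :
    F0 a (-3 - d) x - F a (-3 - d) X x ≤ kp X * (a + 3 + d / 2 - d / 2 * x) := by
  obtain ⟨hu0, hu, hu1, hu2, hu3⟩ := u_facts X x hx0 hx
  have hZ := Z_ge1 x
  have hZs := Z_sq x
  have hZl := Z_le' x hx0
  have hY0 := Y_nonneg (kp X) x
  have hYle := Y_le (kp X) x (kp_nonneg X)
  have hk := kp_pos X
  rw [diff_eq]
  obtain ⟨u, hudef⟩ : ∃ u, u = Real.exp (-x ^ 2) * (Z x - Y (kp X) x) := ⟨_, rfl⟩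
  rw [← hudef] at hu0 hu hu1 hu2 hu3 ⊢
  have hbr : a + (-3 - d) * x ^ 2 + Z x ^ 2 + Z x * Y (kp X) x + Y (kp X) x ^ 2 ≤
      a + 3 - d * x ^ 2 := by
    have h1 : Z x * Y (kp X) x ≤ Z x ^ 2 := by nlinarith
    have h2 : Y (kp X) x ^ 2 ≤ Z x ^ 2 := pow_le_pow_left₀ hY0 hYle 2
    nlinarith
  refine (mul_le_mul_of_nonneg_left hbr hu0).trans ?_
  have h1 : u * (a + 3) ≤ kp X * (a + 3) := mul_le_mul_of_nonneg_right hu3 (by linarith)
  have h2 : kp X * (x - 1) ≤ 2 * (u * x ^ 2) := by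
    have h3 : kp X ≤ u * (2 * (1 + x)) := hu2.trans (mul_le_mul_of_nonneg_left (by linarith) hu0)
    rcases le_total x 1 with h | h
    · have h4 : kp X * (x - 1) ≤ 0 := mul_nonpos_of_nonneg_of_nonpos hk.le (by linarith)
      have h5 : 0 ≤ u * x ^ 2 := by positivity
      linarith
    · have h4 : kp X * (x - 1) ≤ u * (2 * (1 + x)) * (x - 1) :=
        mul_le_mul_of_nonneg_right h3 (by linarith)
      nlinarith
  nlinarith

theorem kp_deriv (x : ℝ) : HasDerivAt (fun x => -(2 * kp x)) (4 * x ^ 3 * Real.exp (-x ^ 2)) x := by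
  have h1 : HasDerivAt (fun x : ℝ => 1 + x ^ 2) ((2 : ℕ) * x ^ (2 - 1)) x :=
    (hasDerivAt_pow 2 x).const_add 1
  have h2 := (((E_deriv x).fun_mul h1).const_mul 2).fun_neg
  refine h2.congr_deriv ?_
  push_cast
  ring

theorem tail_int (X : ℝ) (hX : 0 ≤ X) :
    IntegrableOn (fun x => 4 * x ^ 3 * Real.exp (-x ^ 2)) (Ioi X) := by
  refine int_of_le _ (by fun_prop) 4 _ measurableSet_Ioi (fun x hx => ?_)
  have hx0 : 0 ≤ x := hX.trans (le_of_lt hx)
  have hE : 0 < Real.exp (-x ^ 2) := Real.exp_pos _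
  rw [abs_of_nonneg (by positivity)]
  unfold dom
  have h1 : x ^ 3 ≤ (1 + x ^ 2) ^ 2 := by nlinarith [sq_nonneg (x - 1), sq_nonneg (x ^ 2), sq_nonneg x]
  have h2 := mul_le_mul_of_nonneg_left h1 hE.le
  nlinarith

theorem tail_eq (X : ℝ) (hX : 0 ≤ X) : ∫ x in Ioi X, 4 * x ^ 3 * Real.exp (-x ^ 2) = 2 * kp X := by
  have h := integral_Ioi_of_hasDerivAt_of_tendsto (f := fun x => -(2 * kp x))
    (f' := fun x => 4 * x ^ 3 * Real.exp (-x ^ 2)) (a := X) (m := 0)
    (kp_deriv X).continuousAt.continuousWithinAt (fun x _ => kp_deriv x) (tail_int X hX) ?_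
  · rw [h]
    ring
  · have h1 := (kp_tendsto.const_mul 2).neg
    simpa using h1

theorem g_deriv (κ x : ℝ) (hx : 0 ≤ x) : HasDerivAt
    (fun x => κ * (3 / 2 * Real.log (1 + x) - 2 * κ * (3 * x + 2 * (Real.exp (x ^ 2) / (1 + x ^ 2)))))
    (κ * (3 / 2 * (1 + x)⁻¹ - 2 * κ * (3 + 4 * x ^ 3 * Real.exp (x ^ 2) / (1 + x ^ 2) ^ 2))) x := by
  have h1 : HasDerivAt (fun x : ℝ => 1 + x ^ 2) ((2 : ℕ) * x ^ (2 - 1)) x :=
    (hasDerivAt_pow 2 x).const_add 1
  have h2 : HasDerivAt (fun x : ℝ => Real.exp (x ^ 2)) (Real.exp (x ^ 2) * ((2 : ℕ) * x ^ (2 - 1))) x :=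
    (hasDerivAt_pow 2 x).exp
  have h3 : HasDerivAt (fun x : ℝ => 1 + x) 1 x := (hasDerivAt_id' x).const_add 1
  have h4 : HasDerivAt (fun x : ℝ => Real.log (1 + x)) (1 / (1 + x)) x := h3.log (by linarith)
  have h5 := h2.fun_div h1 (by positivity : (1 + x ^ 2) ≠ 0)
  have h6 := (((hasDerivAt_id' x).const_mul 3).fun_add (h5.const_mul 2)).const_mul (2 * κ)
  have h7 := ((h4.const_mul (3 / 2)).fun_sub h6).const_mul κ
  refine h7.congr_deriv ?_
  have h8 : (1 + x ^ 2) ≠ 0 := by positivity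
  have h9 : (1 + x) ≠ 0 := by linarith
  push_cast
  field_simp
  ring

theorem neg_at (a X : ℝ) (ha : 0 < a) (hL : Lim a (-3) = 0) (hX1 : 1 ≤ X)
    (hX : 12 < Real.log (1 + X)) : Mel a (-3) X < 0 := by
  have hX0 : 0 < X := by linarith
  have hk := kp_pos X
  have hs := split a (-3) X hX0
  rw [hL] at hs
  obtain ⟨G, hG⟩ : ∃ G : ℝ → ℝ, G = fun x => kp X * (3 / 2 * (1 + x)⁻¹ -
      2 * kp X * (3 + 4 * x ^ 3 * Real.exp (x ^ 2) / (1 + x ^ 2) ^ 2)) := ⟨_, rfl⟩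
  have hGc : ContinuousOn G (Icc 0 X) := by
    rw [hG]
    have h1 : ContinuousOn (fun x : ℝ => (1 + x)⁻¹) (Icc 0 X) := by
      apply ContinuousOn.inv₀ (by fun_prop)
      intro x hx
      have := hx.1
      linarith
    have h2 : Continuous (fun x : ℝ => 4 * x ^ 3 * Real.exp (x ^ 2) / (1 + x ^ 2) ^ 2) := by
      apply Continuous.div (by fun_prop) (by fun_prop)
      intro x
      positivity
    have h3 := h2.continuousOn (s := Icc 0 X)
    fun_prop
  have hGi : IntegrableOn G (Ioc 0 X) := (hGc.integrableOn_Icc).mono_set Ioc_subset_Icc_self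
  have hGI : ∫ x in Ioc 0 X, G x = kp X * (3 / 2 * Real.log (1 + X) -
      2 * kp X * (3 * X + 2 * (Real.exp (X ^ 2) / (1 + X ^ 2)))) + 4 * kp X ^ 2 := by
    rw [← intervalIntegral.integral_of_le hX0.le, hG]
    rw [intervalIntegral.integral_eq_sub_of_hasDerivAt (f := fun x => kp X * (3 / 2 *
      Real.log (1 + x) - 2 * kp X * (3 * x + 2 * (Real.exp (x ^ 2) / (1 + x ^ 2)))))]
    · simp
      ring
    · intro x hx
      rw [uIcc_of_le hX0.le] at hx
      exact g_deriv (kp X) x hx.1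
    · rw [intervalIntegrable_iff_integrableOn_Ioc_of_le hX0.le, ← hG]
      exact hGi
  have h1 : ∫ x in Ioc 0 X, G x ≤ ∫ x in Ioc 0 X, (F0 a (-3) x - F a (-3) X x) := by
    refine setIntegral_mono_on hGi ?_ measurableSet_Ioc ?_
    · exact (F0_int a (-3) _ measurableSet_Ioc).sub (F_int a (-3) X _ measurableSet_Ioc)
    · intro x hx
      rw [hG]
      exact low1 a X x ha.le hx.1.le hx.2
  have h2 : ∫ x in Ioi X, -(4 * x ^ 3 * Real.exp (-x ^ 2)) ≤
      ∫ x in Ioi X, (F0 a (-3) x - F a (-3) X x) := by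
    refine setIntegral_mono_on (tail_int X hX0.le).neg ?_ measurableSet_Ioi ?_
    · exact (F0_int a (-3) _ measurableSet_Ioi).sub (F_int a (-3) X _ measurableSet_Ioi)
    · intro x hx
      have hx' : X < x := hx
      have hx0 : 0 < x := by linarith
      have hF : F a (-3) X x = 0 := by
        unfold F
        rw [Y_out X x hX0.le hx'.le]
        ring
      rw [hF, sub_zero]
      unfold F0
      have hE : 0 < Real.exp (-x ^ 2) := Real.exp_pos _
      have hZ := Z_ge1 x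
      have hZl := Z_le' x hx0.le
      have hZs := Z_sq x
      rw [hZs]
      have h3 : Z x ≤ 2 * x := by linarith
      have h4 : 0 ≤ Real.exp (-x ^ 2) * Z x := by positivity
      have h5 : Real.exp (-x ^ 2) * Z x * (a + -3 * x ^ 2 + (1 + x ^ 2)) ≥
          Real.exp (-x ^ 2) * Z x * (-(2 * x ^ 2)) := by
        apply mul_le_mul_of_nonneg_left _ h4
        linarith
      have h6 : Real.exp (-x ^ 2) * Z x * (2 * x ^ 2) ≤ Real.exp (-x ^ 2) * (2 * x) * (2 * x ^ 2) := by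
        apply mul_le_mul_of_nonneg_right _ (by positivity)
        exact mul_le_mul_of_nonneg_left h3 hE.le
      nlinarith
  have h3 : ∫ x in Ioi X, -(4 * x ^ 3 * Real.exp (-x ^ 2)) = -(2 * kp X) := by
    rw [integral_neg, tail_eq X hX0.le]
  rw [h3] at h2
  have h4 : kp X * (Real.exp (X ^ 2) / (1 + X ^ 2)) = 1 := by
    have h5 : kp X * Real.exp (X ^ 2) = 1 + X ^ 2 := by
      rw [kp_mul]
      simp
    rw [← mul_div_assoc, h5]
    have : (1 + X ^ 2) ≠ 0 := by positivity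
    exact div_self this
  have h5 := kp_lin X hX0.le
  have h7 : 2 * kp X < ∫ x in Ioc 0 X, G x := by
    rw [hGI]
    have h8 : kp X * (3 / 2 * Real.log (1 + X) - 2 * kp X * (3 * X + 2 * (Real.exp (X ^ 2) / (1 + X ^ 2))))
        = kp X * (3 / 2 * Real.log (1 + X) - 6 * (X * kp X) - 4 * (kp X * (Real.exp (X ^ 2) / (1 + X ^ 2)))) := by
      ring
    rw [h8, h4]
    have h10 : kp X * (3 / 2 * 12 - 6 * 2 - 4) < kp X * (3 / 2 * Real.log (1 + X) - 6 * (X * kp X) - 4 * 1) := by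
      apply mul_lt_mul_of_pos_left _ hk
      linarith
    have h11 : 0 < kp X ^ 2 := by positivity
    linarith
  linarith

theorem pos_at (a d : ℝ) (ha : 0 ≤ a) (hd : 0 < d) (hL : Lim a (-3 - d) = 0) :
    ∀ᶠ X in atTop, 0 < Mel a (-3 - d) X := by
  filter_upwards [eventually_gt_atTop (a + 1), eventually_gt_atTop (4 * (a + 3 + d / 2) / d)] with X h1 h2
  have hX0 : 0 < X := by linarith
  have hk := kp_pos X
  have hs := split a (-3 - d) X hX0
  rw [hL] at hs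
  have h3 : ∫ x in Ioc 0 X, (F0 a (-3 - d) x - F a (-3 - d) X x) ≤
      ∫ x in Ioc 0 X, kp X * (a + 3 + d / 2 - d / 2 * x) := by
    refine setIntegral_mono_on ?_ ?_ measurableSet_Ioc ?_
    · exact (F0_int a (-3 - d) _ measurableSet_Ioc).sub (F_int a (-3 - d) X _ measurableSet_Ioc)
    · have : Continuous (fun x : ℝ => kp X * (a + 3 + d / 2 - d / 2 * x)) := by fun_prop
      exact this.continuousOn.integrableOn_Icc.mono_set Ioc_subset_Icc_self
    · intro x hx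
      exact up1 a d X x ha hd hx.1.le hx.2
  have h4 : ∫ x in Ioc 0 X, kp X * (a + 3 + d / 2 - d / 2 * x) =
      kp X * ((a + 3 + d / 2) * X - d / 4 * X ^ 2) := by
    rw [← intervalIntegral.integral_of_le hX0.le]
    rw [intervalIntegral.integral_eq_sub_of_hasDerivAt
      (f := fun x => kp X * ((a + 3 + d / 2) * x - d / 4 * x ^ 2))]
    · simp
    · intro x _
      have h5 := (((hasDerivAt_id' x).const_mul (a + 3 + d / 2)).fun_sub
        ((hasDerivAt_pow 2 x).const_mul (d / 4))).const_mul (kp X)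
      refine h5.congr_deriv ?_
      push_cast
      ring
    · apply Continuous.intervalIntegrable
      fun_prop
  have h5 : kp X * ((a + 3 + d / 2) * X - d / 4 * X ^ 2) < 0 := by
    apply mul_neg_of_pos_of_neg hk
    rw [div_lt_iff₀ hd] at h2
    nlinarith
  have h6 : ∫ x in Ioi X, (F0 a (-3 - d) x - F a (-3 - d) X x) ≤ 0 := by
    refine setIntegral_nonpos measurableSet_Ioi ?_
    intro x hx
    have hx' : X < x := hx
    have hx0 : 0 < x := by linarith
    have hF : F a (-3 - d) X x = 0 := by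
      unfold F
      rw [Y_out X x hX0.le hx'.le]
      ring
    rw [hF, sub_zero]
    unfold F0
    have hZ := Z_ge1 x
    have hE : 0 < Real.exp (-x ^ 2) := Real.exp_pos _
    rw [Z_sq]
    apply mul_nonpos_of_nonneg_of_nonpos (by positivity)
    have h7 : a + 1 ≤ x ^ 2 := by nlinarith
    nlinarith
  linarith

theorem kp_in_lt (X x : ℝ) (hx0 : 0 < x) (hx : x < X) : kp X * Real.exp (x ^ 2) < 1 + x ^ 2 := by
  rw [kp_mul]
  have h1 := Real.add_one_le_exp (X ^ 2 - x ^ 2)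
  have h2 : 0 < X ^ 2 - x ^ 2 := by nlinarith
  have h3 : 0 < x ^ 2 := by positivity
  have h4 : Real.exp (x ^ 2 - X ^ 2) * Real.exp (X ^ 2 - x ^ 2) = 1 := by
    rw [← Real.exp_add]
    simp
  have h5 : 1 + X ^ 2 < (1 + x ^ 2) * Real.exp (X ^ 2 - x ^ 2) := by nlinarith
  have h6 : 0 < Real.exp (x ^ 2 - X ^ 2) := Real.exp_pos _
  calc (1 + X ^ 2) * Real.exp (x ^ 2 - X ^ 2)
      < ((1 + x ^ 2) * Real.exp (X ^ 2 - x ^ 2)) * Real.exp (x ^ 2 - X ^ 2) :=
        mul_lt_mul_of_pos_right h5 h6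
    _ = (1 + x ^ 2) * (Real.exp (x ^ 2 - X ^ 2) * Real.exp (X ^ 2 - x ^ 2)) := by ring
    _ = 1 + x ^ 2 := by rw [h4, mul_one]

theorem small_pos (a c ε : ℝ) (ha : 0 < a) (hε : 0 < ε) : ∃ X, 0 < X ∧ X < ε ∧ 0 < Mel a c X := by
  obtain ⟨X, hX⟩ : ∃ X, X = min (ε / 2) (min 1 (a / (2 * (|c| + 1)))) := ⟨_, rfl⟩
  have hc := abs_nonneg c
  have hX0 : 0 < X := by
    rw [hX]
    apply lt_min (by linarith)
    apply lt_min one_pos
    positivity
  have hX1 : X ≤ 1 := by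
    rw [hX]
    exact (min_le_right _ _).trans (min_le_left _ _)
  have hX2 : X ≤ a / (2 * (|c| + 1)) := by
    rw [hX]
    exact (min_le_right _ _).trans (min_le_right _ _)
  have hX3 : X < ε := by
    have : X ≤ ε / 2 := by
      rw [hX]
      exact min_le_left _ _
    linarith
  refine ⟨X, hX0, hX3, ?_⟩
  unfold Mel
  refine intervalIntegral.intervalIntegral_pos_of_pos_on ?_ ?_ hX0
  · apply Continuous.intervalIntegrable
    have := Y_cont (kp X)
    fun_prop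
  · intro x hx
    have hx0 := hx.1
    have hxX := hx.2
    have hY : 0 < Y (kp X) x := by
      unfold Y
      apply Real.sqrt_pos.mpr
      linarith [kp_in_lt X x hx0 hxX]
    have h1 : 0 < a + c * x ^ 2 + Y (kp X) x ^ 2 := by
      have h2 : -(|c| * x ^ 2) ≤ c * x ^ 2 := by
        have := neg_abs_le c
        nlinarith [sq_nonneg x]
      have h3 : |c| * x ^ 2 ≤ |c| * X := by
        apply mul_le_mul_of_nonneg_left _ hc
        nlinarith
      rw [le_div_iff₀ (by positivity)] at hX2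
      have h4 : 0 < Y (kp X) x ^ 2 := by positivity
      nlinarith
    positivity

theorem signs : ∃ a c X1 X2 X3 X4 : ℝ, 0 < X1 ∧ X1 < X2 ∧ X2 < X3 ∧ X3 < X4 ∧
    0 < Mel a c X1 ∧ Mel a c X2 < 0 ∧ 0 < Mel a c X3 ∧ Mel a c X4 < 0 := by
  have hb0 := b0_pos
  have hab := ab_pos
  have hb1 : 0 ≤ b1 := by
    unfold b1
    refine integral_nonneg (fun x => ?_)
    have h1 := Z_ge1 x
    show (0 : ℝ) ≤ Real.exp (-x ^ 2) * Z x * x ^ 2
    positivity
  obtain ⟨a0, ha0⟩ : ∃ a0, a0 = (3 * b1 - b3) / b0 := ⟨_, rfl⟩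
  have ha0p : 0 < a0 := by rw [ha0]; positivity
  have hL0 : Lim a0 (-3) = 0 := by
    rw [Lim_eq, ha0, div_mul_cancel₀ _ hb0.ne']
    ring
  obtain ⟨X2, hX2⟩ : ∃ X2, X2 = Real.exp 13 := ⟨_, rfl⟩
  have hX21 : 1 ≤ X2 := by
    rw [hX2]
    exact Real.one_le_exp (by norm_num)
  have hX2l : 12 < Real.log (1 + X2) := by
    rw [Real.lt_log_iff_exp_lt (by linarith), hX2]
    have : Real.exp 12 < Real.exp 13 := Real.exp_lt_exp.mpr (by norm_num)
    linarith
  have hneg := neg_at a0 X2 ha0p hL0 hX21 hX2l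
  -- small multiples
  have hsmall : ∀ q M : ℝ, 0 < M → ∃ δ : ℝ, 0 < δ ∧ ∀ t, 0 < t → t ≤ δ → t * q < M := by
    intro q M hM
    refine ⟨M / (2 * (|q| + 1)), by positivity, ?_⟩
    intro t ht0 ht
    rw [le_div_iff₀ (by positivity)] at ht
    have h1 := le_abs_self q
    have h2 : t * q ≤ t * |q| := mul_le_mul_of_nonneg_left h1 ht0.le
    nlinarith
  obtain ⟨d, hd0, hd⟩ := hsmall (b1 / b0 * B0 X2 - B1 X2) (-Mel a0 (-3) X2) (by linarith)
  have hd' := hd d hd0 le_rfl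
  obtain ⟨a1, ha1⟩ : ∃ a1, a1 = a0 + d * (b1 / b0) := ⟨_, rfl⟩
  have ha1p : 0 < a1 := by
    rw [ha1]
    have : 0 ≤ d * (b1 / b0) := by positivity
    linarith
  have hL1 : Lim a1 (-3 - d) = 0 := by
    rw [Lim_eq] at hL0 ⊢
    rw [ha1]
    have h1 : b1 / b0 * b0 = b1 := div_mul_cancel₀ _ hb0.ne'
    linear_combination hL0 + d * h1
  have hneg1 : Mel a1 (-3 - d) X2 < 0 := by
    rw [Mel_lin a1 (-3 - d) a0 (-3) X2, ha1]
    have h1 : a0 + d * (b1 / b0) - a0 = d * (b1 / b0) := by ring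
    have h2 : -3 - d - -3 = -d := by ring
    rw [h1, h2]
    nlinarith
  obtain ⟨X3, hX3p, hX3⟩ := ((pos_at a1 d ha1p.le hd0 hL1).and (eventually_gt_atTop X2)).exists
  obtain ⟨δ2, hδ2, hδ2'⟩ := hsmall (-B0 X2) (-Mel a1 (-3 - d) X2) (by linarith)
  obtain ⟨δ3, hδ3, hδ3'⟩ := hsmall (B0 X3) (Mel a1 (-3 - d) X3) hX3p
  obtain ⟨t, ht⟩ : ∃ t, t = min (min δ2 δ3) (a1 / 2) := ⟨_, rfl⟩
  have ht0 : 0 < t := by
    rw [ht]
    exact lt_min (lt_min hδ2 hδ3) (by linarith)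
  have ht2 : t ≤ δ2 := by
    rw [ht]
    exact (min_le_left _ _).trans (min_le_left _ _)
  have ht3 : t ≤ δ3 := by
    rw [ht]
    exact (min_le_left _ _).trans (min_le_right _ _)
  have hta : t ≤ a1 / 2 := by
    rw [ht]
    exact min_le_right _ _
  have hM2 : Mel (a1 - t) (-3 - d) X2 < 0 := by
    rw [Mel_lin (a1 - t) (-3 - d) a1 (-3 - d) X2]
    have h1 := hδ2' t ht0 ht2
    have h2 : a1 - t - a1 = -t := by ring
    rw [h2]
    nlinarith
  have hM3 : 0 < Mel (a1 - t) (-3 - d) X3 := by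
    rw [Mel_lin (a1 - t) (-3 - d) a1 (-3 - d) X3]
    have h1 := hδ3' t ht0 ht3
    have h2 : a1 - t - a1 = -t := by ring
    rw [h2]
    nlinarith
  have hL2 : Lim (a1 - t) (-3 - d) < 0 := by
    rw [Lim_eq] at hL1 ⊢
    have : 0 < t * b0 := mul_pos ht0 hb0
    nlinarith
  obtain ⟨X4, hX4n, hX4⟩ := (((Mel_tendsto (a1 - t) (-3 - d)).eventually (gt_mem_nhds hL2)).and
    (eventually_gt_atTop X3)).exists
  obtain ⟨X1, hX10, hX12, hX1p⟩ := small_pos (a1 - t) (-3 - d) X2 (by linarith) (by linarith)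
  exact ⟨a1 - t, -3 - d, X1, X2, X3, X4, hX10, hX12, hX3, hX4, hX1p, hM2, hM3, hX4n⟩

end Pool.Agent.W513.HC
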