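import Pool.Agent.W513.Cn3
import Pool.Agent.W488.BlowB

/-!
# The ideal of `C_ψ` in the product surface
-/

set_option autoImplicit false

open CategoryTheory Limits AlgebraicGeometry IsLocalRing TopologicalSpace

namespace Pool.Agent.W513

open Pool.Agent.Helper198.Sch
open Pool.Agent.H666R3.NG

attribute [local instance] MvPolynomial.gradedAlgebra

section ker

variable {k : Type} [Field k] {ψ : EC.curve k ⟶ EC.curve k}
  (h : ψ ≫ V.str (EC.J k) = V.str (EC.J k)) (j : cr ψ ⟶ YY k)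
  (hj1 : j ≫ pr1 k = pullback.fst (FQ.f k) ψ) (hj2 : j ≫ pr2 k = pullback.snd (FQ.f k) ψ)

include h hj1 hj2

lemma eq_jc : j = jc ψ h := by
  apply pullback.hom_ext
  · exact hj1.trans (jc_fst ψ h).symm
  · exact hj2.trans (jc_snd ψ h).symm

lemma isClosedImmersion_j : IsClosedImmersion j := by
  rw [eq_jc h j hj1 hj2]
  infer_instance

omit h in
lemma stalk_j (z : cr ψ) {c : Bool} (α1 α2 : CommRingCat.of (EC.A k) ⟶ (YY k).presheaf.stalk (j z))
    (h1 : Spec.map α1 ≫ EC.ch c = (YY k).fromSpecStalk (j z) ≫ pr1 k ≫ FQ.f k)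
    (h2 : Spec.map α2 ≫ EC.ch c = (YY k).fromSpecStalk (j z) ≫ pr2 k ≫ ψ) :
    α1 ≫ j.stalkMap z = α2 ≫ j.stalkMap z := by
  apply factor_unique (EC.ch c)
  have e1 : Spec.map (j.stalkMap z) ≫ (YY k).fromSpecStalk (j z) ≫ pr1 k ≫ FQ.f k =
      (cr ψ).fromSpecStalk z ≫ pullback.fst (FQ.f k) ψ ≫ FQ.f k := by
    rw [← hj1, Scheme.SpecMap_stalkMap_fromSpecStalk_assoc, Category.assoc]
  have e2 : Spec.map (j.stalkMap z) ≫ (YY k).fromSpecStalk (j z) ≫ pr2 k ≫ ψ =
      (cr ψ).fromSpecStalk z ≫ pullback.snd (FQ.f k) ψ ≫ ψ := by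
    rw [← hj2, Scheme.SpecMap_stalkMap_fromSpecStalk_assoc, Category.assoc]
  rw [Spec.map_comp, Spec.map_comp, Category.assoc, Category.assoc, h1, h2, e1, e2,
    pullback.condition]

omit hj1 hj2 in
lemma alpha_const {y : YY k} {c : Bool} (α1 α2 : CommRingCat.of (EC.A k) ⟶ (YY k).presheaf.stalk y)
    (h1 : Spec.map α1 ≫ EC.ch c = (YY k).fromSpecStalk y ≫ pr1 k ≫ FQ.f k)
    (h2 : Spec.map α2 ≫ EC.ch c = (YY k).fromSpecStalk y ≫ pr2 k ≫ ψ) (a : k) :
    α1.hom (algebraMap k (EC.A k) a) = α2.hom (algebraMap k (EC.A k) a) := by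
  have e1 := congrArg (fun t => t ≫ V.str (EC.J k)) h1
  have e2 := congrArg (fun t => t ≫ V.str (EC.J k)) h2
  simp only [Category.assoc] at e1 e2
  rw [EC.ch_str, FQ.f_str, ← Spec.map_comp] at e1
  rw [EC.ch_str, h, ← Spec.map_comp] at e2
  have e3 : pr1 k ≫ V.str (Fermat.J k) = pr2 k ≫ V.str (EC.J k) := pullback.condition
  rw [e3, ← e2] at e1
  exact congrArg (fun t => t.hom a) (Spec.map_injective e1)

theorem ker_j (z : cr ψ) {c : Bool}
    (α1 α2 : CommRingCat.of (EC.A k) ⟶ (YY k).presheaf.stalk (j z))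
    (h1 : Spec.map α1 ≫ EC.ch c = (YY k).fromSpecStalk (j z) ≫ pr1 k ≫ FQ.f k)
    (h2 : Spec.map α2 ≫ EC.ch c = (YY k).fromSpecStalk (j z) ≫ pr2 k ≫ ψ) :
    RingHom.ker (j.stalkMap z).hom =
      Ideal.span {α1.hom (EC.x k) - α2.hom (EC.x k), α1.hom (EC.y k) - α2.hom (EC.y k)} := by
  set K : Ideal ((YY k).presheaf.stalk (j z)) :=
    Ideal.span {α1.hom (EC.x k) - α2.hom (EC.x k), α1.hom (EC.y k) - α2.hom (EC.y k)} with hK
  have e0 := stalk_j j hj1 hj2 z α1 α2 h1 h2
  have e1 : ∀ t, (j.stalkMap z).hom (α1.hom t) = (j.stalkMap z).hom (α2.hom t) := fun t =>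
    congrArg (fun f => f.hom t) e0
  have hle : K ≤ RingHom.ker (j.stalkMap z).hom := by
    rw [hK, Ideal.span_le]
    rintro _ (rfl | rfl)
    · change (j.stalkMap z).hom _ = 0
      rw [map_sub, e1, sub_self]
    · change (j.stalkMap z).hom _ = 0
      rw [map_sub, e1, sub_self]
  refine le_antisymm ?_ hle
  have hne : K ≠ ⊤ := fun hcon => RingHom.ker_ne_top (j.stalkMap z).hom (top_le_iff.1 (hcon ▸ hle))
  have hnt : Nontrivial ((YY k).presheaf.stalk (j z) ⧸ K) := Ideal.Quotient.nontrivial_iff.2 hne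
  have hloc : IsLocalRing ((YY k).presheaf.stalk (j z) ⧸ K) :=
    IsLocalRing.of_surjective' (Ideal.Quotient.mk K) Ideal.Quotient.mk_surjective
  let Q : CommRingCat.{0} := .of ((YY k).presheaf.stalk (j z) ⧸ K)
  let π : (YY k).presheaf.stalk (j z) ⟶ Q := CommRingCat.ofHom (Ideal.Quotient.mk K)
  have hπ : α1 ≫ π = α2 ≫ π := by
    ext : 1
    apply EC.ext_ring
    · intro a
      change π.hom (α1.hom _) = π.hom (α2.hom _)
      rw [alpha_const h α1 α2 h1 h2]
    · change Ideal.Quotient.mk K (α1.hom _) = Ideal.Quotient.mk K (α2.hom _)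
      rw [← sub_eq_zero, ← map_sub]
      exact Ideal.Quotient.eq_zero_iff_mem.2 (Ideal.subset_span (Or.inl rfl))
    · change Ideal.Quotient.mk K (α1.hom _) = Ideal.Quotient.mk K (α2.hom _)
      rw [← sub_eq_zero, ← map_sub]
      exact Ideal.Quotient.eq_zero_iff_mem.2 (Ideal.subset_span (Or.inr rfl))
  let u : Spec Q ⟶ YY k := Spec.map π ≫ (YY k).fromSpecStalk (j z)
  have hu : (u ≫ pr1 k) ≫ FQ.f k = (u ≫ pr2 k) ≫ ψ := by
    change ((Spec.map π ≫ _) ≫ _) ≫ _ = ((Spec.map π ≫ _) ≫ _) ≫ _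
    rw [Category.assoc, Category.assoc, Category.assoc, Category.assoc, ← h1, ← h2,
      ← Category.assoc, ← Category.assoc, ← Spec.map_comp, ← Spec.map_comp, hπ]
  let t : Spec Q ⟶ cr ψ := pullback.lift (u ≫ pr1 k) (u ≫ pr2 k) hu
  have ht : t ≫ j = u := by
    apply pullback.hom_ext
    · rw [Category.assoc]
      exact (congrArg (fun q => t ≫ q) hj1).trans (pullback.lift_fst _ _ _)
    · rw [Category.assoc]
      exact (congrArg (fun q => t ≫ q) hj2).trans (pullback.lift_snd _ _ _)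
  have hci := isClosedImmersion_j h j hj1 hj2
  have hlh : IsLocalHom π.hom :=
    IsLocalHom.of_surjective (Ideal.Quotient.mk K) Ideal.Quotient.mk_surjective
  have huc : u (closedPoint Q) = j z := by
    change (YY k).fromSpecStalk (j z) (Spec.map π (closedPoint Q)) = j z
    have : Spec.map π (closedPoint Q) = closedPoint ((YY k).presheaf.stalk (j z)) :=
      Spec_closedPoint
    rw [this, Scheme.fromSpecStalk_closedPoint]
  have htz : t (closedPoint Q) = z := by
    apply j.isClosedEmbedding.injective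
    refine Eq.trans ?_ huc
    exact congrArg (fun q : Spec Q ⟶ YY k => q (closedPoint Q)) ht
  obtain ⟨θ, hθ⟩ := Pool.Agent.W488.BlowB.factor_local t z htz
  have hfin : j.stalkMap z ≫ θ = π := by
    apply Spec.map_injective
    rw [← cancel_mono ((YY k).fromSpecStalk (j z)), Spec.map_comp, Category.assoc,
      Scheme.SpecMap_stalkMap_fromSpecStalk, ← Category.assoc, hθ, ht]
  intro a ha
  have ha' : (j.stalkMap z).hom a = 0 := ha
  have h3 : π.hom a = 0 := by
    rw [← hfin]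
    change θ.hom ((j.stalkMap z).hom a) = 0
    rw [ha', map_zero]
  exact Ideal.Quotient.eq_zero_iff_mem.1 h3

end ker

end Pool.Agent.W513
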