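import Pool.Agent.W513.PtE

/-!
# Rational points of the elliptic curve
-/

set_option autoImplicit false

open AlgebraicGeometry CategoryTheory Limits IsLocalRing TopologicalSpace

namespace Pool.Agent.W513.EC

open Pool.Agent.Helper198.Sch

attribute [local instance] MvPolynomial.gradedAlgebra

variable {k : Type} [Field k]

/-- The rational point with coordinates `(a, b)` in the chart `c`. -/
noncomputable def kpt (c : Bool) (a b : k) (h : b ^ 2 + a ^ 4 + 1 = 0) : Spec (.of k) ⟶ curve k :=
  Spec.map (CommRingCat.ofHom (lift a b h : A k →ₐ[k] k).toRingHom) ≫ ch c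

lemma kpt_str (c : Bool) (a b : k) (h : b ^ 2 + a ^ 4 + 1 = 0) :
    kpt c a b h ≫ V.str (J k) = 𝟙 _ := by
  rw [kpt, Category.assoc, spec_alg, ← Spec.map_id]
  congr 2
  ext r
  exact (lift a b h : A k →ₐ[k] k).commutes r

lemma exists_kpt (q : Spec (.of k) ⟶ curve k) (hq : q ≫ V.str (J k) = 𝟙 _) :
    ∃ (c : Bool) (a b : k) (h : b ^ 2 + a ^ 4 + 1 = 0), q = kpt c a b h := by
  obtain ⟨c, hc⟩ := exists_mem_range_ch (q (closedPoint k))
  obtain ⟨φ, hφ⟩ := exists_factor (ch c) (.of k) q hc
  have hφ' : Spec.map (CommRingCat.ofHom φ.hom) ≫ ch c = q := hφ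
  have h1 : ∀ r, φ.hom (algebraMap k (A k) r) = r := by
    rw [← hφ', Category.assoc, spec_alg, ← Spec.map_id] at hq
    intro r
    exact congrArg (fun t => t.hom r) (Spec.map_injective hq)
  have h2 : (φ.hom (y k)) ^ 2 + (φ.hom (x k)) ^ 4 + 1 = 0 := by
    rw [← map_pow, ← map_pow, ← map_one φ.hom, ← map_add, ← map_add, rel]
    exact map_zero φ.hom
  refine ⟨c, φ.hom (x k), φ.hom (y k), h2, ?_⟩
  rw [kpt, ← hφ']
  congr 3
  apply ext_ring
  · intro r
    rw [h1]
    exact ((lift (φ.hom (x k)) (φ.hom (y k)) h2 : A k →ₐ[k] k).commutes r).symm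
  · exact (lift_x (φ.hom (x k)) (φ.hom (y k)) h2).symm
  · exact (lift_y (φ.hom (x k)) (φ.hom (y k)) h2).symm

lemma kpt_injective {c : Bool} {a b a' b' : k} {h : b ^ 2 + a ^ 4 + 1 = 0}
    {h' : b' ^ 2 + a' ^ 4 + 1 = 0} (he : kpt c a b h = kpt c a' b' h') : a = a' ∧ b = b' := by
  have h1 := factor_unique (ch c) he
  have h2 : ∀ z, (lift a b h : A k →ₐ[k] k) z = (lift a' b' h' : A k →ₐ[k] k) z := fun z =>
    congrArg (fun t => t.hom z) h1
  have h3 := h2 (x k)
  have h4 := h2 (y k)
  rw [lift_x, lift_x] at h3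
  rw [lift_y, lift_y] at h4
  exact ⟨h3, h4⟩

/-- transition for points -/
lemma kpt_trans {c : Bool} {a b a' b' : k} {h : b ^ 2 + a ^ 4 + 1 = 0}
    {h' : b' ^ 2 + a' ^ 4 + 1 = 0} (h1 : a * a' = 1) (h2 : b' = b * a' ^ 2) :
    kpt c a b h = kpt (!c) a' b' h' := by
  apply ch_eq
  · intro r
    exact ((lift a b h : A k →ₐ[k] k).commutes r).trans
      ((lift a' b' h' : A k →ₐ[k] k).commutes r).symm
  · change (lift a b h : A k →ₐ[k] k) (x k) * (lift a' b' h' : A k →ₐ[k] k) (x k) = 1
    rw [lift_x, lift_x, h1]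
  · change (lift a' b' h' : A k →ₐ[k] k) (y k) =
      (lift a b h : A k →ₐ[k] k) (y k) * (lift a' b' h' : A k →ₐ[k] k) (x k) ^ 2
    rw [lift_x, lift_y, lift_y, h2]

variable [CharZero k]

namespace IsEnd

variable {ψ : curve k ⟶ curve k} {s : FK k →+* FK k} {μ : k} (h : IsEnd ψ s μ)

include h

/-- An endomorphism is determined on an affine integral scheme by its effect on coordinates. -/
lemma comp_eq (c c' : Bool) {B : Type} [CommRing B] [IsDomain B] (l g : A k →+* B)
    (j : B →+* FK k) (hj : Function.Injective j) (h1 : j.comp l = κ k c)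
    (h2 : j.comp g = s.comp (κ k c')) :
    Spec.map (CommRingCat.ofHom l) ≫ ch c ≫ ψ = Spec.map (CommRingCat.ofHom g) ≫ ch c' := by
  have hdom : IsDominant (Spec.map (CommRingCat.ofHom j)) := by
    refine ⟨?_⟩
    have h3 : Dense ({genericPoint (Spec (CommRingCat.of B))} : Set (Spec (CommRingCat.of B))) := by
      rw [dense_iff_closure_eq]
      exact (genericPoint_spec _)
    refine h3.mono ?_
    rintro _ rfl
    refine ⟨closedPoint (FK k), ?_⟩
    rw [genericPoint_eq_bot_of_affine]
    apply PrimeSpectrum.ext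
    change Ideal.comap j (maximalIdeal (FK k)) = ⊥
    rw [maximalIdeal_eq_bot]
    exact (RingHom.injective_iff_ker_eq_bot j).1 hj
  refine ext_of_isDominant_of_isSeparated (V.str (J k)) ?_ (Spec.map (CommRingCat.ofHom j)) ?_
  · rw [Category.assoc, Category.assoc, h.str, Category.assoc, spec_alg, spec_alg]
    congr 2
    ext r
    apply hj
    have e1 : j (l (algebraMap k (A k) r)) = cst k r := by
      rw [← κ_cst k c]
      exact congrArg (fun f : A k →+* FK k => f (algebraMap k (A k) r)) h1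
    have e2 : j (g (algebraMap k (A k) r)) = cst k r := by
      have : j (g (algebraMap k (A k) r)) = s (κ k c' (algebraMap k (A k) r)) :=
        congrArg (fun f : A k →+* FK k => f (algebraMap k (A k) r)) h2
      rw [this, κ_cst, h.cst_eq]
    exact e1.trans e2.symm
  · rw [← Category.assoc, ← Spec.map_comp, ← CommRingCat.ofHom_comp, h1, ← Category.assoc, κ_spec,
      ← Category.assoc, ← Spec.map_comp, ← CommRingCat.ofHom_comp, h2, h.gen_coord]

/-- Evaluation of an endomorphism at a rational point. -/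
lemma eval (c c' : Bool) {a b : k} (hab : b ^ 2 + a ^ 4 + 1 = 0) (S P Q : A k)
    (hS : (lift a b hab : A k →ₐ[k] k) S ≠ 0)
    (hP : κ k c S * s (κ k c' (x k)) = κ k c P) (hQ : κ k c S * s (κ k c' (y k)) = κ k c Q)
    {a' b' : k} (hab' : b' ^ 2 + a' ^ 4 + 1 = 0)
    (ha' : (lift a b hab : A k →ₐ[k] k) S * a' = (lift a b hab : A k →ₐ[k] k) P)
    (hb' : (lift a b hab : A k →ₐ[k] k) S * b' = (lift a b hab : A k →ₐ[k] k) Q) :
    kpt c a b hab ≫ ψ = kpt c' a' b' hab' := by
  have hS0 : S ≠ 0 := by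
    rintro rfl
    exact hS (map_zero _)
  let B := Localization.Away S
  have hB : IsDomain B := IsLocalization.isDomain_localization
    (powers_le_nonZeroDivisors_of_noZeroDivisors hS0)
  let l : A k →+* B := algebraMap (A k) B
  have hκS : IsUnit (κ k c S) := IsUnit.mk0 _ (by
    rw [← map_zero (κ k c)]
    exact fun h => hS0 (κ_injective k c h))
  let j : B →+* FK k := IsLocalization.Away.lift S hκS
  have hjl : ∀ z, j (l z) = κ k c z := fun z => IsLocalization.Away.lift_eq S hκS z
  have hj : Function.Injective j := by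
    rw [injective_iff_map_eq_zero]
    intro w hw
    obtain ⟨n, z, hz⟩ := IsLocalization.Away.surj S w
    have h3 : j (l z) = 0 := by rw [← hz, map_mul, hw, zero_mul]
    rw [hjl, ← map_zero (κ k c)] at h3
    have h4 := κ_injective k c h3
    rw [h4, map_zero] at hz
    have h5 : IsUnit (l S ^ n) := (IsLocalization.Away.algebraMap_isUnit S).pow n
    exact h5.mul_left_eq_zero.1 hz
  let iS : B := IsLocalization.Away.invSelf S
  have hiS : l S * iS = 1 := IsLocalization.Away.mul_invSelf S
  have hjiS : κ k c S * j iS = 1 := by rw [← hjl, ← map_mul, hiS, map_one]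
  have hj1 : ∀ (z : A k) (w : FK k), κ k c S * w = κ k c z → j (l z * iS) = w := by
    intro z w hw
    rw [map_mul, hjl, ← hw]
    linear_combination w * hjiS
  let _ : Algebra k B := (l.comp (algebraMap k (A k))).toAlgebra
  have hrel : (l Q * iS) ^ 2 + (l P * iS) ^ 4 + 1 = 0 := by
    apply hj
    rw [map_add, map_add, map_pow, map_pow, hj1 _ _ hP, hj1 _ _ hQ, map_one, map_zero]
    have h9 := congrArg s (κ_curve k c')
    rw [map_add, map_add, map_pow, map_pow, map_one, map_zero] at h9
    exact h9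
  let g : A k →ₐ[k] B := lift (l P * iS) (l Q * iS) hrel
  have gx : g (x k) = l P * iS := lift_x _ _ _
  have gy : g (y k) = l Q * iS := lift_y _ _ _
  have hjg : j.comp g.toRingHom = s.comp (κ k c') := by
    apply ext_ring
    · intro r
      change j (g (algebraMap k (A k) r)) = s (κ k c' (algebraMap k (A k) r))
      rw [g.commutes, κ_cst, h.cst_eq]
      exact (hjl _).trans (κ_cst k c r)
    · change j (g (x k)) = s (κ k c' (x k))
      rw [gx, hj1 _ _ hP]
    · change j (g (y k)) = s (κ k c' (y k))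
      rw [gy, hj1 _ _ hQ]
  have key := h.comp_eq c c' l g.toRingHom j hj (RingHom.ext hjl) hjg
  let e : A k →+* k := (lift a b hab : A k →ₐ[k] k).toRingHom
  have heS : IsUnit (e S) := IsUnit.mk0 _ hS
  let e' : B →+* k := IsLocalization.Away.lift S heS
  have hel : ∀ z, e' (l z) = e z := fun z => IsLocalization.Away.lift_eq S heS z
  have heiS : e S * e' iS = 1 := by rw [← hel, ← map_mul, hiS, map_one]
  have he1 : ∀ (z : A k) (w : k), e S * w = e z → e' (l z * iS) = w := by
    intro z w hw
    rw [map_mul, hel, ← hw]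
    linear_combination w * heiS
  have h6 : e'.comp l = e := RingHom.ext hel
  have h7 : e'.comp g.toRingHom = (lift a' b' hab' : A k →ₐ[k] k).toRingHom := by
    apply ext_ring
    · intro r
      change e' (g (algebraMap k (A k) r)) = (lift a' b' hab' : A k →ₐ[k] k) (algebraMap k (A k) r)
      rw [g.commutes, AlgHom.commutes]
      exact (hel _).trans ((lift a b hab : A k →ₐ[k] k).commutes r)
    · change e' (g (x k)) = (lift a' b' hab' : A k →ₐ[k] k) (x k)
      rw [gx, he1 _ _ ha', lift_x]
    · change e' (g (y k)) = (lift a' b' hab' : A k →ₐ[k] k) (y k)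
      rw [gy, he1 _ _ hb', lift_y]
  have h8 : kpt c a b hab ≫ ψ = Spec.map (CommRingCat.ofHom e') ≫
      Spec.map (CommRingCat.ofHom l) ≫ ch c ≫ ψ := by
    rw [← Category.assoc (Spec.map _) (Spec.map _), ← Spec.map_comp, ← CommRingCat.ofHom_comp, h6,
      kpt, Category.assoc]
  rw [h8, key, ← Category.assoc, ← Spec.map_comp, ← CommRingCat.ofHom_comp, h7]
  rfl

end IsEnd

end Pool.Agent.W513.EC
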