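import Pool.Agent.W513.TrX
import Pool.Agent.W513.FamE
import Pool.Agent.W513.Gn2

/-!
# The curves on the blow-up
-/

set_option autoImplicit false

open CategoryTheory Limits AlgebraicGeometry IsLocalRing TopologicalSpace

namespace Pool.Agent.W513

open Pool.Agent.Helper198.Sch
open Pool.Agent.H666R3.NG

attribute [local instance] MvPolynomial.gradedAlgebra

variable {k : Type} [Field k] [CharZero k] [IsAlgClosed k]

namespace EC.IsEnd

variable {ψ : EC.curve k ⟶ EC.curve k} {s : EC.FK k →+* EC.FK k} {μ : k} (h : EC.IsEnd ψ s μ)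
  [IsIntegral (cr ψ)]

include h

/-- the curve lifts to the blow-up of one of its points -/
lemma exists_lift {X : Scheme.{0}} (σ : X ⟶ YY k) {y : YY k} (hσ : IsBlowUpAt σ y)
    {a b : k} (hab : a ^ 4 + b ^ 4 + 1 = 0) (hb : b ≠ 0) (q : Spec (.of k) ⟶ cr ψ)
    (hq : q ≫ pullback.fst (FQ.f k) ψ = FQ.fpt false a b hab)
    (hy : jc ψ h.str (q (closedPoint k)) = y) :
    ∃ ι : cr ψ ⟶ X, ι ≫ σ = jc ψ h.str := by
  have hinv : InvertiblePullback (jc ψ h.str) y := by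
    intro w hw
    have hw' : q (closedPoint k) = w := by
      apply (jc ψ h.str).isClosedEmbedding.injective
      rw [hy, hw]
    obtain ⟨α1, α2, v, hα, hu, hm, hm2, hv⟩ := h.special (jc ψ h.str) (jc_fst ψ h.str)
      (jc_snd ψ h.str) hab hb q hq w hw'
    refine ⟨((jc ψ h.str).stalkMap w).hom v, mem_nonZeroDivisors_of_ne_zero hv, ?_⟩
    rw [hm, Ideal.map_span, Set.image_pair]
    have e0 := stalk_j (jc ψ h.str) (jc_fst ψ h.str) (jc_snd ψ h.str) w α1 α2 hα.1 hα.2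
    have e1 : ((jc ψ h.str).stalkMap w).hom (α1.hom (EC.x k) - α2.hom (EC.x k)) = 0 := by
      rw [map_sub, sub_eq_zero]
      exact congrArg (fun f => f.hom (EC.x k)) e0
    rw [e1]
    apply le_antisymm
    · rw [Ideal.span_le]
      rintro _ (rfl | rfl)
      · exact Ideal.mem_span_singleton_self _
      · exact Ideal.zero_mem _
    · exact Ideal.span_mono (by simp)
  obtain ⟨ι, hι, _⟩ := hσ.universal (cr ψ) (jc ψ h.str) hinv
  exact ⟨ι, hι⟩

end EC.IsEnd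

/-- The curves on the blow-up. -/
theorem curve_on_blowUp {ψ : EC.curve k ⟶ EC.curve k} (hψ : EC.IsE ψ)
    {X : Scheme.{0}} (σ : X ⟶ YY k) {y : YY k} (hσ : IsBlowUpAt σ y)
    (hyc : IsClosed ({y} : Set (YY k)))
    {a b : k} (hab : a ^ 4 + b ^ 4 + 1 = 0) (hb : b ≠ 0) (p : Spec (.of k) ⟶ EC.curve k)
    (hp : FQ.fpt false a b hab ≫ FQ.f k = p ≫ ψ)
    (hyp : ∀ u : Spec (.of k) ⟶ YY k, u ≫ pr1 k = FQ.fpt false a b hab → u ≫ pr2 k = p →
      u (closedPoint k) = y)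
    {b₁ : k} (hb₁ : b₁ ^ 2 + (0 : k) ^ 4 + 1 = 0) {n : ℕ}
    (P : Fin (n + 1) → EC.Kp k) (hP : Function.Injective P)
    (hPψ : ∀ i, (P i).1 ≫ ψ = EC.kpt true 0 b₁ hb₁) :
    ∃ (C : Scheme.{0}) (_ : IsIntegral C) (ι : C ⟶ X), IsIntegralCurve ι ∧
      σ (ι (genericPoint C)) ≠ y ∧ HasSelfIntersection ι (-1) ∧
      ∃ g, n ≤ g ∧ HasGenus (ι ≫ σ ≫ sY k) g := by
  obtain ⟨s, μ, h⟩ := hψ
  have hint := h.isIntegral_cr
  let q : Spec (.of k) ⟶ cr ψ := pullback.lift (FQ.fpt false a b hab) p hp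
  have hq1 : q ≫ pullback.fst (FQ.f k) ψ = FQ.fpt false a b hab := pullback.lift_fst _ _ _
  have hq2 : q ≫ pullback.snd (FQ.f k) ψ = p := pullback.lift_snd _ _ _
  have hy : jc ψ h.str (q (closedPoint k)) = y := by
    apply hyp (q ≫ jc ψ h.str)
    · rw [Category.assoc, jc_fst, hq1]
    · rw [Category.assoc, jc_snd, hq2]
  obtain ⟨ι, hι⟩ := h.exists_lift σ hσ hab hb q hq1 hy
  have hj1 : (ι ≫ σ) ≫ pr1 k = pullback.fst (FQ.f k) ψ := by rw [hι, jc_fst]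
  have hj2 : (ι ≫ σ) ≫ pr2 k = pullback.snd (FQ.f k) ψ := by rw [hι, jc_snd]
  have hz0 : σ (ι (q (closedPoint k))) = y := by
    rw [← hy, ← hι]
    rfl
  obtain ⟨h1, h2⟩ := h.selfIntersection σ hσ hyc ι hj1 hj2 hab hb q hq1 hz0
  obtain ⟨g, hg, hG⟩ := h.exists_genus hb₁ P hP hPψ
  have hcl : IsClosedImmersion ι := by
    have h3 : IsClosedImmersion (ι ≫ σ) := by
      rw [hι]
      infer_instance
    have h4 : IsProper σ := hσ.proper
    exact IsClosedImmersion.of_comp ι σ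
  refine ⟨cr ψ, hint, ι, ⟨hint, hcl, h.dim_cr⟩, h2, h1, g, hg, ?_⟩
  have h5 : ι ≫ σ ≫ sY k = pullback.snd (FQ.f k) ψ ≫ V.str (EC.J k) := by
    rw [sY_eq, ← Category.assoc, ← Category.assoc, hj2]
  rw [h5]
  exact hG

end Pool.Agent.W513
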