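import Pool.Agent.W513.RingE
import Pool.Agent.W513.Chart

/-!
# Local computations on the curve `y² + x⁴ + 1 = 0`
-/

set_option autoImplicit false

open AlgebraicGeometry CategoryTheory Limits IsLocalRing

namespace Pool.Agent.W513

section diag

variable {R : Type*} [CommRing R] [IsLocalRing R]

lemma diag_y (h2 : IsUnit (2 : R)) {X1 Y1 X2 Y2 : R} (h1 : Y1 ^ 2 + X1 ^ 4 + 1 = 0)
    (h3 : Y2 ^ 2 + X2 ^ 4 + 1 = 0) (hY : Y1 - Y2 ∈ maximalIdeal R)
    (hu : IsUnit Y1) : Y1 - Y2 ∈ Ideal.span {X1 - X2} := by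
  have hs : IsUnit (Y1 + Y2) := by
    by_contra hcon
    have h4 : (Y1 + Y2) + (Y1 - Y2) ∈ maximalIdeal R :=
      Ideal.add_mem _ ((mem_maximalIdeal _).2 hcon) hY
    have h5 : (Y1 + Y2) + (Y1 - Y2) = 2 * Y1 := by ring
    rw [h5] at h4
    exact (mem_maximalIdeal _).1 h4 (h2.mul hu)
  obtain ⟨u, hu'⟩ := hs
  have h6 : Y1 - Y2 = (X1 - X2) * (-(X1 + X2) * (X1 ^ 2 + X2 ^ 2) * ↑u⁻¹) := by
    have h7 : (Y1 - Y2) * (Y1 + Y2) = (X1 - X2) * (-(X1 + X2) * (X1 ^ 2 + X2 ^ 2)) := by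
      linear_combination h1 - h3
    calc Y1 - Y2 = (Y1 - Y2) * (Y1 + Y2) * ↑u⁻¹ := by
          rw [← hu', mul_assoc, Units.mul_inv, mul_one]
      _ = _ := by rw [h7]; ring
  rw [h6]
  exact Ideal.mul_mem_right _ _ (Ideal.mem_span_singleton_self _)

lemma isUnit_X {X1 Y1 : R} (h1 : Y1 ^ 2 + X1 ^ 4 + 1 = 0) (hu : Y1 ∈ maximalIdeal R) :
    IsUnit X1 := by
  by_contra hcon
  have h4 : -(Y1 * Y1 + X1 ^ 3 * X1) ∈ maximalIdeal R :=
    neg_mem (Ideal.add_mem _ (Ideal.mul_mem_left _ _ hu)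
      (Ideal.mul_mem_left _ _ ((mem_maximalIdeal _).2 hcon)))
  have h5 : -(Y1 * Y1 + X1 ^ 3 * X1) = 1 := by linear_combination -h1
  rw [h5] at h4
  exact (mem_maximalIdeal _).1 h4 isUnit_one

lemma diag_x_unit (h2 : IsUnit (2 : R)) {X1 X2 : R} (hX : X1 - X2 ∈ maximalIdeal R)
    (hu : IsUnit X1) : IsUnit ((X1 + X2) * (X1 ^ 2 + X2 ^ 2)) := by
  by_contra hcon
  have h4 : (X1 + X2) * (X1 ^ 2 + X2 ^ 2) + (X1 - X2) * (3 * X1 ^ 2 + 2 * X1 * X2 + X2 ^ 2) ∈
      maximalIdeal R :=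
    Ideal.add_mem _ ((mem_maximalIdeal _).2 hcon) (Ideal.mul_mem_right _ _ hX)
  have h5 : (X1 + X2) * (X1 ^ 2 + X2 ^ 2) + (X1 - X2) * (3 * X1 ^ 2 + 2 * X1 * X2 + X2 ^ 2) =
      (2 * 2) * X1 ^ 3 := by ring
  rw [h5] at h4
  exact (mem_maximalIdeal _).1 h4 ((h2.mul h2).mul (hu.pow 3))

lemma diag_x (h2 : IsUnit (2 : R)) {X1 Y1 X2 Y2 : R} (h1 : Y1 ^ 2 + X1 ^ 4 + 1 = 0)
    (h3 : Y2 ^ 2 + X2 ^ 4 + 1 = 0) (hX : X1 - X2 ∈ maximalIdeal R)
    (hu : Y1 ∈ maximalIdeal R) : X1 - X2 ∈ Ideal.span {Y1 - Y2} := by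
  obtain ⟨u, hu'⟩ := diag_x_unit h2 hX (isUnit_X h1 hu)
  have h6 : X1 - X2 = (Y1 - Y2) * (-(Y1 + Y2) * ↑u⁻¹) := by
    have h7 : (X1 - X2) * ((X1 + X2) * (X1 ^ 2 + X2 ^ 2)) = (Y1 - Y2) * (-(Y1 + Y2)) := by
      linear_combination h1 - h3
    calc X1 - X2 = (X1 - X2) * ((X1 + X2) * (X1 ^ 2 + X2 ^ 2)) * ↑u⁻¹ := by
          rw [← hu', mul_assoc, Units.mul_inv, mul_one]
      _ = _ := by rw [h7]; ring
  rw [h6]
  exact Ideal.mul_mem_right _ _ (Ideal.mem_span_singleton_self _)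

end diag

namespace EC

section max

variable {k : Type} [Field k] [IsAlgClosed k]

/-- evaluation at a point of the curve -/
noncomputable abbrev ev (a b : k) (h : b ^ 2 + a ^ 4 + 1 = 0) : A k →ₐ[k] k := lift a b h

instance finiteType_A : Algebra.FiniteType k (A k) := by
  have h1 : Module.Finite (Polynomial k) (A k) := (pol_monic k).finite_adjoinRoot
  have h2 : Algebra.FiniteType (Polynomial k) (A k) := inferInstance
  exact Algebra.FiniteType.trans (S := Polynomial k) inferInstance h2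

lemma exists_ev (m : Ideal (A k)) (hm : m.IsMaximal) :
    ∃ (a b : k) (h : b ^ 2 + a ^ 4 + 1 = 0), m = RingHom.ker (ev a b h) := by
  let _ : Field (A k ⧸ m) := Ideal.Quotient.field m
  have h1 : Algebra.FiniteType k (A k ⧸ m) := inferInstance
  have h2 : Module.Finite k (A k ⧸ m) := finite_of_finite_type_of_isJacobsonRing k (A k ⧸ m)
  have h3 : Algebra.IsIntegral k (A k ⧸ m) := inferInstance
  have h4 : Function.Bijective (algebraMap k (A k ⧸ m)) :=
    IsAlgClosed.algebraMap_bijective_of_isIntegral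
  obtain ⟨a, ha⟩ := h4.2 (Ideal.Quotient.mk m (x k))
  obtain ⟨b, hb⟩ := h4.2 (Ideal.Quotient.mk m (y k))
  have hab : b ^ 2 + a ^ 4 + 1 = 0 := by
    apply h4.1
    rw [map_add, map_add, map_pow, map_pow, ha, hb, map_one, map_zero, ← map_pow, ← map_pow,
      ← map_one (Ideal.Quotient.mk m), ← map_add, ← map_add, rel, map_zero]
  refine ⟨a, b, hab, ?_⟩
  have h5 : (Algebra.ofId k (A k ⧸ m)).comp (ev a b hab) = Ideal.Quotient.mkₐ k m := by
    apply ext_A
    · rw [AlgHom.comp_apply, lift_x]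
      exact ha
    · rw [AlgHom.comp_apply, lift_y]
      exact hb
  ext z
  rw [RingHom.mem_ker, ← Ideal.Quotient.eq_zero_iff_mem]
  have h6 : Ideal.Quotient.mk m z = algebraMap k (A k ⧸ m) (ev a b hab z) :=
    (congrArg (fun f : A k →ₐ[k] (A k ⧸ m) => f z) h5).symm
  rw [h6]
  constructor
  · intro h
    exact h4.1 (by rw [map_zero]; exact h)
  · intro h
    have : ev a b hab z = 0 := h
    rw [this, map_zero]

end max

section dim

variable (k : Type) [Field k]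

lemma integral_A : Algebra.IsIntegral (Polynomial k) (A k) := by
  have h1 : Module.Finite (Polynomial k) (A k) := (pol_monic k).finite_adjoinRoot
  infer_instance

lemma isMaximal_of_ne_bot (h2 : (2 : k) ≠ 0) (I : Ideal (A k)) (hI : I ≠ ⊥) (hp : I.IsPrime) :
    I.IsMaximal := by
  have := isDomain_A k h2
  have := integral_A k
  have h1 : I.comap (algebraMap (Polynomial k) (A k)) ≠ ⊥ := by
    intro h
    exact hI (Ideal.eq_bot_of_comap_eq_bot h)
  have h2 : (I.comap (algebraMap (Polynomial k) (A k))).IsPrime := inferInstance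
  have h3 := Ring.DimensionLEOne.maximalOfPrime h1 h2
  exact Ideal.isMaximal_of_isIntegral_of_isMaximal_comap I h3

instance noetherian_A : IsNoetherianRing (A k) :=
  Algebra.FiniteType.isNoetherianRing k (A k)

end dim

end EC

end Pool.Agent.W513
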