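import Pool.Agent.W513.KptE

/-!
# An endomorphism of degree two and the translations
-/

set_option autoImplicit false

open AlgebraicGeometry CategoryTheory Limits IsLocalRing TopologicalSpace

namespace Pool.Agent.W513.EC

open Pool.Agent.Helper198.Sch

attribute [local instance] MvPolynomial.gradedAlgebra

variable {k : Type} [Field k] [CharZero k]

lemma D_div (f g : FK k) (hg : g ≠ 0) : D k (f / g) = (g * D k f - f * D k g) / g ^ 2 := by
  have h1 : D k (g * (f / g)) = D k f := by rw [mul_div_cancel₀ _ hg]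
  rw [D_mul] at h1
  field_simp
  field_simp at h1
  linear_combination h1

lemma IsEnd.ext {ψ₁ ψ₂ : curve k ⟶ curve k} {s₁ s₂ : FK k →+* FK k} {μ₁ μ₂ : k}
    (h₁ : IsEnd ψ₁ s₁ μ₁) (h₂ : IsEnd ψ₂ s₂ μ₂) (hx : s₁ (κ k false (x k)) = s₂ (κ k false (x k)))
    (hy : s₁ (κ k false (y k)) = s₂ (κ k false (y k))) : ψ₁ = ψ₂ := by
  refine hom_ext_generic (V.str (J k)) (by rw [h₁.str, h₂.str]) ?_
  have h3 : s₁.comp (κ k false) = s₂.comp (κ k false) := by
    apply ext_ring _ hx hy
    intro r
    rw [RingHom.comp_apply, RingHom.comp_apply, κ_cst, h₁.cst_eq, h₂.cst_eq]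
  have h4 := h₁.gen_coord false
  have h5 := h₂.gen_coord false
  rw [h3, h5] at h4
  exact h4.symm

lemma κ_ne_zero_of_ev {c : Bool} {a b : k} (h : b ^ 2 + a ^ 4 + 1 = 0) (z : A k)
    (hz : (lift a b h : A k →ₐ[k] k) z ≠ 0) : κ k c z ≠ 0 := by
  intro h1
  rw [← map_zero (κ k c)] at h1
  apply hz
  rw [κ_injective k c h1, map_zero]

variable (k) in
/-- the constants as elements of the chart ring -/
noncomputable abbrev cA (r : k) : A k := algebraMap k (A k) r

omit [CharZero k] in
lemma lift_cA {a b : k} (h : b ^ 2 + a ^ 4 + 1 = 0) (r : k) :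
    (lift a b h : A k →ₐ[k] k) (cA k r) = r := (lift a b h : A k →ₐ[k] k).commutes r

section sigma

variable [IsAlgClosed k]

/-- The involution `(x, y) ↦ (-x, -y)`. -/
lemma exists_sigma : ∃ (σ : curve k ⟶ curve k) (s : FK k →+* FK k), IsEnd σ s 1 ∧
    s (κ k false (x k)) = -κ k false (x k) ∧ s (κ k false (y k)) = -κ k false (y k) := by
  refine exists_end (-κ k false (x k)) (-κ k false (y k)) ?_ (neg_ne_zero.2 (κy_ne_zero k false)) 1
    one_ne_zero ?_
  · have := κ_curve k false
    linear_combination this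
  · rw [D_neg, D_x0, map_one, one_mul]

omit [IsAlgClosed k] in
lemma sigma_point {σ : curve k ⟶ curve k} {s : FK k →+* FK k} (h : IsEnd σ s 1)
    (hx : s (κ k false (x k)) = -κ k false (x k)) (hy : s (κ k false (y k)) = -κ k false (y k))
    (q : Spec (.of k) ⟶ curve k) (hq : q ≫ V.str (J k) = 𝟙 _) : q ≫ σ ≠ q := by
  obtain ⟨c, a, b, hab, rfl⟩ := exists_kpt q hq
  have hx' : s (κ k c (x k)) = -κ k c (x k) := by
    cases c
    · exact hx
    · have h1 := (κ_rel k false).1
      simp only [Bool.not_false] at h1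
      have h2 := congrArg s h1
      rw [map_mul, hx, map_one] at h2
      have h3 := κx_ne_zero k false
      apply mul_left_cancel₀ h3
      linear_combination -h2 + h1
  have hy' : s (κ k c (y k)) = -κ k c (y k) := by
    cases c
    · exact hy
    · have h1 := (κ_rel k false).2
      simp only [Bool.not_false] at h1
      rw [h1, map_mul, map_pow, hx', hy]
      ring
  have hab' : (-b) ^ 2 + (-a) ^ 4 + 1 = 0 := by linear_combination hab
  have h1 := h.eval c c hab 1 (-x k) (-y k) (by rw [map_one]; exact one_ne_zero)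
    (by rw [map_one, one_mul, hx', map_neg]) (by rw [map_one, one_mul, hy', map_neg]) hab'
    (by rw [map_one, one_mul, map_neg, lift_x]) (by rw [map_one, one_mul, map_neg, lift_y])
  rw [h1]
  intro h2
  obtain ⟨h3, h4⟩ := kpt_injective h2
  have h5 : a = 0 := by
    have : (2 : k) * a = 0 := by linear_combination -h3
    exact (mul_eq_zero.1 this).resolve_left two_ne_zero
  have h6 : b = 0 := by
    have : (2 : k) * b = 0 := by linear_combination -h4
    exact (mul_eq_zero.1 this).resolve_left two_ne_zero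
  rw [h5, h6] at hab
  norm_num at hab

end sigma

section phi

variable {i : k} (hi : i ^ 2 = -1)

include hi

omit [CharZero k] in
lemma O_rel : (-i) ^ 2 + (0 : k) ^ 4 + 1 = 0 := by linear_combination hi

lemma i_ne_zero : i ≠ 0 := by
  rintro rfl
  norm_num at hi

lemma one_add_i_ne_zero : 1 + i ≠ 0 := by
  intro h
  have h1 : i = -1 := by linear_combination h
  rw [h1] at hi
  norm_num at hi

variable [IsAlgClosed k]

/-- The complex multiplication by `1 + i`. -/
lemma exists_phi_aux : ∃ (φ : curve k ⟶ curve k) (s : FK k →+* FK k), IsEnd φ s (1 + i) ∧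
    s (κ k false (x k)) = (1 - cst k i) * κ k false (x k) / κ k false (y k) ∧
    s (κ k false (y k)) = cst k i * (1 - κ k false (x k) ^ 4) / κ k false (y k) ^ 2 := by
  have hI : cst k i ^ 2 = -1 := by rw [← map_pow, hi, map_neg, map_one]
  have hy0 := κy_ne_zero k false
  have hc := κ_curve k false
  have hne : cst k i * (1 - κ k false (x k) ^ 4) / κ k false (y k) ^ 2 ≠ 0 := by
    have h1 : κ k false (1 - x k ^ 4) ≠ 0 := by
      apply κ_ne_zero_of_ev (O_rel hi)
      rw [map_sub, map_one, map_pow, lift_x]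
      norm_num
    rw [map_sub, map_one, map_pow] at h1
    have h2 : cst k i ≠ 0 := by
      rw [← map_zero (cst k)]
      exact fun h => i_ne_zero hi ((cst k).injective h)
    exact div_ne_zero (mul_ne_zero h2 h1) (pow_ne_zero 2 hy0)
  refine exists_end _ _ ?_ hne _ (one_add_i_ne_zero hi) ?_
  · set X := κ k false (x k)
    set Y := κ k false (y k)
    set I := cst k i
    field_simp
    have hI4 : (1 - I) ^ 4 = -4 := by
      linear_combination (I ^ 2 - 4 * I + 5) * hI
    have hYY : Y ^ 4 = (1 + X ^ 4) ^ 2 := by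
      linear_combination (Y ^ 2 - 1 - X ^ 4) * hc
    linear_combination (1 - X ^ 4) ^ 2 * hI + X ^ 4 * hI4 + hYY
  · rw [D_div _ _ hy0, D_y0, D_mul, D_sub, D_one, D_cst, D_x0, map_add, map_one]
    set X := κ k false (x k)
    set Y := κ k false (y k)
    set I := cst k i
    field_simp
    linear_combination (1 - I) * hc + (X ^ 4 - 1) * hI

/-- The base point `O = (0, -i)`. -/
noncomputable def O : Spec (.of k) ⟶ curve k := kpt false 0 (-i) (O_rel hi)

/-- The complex multiplication by `1 + i`: it fixes `O` and every rational point is the image of two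
different rational points. -/
theorem exists_phi : ∃ (φ : curve k ⟶ curve k) (s : FK k →+* FK k), IsEnd φ s (1 + i) ∧
    O hi ≫ φ = O hi ∧
    ∀ q : Spec (.of k) ⟶ curve k, q ≫ V.str (J k) = 𝟙 _ →
      ∃ q₁ q₂ : Spec (.of k) ⟶ curve k, q₁ ≫ V.str (J k) = 𝟙 _ ∧ q₂ ≫ V.str (J k) = 𝟙 _ ∧
        q₁ ≫ φ = q ∧ q₂ ≫ φ = q ∧ q₁ ≠ q₂ := by
  obtain ⟨φ, s, h, hX, hY⟩ := exists_phi_aux hi
  have hI : cst k i ^ 2 = -1 := by rw [← map_pow, hi, map_neg, map_one]
  have hy0 := κy_ne_zero k false
  have hfix : O hi ≫ φ = O hi := by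
    have hc : ∀ r, κ k false (cA k r) = cst k r := κ_cst k false
    refine h.eval false false (O_rel hi) (y k ^ 2) ((1 - cA k i) * x k * y k)
      (cA k i * (1 - x k ^ 4)) ?_ ?_ ?_ (O_rel hi) ?_ ?_
    · rw [map_pow, lift_y]
      exact pow_ne_zero 2 (neg_ne_zero.2 (i_ne_zero hi))
    · rw [hX, map_mul, map_mul, map_sub, map_one, map_pow, hc]
      field_simp
    · rw [hY, map_mul, map_sub, map_one, map_pow, map_pow, hc]
      field_simp
    · simp only [map_mul, lift_x, map_sub, map_pow, map_one, mul_zero, zero_mul]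
    · simp only [map_mul, lift_x, lift_y, map_sub, map_pow, map_one, lift_cA]
      linear_combination (-i) * hi
  refine ⟨φ, s, h, hfix, ?_⟩
  intro q hq
  obtain ⟨σ, t, hσ, hσx, hσy⟩ := exists_sigma (k := k)
  have hσφ : σ ≫ φ = φ := by
    have h1 := hσ.comp h hσ.cst_eq
    refine IsEnd.ext h1 h ?_ ?_
    · rw [RingHom.comp_apply, hX, map_div₀, map_mul, map_sub, map_one, hσ.cst_eq, hσx, hσy]
      field_simp
    · rw [RingHom.comp_apply, hY, map_div₀, map_mul, map_sub, map_one, hσ.cst_eq, map_pow, map_pow,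
        hσx, hσy]
      congr 1
      · ring
      · ring
  -- a closed point over `q`
  obtain ⟨z, hz⟩ : ∃ z : curve k, IsClosed ({z} : Set (curve k)) ∧ φ z = q (closedPoint k) := by
    have hqc : IsClosed ({q (closedPoint k)} : Set (curve k)) :=
      (pointEquivClosedPoint (V.str (J k)) ⟨q, hq⟩).2
    obtain ⟨z, hz⟩ := h.surjective (q (closedPoint k))
    rcases eq_generic_or_closed z with rfl | hcl
    · rw [h.apply_generic] at hz
      rw [← hz] at hqc
      exact absurd hqc not_isClosed_generic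
    · exact ⟨z, hcl, hz⟩
  let q₁ := pointOfClosedPoint (V.str (J k)) z hz.1
  have hq₁ : q₁ ≫ V.str (J k) = 𝟙 _ := pointOfClosedPoint_comp _ _ _
  have hq₁φ : q₁ ≫ φ = q := by
    refine ext_of_apply_closedPoint_eq (V.str (J k)) ?_ hq ?_
    · rw [Category.assoc, h.str, hq₁]
    · have h2 : q₁ (closedPoint k) = z := pointOfClosedPoint_apply _ _ _ _
      change φ (q₁ (closedPoint k)) = _
      rw [h2, hz.2]
  refine ⟨q₁, q₁ ≫ σ, hq₁, ?_, hq₁φ, ?_, (sigma_point hσ hσx hσy q₁ hq₁).symm⟩
  · rw [Category.assoc, hσ.str, hq₁]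
  · rw [Category.assoc, hσφ, hq₁φ]

end phi

section tau

variable {i : k} (hi : i ^ 2 = -1) [IsAlgClosed k]

/-- The translation which maps `O` to the point `(a, b)`. -/
theorem exists_tau (a b : k) (hab : b ^ 2 + a ^ 4 + 1 = 0) (hb : b ≠ 0) :
    ∃ (τ : curve k ⟶ curve k) (s : FK k →+* FK k), IsEnd τ s 1 ∧
      O hi ≫ τ = kpt false a b hab := by
  have hI : cst k i ^ 2 = -1 := by rw [← map_pow, hi, map_neg, map_one]
  have hc0 : ∀ r, κ k false (cA k r) = cst k r := κ_cst k false
  have hcab : cst k b ^ 2 + cst k a ^ 4 + 1 = 0 := by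
    rw [← map_pow, ← map_pow, ← map_one (cst k), ← map_add, ← map_add, hab, map_zero]
  have hc := κ_curve k false
  let M : A k := 1 - cA k a ^ 2 * x k ^ 2
  let N : A k := cA k b * x k + cA k a * y k
  let T : A k := cA k b * y k * (1 + cA k a ^ 2 * x k ^ 2) -
    2 * cA k a * x k * (x k ^ 2 + cA k a ^ 2)
  have eM : (lift 0 (-i) (O_rel hi) : A k →ₐ[k] k) M = 1 := by
    simp only [M, map_sub, map_mul, map_pow, map_one, lift_x, lift_cA]
    ring
  have eN : (lift 0 (-i) (O_rel hi) : A k →ₐ[k] k) N = -(i * a) := by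
    simp only [N, map_add, map_mul, lift_x, lift_y, lift_cA]
    ring
  have eT : (lift 0 (-i) (O_rel hi) : A k →ₐ[k] k) T = -(i * b) := by
    simp only [T, map_sub, map_add, map_mul, map_pow, map_one, lift_x, lift_y, lift_cA]
    ring
  have hM : κ k false M ≠ 0 := κ_ne_zero_of_ev (O_rel hi) _ (by rw [eM]; exact one_ne_zero)
  have hT : κ k false T ≠ 0 := κ_ne_zero_of_ev (O_rel hi) _ (by
    rw [eT]
    exact neg_ne_zero.2 (mul_ne_zero (i_ne_zero hi) hb))
  have hIne : cst k i ≠ 0 := by
    rw [← map_zero (cst k)]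
    exact fun h => i_ne_zero hi ((cst k).injective h)
  have kM : κ k false M = 1 - cst k a ^ 2 * κ k false (x k) ^ 2 := by
    simp only [M, map_sub, map_mul, map_pow, map_one, hc0]
  have kN : κ k false N = cst k b * κ k false (x k) + cst k a * κ k false (y k) := by
    simp only [N, map_add, map_mul, hc0]
  have kT : κ k false T = cst k b * κ k false (y k) * (1 + cst k a ^ 2 * κ k false (x k) ^ 2) -
      2 * cst k a * κ k false (x k) * (κ k false (x k) ^ 2 + cst k a ^ 2) := by
    simp only [T, map_sub, map_add, map_mul, map_pow, map_one, map_ofNat, hc0]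
  have hrel : (cst k i * κ k false T / κ k false M ^ 2) ^ 2 +
      (cst k i * κ k false N / κ k false M) ^ 4 + 1 = 0 := by
    have h4 : cst k i ^ 4 = 1 := by linear_combination (cst k i ^ 2 - 1) * hI
    have h5 : -(κ k false T) ^ 2 + (κ k false N) ^ 4 + (κ k false M) ^ 4 = 0 := by
      rw [kT, kN, kM]
      set X := κ k false (x k)
      set Y := κ k false (y k)
      set a' := cst k a
      set b' := cst k b
      linear_combination (-6 * a' ^ 2 * X ^ 2 * (1 + a' ^ 4) + 4 * a' ^ 3 * b' * X * Y +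
        a' ^ 4 * (Y ^ 2 - 1 - X ^ 4) + (1 + a' ^ 2 * X ^ 2) ^ 2 * (1 + a' ^ 4)) * hc +
        (X ^ 4 * (b' ^ 2 - 1 - a' ^ 4) + 4 * a' * b' * X ^ 3 * Y +
        (6 * a' ^ 2 * X ^ 2 - (1 + a' ^ 2 * X ^ 2) ^ 2) * Y ^ 2) * hcab
    field_simp
    linear_combination h5 + (κ k false N) ^ 4 * h4 + (κ k false T) ^ 2 * hI
  obtain ⟨τ, s, h, hX, hY⟩ := exists_end (cst k i * κ k false N / κ k false M)
    (cst k i * κ k false T / κ k false M ^ 2) hrel
    (div_ne_zero (mul_ne_zero hIne hT) (pow_ne_zero 2 hM)) 1 one_ne_zero (by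
      have dM : D k (κ k false M) = -(2 * cst k a ^ 2 * κ k false (x k) * κ k false (y k)) := by
        rw [kM, D_sub, D_one, ← map_pow, D_cst_mul, D_pow k _ 1, D_x0]
        push_cast
        ring
      have dN : D k (κ k false N) = cst k b * κ k false (y k) +
          cst k a * (-2 * κ k false (x k) ^ 3) := by
        rw [kN, D_add, D_cst_mul, D_cst_mul, D_x0, D_y0]
      rw [D_div _ _ hM, D_cst_mul, dM, dN, map_one, one_mul]
      rw [div_eq_div_iff (pow_ne_zero 2 hM) (pow_ne_zero 2 hM), kT, kN, kM]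
      set X := κ k false (x k)
      set Y := κ k false (y k)
      set a' := cst k a
      set b' := cst k b
      linear_combination (2 * a' ^ 3 * X * cst k i * (1 - a' ^ 2 * X ^ 2) ^ 2) * hc)
  refine ⟨τ, s, h, ?_⟩
  refine h.eval false false (O_rel hi) (M ^ 2) (cA k i * N * M) (cA k i * T) ?_ ?_ ?_ hab ?_ ?_
  · rw [map_pow, eM]
    simp
  · rw [hX, map_mul, map_mul, map_pow, hc0]
    field_simp
  · rw [hY, map_mul, map_pow, hc0]
    field_simp
  · rw [map_pow, map_mul, map_mul, eM, eN, lift_cA]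
    linear_combination a * hi
  · rw [map_pow, map_mul, eM, eT, lift_cA]
    linear_combination b * hi

end tau

end Pool.Agent.W513.EC
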