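import Pool.Agent.W488.BlowB

/-!
# The local ring of a product at a rational point
-/

set_option autoImplicit false

open CategoryTheory Limits AlgebraicGeometry IsLocalRing TopologicalSpace

namespace Pool.Agent.W513

open Pool.Agent.W488.BlowB

/-- The local ring at a rational point. -/
lemma exists_const_ev {k : Type} [Field k] {X : Scheme.{0}} (sX : X ⟶ Spec (.of k))
    (q : Spec (.of k) ⟶ X) (hq : q ≫ sX = 𝟙 _) (x : X) (hx : q (closedPoint k) = x) :
    ∃ (κ : CommRingCat.of k ⟶ X.presheaf.stalk x) (e : X.presheaf.stalk x ⟶ CommRingCat.of k),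
      Spec.map κ = X.fromSpecStalk x ≫ sX ∧ Spec.map e ≫ X.fromSpecStalk x = q ∧
      (∀ a, e.hom (κ.hom a) = a) ∧ RingHom.ker e.hom = maximalIdeal (X.presheaf.stalk x) := by
  obtain ⟨κ, hκ⟩ := Spec.map_surjective (X.fromSpecStalk x ≫ sX)
  obtain ⟨e, he⟩ := factor_local (R := .of k) q x hx
  have h1 : κ ≫ e = 𝟙 _ := by
    apply Spec.map_injective
    rw [Spec.map_comp, hκ, ← Category.assoc, he, hq, Spec.map_id]
  have h2 : ∀ a, e.hom (κ.hom a) = a := fun a => congrArg (fun t => t.hom a) h1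
  refine ⟨κ, e, hκ, he, h2, ?_⟩
  have h3 : Function.Surjective e.hom := fun a => ⟨κ.hom a, h2 a⟩
  have h4 : (RingHom.ker e.hom).IsMaximal := RingHom.ker_isMaximal_of_surjective e.hom h3
  exact eq_maximalIdeal h4

/-- The maximal ideal of the local ring of a product at a rational point. -/
theorem maximalIdeal_prod {k : Type} [Field k] {X1 X2 : Scheme.{0}} (s1 : X1 ⟶ Spec (.of k))
    (s2 : X2 ⟶ Spec (.of k)) (q : Spec (.of k) ⟶ pullback s1 s2)
    (hq : q ≫ pullback.fst s1 s2 ≫ s1 = 𝟙 _) (y : ↥(pullback s1 s2))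
    (hy : q (closedPoint k) = y) :
    maximalIdeal ((pullback s1 s2).presheaf.stalk y) =
      (maximalIdeal (X1.presheaf.stalk (pullback.fst s1 s2 y))).map
        ((pullback.fst s1 s2).stalkMap y).hom ⊔
      (maximalIdeal (X2.presheaf.stalk (pullback.snd s1 s2 y))).map
        ((pullback.snd s1 s2).stalkMap y).hom := by
  set K : Ideal ((pullback s1 s2).presheaf.stalk y) :=
    (maximalIdeal (X1.presheaf.stalk (pullback.fst s1 s2 y))).map
        ((pullback.fst s1 s2).stalkMap y).hom ⊔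
      (maximalIdeal (X2.presheaf.stalk (pullback.snd s1 s2 y))).map
        ((pullback.snd s1 s2).stalkMap y).hom with hK
  have hle : K ≤ maximalIdeal ((pullback s1 s2).presheaf.stalk y) := by
    rw [hK]
    refine sup_le ?_ ?_
    · have h0 : IsLocalHom ((pullback.fst s1 s2).stalkMap y).hom := inferInstance
      exact ((local_hom_TFAE ((pullback.fst s1 s2).stalkMap y).hom).out 0 2).1 h0
    · have h0 : IsLocalHom ((pullback.snd s1 s2).stalkMap y).hom := inferInstance
      exact ((local_hom_TFAE ((pullback.snd s1 s2).stalkMap y).hom).out 0 2).1 h0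
  refine le_antisymm ?_ hle
  obtain ⟨κy, ey, hκy, hey, hy2, hy3⟩ := exists_const_ev (pullback.fst s1 s2 ≫ s1) q hq y hy
  have hq1 : (q ≫ pullback.fst s1 s2) ≫ s1 = 𝟙 _ := by rw [Category.assoc, hq]
  have hq2 : (q ≫ pullback.snd s1 s2) ≫ s2 = 𝟙 _ := by
    rw [Category.assoc, ← pullback.condition, hq]
  obtain ⟨κ1, e1, hκ1, he1, h12, h13⟩ := exists_const_ev s1 (q ≫ pullback.fst s1 s2) hq1
    (pullback.fst s1 s2 y) (congrArg (fun t => pullback.fst s1 s2 t) hy)
  obtain ⟨κ2, e2, hκ2, he2, h22, h23⟩ := exists_const_ev s2 (q ≫ pullback.snd s1 s2) hq2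
    (pullback.snd s1 s2 y) (congrArg (fun t => pullback.snd s1 s2 t) hy)
  let Q : CommRingCat.{0} := .of ((pullback s1 s2).presheaf.stalk y ⧸ K)
  let π : (pullback s1 s2).presheaf.stalk y ⟶ Q := CommRingCat.ofHom (Ideal.Quotient.mk K)
  have hπ : ∀ t ∈ K, π.hom t = 0 := fun t ht => Ideal.Quotient.eq_zero_iff_mem.2 ht
  let u : Spec Q ⟶ pullback s1 s2 := Spec.map π ≫ (pullback s1 s2).fromSpecStalk y
  have c1 : κ1 ≫ (pullback.fst s1 s2).stalkMap y = κy := by
    apply Spec.map_injective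
    rw [Spec.map_comp, hκ1, hκy, Scheme.SpecMap_stalkMap_fromSpecStalk_assoc]
  have c2 : κ2 ≫ (pullback.snd s1 s2).stalkMap y = κy := by
    apply Spec.map_injective
    rw [Spec.map_comp, hκ2, hκy, Scheme.SpecMap_stalkMap_fromSpecStalk_assoc, pullback.condition]
  have d1 : (pullback.fst s1 s2).stalkMap y ≫ π = e1 ≫ κy ≫ π := by
    ext a
    change π.hom (((pullback.fst s1 s2).stalkMap y).hom a) = π.hom (κy.hom (e1.hom a))
    have h4 : κy.hom (e1.hom a) = ((pullback.fst s1 s2).stalkMap y).hom (κ1.hom (e1.hom a)) :=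
      (congrArg (fun t => t.hom (e1.hom a)) c1).symm
    rw [h4, ← sub_eq_zero, ← map_sub, ← map_sub]
    apply hπ
    rw [hK]
    apply Ideal.mem_sup_left
    apply Ideal.mem_map_of_mem
    rw [← h13, RingHom.mem_ker, map_sub, h12, sub_self]
  have d2 : (pullback.snd s1 s2).stalkMap y ≫ π = e2 ≫ κy ≫ π := by
    ext a
    change π.hom (((pullback.snd s1 s2).stalkMap y).hom a) = π.hom (κy.hom (e2.hom a))
    have h4 : κy.hom (e2.hom a) = ((pullback.snd s1 s2).stalkMap y).hom (κ2.hom (e2.hom a)) :=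
      (congrArg (fun t => t.hom (e2.hom a)) c2).symm
    rw [h4, ← sub_eq_zero, ← map_sub, ← map_sub]
    apply hπ
    rw [hK]
    apply Ideal.mem_sup_right
    apply Ideal.mem_map_of_mem
    rw [← h23, RingHom.mem_ker, map_sub, h22, sub_self]
  have hu : u = Spec.map (κy ≫ π) ≫ q := by
    apply pullback.hom_ext
    · change (Spec.map π ≫ _) ≫ _ = _
      rw [Category.assoc, ← Scheme.SpecMap_stalkMap_fromSpecStalk, ← Category.assoc,
        ← Spec.map_comp, d1, Spec.map_comp, Category.assoc, he1, Category.assoc]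
    · change (Spec.map π ≫ _) ≫ _ = _
      rw [Category.assoc, ← Scheme.SpecMap_stalkMap_fromSpecStalk, ← Category.assoc,
        ← Spec.map_comp, d2, Spec.map_comp, Category.assoc, he2, Category.assoc]
  have hfin : ey ≫ κy ≫ π = π := by
    apply Spec.map_injective
    rw [← cancel_mono ((pullback s1 s2).fromSpecStalk y), Spec.map_comp, Category.assoc, hey, ← hu]
  intro a ha
  rw [← hy3, RingHom.mem_ker] at ha
  have h5 : π.hom a = 0 := by
    rw [← hfin]
    change π.hom (κy.hom (ey.hom a)) = 0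
    rw [ha, map_zero, map_zero]
  exact Ideal.Quotient.eq_zero_iff_mem.1 h5

end Pool.Agent.W513
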