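import Pool.Agent.W513.Cn3
import Pool.Agent.W513.KptE

/-!
# Rational points of the Fermat quartic
-/

set_option autoImplicit false

open CategoryTheory Limits AlgebraicGeometry IsLocalRing TopologicalSpace

namespace Pool.Agent.W513.FQ

open Pool.Agent.Helper198.Sch
open Pool.Agent.H666R3.NG

attribute [local instance] MvPolynomial.gradedAlgebra

variable {k : Type} [Field k]

/-- The rational point with coordinates `(a, b)` in the chart `c`. -/
noncomputable def fpt (c : Bool) (a b : k) (h : a ^ 4 + b ^ 4 + 1 = 0) : Spec (.of k) ⟶ crv k :=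
  Spec.map (CommRingCat.ofHom (Fermat.lift a b h : Fermat.A k →ₐ[k] k).toRingHom) ≫ ch c

lemma fpt_str (c : Bool) (a b : k) (h : a ^ 4 + b ^ 4 + 1 = 0) :
    fpt c a b h ≫ V.str (Fermat.J k) = 𝟙 _ := by
  rw [fpt, Category.assoc, ch_str, ← Spec.map_comp, ← Spec.map_id]
  congr 1
  ext r
  exact (Fermat.lift a b h : Fermat.A k →ₐ[k] k).commutes r

lemma fpt_f (c : Bool) (a b : k) (h : a ^ 4 + b ^ 4 + 1 = 0)
    (h' : (b ^ 2) ^ 2 + a ^ 4 + 1 = 0) : fpt c a b h ≫ f k = EC.kpt c a (b ^ 2) h' := by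
  rw [fpt, Category.assoc, ch_f, ← Category.assoc, EC.kpt]
  congr 1
  rw [← Spec.map_comp, ← CommRingCat.ofHom_comp]
  congr 2
  apply EC.ext_ring
  · intro r
    change Fermat.lift a b h (fr k (algebraMap k (EC.A k) r)) = EC.lift a (b ^ 2) h' _
    rw [(fr k).commutes, AlgHom.commutes, AlgHom.commutes]
  · change Fermat.lift a b h (fr k (EC.x k)) = EC.lift a (b ^ 2) h' _
    rw [fr_x, EC.lift_x, Fermat.lift_x]
  · change Fermat.lift a b h (fr k (EC.y k)) = EC.lift a (b ^ 2) h' _
    rw [fr_y, EC.lift_y, map_pow, Fermat.lift_y]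

lemma mem_of_ev_eq_zero (a b : k) (h : a ^ 4 + b ^ 4 + 1 = 0) (I : Ideal (Fermat.A k))
    (hx : Fermat.x k - algebraMap k (Fermat.A k) a ∈ I)
    (hy : Fermat.y k - algebraMap k (Fermat.A k) b ∈ I) (z : Fermat.A k)
    (hz : (Fermat.lift a b h : Fermat.A k →ₐ[k] k) z = 0) : z ∈ I := by
  have gx : Ideal.Quotient.mkₐ k I (Fermat.x k) =
      Ideal.Quotient.mkₐ k I (algebraMap k (Fermat.A k) a) := by
    rw [← sub_eq_zero, ← map_sub]
    exact Ideal.Quotient.eq_zero_iff_mem.2 hx
  have gy : Ideal.Quotient.mkₐ k I (Fermat.y k) =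
      Ideal.Quotient.mkₐ k I (algebraMap k (Fermat.A k) b) := by
    rw [← sub_eq_zero, ← map_sub]
    exact Ideal.Quotient.eq_zero_iff_mem.2 hy
  have h1 : (Algebra.ofId k (Fermat.A k ⧸ I)).comp (Fermat.lift a b h : Fermat.A k →ₐ[k] k) =
      Ideal.Quotient.mkₐ k I := by
    apply Fermat.ext_A
    · rw [AlgHom.comp_apply, Fermat.lift_x, gx, AlgHom.commutes]
      rfl
    · rw [AlgHom.comp_apply, Fermat.lift_y, gy, AlgHom.commutes]
      rfl
  have h2 := congrArg (fun f : Fermat.A k →ₐ[k] (Fermat.A k ⧸ I) => f z) h1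
  simp only [AlgHom.comp_apply, hz, map_zero] at h2
  exact Ideal.Quotient.eq_zero_iff_mem.1 h2.symm

lemma ker_lift (a b : k) (h : a ^ 4 + b ^ 4 + 1 = 0) :
    RingHom.ker (Fermat.lift a b h : Fermat.A k →ₐ[k] k) =
    Ideal.span {Fermat.x k - algebraMap k (Fermat.A k) a,
      Fermat.y k - algebraMap k (Fermat.A k) b} := by
  apply le_antisymm
  · intro z hz
    exact mem_of_ev_eq_zero a b h _ (Ideal.subset_span (Set.mem_insert _ _))
      (Ideal.subset_span (Set.mem_insert_of_mem _ (Set.mem_singleton _))) z hz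
  · rw [Ideal.span_le]
    rintro _ (rfl | rfl)
    · change (Fermat.lift a b h : Fermat.A k →ₐ[k] k) _ = 0
      rw [map_sub, Fermat.lift_x, AlgHom.commutes]
      exact sub_self _
    · change (Fermat.lift a b h : Fermat.A k →ₐ[k] k) _ = 0
      rw [map_sub, Fermat.lift_y, AlgHom.commutes]
      exact sub_self _

theorem maximalIdeal_crv [CharZero k] {a b : k} (h : a ^ 4 + b ^ 4 + 1 = 0) (hb : b ≠ 0)
    (x : crv k) (hx : fpt false a b h (closedPoint k) = x)
    (α : CommRingCat.of (Fermat.A k) ⟶ (crv k).presheaf.stalk x)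
    (hα : Spec.map α ≫ ch false = (crv k).fromSpecStalk x) :
    maximalIdeal ((crv k).presheaf.stalk x) =
      Ideal.span {α.hom (Fermat.x k) - α.hom (algebraMap k (Fermat.A k) a)} := by
  have h1 : (maximalIdeal ((crv k).presheaf.stalk x)).comap α.hom =
      RingHom.ker (Fermat.lift a b h : Fermat.A k →ₐ[k] k) := by
    have h2 : ch false (Spec.map α (closedPoint ((crv k).presheaf.stalk x))) =
        ch false (Spec.map (CommRingCat.ofHom
          (Fermat.lift a b h : Fermat.A k →ₐ[k] k).toRingHom) (closedPoint k)) := by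
      refine (comap_closedPoint (ch false) x α hα).trans ?_
      rw [← hx]
      rfl
    have h3 := (ch (R := k) false).isOpenEmbedding.injective h2
    have h4 := congrArg PrimeSpectrum.asIdeal h3
    refine Eq.trans h4 ?_
    change Ideal.comap (Fermat.lift a b h : Fermat.A k →ₐ[k] k).toRingHom (maximalIdeal k) = _
    rw [maximalIdeal_eq_bot]
    rfl
  have hX : α.hom (Fermat.x k) - α.hom (algebraMap k (Fermat.A k) a) ∈
      maximalIdeal ((crv k).presheaf.stalk x) := by
    rw [← map_sub, ← Ideal.mem_comap, h1, ker_lift]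
    exact Ideal.subset_span (Or.inl rfl)
  have hY : α.hom (Fermat.y k) - α.hom (algebraMap k (Fermat.A k) b) ∈
      maximalIdeal ((crv k).presheaf.stalk x) := by
    rw [← map_sub, ← Ideal.mem_comap, h1, ker_lift]
    exact Ideal.subset_span (Or.inr rfl)
  have r1 : α.hom (Fermat.x k) ^ 4 + α.hom (Fermat.y k) ^ 4 + 1 = 0 := by
    rw [← map_pow, ← map_pow, ← map_one α.hom, ← map_add, ← map_add, Fermat.rel]
    exact map_zero _
  have r2 : α.hom (algebraMap k (Fermat.A k) a) ^ 4 + α.hom (algebraMap k (Fermat.A k) b) ^ 4 + 1 =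
      0 := by
    rw [← map_pow, ← map_pow, ← map_pow, ← map_pow, ← map_one α.hom,
      ← map_one (algebraMap k (Fermat.A k)), ← map_add, ← map_add, ← map_add, ← map_add, h,
      map_zero]
    exact map_zero _
  have h2 : IsUnit (2 : (crv k).presheaf.stalk x) := by
    have h : (2 : (crv k).presheaf.stalk x) = α.hom (algebraMap k (Fermat.A k) 2) := by
      rw [map_ofNat]
      exact (map_ofNat α.hom 2).symm
    rw [h]
    exact ((IsUnit.mk0 (2 : k) two_ne_zero).map (algebraMap k (Fermat.A k))).map α.hom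
  have hu : IsUnit (α.hom (Fermat.y k)) := by
    by_contra hcon
    have h3 : α.hom (algebraMap k (Fermat.A k) b) ∈ maximalIdeal ((crv k).presheaf.stalk x) := by
      have := Ideal.sub_mem _ ((mem_maximalIdeal _).2 hcon) hY
      simpa using this
    exact (mem_maximalIdeal _).1 h3 (((IsUnit.mk0 b hb).map (algebraMap k (Fermat.A k))).map α.hom)
  obtain ⟨u, hu'⟩ := diag_x_unit h2 hY hu
  rw [toStk_maximalIdeal (ch false) x α hα, h1, ker_lift, Ideal.map_span, Set.image_pair]
  apply le_antisymm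
  · rw [Ideal.span_le]
    rintro _ (rfl | rfl)
    · rw [map_sub]
      exact Ideal.subset_span rfl
    · have h6 : α.hom (Fermat.y k) - α.hom (algebraMap k (Fermat.A k) b) =
          (α.hom (Fermat.x k) - α.hom (algebraMap k (Fermat.A k) a)) *
          (-((α.hom (Fermat.x k) + α.hom (algebraMap k (Fermat.A k) a)) *
            (α.hom (Fermat.x k) ^ 2 + α.hom (algebraMap k (Fermat.A k) a) ^ 2)) * ↑u⁻¹) := by
        have h7 : (α.hom (Fermat.y k) - α.hom (algebraMap k (Fermat.A k) b)) *
            ((α.hom (Fermat.y k) + α.hom (algebraMap k (Fermat.A k) b)) *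
              (α.hom (Fermat.y k) ^ 2 + α.hom (algebraMap k (Fermat.A k) b) ^ 2)) =
            (α.hom (Fermat.x k) - α.hom (algebraMap k (Fermat.A k) a)) *
            (-((α.hom (Fermat.x k) + α.hom (algebraMap k (Fermat.A k) a)) *
            (α.hom (Fermat.x k) ^ 2 + α.hom (algebraMap k (Fermat.A k) a) ^ 2))) := by
          linear_combination r1 - r2
        rw [← mul_assoc, ← h7, ← hu', mul_assoc, Units.mul_inv, mul_one]
      rw [map_sub, h6]
      exact Ideal.mul_mem_right _ _ (Ideal.mem_span_singleton_self _)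
  · rw [Ideal.span_singleton_le_iff_mem, ← map_sub]
    exact Ideal.subset_span (Or.inl rfl)

end Pool.Agent.W513.FQ
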