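import Pool.Agent.W513.EndE

/-!
# Points of the elliptic curve and finiteness of endomorphisms
-/

set_option autoImplicit false

open AlgebraicGeometry CategoryTheory Limits IsLocalRing TopologicalSpace

namespace Pool.Agent.W513.EC

open Pool.Agent.Helper198.Sch

attribute [local instance] MvPolynomial.gradedAlgebra

variable {k : Type} [Field k] [CharZero k]

instance jacobson_inst : JacobsonSpace (curve k) :=
  LocallyOfFiniteType.jacobsonSpace (V.str (J k))

instance noetherian_inst : IsNoetherian (curve k) := by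
  have h1 : CompactSpace (curve k) := by
    have := QuasiCompact.compactSpace_of_compactSpace (V.str (J k))
    exact this
  exact { }

/-- Every point is generic or closed. -/
lemma eq_generic_or_closed (z : curve k) : z = genericPoint (curve k) ∨ IsClosed ({z} : Set (curve k)) := by
  obtain ⟨c, (p : PrimeSpectrum (A k)), rfl⟩ := exists_mem_range_ch (R := k) z
  by_cases hp : p.asIdeal = ⊥
  · left
    have h1 : p = genericPoint (Spec (CommRingCat.of (A k))) := by
      rw [genericPoint_eq_bot_of_affine]
      exact PrimeSpectrum.ext hp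
    rw [h1]
    exact genericPoint_eq_of_isOpenImmersion (ch (R := k) c)
  · right
    have h1 := isMaximal_of_ne_bot k two_ne_zero _ hp p.isPrime
    have h2 : IsClosed ({p} : Set (Spec (.of (A k)))) :=
      (PrimeSpectrum.isClosed_singleton_iff_isMaximal p).2 h1
    have h3 := (ch (R := k) c).isOpenEmbedding.preimage_closedPoints
    have h4 : p ∈ (ch (R := k) c) ⁻¹' closedPoints (curve k) := by
      rw [h3]
      exact h2
    exact h4

lemma finite_of_isClosed (Z : Set (curve k)) (hZ : IsClosed Z)
    (hη : genericPoint (curve k) ∉ Z) : Z.Finite := by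
  obtain ⟨S, hSf, hSc, hSi, hSU⟩ :=
    NoetherianSpace.exists_finite_set_isClosed_irreducible hZ
  rw [hSU]
  apply hSf.sUnion
  intro t ht
  obtain ⟨w, hw⟩ := QuasiSober.sober (hSi t ht) (hSc t ht)
  have hwt : w ∈ t := hw.mem
  have hwZ : w ∈ Z := by
    rw [hSU]
    exact ⟨t, ht, hwt⟩
  rcases eq_generic_or_closed w with rfl | hcl
  · exact absurd hwZ hη
  · have h1 : t = {w} := by
      rw [← hw.def, hcl.closure_eq]
    rw [h1]
    exact Set.finite_singleton w

/-- the curve has a closed point. -/
lemma exists_ne_generic [IsAlgClosed k] : ∃ z : curve k, z ≠ genericPoint (curve k) := by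
  obtain ⟨b, hb⟩ := IsAlgClosed.exists_pow_nat_eq (-1 : k) (n := 2) two_pos
  have h : b ^ 2 + (0 : k) ^ 4 + 1 = 0 := by rw [hb]; ring
  have hm : (RingHom.ker (lift 0 b h : A k →ₐ[k] k)).IsPrime := RingHom.ker_isPrime _
  let p : Spec (.of (A k)) := (⟨_, hm⟩ : PrimeSpectrum (A k))
  refine ⟨ch false p, ?_⟩
  intro hcon
  have h1 : ch false (genericPoint (Spec (.of (A k)))) = genericPoint (curve k) :=
    genericPoint_eq_of_isOpenImmersion (ch false)
  rw [← h1] at hcon
  have h2 := (ch (R := k) false).isOpenEmbedding.injective hcon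
  rw [genericPoint_eq_bot_of_affine] at h2
  have h3 : RingHom.ker (lift 0 b h : A k →ₐ[k] k) = ⊥ := congrArg PrimeSpectrum.asIdeal h2
  have h4 : x k ∈ RingHom.ker (lift 0 b h : A k →ₐ[k] k) := lift_x _ _ _
  rw [h3] at h4
  exact x_ne_zero k ((Submodule.mem_bot _).1 h4)

lemma not_isClosed_generic [IsAlgClosed k] :
    ¬ IsClosed ({genericPoint (curve k)} : Set (curve k)) := by
  intro h
  obtain ⟨z, hz⟩ := exists_ne_generic (k := k)
  have h1 : genericPoint (curve k) ⤳ z := genericPoint_specializes z
  exact hz (h1.mem_closed h rfl)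

namespace IsEnd

variable [IsAlgClosed k] {ψ : curve k ⟶ curve k} {s : FK k →+* FK k} {μ : k} (h : IsEnd ψ s μ)

include h

theorem isFinite : IsFinite ψ := by
  have hp := h.isProper
  have hq : LocallyQuasiFinite ψ := by
    rw [locallyQuasiFinite_iff_finite_preimage_singleton]
    intro z
    rcases eq_generic_or_closed z with rfl | hcl
    · apply (Set.finite_singleton (genericPoint (curve k))).subset
      intro w hw
      rcases eq_generic_or_closed w with rfl | hw2
      · rfl
      · exfalso
        have h1 := ψ.isClosedMap _ hw2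
        rw [Set.image_singleton] at h1
        have h2 : ψ w = genericPoint (curve k) := hw
        rw [h2] at h1
        exact not_isClosed_generic h1
    · apply finite_of_isClosed _ (hcl.preimage ψ.continuous)
      intro h1
      have h2 : ψ (genericPoint (curve k)) = z := h1
      rw [h.apply_generic] at h2
      rw [← h2] at hcl
      exact not_isClosed_generic hcl
  exact IsFinite.of_isProper_of_locallyQuasiFinite ψ

omit [IsAlgClosed k] in
lemma coord_toK (z : curve k) {c : Bool} {α : A k →+* (curve k).presheaf.stalk z}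
    (hα : Spec.map (CommRingCat.ofHom α) ≫ ch c = (curve k).fromSpecStalk z ≫ ψ) :
    (toK k z).comp α = s.comp (κ k c) := by
  have h1 : Spec.map (CommRingCat.ofHom ((toK k z).comp α)) ≫ ch c =
      Spec.map (CommRingCat.ofHom (s.comp (κ k c))) ≫ ch c := by
    rw [CommRingCat.ofHom_comp, Spec.map_comp, Category.assoc, hα, h.gen_coord, ← Category.assoc]
    exact congrArg (fun t => t ≫ ψ) (specMap_algebraMap_fromSpecStalk z)
  exact congrArg (fun t => t.hom) (factor_unique (ch c) h1)

/-- The pull back of the coordinate `y` has only simple zeros. -/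
theorem simple_zero (z : curve k) {c : Bool} {α : A k →+* (curve k).presheaf.stalk z}
    (hα : Spec.map (CommRingCat.ofHom α) ≫ ch c = (curve k).fromSpecStalk z ≫ ψ)
    (hy : α (y k) ∈ maximalIdeal ((curve k).presheaf.stalk z)) :
    α (y k) ∉ maximalIdeal ((curve k).presheaf.stalk z) ^ 2 := by
  intro h2
  have hc := h.coord_toK z hα
  have hc' : ∀ a, toK k z (α a) = s (κ k c a) := fun a => congrArg (fun f : A k →+* FK k => f a) hc
  obtain ⟨s', hs', he⟩ := D_stalk_sq k z _ h2
  rw [hc', h.der, D_y, map_mul, map_mul, map_intCast, map_pow, map_neg, map_ofNat, ← hc'] at he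
  have rl : α (y k) ^ 2 + α (x k) ^ 4 + 1 = 0 := by
    rw [← map_pow, ← map_pow, ← map_one α, ← map_add, ← map_add, rel, map_zero]
  have hx := isUnit_X rl hy
  obtain ⟨φ, hφ⟩ : ∃ φ : k →+* (curve k).presheaf.stalk z, ∀ r, toK k z (φ r) = cst k r := by
    refine ⟨α.comp (algebraMap k (A k)), fun r => ?_⟩
    rw [RingHom.comp_apply, hc', κ_cst, h.cst_eq]
  have h3 : s' = φ μ * (-2 * (sg c : (curve k).presheaf.stalk z) * α (x k) ^ 3) := by
    apply toK_injective k z
    rw [he, map_mul, map_mul, map_mul, map_pow, map_intCast, hφ, map_neg, map_ofNat]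
  have h4 : IsUnit s' := by
    rw [h3]
    refine IsUnit.mul ?_ (IsUnit.mul (IsUnit.mul ?_ ?_) (hx.pow 3))
    · exact (IsUnit.mk0 μ h.ne).map φ
    · have h5 : IsUnit (2 : (curve k).presheaf.stalk z) := isUnit_two_of α
      simpa using h5
    · cases c <;> simp [sg]
  exact (mem_maximalIdeal _).1 hs' h4

end IsEnd

end Pool.Agent.W513.EC
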