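import Pool.Agent.H666R3.NG.Ring

/-!
# The affine curve `y² + x⁴ + 1 = 0`
-/

set_option autoImplicit false

open Polynomial

namespace Pool.Agent.W513.EC

section basic

variable (R : Type) [CommRing R]

/-- The polynomial `y² + (x⁴ + 1)` in `R[x][y]`. -/
noncomputable def pol : R[X][X] := X ^ 2 + C (X ^ 4 + 1)

/-- The coordinate ring of the affine curve. -/
abbrev A : Type := AdjoinRoot (pol R)

/-- the coordinate function `y`. -/
noncomputable def y : A R := AdjoinRoot.root (pol R)

/-- the coordinate function `x`. -/
noncomputable def x : A R := AdjoinRoot.of (pol R) X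

lemma pol_monic : (pol R).Monic := by
  unfold pol
  monicity!

lemma eval_pol {E : Type*} [CommRing E] (g : R[X] →+* E) (b : E) :
    (pol R).eval₂ g b = b ^ 2 + (g X ^ 4 + 1) := by
  rw [pol, eval₂_add, eval₂_pow, eval₂_X, eval₂_C, map_add, map_pow, map_one]

lemma rel : y R ^ 2 + x R ^ 4 + 1 = 0 := by
  have h := AdjoinRoot.eval₂_root (pol R)
  rw [eval_pol] at h
  unfold x y
  linear_combination h

variable {R}

/-- universal property. -/
noncomputable def lift {E : Type*} [CommRing E] [Algebra R E] (a b : E) (h : b ^ 2 + a ^ 4 + 1 = 0) :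
    A R →ₐ[R] E :=
  AdjoinRoot.liftAlgHom (pol R) (Polynomial.aeval a) b (by
    rw [eval_pol]
    simp
    linear_combination h)

@[simp] lemma lift_y {E : Type*} [CommRing E] [Algebra R E] (a b : E) (h : b ^ 2 + a ^ 4 + 1 = 0) :
    lift a b h (y R) = b := by
  simp [lift, y]

@[simp] lemma lift_x {E : Type*} [CommRing E] [Algebra R E] (a b : E) (h : b ^ 2 + a ^ 4 + 1 = 0) :
    lift a b h (x R) = a := by
  simp [lift, x]

lemma ext_ring {E : Type*} [CommRing E] {f g : A R →+* E}
    (h0 : ∀ r : R, f (algebraMap R (A R) r) = g (algebraMap R (A R) r))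
    (h1 : f (x R) = g (x R)) (h2 : f (y R) = g (y R)) : f = g := by
  apply RingHom.ext
  have h3 : ∀ a : R[X], f (AdjoinRoot.of (pol R) a) = g (AdjoinRoot.of (pol R) a) := by
    intro a
    induction a using Polynomial.induction_on' with
    | add p q hp hq => simp only [map_add, hp, hq]
    | monomial m r =>
      have e : AdjoinRoot.of (pol R) (monomial m r) = algebraMap R (A R) r * x R ^ m := by
        rw [← C_mul_X_pow_eq_monomial, map_mul, map_pow]
        rfl
      rw [e, map_mul, map_mul, map_pow, map_pow, h1, h0]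
  intro z
  obtain ⟨p, rfl⟩ := AdjoinRoot.mk_surjective z
  induction p using Polynomial.induction_on' with
  | add p q hp hq => simp only [map_add, hp, hq]
  | monomial n a =>
    have e : AdjoinRoot.mk (pol R) (monomial n a) = AdjoinRoot.of (pol R) a * y R ^ n := by
      rw [← C_mul_X_pow_eq_monomial, map_mul, map_pow, AdjoinRoot.mk_X, AdjoinRoot.mk_C]
      rfl
    rw [e, map_mul, map_mul, map_pow, map_pow, h2, h3]

lemma ext_A {E : Type*} [CommRing E] [Algebra R E] {f g : A R →ₐ[R] E} (h1 : f (x R) = g (x R))
    (h2 : f (y R) = g (y R)) : f = g := by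
  have := ext_ring (f := f.toRingHom) (g := g.toRingHom) (fun r => by
    change f _ = g _
    rw [f.commutes, g.commutes]) h1 h2
  apply AlgHom.ext
  intro z
  exact congrArg (fun t : A R →+* E => t z) this

end basic

section domain

variable (K : Type) [Field K] (h2 : (2 : K) ≠ 0)

include h2

lemma pol_irreducible : Irreducible (pol K) := by
  have hdeg : (X ^ 4 + 1 : K[X]).natDegree = 4 := by compute_degree!
  have hnu : ¬ IsUnit (X ^ 4 + 1 : K[X]) := by
    intro h
    have := natDegree_eq_zero_of_isUnit h
    omega
  obtain ⟨p, hp, hpd⟩ := WfDvdMonoid.exists_irreducible_factor hnu (by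
    intro h
    rw [h] at hdeg
    simp at hdeg)
  have hpp : (Ideal.span {p} : Ideal K[X]).IsPrime := by
    rw [Ideal.span_singleton_prime hp.ne_zero]
    exact hp.prime
  have hnd : (pol K).natDegree = 2 := by
    unfold pol
    compute_degree!
  apply Polynomial.irreducible_of_eisenstein_criterion hpp
  · rw [(pol_monic K).leadingCoeff]
    intro h
    exact hpp.ne_top ((Ideal.eq_top_iff_one _).2 h)
  · intro n hn
    rw [degree_eq_natDegree (pol_monic K).ne_zero, hnd] at hn
    have hn' : n < 2 := by exact_mod_cast hn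
    unfold pol
    rw [coeff_add, coeff_X_pow, if_neg (by omega), zero_add, coeff_C]
    split_ifs
    · exact Ideal.mem_span_singleton.2 hpd
    · exact Ideal.zero_mem _
  · rw [degree_eq_natDegree (pol_monic K).ne_zero, hnd]
    norm_num
  · unfold pol
    rw [coeff_add, coeff_X_pow, if_neg (by omega), zero_add, coeff_C_zero]
    rw [Ideal.span_singleton_pow, Ideal.mem_span_singleton]
    intro h
    have hsq := (Pool.Agent.H666R3.NG.Fermat.sep K h2).squarefree
    rw [sq] at h
    exact hp.not_isUnit (hsq p h)
  · exact (pol_monic K).isPrimitive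

lemma isDomain_A : IsDomain (A K) :=
  AdjoinRoot.isDomain_of_prime (pol_irreducible K h2).prime

end domain

section ne

variable (K : Type) [Field K]

lemma natDegree_pol : (pol K).natDegree = 2 := by
  unfold pol
  compute_degree!

lemma of_injective : Function.Injective (AdjoinRoot.of (pol K)) :=
  AdjoinRoot.of.injective_of_degree_ne_zero (f := pol K) (by
    rw [Polynomial.degree_eq_natDegree (pol_monic K).ne_zero, natDegree_pol]
    norm_num)

lemma x_ne_zero : x K ≠ 0 := by
  intro h
  have h1 : AdjoinRoot.of (pol K) Polynomial.X = 0 := h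
  rw [← map_zero (AdjoinRoot.of (pol K))] at h1
  exact Polynomial.X_ne_zero (of_injective K h1)

lemma y_ne_zero : y K ≠ 0 := by
  intro h
  have h1 := rel K
  rw [h] at h1
  have h3 : AdjoinRoot.of (pol K) (Polynomial.X ^ 4 + 1) = 0 := by
    rw [map_add, map_pow, map_one]
    change x K ^ 4 + 1 = 0
    linear_combination h1
  rw [← map_zero (AdjoinRoot.of (pol K))] at h3
  have h4 := of_injective K h3
  have hdeg : (X ^ 4 + 1 : K[X]).natDegree = 4 := by compute_degree!
  rw [h4] at hdeg
  simp at hdeg

end ne

section smooth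

/-- The polynomial `x⁴ + (y² + 1)` in `R[y][x]`. -/
noncomputable def pol' (R : Type) [CommRing R] : R[X][X] := X ^ 4 + C (X ^ 2 + 1)

lemma pol'_monic (R : Type) [CommRing R] : (pol' R).Monic := by
  unfold pol'
  monicity!

lemma eval_pol' (R : Type) [CommRing R] {E : Type*} [CommRing E] (g : R[X] →+* E) (b : E) :
    (pol' R).eval₂ g b = b ^ 4 + (g X ^ 2 + 1) := by
  rw [pol', eval₂_add, eval₂_pow, eval₂_X, eval₂_C, map_add, map_pow, map_one]

/-- The same ring with the other presentation. -/
abbrev A' (R : Type) [CommRing R] : Type := AdjoinRoot (pol' R)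

/-- the coordinate function `x`. -/
noncomputable def x' (R : Type) [CommRing R] : A' R := AdjoinRoot.root (pol' R)

/-- the coordinate function `y`. -/
noncomputable def y' (R : Type) [CommRing R] : A' R := AdjoinRoot.of (pol' R) X

lemma rel' (R : Type) [CommRing R] : y' R ^ 2 + x' R ^ 4 + 1 = 0 := by
  have h := AdjoinRoot.eval₂_root (pol' R)
  rw [eval_pol'] at h
  unfold x' y'
  linear_combination h

/-- universal property. -/
noncomputable def lift' {R : Type} [CommRing R] {E : Type*} [CommRing E] [Algebra R E] (a b : E)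
    (h : b ^ 2 + a ^ 4 + 1 = 0) : A' R →ₐ[R] E :=
  AdjoinRoot.liftAlgHom (pol' R) (Polynomial.aeval b) a (by
    rw [eval_pol']
    simp
    linear_combination h)

@[simp] lemma lift'_y {R : Type} [CommRing R] {E : Type*} [CommRing E] [Algebra R E] (a b : E)
    (h : b ^ 2 + a ^ 4 + 1 = 0) : lift' a b h (y' R) = b := by
  simp [lift', y']

@[simp] lemma lift'_x {R : Type} [CommRing R] {E : Type*} [CommRing E] [Algebra R E] (a b : E)
    (h : b ^ 2 + a ^ 4 + 1 = 0) : lift' a b h (x' R) = a := by
  simp [lift', x']

lemma ext_A' {R : Type} [CommRing R] {E : Type*} [CommRing E] [Algebra R E] {f g : A' R →ₐ[R] E}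
    (h1 : f (x' R) = g (x' R)) (h2 : f (y' R) = g (y' R)) : f = g := by
  apply AlgHom.ext
  have h3 : ∀ a : R[X], f (AdjoinRoot.of (pol' R) a) = g (AdjoinRoot.of (pol' R) a) := by
    intro a
    induction a using Polynomial.induction_on' with
    | add p q hp hq => simp only [map_add, hp, hq]
    | monomial m r =>
      have e : AdjoinRoot.of (pol' R) (monomial m r) = algebraMap R (A' R) r * y' R ^ m := by
        rw [← C_mul_X_pow_eq_monomial, map_mul, map_pow]
        rfl
      rw [e, map_mul, map_mul, map_pow, map_pow, h2, AlgHom.commutes, AlgHom.commutes]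
  intro z
  obtain ⟨p, rfl⟩ := AdjoinRoot.mk_surjective z
  induction p using Polynomial.induction_on' with
  | add p q hp hq => simp only [map_add, hp, hq]
  | monomial n a =>
    have e : AdjoinRoot.mk (pol' R) (monomial n a) = AdjoinRoot.of (pol' R) a * x' R ^ n := by
      rw [← C_mul_X_pow_eq_monomial, map_mul, map_pow, AdjoinRoot.mk_X, AdjoinRoot.mk_C]
      rfl
    rw [e, map_mul, map_mul, map_pow, map_pow, h1, h3]

/-- The two presentations give the same ring. -/
noncomputable def equivA' (R : Type) [CommRing R] : A R ≃ₐ[R] A' R :=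
  AlgEquiv.ofAlgHom (lift (x' R) (y' R) (rel' R)) (lift' (x R) (y R) (rel R))
    (by apply ext_A' <;> simp) (by apply ext_A <;> simp)

variable (K : Type) [Field K] (h2 : (2 : K) ≠ 0)

/-- The standard etale pair. -/
noncomputable def etPair : StandardEtalePair K[X] where
  f := pol K
  monic_f := pol_monic K
  g := X
  cond := ⟨C (C (2 : K)⁻¹), 0, 1, by
    have e : derivative (pol K) = C (C 2) * X := by
      rw [pol, derivative_add, derivative_C, derivative_X_pow, add_zero]
      simp only [Nat.cast_ofNat, Nat.add_one_sub_one, map_ofNat, pow_one]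
    rw [e, mul_zero, add_zero, pow_one]
    calc C (C (2 : K)) * X * C (C 2⁻¹) = C (C (2 * 2⁻¹)) * X := by
          simp only [map_mul]; ring
      _ = X := by rw [mul_inv_cancel₀ h2]; simp⟩

/-- The other standard etale pair. -/
noncomputable def etPair' : StandardEtalePair K[X] where
  f := pol' K
  monic_f := pol'_monic K
  g := X
  cond := ⟨C (C (4 : K)⁻¹), 0, 3, by
    have h4 : (4 : K) ≠ 0 := by
      have : (4 : K) = 2 * 2 := by norm_num
      rw [this]
      exact mul_ne_zero h2 h2
    have e : derivative (pol' K) = C (C 4) * X ^ 3 := by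
      rw [pol', derivative_add, derivative_C, derivative_X_pow, add_zero]
      simp only [Nat.cast_ofNat, Nat.add_one_sub_one, map_ofNat]
    rw [e, mul_zero, add_zero]
    calc C (C (4 : K)) * X ^ 3 * C (C 4⁻¹) = C (C (4 * 4⁻¹)) * X ^ 3 := by
          simp only [map_mul]; ring
      _ = X ^ 3 := by rw [mul_inv_cancel₀ h4]; simp⟩

include h2

lemma smooth_away_y :
    Algebra.IsStandardSmoothOfRelativeDimension 1 K (Localization.Away (y K)) := by
  have h1 : Algebra.Etale K[X] (etPair K h2).Ring := inferInstance
  have h3 : Algebra.Etale K[X] (Localization.Away (y K)) :=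
    Algebra.Etale.of_equiv (etPair K h2).equivAwayAdjoinRoot
  have h4 : Algebra.IsStandardSmoothOfRelativeDimension 0 K[X] (Localization.Away (y K)) :=
    Algebra.Etale.iff_isStandardSmoothOfRelativeDimension_zero.1 h3
  have h5 := Pool.Agent.H666R3.NG.Fermat.smooth_poly K
  exact Algebra.IsStandardSmoothOfRelativeDimension.trans 1 0 K K[X] (Localization.Away (y K))

lemma smooth_away_x' :
    Algebra.IsStandardSmoothOfRelativeDimension 1 K (Localization.Away (x' K)) := by
  have h1 : Algebra.Etale K[X] (etPair' K h2).Ring := inferInstance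
  have h3 : Algebra.Etale K[X] (Localization.Away (x' K)) :=
    Algebra.Etale.of_equiv (etPair' K h2).equivAwayAdjoinRoot
  have h4 : Algebra.IsStandardSmoothOfRelativeDimension 0 K[X] (Localization.Away (x' K)) :=
    Algebra.Etale.iff_isStandardSmoothOfRelativeDimension_zero.1 h3
  have h5 := Pool.Agent.H666R3.NG.Fermat.smooth_poly K
  exact Algebra.IsStandardSmoothOfRelativeDimension.trans 1 0 K K[X] (Localization.Away (x' K))

omit h2 in
lemma smooth_away_equiv {B B' : Type} [CommRing B] [CommRing B'] [Algebra K B] [Algebra K B']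
    (e : B ≃ₐ[K] B') (t : B) (t' : B') (ht : e t = t')
    (h1 : Algebra.IsStandardSmoothOfRelativeDimension 1 K (Localization.Away t')) :
    Algebra.IsStandardSmoothOfRelativeDimension 1 K (Localization.Away t) := by
  have H : Submonoid.map e.symm (Submonoid.powers t') = Submonoid.powers t := by
    rw [Submonoid.map_powers, ← ht]
    simp
  exact Algebra.IsStandardSmoothOfRelativeDimension.of_algEquiv 1
    (IsLocalization.algEquivOfAlgEquiv (M := Submonoid.powers t') (T := Submonoid.powers t)
      (Localization.Away t') (Localization.Away t) e.symm H)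

lemma smooth_away_x :
    Algebra.IsStandardSmoothOfRelativeDimension 1 K (Localization.Away (x K)) :=
  smooth_away_equiv K (equivA' K) (x K) (x' K) (lift_x _ _ (rel' K)) (smooth_away_x' K h2)

end smooth

end Pool.Agent.W513.EC
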