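import Pool.Agent.W513.Trans
import Pool.Agent.W513.RingE
import Pool.Agent.H666R3.NG.Curve

/-!
# The elliptic curve `y² + x⁴ + 1 = 0` as a projective scheme
-/

set_option autoImplicit false

open MvPolynomial AlgebraicGeometry CategoryTheory Limits TopologicalSpace

namespace Pool.Agent.W513.EC

open Pool.Agent.Helper198.Sch

attribute [local instance] MvPolynomial.gradedAlgebra

section defs

variable (R : Type) [CommRing R]

/-- The form `X₀ X₂ - X₁²`. -/
noncomputable def form1 : MvPolynomial (Fin 4) R := X 0 * X 2 - X 1 ^ 2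

/-- The form `X₃² + X₀² + X₂²`. -/
noncomputable def form2 : MvPolynomial (Fin 4) R := X 3 ^ 2 + X 0 ^ 2 + X 2 ^ 2

lemma form1_hom : (form1 R).IsHomogeneous 2 := by
  unfold form1
  apply IsHomogeneous.sub
  · simpa using (isHomogeneous_X R (0 : Fin 4)).mul (isHomogeneous_X R (2 : Fin 4))
  · simpa using (isHomogeneous_X R (1 : Fin 4)).pow 2

lemma form2_hom : (form2 R).IsHomogeneous 2 := by
  unfold form2
  apply IsHomogeneous.add
  · apply IsHomogeneous.add
    · simpa using (isHomogeneous_X R (3 : Fin 4)).pow 2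
    · simpa using (isHomogeneous_X R (0 : Fin 4)).pow 2
  · simpa using (isHomogeneous_X R (2 : Fin 4)).pow 2

/-- The homogeneous ideal of the curve. -/
noncomputable def J : HI (Fin 4) R :=
  HI.ofSet {form1 R, form2 R} (by
    rintro f (rfl | rfl)
    · exact ⟨2, form1_hom R⟩
    · exact ⟨2, form2_hom R⟩)

/-- The curve `X₀ X₂ = X₁²`, `X₃² + X₀² + X₂² = 0` in projective three-space. -/
noncomputable abbrev curve : Scheme.{0} := V (J R)

variable {R}

lemma aeval_form1 {E : Type*} [CommRing E] [Algebra R E] (u : Fin 4 → E) :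
    aeval u (form1 R) = u 0 * u 2 - u 1 ^ 2 := by
  simp [form1]

lemma aeval_form2 {E : Type*} [CommRing E] [Algebra R E] (u : Fin 4 → E) :
    aeval u (form2 R) = u 3 ^ 2 + u 0 ^ 2 + u 2 ^ 2 := by
  simp [form2]

lemma aeval_J {E : Type*} [CommRing E] [Algebra R E] (u : Fin 4 → E)
    (h1 : u 0 * u 2 - u 1 ^ 2 = 0) (h2 : u 3 ^ 2 + u 0 ^ 2 + u 2 ^ 2 = 0) :
    ∀ f ∈ (J R).toIdeal, aeval u f = 0 := by
  apply aeval_ofSet
  rintro f (rfl | rfl)
  · rw [aeval_form1, h1]
  · rw [aeval_form2, h2]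

lemma frac1 (c : Fin 4) : frac (J R) c 0 * frac (J R) c 2 - frac (J R) c 1 ^ 2 = 0 := by
  rw [← aeval_form1 (R := R)]
  exact aeval_frac_eq_zero _ _ _ (mem_ofSet (Or.inl rfl))

lemma frac2 (c : Fin 4) : frac (J R) c 3 ^ 2 + frac (J R) c 0 ^ 2 + frac (J R) c 2 ^ 2 = 0 := by
  rw [← aeval_form2 (R := R)]
  exact aeval_frac_eq_zero _ _ _ (mem_ofSet (Or.inr rfl))

/-- The two charts `X₀ ≠ 0` and `X₂ ≠ 0`. -/
def cc (c : Bool) : Fin 4 := if c then 2 else 0

/-- the opposite coordinate -/
def co (c : Bool) : Fin 4 := if c then 0 else 2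

/-- the universal point. -/
noncomputable def pt (c : Bool) (i : Fin 4) : A R :=
  if i = cc c then 1 else if i = co c then x R ^ 2 else if i = 1 then x R else y R

lemma pt_cc (c : Bool) : pt (R := R) c (cc c) = 1 := by simp [pt]
lemma pt_co (c : Bool) : pt (R := R) c (co c) = x R ^ 2 := by cases c <;> simp [pt, cc, co]
lemma pt_1 (c : Bool) : pt (R := R) c 1 = x R := by cases c <;> simp [pt, cc, co]
lemma pt_3 (c : Bool) : pt (R := R) c 3 = y R := by cases c <;> simp [pt, cc, co]

lemma frac1' (d : Fin 4) (c : Bool) :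
    frac (J R) d (cc c) * frac (J R) d (co c) - frac (J R) d 1 ^ 2 = 0 := by
  have h := frac1 (R := R) d
  cases c
  · exact h
  · change frac (J R) d 2 * frac (J R) d 0 - frac (J R) d 1 ^ 2 = 0
    linear_combination h

lemma frac2' (d : Fin 4) (c : Bool) :
    frac (J R) d 3 ^ 2 + frac (J R) d (cc c) ^ 2 + frac (J R) d (co c) ^ 2 = 0 := by
  have h := frac2 (R := R) d
  cases c
  · exact h
  · change frac (J R) d 3 ^ 2 + frac (J R) d 2 ^ 2 + frac (J R) d 0 ^ 2 = 0
    linear_combination h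

lemma frac_co (c : Bool) : frac (J R) (cc c) (co c) = frac (J R) (cc c) 1 ^ 2 := by
  have h := frac1' (R := R) (cc c) c
  rw [frac_self] at h
  linear_combination h

lemma frac_rel (c : Bool) :
    frac (J R) (cc c) 3 ^ 2 + frac (J R) (cc c) 1 ^ 4 + 1 = 0 := by
  have h := frac2' (R := R) (cc c) c
  rw [frac_self, frac_co] at h
  linear_combination h

lemma pt_sat (c : Bool) : ∀ f ∈ (J R).toIdeal, aeval (pt (R := R) c) f = 0 := by
  apply aeval_J
  · cases c
    · have h0 : pt (R := R) false 0 = 1 := pt_cc false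
      have h2 : pt (R := R) false 2 = x R ^ 2 := pt_co false
      rw [h0, h2, pt_1]
      ring
    · have h0 : pt (R := R) true 2 = 1 := pt_cc true
      have h2 : pt (R := R) true 0 = x R ^ 2 := pt_co true
      rw [h0, h2, pt_1]
      ring
  · cases c
    · have h0 : pt (R := R) false 0 = 1 := pt_cc false
      have h2 : pt (R := R) false 2 = x R ^ 2 := pt_co false
      rw [h0, h2, pt_3]
      linear_combination rel R
    · have h0 : pt (R := R) true 2 = 1 := pt_cc true
      have h2 : pt (R := R) true 0 = x R ^ 2 := pt_co true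
      rw [h0, h2, pt_3]
      linear_combination rel R

lemma idx_cases (c : Bool) (i : Fin 4) : i = cc c ∨ i = co c ∨ i = 1 ∨ i = 3 := by
  revert c i; decide

/-- The chart ring is the coordinate ring of the affine curve. -/
noncomputable def chEquiv (c : Bool) : Ch (J R) (cc c) ≃ₐ[R] A R :=
  AlgEquiv.ofAlgHom (chLift (J R) (cc c) (pt c) (pt_cc c) (pt_sat c))
    (lift (frac (J R) (cc c) 1) (frac (J R) (cc c) 3) (frac_rel c))
    (by
      apply ext_A
      · simp [chLift_frac, pt_1]
      · simp [chLift_frac, pt_3])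
    (by
      apply ch_algHom_ext
      intro i
      rw [AlgHom.comp_apply, chLift_frac, AlgHom.id_apply]
      rcases idx_cases c i with rfl | rfl | rfl | rfl
      · rw [pt_cc, map_one, frac_self]
      · rw [pt_co, map_pow, lift_x, frac_co]
      · rw [pt_1, lift_x]
      · rw [pt_3, lift_y])

lemma chEquiv_1 (c : Bool) : chEquiv (R := R) c (frac (J R) (cc c) 1) = x R := by
  change chLift (J R) (cc c) (pt c) (pt_cc c) (pt_sat c) _ = _
  rw [chLift_frac, pt_1]

lemma chEquiv_3 (c : Bool) : chEquiv (R := R) c (frac (J R) (cc c) 3) = y R := by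
  change chLift (J R) (cc c) (pt c) (pt_cc c) (pt_sat c) _ = _
  rw [chLift_frac, pt_3]

lemma chEquiv_co (c : Bool) : chEquiv (R := R) c (frac (J R) (cc c) (co c)) = x R ^ 2 := by
  change chLift (J R) (cc c) (pt c) (pt_cc c) (pt_sat c) _ = _
  rw [chLift_frac, pt_co]

lemma exists_mem_cc (z : V (J R)) : ∃ c : Bool, z ∈ V.D (J R) (cc c) := by
  obtain ⟨i, hi⟩ := V.exists_mem_D (J R) z
  by_contra hcon
  push Not at hcon
  have h0 := hcon false
  have h2 := hcon true
  rw [V.mem_D_iff] at h0 h2 hi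
  simp only [not_not] at h0 h2
  have g1 : gen (J R) 1 ^ 2 = gen (J R) 0 * gen (J R) 2 := by
    have : Ideal.Quotient.mk (J R).toIdeal (form1 R) = 0 :=
      Ideal.Quotient.eq_zero_iff_mem.2 (mem_ofSet (Or.inl rfl))
    rw [form1, map_sub, map_mul, map_pow, sub_eq_zero] at this
    exact this.symm
  have g2 : gen (J R) 3 ^ 2 = -(gen (J R) 0 ^ 2 + gen (J R) 2 ^ 2) := by
    have : Ideal.Quotient.mk (J R).toIdeal (form2 R) = 0 :=
      Ideal.Quotient.eq_zero_iff_mem.2 (mem_ofSet (Or.inr rfl))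
    rw [form2, map_add, map_add, map_pow, map_pow, map_pow, add_assoc] at this
    exact eq_neg_of_add_eq_zero_left this
  let P : Ideal (MvPolynomial (Fin 4) R ⧸ (J R).toIdeal) :=
    (ProjectiveSpectrum.asHomogeneousIdeal (𝒜 := qgrad (J R).toIdeal) z).toIdeal
  have hP : P.IsPrime := ProjectiveSpectrum.isPrime (𝒜 := qgrad (J R).toIdeal) z
  have h0' : gen (J R) 0 ∈ P := h0
  have h2' : gen (J R) 2 ∈ P := h2
  have h1' : gen (J R) 1 ∈ P := hP.mem_of_pow_mem 2 (by rw [g1]; exact P.mul_mem_left _ h2')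
  have h3' : gen (J R) 3 ∈ P := hP.mem_of_pow_mem 2 (by
    rw [g2]
    exact P.neg_mem (P.add_mem (P.pow_mem_of_mem h0' 2 two_pos) (P.pow_mem_of_mem h2' 2 two_pos)))
  apply hi
  fin_cases i
  · exact h0'
  · exact h1'
  · exact h2'
  · exact h3'

end defs

section charts

variable {R : Type} [CommRing R]

/-- The chart `Spec A → E`. -/
noncomputable def ch (c : Bool) : Spec (.of (A R)) ⟶ curve R :=
  Spec.map (CommRingCat.ofHom (chEquiv (R := R) c).toRingEquiv.toRingHom) ≫ V.chart (J R) (cc c)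

instance isIso_chEquiv (c : Bool) :
    IsIso (Spec.map (CommRingCat.ofHom (chEquiv (R := R) c).toRingEquiv.toRingHom)) := by
  have : IsIso (CommRingCat.ofHom (chEquiv (R := R) c).toRingEquiv.toRingHom) :=
    (RingEquiv.toCommRingCatIso (chEquiv (R := R) c).toRingEquiv).isIso_hom
  infer_instance

instance isOpenImmersion_ch (c : Bool) : IsOpenImmersion (ch (R := R) c) := by
  unfold ch
  infer_instance

lemma ch_str (c : Bool) :
    ch (R := R) c ≫ V.str (J R) = Spec.map (CommRingCat.ofHom (algebraMap R (A R))) := by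
  rw [ch, Category.assoc, V.chart_str, ← Spec.map_comp, ← CommRingCat.ofHom_comp]
  congr 2
  ext r
  exact (chEquiv (R := R) c).commutes r

lemma range_ch (c : Bool) : Set.range (ch (R := R) c) = Set.range (V.chart (J R) (cc c)) := by
  unfold ch
  ext z
  constructor
  · rintro ⟨w, rfl⟩
    exact ⟨_, rfl⟩
  · rintro ⟨w, rfl⟩
    obtain ⟨v, rfl⟩ := (Spec.map (CommRingCat.ofHom
      (chEquiv (R := R) c).toRingEquiv.toRingHom)).homeomorph.surjective w
    exact ⟨v, rfl⟩

lemma exists_mem_range_ch (z : curve R) : ∃ c : Bool, z ∈ Set.range (ch (R := R) c) := by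
  obtain ⟨c, hc⟩ := exists_mem_cc z
  refine ⟨c, ?_⟩
  rw [range_ch, V.mem_range_chart]
  exact hc

/-- Transition between the charts. -/
lemma ch_rel {B : Type} [CommRing B] {c : Bool} {f g : A R →+* B}
    (h : Spec.map (CommRingCat.ofHom f) ≫ ch c = Spec.map (CommRingCat.ofHom g) ≫ ch (!c)) :
    f (x R) * g (x R) = 1 ∧ g (y R) = f (y R) * g (x R) ^ 2 := by
  have h' : Spec.map (CommRingCat.ofHom (f.comp (chEquiv (R := R) c).toRingEquiv.toRingHom)) ≫
      V.chart (J R) (cc c) =
      Spec.map (CommRingCat.ofHom (g.comp (chEquiv (R := R) (!c)).toRingEquiv.toRingHom)) ≫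
      V.chart (J R) (cc (!c)) := by
    rw [CommRingCat.ofHom_comp, CommRingCat.ofHom_comp, Spec.map_comp, Spec.map_comp,
      Category.assoc, Category.assoc]
    exact h
  have e1 := chart_eq_rel (J R) _ _ _ _ h' 1
  have e2 := chart_eq_rel (J R) _ _ _ _ h' (cc (!c))
  have e3 := chart_eq_rel (J R) _ _ _ _ h' 3
  rw [frac_self, map_one] at e2
  have k1 : ∀ (c : Bool) (f : A R →+* B), (f.comp (chEquiv (R := R) c).toRingEquiv.toRingHom)
      (frac (J R) (cc c) 1) = f (x R) := fun c f => congrArg f (chEquiv_1 c)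
  have k3 : ∀ (c : Bool) (f : A R →+* B), (f.comp (chEquiv (R := R) c).toRingEquiv.toRingHom)
      (frac (J R) (cc c) 3) = f (y R) := fun c f => congrArg f (chEquiv_3 c)
  have k2 : ∀ (c : Bool) (f : A R →+* B), (f.comp (chEquiv (R := R) c).toRingEquiv.toRingHom)
      (frac (J R) (cc c) (cc (!c))) = f (x R) ^ 2 := fun c f => by
    rw [← map_pow]
    exact congrArg f (by cases c <;> exact chEquiv_co _)
  have k4 : (g.comp (chEquiv (R := R) (!c)).toRingEquiv.toRingHom)
      (frac (J R) (cc (!c)) (cc c)) = g (x R) ^ 2 := by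
    rw [← map_pow]
    exact congrArg g (by cases c <;> exact chEquiv_co _)
  rw [k1, k4, k1] at e1
  rw [k2, k4] at e2
  rw [k3, k4, k3] at e3
  refine ⟨?_, e3.symm⟩
  linear_combination e2 - f (x R) * e1

/-- Transition between the charts, converse. -/
lemma ch_eq {B : Type} [CommRing B] {c : Bool} {f g : A R →+* B}
    (h0 : ∀ r, f (algebraMap R (A R) r) = g (algebraMap R (A R) r))
    (h1 : f (x R) * g (x R) = 1) (h2 : g (y R) = f (y R) * g (x R) ^ 2) :
    Spec.map (CommRingCat.ofHom f) ≫ ch c = Spec.map (CommRingCat.ofHom g) ≫ ch (!c) := by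
  have hu : IsUnit ((f.comp (chEquiv (R := R) c).toRingEquiv.toRingHom)
      (frac (J R) (cc c) (cc (!c)))) := by
    have h3 : (f.comp (chEquiv (R := R) c).toRingEquiv.toRingHom)
      (frac (J R) (cc c) (cc (!c))) = f (x R) ^ 2 := by
      rw [← map_pow]
      exact congrArg f (by cases c <;> exact chEquiv_co _)
    rw [h3]
    exact (IsUnit.of_mul_eq_one _ h1).pow 2
  obtain ⟨g', hg'⟩ := exists_other_chart (J R) _ _ _ hu
  let g'' : A R →+* B := g'.comp (chEquiv (R := R) (!c)).symm.toRingEquiv.toRingHom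
  have h4 : Spec.map (CommRingCat.ofHom f) ≫ ch c = Spec.map (CommRingCat.ofHom g'') ≫ ch (!c) := by
    have h5 : Spec.map (CommRingCat.ofHom g') = Spec.map (CommRingCat.ofHom g'') ≫
        Spec.map (CommRingCat.ofHom (chEquiv (R := R) (!c)).toRingEquiv.toRingHom) := by
      rw [← Spec.map_comp, ← CommRingCat.ofHom_comp]
      congr 2
      ext z
      exact congrArg g' ((chEquiv (R := R) (!c)).symm_apply_apply z).symm
    rw [h5, CommRingCat.ofHom_comp, Spec.map_comp, Category.assoc, Category.assoc] at hg'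
    exact hg'
  obtain ⟨h6, h7⟩ := ch_rel h4
  have hx : g'' (x R) = g (x R) := by
    calc g'' (x R) = f (x R) * g (x R) * g'' (x R) := by rw [h1, one_mul]
      _ = f (x R) * g'' (x R) * g (x R) := by ring
      _ = g (x R) := by rw [h6, one_mul]
  have h8 : g'' = g := by
    apply ext_ring _ hx
    · rw [h7, h2, hx]
    · intro r
      rw [← h0]
      have h9 := congrArg (fun t => t ≫ V.str (J R)) h4
      simp only [Category.assoc, ch_str, ← Spec.map_comp, ← CommRingCat.ofHom_comp] at h9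
      have h10 := Spec.map_injective h9
      exact (congrArg (fun t => t.hom r) h10).symm
  rw [h4, h8]

end charts

end Pool.Agent.W513.EC
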