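import Pool.Agent.W513.SchE
import Pool.Agent.W513.Loc

/-!
# The elliptic curve is smooth, proper and integral
-/

set_option autoImplicit false

open MvPolynomial AlgebraicGeometry CategoryTheory Limits TopologicalSpace

namespace Pool.Agent.W513.EC

open Pool.Agent.Helper198.Sch

attribute [local instance] MvPolynomial.gradedAlgebra

section smooth

variable (K : Type) [Field K] (h2 : (2 : K) ≠ 0)

include h2

set_option backward.isDefEq.respectTransparency.types false in
lemma smooth_curve : SmoothOfRelativeDimension 1 (V.str (J K)) := by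
  apply IsZariskiLocalAtSource.of_openCover
    (V.coverOf (J K) cc exists_mem_cc).openCover
  intro (c : Bool)
  change SmoothOfRelativeDimension 1 (V.chart (J K) (cc c) ≫ V.str (J K))
  rw [V.chart_str, HasRingHomProperty.Spec_iff (P := @SmoothOfRelativeDimension 1)]
  refine ⟨{frac (J K) (cc c) 1, frac (J K) (cc c) 3}, ?_, ?_⟩
  · rw [Ideal.eq_top_iff_one]
    have h := frac_rel (R := K) c
    have h1 : (1 : Ch (J K) (cc c)) = (-frac (J K) (cc c) 1 ^ 3) * frac (J K) (cc c) 1 +
      (-frac (J K) (cc c) 3) * frac (J K) (cc c) 3 := by linear_combination h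
    rw [h1]
    exact Ideal.add_mem _ (Ideal.mul_mem_left _ _ (Ideal.subset_span (by simp)))
      (Ideal.mul_mem_left _ _ (Ideal.subset_span (by simp)))
  · rintro s (rfl | hs)
    · have h3 := smooth_away_equiv K (chEquiv c) (frac (J K) (cc c) 1) _ (chEquiv_1 c)
        (smooth_away_x K h2)
      have := (RingHom.isStandardSmoothOfRelativeDimension_algebraMap 1).2 h3
      rw [IsScalarTower.algebraMap_eq K (Ch (J K) (cc c))] at this
      exact this
    · rw [Set.mem_singleton_iff] at hs
      subst hs
      have h3 := smooth_away_equiv K (chEquiv c) (frac (J K) (cc c) 3) _ (chEquiv_3 c)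
        (smooth_away_y K h2)
      have := (RingHom.isStandardSmoothOfRelativeDimension_algebraMap 1).2 h3
      rw [IsScalarTower.algebraMap_eq K (Ch (J K) (cc c))] at this
      exact this

lemma isDomain_Ch (c : Bool) : IsDomain (Ch (J K) (cc c)) := by
  have hd := isDomain_A K h2
  exact (chEquiv (R := K) c).toMulEquiv.isDomain _

lemma frac_ne_zero (c c' : Bool) : frac (J K) (cc c) (cc c') ≠ 0 := by
  have hd := isDomain_A K h2
  intro h
  have h1 := congrArg (chEquiv (R := K) c) h
  rw [map_zero] at h1
  by_cases hc : c' = c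
  · subst hc
    rw [frac_self, map_one] at h1
    exact one_ne_zero h1
  · have h3 : cc c' = co c := by
      revert hc
      cases c <;> cases c' <;> simp [cc, co]
    rw [h3, chEquiv_co] at h1
    exact pow_ne_zero 2 (x_ne_zero K) h1

theorem isIntegral_curve : IsIntegral (curve K) := by
  have hd := isDomain_Ch K h2 false
  let x0 : Spec (.of (Ch (J K) (cc false))) := (⟨⊥, Ideal.isPrime_bot⟩ : PrimeSpectrum _)
  refine V.isIntegral_of_charts (J K) (ι := Bool) cc exists_mem_cc (isDomain_Ch K h2)
    (V.chart (J K) (cc false) x0) (fun t => ?_)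
  rw [V.chart_mem_D]
  intro h
  exact frac_ne_zero K h2 false t ((Submodule.mem_bot _).1 h)

end smooth

section proper

variable (R : Type) [CommRing R]

lemma surj_zero {n : ℕ} (I : HI (Fin n) R) :
    Function.Surjective (algebraMap R (qgrad I.toIdeal 0)) := by
  rintro ⟨z, hz⟩
  obtain ⟨f, hf, rfl⟩ := mem_qgrad.1 hz
  refine ⟨f.coeff 0, ?_⟩
  apply Subtype.ext
  change Ideal.Quotient.mk _ (C (f.coeff 0)) = Ideal.Quotient.mk _ f
  congr 1
  have := MvPolynomial.totalDegree_eq_zero_iff_eq_C.1 (by
    have h1 := (mem_homogeneousSubmodule _ _).1 hf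
    exact Nat.le_zero.1 h1.totalDegree_le)
  exact this.symm

instance isProper_V {n : ℕ} (I : HI (Fin n) R) : IsProper (V.str I) := by
  have h0 : IsScalarTower R (qgrad I.toIdeal 0) (MvPolynomial (Fin n) R ⧸ I.toIdeal) :=
    IsScalarTower.of_algebraMap_eq (R := R) (S := qgrad I.toIdeal 0)
      (A := MvPolynomial (Fin n) R ⧸ I.toIdeal) (fun r => by rfl)
  have h1 : Algebra.FiniteType (qgrad I.toIdeal 0) (MvPolynomial (Fin n) R ⧸ I.toIdeal) :=
    Algebra.FiniteType.of_restrictScalars_finiteType R _ _
  have h2 : IsProper (Proj.toSpecZero (qgrad I.toIdeal)) := inferInstance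
  have h3 : IsClosedImmersion
      (Spec.map (CommRingCat.ofHom (algebraMap R (qgrad I.toIdeal 0)))) :=
    IsClosedImmersion.spec_of_surjective _ (surj_zero R I)
  have h4 : IsProper
      (Spec.map (CommRingCat.ofHom (algebraMap R (qgrad I.toIdeal 0)))) := inferInstance
  exact MorphismProperty.comp_mem @IsProper _ _ h2 h4

end proper

end Pool.Agent.W513.EC
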