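import Pool.Agent.W513.ConE
import Pool.Agent.W513.ProdE
import Pool.Agent.W513.PtC

/-!
# The local ring of the product surface at the base point
-/

set_option autoImplicit false

open CategoryTheory Limits AlgebraicGeometry IsLocalRing TopologicalSpace

namespace Pool.Agent.W513

open Pool.Agent.Helper198.Sch
open Pool.Agent.H666R3.NG

attribute [local instance] MvPolynomial.gradedAlgebra

lemma ord_eq_one {R : Type} [CommRing R] [IsLocalRing R] {v : R}
    (h : maximalIdeal R = Ideal.span {v}) : Ring.ord R v = 1 := by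
  unfold Ring.ord
  rw [← h, Module.length_eq_one_iff, isSimpleModule_iff_quot_maximal]
  exact ⟨maximalIdeal R, inferInstance, ⟨LinearEquiv.refl R _⟩⟩

lemma ord_unit {R : Type} [CommRing R] {u : R} (h : IsUnit u) : Ring.ord R u = 0 := by
  rw [ord_congr (b := 1) (by rw [Ideal.span_singleton_eq_top.2 h, Ideal.span_singleton_one]),
    Ring.ord_one]

variable {k : Type} [Field k] [CharZero k] [IsAlgClosed k]

namespace EC

omit [CharZero k] in
lemma x_sub_ne_zero (a : k) : x k - algebraMap k (A k) a ≠ 0 := by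
  intro hcon
  obtain ⟨b', hb'⟩ := IsAlgClosed.exists_pow_nat_eq (-(a + 1) ^ 4 - 1 : k) (n := 2) two_pos
  have hb : b' ^ 2 + (a + 1) ^ 4 + 1 = 0 := by rw [hb']; ring
  have h1 := congrArg (lift (a + 1) b' hb : A k →ₐ[k] k) hcon
  rw [map_sub, map_zero, lift_x, AlgHom.commutes] at h1
  have h2 : (1 : k) = 0 := by
    have h3 : a + 1 - a = 0 := h1
    linear_combination h3
  exact one_ne_zero h2

namespace IsEnd

variable {ψ : EC.curve k ⟶ EC.curve k} {s : EC.FK k →+* EC.FK k} {μ : k} (h : EC.IsEnd ψ s μ)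
  [IsIntegral (cr ψ)] (j : cr ψ ⟶ YY k)
  (hj1 : j ≫ pr1 k = pullback.fst (FQ.f k) ψ) (hj2 : j ≫ pr2 k = pullback.snd (FQ.f k) ψ)

include h hj1 hj2

theorem special {a b : k} (hab : a ^ 4 + b ^ 4 + 1 = 0) (hb : b ≠ 0) (q : Spec (.of k) ⟶ cr ψ)
    (hq : q ≫ pullback.fst (FQ.f k) ψ = FQ.fpt false a b hab) (z0 : cr ψ)
    (hz0 : q (closedPoint k) = z0) :
    ∃ (α1 α2 : CommRingCat.of (EC.A k) ⟶ (YY k).presheaf.stalk (j z0))
      (v : (YY k).presheaf.stalk (j z0)), Al ψ false α1 α2 ∧ IsUnit (α1.hom (EC.y k)) ∧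
      maximalIdeal ((YY k).presheaf.stalk (j z0)) =
        Ideal.span {v, α1.hom (EC.x k) - α2.hom (EC.x k)} ∧
      maximalIdeal ((cr ψ).presheaf.stalk z0) = Ideal.span {(j.stalkMap z0).hom v} ∧
      (j.stalkMap z0).hom v ≠ 0 := by
  have hci := isClosedImmersion_j h.str j hj1 hj2
  have hab' : (b ^ 2) ^ 2 + a ^ 4 + 1 = 0 := by linear_combination hab
  -- the points
  have hf1 : pullback.fst (FQ.f k) ψ z0 = FQ.fpt false a b hab (closedPoint k) := by
    rw [← hz0]
    exact congrArg (fun t : Spec (.of k) ⟶ FQ.crv k => t (closedPoint k)) hq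
  have hp1 : pr1 k (j z0) = FQ.fpt false a b hab (closedPoint k) := by
    rw [← hf1]
    exact congrArg (fun t : cr ψ ⟶ FQ.crv k => t z0) hj1
  have hψ : ψ (pullback.snd (FQ.f k) ψ z0) = EC.kpt false a (b ^ 2) hab' (closedPoint k) := by
    have e1 : ψ (pullback.snd (FQ.f k) ψ z0) = FQ.f k (pullback.fst (FQ.f k) ψ z0) :=
      congrArg (fun t : cr ψ ⟶ EC.curve k => t z0) pullback.condition.symm
    rw [e1, hf1]
    exact congrArg (fun t : Spec (.of k) ⟶ EC.curve k => t (closedPoint k))
      (FQ.fpt_f false a b hab hab')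
  have hmem : ψ (pullback.snd (FQ.f k) ψ z0) ∈ Set.range (EC.ch (R := k) false) := by
    rw [hψ]
    exact ⟨_, rfl⟩
  obtain ⟨α1, α2, hα⟩ := exists_Al_z j hj1 hj2 z0 false hmem
  -- the maps of the coordinate rings to local rings
  obtain ⟨α, hαc⟩ := exists_toStk (FQ.ch (R := k) false) (pr1 k (j z0)) (by
    rw [hp1]
    exact ⟨_, rfl⟩)
  have hp2 : ψ (pr2 k (j z0)) = EC.kpt false a (b ^ 2) hab' (closedPoint k) :=
    (pr2_j j hj2 z0).trans hψ
  obtain ⟨γ, hγ⟩ := exists_factor (EC.ch (R := k) false) ((EC.curve k).presheaf.stalk (pr2 k (j z0)))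
    ((EC.curve k).fromSpecStalk (pr2 k (j z0)) ≫ ψ) (by
      have e5 : (EC.curve k).fromSpecStalk (pr2 k (j z0))
        (closedPoint ((EC.curve k).presheaf.stalk (pr2 k (j z0)))) = pr2 k (j z0) :=
        Scheme.fromSpecStalk_closedPoint
      have e6 := congrArg (fun t => ψ t) e5
      have e7 : ((EC.curve k).fromSpecStalk (pr2 k (j z0)) ≫ ψ)
        (closedPoint ((EC.curve k).presheaf.stalk (pr2 k (j z0)))) = ψ (pr2 k (j z0)) := e6
      rw [e7, hp2]
      exact ⟨_, rfl⟩)
  have hα1 : α1 = (CommRingCat.ofHom (FQ.fr k).toRingHom ≫ α) ≫ (pr1 k).stalkMap (j z0) := by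
    apply factor_unique (EC.ch false)
    rw [hα.1, Spec.map_comp, Spec.map_comp, Category.assoc, Category.assoc, ← FQ.ch_f,
      ← Category.assoc (Spec.map α), hαc, Scheme.SpecMap_stalkMap_fromSpecStalk_assoc]
  have hα2 : α2 = γ ≫ (pr2 k).stalkMap (j z0) := by
    apply factor_unique (EC.ch false)
    rw [hα.2, Spec.map_comp, Category.assoc, hγ, Scheme.SpecMap_stalkMap_fromSpecStalk_assoc]
  -- the kernel of the evaluation
  have hcomap : ∀ (R : CommRingCat.{0}) [IsLocalRing R] (f : CommRingCat.of (EC.A k) ⟶ R),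
      EC.ch false (Spec.map f (closedPoint R)) = EC.kpt false a (b ^ 2) hab' (closedPoint k) →
      (maximalIdeal R).comap f.hom = RingHom.ker (lift a (b ^ 2) hab' : A k →ₐ[k] k) := by
    intro R _ f hf
    have h2 : EC.ch false (Spec.map f (closedPoint R)) =
        EC.ch false (Spec.map (CommRingCat.ofHom
          (lift a (b ^ 2) hab' : A k →ₐ[k] k).toRingHom) (closedPoint k)) := hf
    have h3 := (EC.ch (R := k) false).isOpenEmbedding.injective h2
    have h4 := congrArg PrimeSpectrum.asIdeal h3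
    refine Eq.trans h4 ?_
    change Ideal.comap (lift a (b ^ 2) hab' : A k →ₐ[k] k).toRingHom (maximalIdeal k) = _
    rw [maximalIdeal_eq_bot]
    rfl
  have hc1 := hcomap _ α1 (by
    have e5 : (YY k).fromSpecStalk (j z0) (closedPoint ((YY k).presheaf.stalk (j z0))) = j z0 :=
      Scheme.fromSpecStalk_closedPoint
    have e6 := congrArg (fun t : Spec ((YY k).presheaf.stalk (j z0)) ⟶ EC.curve k =>
      t (closedPoint ((YY k).presheaf.stalk (j z0)))) hα.1
    exact e6.trans ((congrArg (fun t => FQ.f k (pr1 k t)) e5).trans ((pr1_j j hj1 z0).trans hψ)))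
  have hc2 := hcomap _ γ (by
    have e5 : (EC.curve k).fromSpecStalk (pr2 k (j z0))
      (closedPoint ((EC.curve k).presheaf.stalk (pr2 k (j z0)))) = pr2 k (j z0) :=
      Scheme.fromSpecStalk_closedPoint
    have e6 := congrArg (fun t : Spec ((EC.curve k).presheaf.stalk (pr2 k (j z0))) ⟶ EC.curve k =>
      t (closedPoint ((EC.curve k).presheaf.stalk (pr2 k (j z0))))) hγ
    exact e6.trans ((congrArg (fun t => ψ t) e5).trans hp2))
  have hu : IsUnit (α1.hom (EC.y k)) := by
    by_contra hcon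
    have h1 : EC.y k ∈ (maximalIdeal _).comap α1.hom := (mem_maximalIdeal _).2 hcon
    rw [hc1, RingHom.mem_ker] at h1
    have h2 : (lift a (b ^ 2) hab' : A k →ₐ[k] k) (EC.y k) = 0 := h1
    rw [lift_y] at h2
    exact hb (pow_eq_zero_iff two_ne_zero |>.1 h2)
  have hx2 : γ.hom (EC.x k) - γ.hom (algebraMap k (A k) a) ∈
      maximalIdeal ((EC.curve k).presheaf.stalk (pr2 k (j z0))) := by
    rw [← map_sub, ← Ideal.mem_comap, hc2, RingHom.mem_ker]
    change (lift a (b ^ 2) hab' : A k →ₐ[k] k) _ = 0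
    rw [map_sub, lift_x, AlgHom.commutes]
    exact sub_self _
  -- the local parameter on the elliptic curve
  have hval := EC.valuationRing_stalk (pr2 k (j z0))
  obtain ⟨t, ht⟩ : ∃ t, maximalIdeal ((EC.curve k).presheaf.stalk (pr2 k (j z0))) =
      Ideal.span {t} := by
    have h1 : (maximalIdeal ((EC.curve k).presheaf.stalk (pr2 k (j z0)))).IsPrincipal :=
      ((tfae_of_isNoetherianRing_of_isLocalRing_of_isDomain
        ((EC.curve k).presheaf.stalk (pr2 k (j z0)))).out 4 1).2 hval
    exact ⟨_, (Ideal.span_singleton_generator _).symm⟩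
  have hv2 : α2.hom (EC.x k) - α2.hom (algebraMap k (A k) a) ∈
      Ideal.span {((pr2 k).stalkMap (j z0)).hom t} := by
    rw [ht, Ideal.mem_span_singleton'] at hx2
    obtain ⟨r, hr⟩ := hx2
    rw [Ideal.mem_span_singleton']
    refine ⟨((pr2 k).stalkMap (j z0)).hom r, ?_⟩
    rw [← map_mul, hr, hα2, map_sub]
    rfl
  have hcst := alpha_const h.str α1 α2 hα.1 hα.2 a
  have hmC := FQ.maximalIdeal_crv hab hb (pr1 k (j z0)) hp1.symm α hαc
  have hprod := maximalIdeal_prod (V.str (Fermat.J k)) (V.str (EC.J k)) (q ≫ j) (by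
    rw [Category.assoc]
    change q ≫ j ≫ pr1 k ≫ _ = _
    rw [← Category.assoc j, hj1, ← Category.assoc, hq, FQ.fpt_str]) (j z0) (by
      rw [← hz0]
      rfl)
  have hmax : maximalIdeal ((YY k).presheaf.stalk (j z0)) =
      Ideal.span {((pr2 k).stalkMap (j z0)).hom t, α1.hom (EC.x k) - α2.hom (EC.x k)} := by
    have hx1 : ((pr1 k).stalkMap (j z0)).hom (α.hom (Fermat.x k) -
        α.hom (algebraMap k (Fermat.A k) a)) = α1.hom (EC.x k) - α1.hom (algebraMap k (A k) a) := by
      rw [hα1, map_sub]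
      change _ = ((pr1 k).stalkMap (j z0)).hom (α.hom (FQ.fr k (EC.x k))) -
        ((pr1 k).stalkMap (j z0)).hom (α.hom (FQ.fr k (algebraMap k (A k) a)))
      rw [FQ.fr_x, AlgHom.commutes]
    apply le_antisymm
    · have hprod' : maximalIdeal ((YY k).presheaf.stalk (j z0)) ≤
          Ideal.map ((pr1 k).stalkMap (j z0)).hom (maximalIdeal ((FQ.crv k).presheaf.stalk
            (pr1 k (j z0)))) ⊔ Ideal.map ((pr2 k).stalkMap (j z0)).hom
            (maximalIdeal ((EC.curve k).presheaf.stalk (pr2 k (j z0)))) := hprod.le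
      refine hprod'.trans (sup_le ?_ ?_)
      · rw [hmC, Ideal.map_span, Set.image_singleton, hx1, Ideal.span_singleton_le_iff_mem]
        have e8 : α1.hom (EC.x k) - α1.hom (algebraMap k (A k) a) =
            (α1.hom (EC.x k) - α2.hom (EC.x k)) +
              (α2.hom (EC.x k) - α2.hom (algebraMap k (A k) a)) := by
          rw [hcst]
          ring
        rw [e8]
        refine Ideal.add_mem _ (Ideal.subset_span (Or.inr rfl)) ?_
        exact Ideal.span_mono (by simp) hv2
      · rw [ht, Ideal.map_span, Set.image_singleton]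
        exact Ideal.span_mono (by simp)
    · rw [Ideal.span_le]
      rintro _ (rfl | rfl)
      · have hprod' : Ideal.map ((pr1 k).stalkMap (j z0)).hom (maximalIdeal ((FQ.crv k).presheaf.stalk
            (pr1 k (j z0)))) ⊔ Ideal.map ((pr2 k).stalkMap (j z0)).hom
            (maximalIdeal ((EC.curve k).presheaf.stalk (pr2 k (j z0)))) ≤
            maximalIdeal ((YY k).presheaf.stalk (j z0)) := hprod.ge
        apply hprod'
        apply Ideal.mem_sup_right
        apply Ideal.mem_map_of_mem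
        rw [ht]
        exact Ideal.mem_span_singleton_self t
      · exact sub_mem_max j hj1 hj2 z0 hα _
  have e0 := stalk_j j hj1 hj2 z0 α1 α2 hα.1 hα.2
  have e1 : ∀ p, (j.stalkMap z0).hom (α1.hom p) = (j.stalkMap z0).hom (α2.hom p) := fun p =>
    congrArg (fun f => f.hom p) e0
  refine ⟨α1, α2, ((pr2 k).stalkMap (j z0)).hom t, hα, hu, hmax, ?_, ?_⟩
  · apply le_antisymm
    · intro z hz
      obtain ⟨w, rfl⟩ := j.stalkMap_surjective z0 z
      have hw : w ∈ maximalIdeal ((YY k).presheaf.stalk (j z0)) := by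
        rw [mem_maximalIdeal, mem_nonunits_iff]
        intro hcon
        exact (mem_maximalIdeal _).1 hz (hcon.map (j.stalkMap z0).hom)
      rw [hmax] at hw
      obtain ⟨c1, c2, hc⟩ := Ideal.mem_span_pair.1 hw
      rw [← hc, map_add, map_mul, map_mul, map_sub, e1, sub_self, mul_zero, add_zero]
      exact Ideal.mul_mem_left _ _ (Ideal.mem_span_singleton_self _)
    · rw [Ideal.span_singleton_le_iff_mem, mem_maximalIdeal, mem_nonunits_iff]
      intro hcon
      have h1 := isUnit_of_map_unit (j.stalkMap z0).hom _ hcon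
      have h2 : ((pr2 k).stalkMap (j z0)).hom t ∈ maximalIdeal ((YY k).presheaf.stalk (j z0)) := by
        rw [hmax]
        exact Ideal.subset_span (Or.inl rfl)
      exact (mem_maximalIdeal _).1 h2 h1
  · intro hcon
    have h1 := (h.inj_al j hj1 hj2 z0 hα (EC.x k - algebraMap k (A k) a) (x_sub_ne_zero a)).2
    apply h1
    obtain ⟨r, hr⟩ := Ideal.mem_span_singleton'.1 hv2
    rw [map_sub, ← hr, map_mul, hcon, mul_zero]

end IsEnd

end EC

end Pool.Agent.W513
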