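import Pool.Agent.W513.SchE2

/-!
# The local rings of the elliptic curve
-/

set_option autoImplicit false

open AlgebraicGeometry CategoryTheory Limits IsLocalRing

namespace Pool.Agent.W513.EC

open Pool.Agent.Helper198.Sch

attribute [local instance] MvPolynomial.gradedAlgebra

section kerev

variable {k : Type} [Field k] (a b : k) (h : b ^ 2 + a ^ 4 + 1 = 0)

lemma mem_of_ev_eq_zero (I : Ideal (A k)) (hx : x k - algebraMap k (A k) a ∈ I)
    (hy : y k - algebraMap k (A k) b ∈ I) (z : A k) (hz : (lift a b h : A k →ₐ[k] k) z = 0) :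
    z ∈ I := by
  have gx : Ideal.Quotient.mkₐ k I (x k) = Ideal.Quotient.mkₐ k I (algebraMap k (A k) a) := by
    rw [← sub_eq_zero, ← map_sub]
    exact Ideal.Quotient.eq_zero_iff_mem.2 hx
  have gy : Ideal.Quotient.mkₐ k I (y k) = Ideal.Quotient.mkₐ k I (algebraMap k (A k) b) := by
    rw [← sub_eq_zero, ← map_sub]
    exact Ideal.Quotient.eq_zero_iff_mem.2 hy
  have h1 : (Algebra.ofId k (A k ⧸ I)).comp (lift a b h : A k →ₐ[k] k) =
      Ideal.Quotient.mkₐ k I := by
    apply ext_A
    · rw [AlgHom.comp_apply, lift_x, gx, AlgHom.commutes]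
      rfl
    · rw [AlgHom.comp_apply, lift_y, gy, AlgHom.commutes]
      rfl
  have h2 := congrArg (fun f : A k →ₐ[k] (A k ⧸ I) => f z) h1
  simp only [AlgHom.comp_apply, hz, map_zero] at h2
  exact Ideal.Quotient.eq_zero_iff_mem.1 h2.symm

lemma ker_lift : RingHom.ker (lift a b h : A k →ₐ[k] k) =
    Ideal.span {x k - algebraMap k (A k) a, y k - algebraMap k (A k) b} := by
  apply le_antisymm
  · intro z hz
    exact mem_of_ev_eq_zero a b h _ (Ideal.subset_span (Set.mem_insert _ _))
      (Ideal.subset_span (Set.mem_insert_of_mem _ (Set.mem_singleton _))) z hz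
  · rw [Ideal.span_le]
    rintro _ (rfl | rfl)
    · change (lift a b h : A k →ₐ[k] k) _ = 0
      rw [map_sub, lift_x, AlgHom.commutes]
      exact sub_self _
    · change (lift a b h : A k →ₐ[k] k) _ = 0
      rw [map_sub, lift_y, AlgHom.commutes]
      exact sub_self _

end kerev

variable {k : Type} [Field k] [CharZero k]

instance isIntegral_inst : IsIntegral (curve k) := isIntegral_curve k two_ne_zero

instance isDomain_inst : IsDomain (A k) := isDomain_A k two_ne_zero

instance smooth_inst : SmoothOfRelativeDimension 1 (V.str (J k)) := smooth_curve k two_ne_zero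

instance locNoeth_inst : IsLocallyNoetherian (curve k) :=
  LocallyOfFiniteType.isLocallyNoetherian (V.str (J k))

instance : (curve k).IsSeparated := by
  have h : IsSeparated (V.str (J k)) := inferInstance
  have h2 : IsSeparated (terminal.from (Spec (.of k))) := inferInstance
  refine ⟨?_⟩
  rw [← terminal.comp_from (V.str (J k))]
  infer_instance

section loc

variable {S : Type*} [CommRing S] [IsLocalRing S] (φ : A k →+* S)

omit [IsLocalRing S] in
include φ in
lemma isUnit_two_of : IsUnit (2 : S) := by
  have h : (2 : S) = φ (algebraMap k (A k) 2) := by rw [map_ofNat, map_ofNat]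
  rw [h]
  exact ((IsUnit.mk0 (2 : k) two_ne_zero).map (algebraMap k (A k))).map φ

/-- The ideal generated by the maximal ideal of a point is principal. -/
lemma map_ker_eq (a b : k) (h : b ^ 2 + a ^ 4 + 1 = 0)
    (hφ : RingHom.ker (lift a b h : A k →ₐ[k] k) ≤ (maximalIdeal S).comap φ) :
    (b ≠ 0 → (RingHom.ker (lift a b h : A k →ₐ[k] k)).map φ =
      Ideal.span {φ (x k) - φ (algebraMap k (A k) a)}) ∧
    (b = 0 → (RingHom.ker (lift a b h : A k →ₐ[k] k)).map φ = Ideal.span {φ (y k)}) := by
  have h1 : (RingHom.ker (lift a b h : A k →ₐ[k] k)).map φ =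
      Ideal.span {φ (x k) - φ (algebraMap k (A k) a), φ (y k) - φ (algebraMap k (A k) b)} := by
    rw [ker_lift, Ideal.map_span, Set.image_pair, map_sub, map_sub]
  have hx : φ (x k) - φ (algebraMap k (A k) a) ∈ maximalIdeal S := by
    rw [← map_sub]
    apply hφ
    rw [ker_lift]
    exact Ideal.subset_span (Or.inl rfl)
  have hy : φ (y k) - φ (algebraMap k (A k) b) ∈ maximalIdeal S := by
    rw [← map_sub]
    apply hφ
    rw [ker_lift]
    exact Ideal.subset_span (Or.inr rfl)
  have r1 : φ (y k) ^ 2 + φ (x k) ^ 4 + 1 = 0 := by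
    rw [← map_pow, ← map_pow, ← map_one φ, ← map_add, ← map_add, rel, map_zero]
  have r2 : φ (algebraMap k (A k) b) ^ 2 + φ (algebraMap k (A k) a) ^ 4 + 1 = 0 := by
    rw [← map_pow, ← map_pow, ← map_pow, ← map_pow, ← map_one φ, ← map_one (algebraMap k (A k)),
      ← map_add, ← map_add, ← map_add, ← map_add, h, map_zero, map_zero]
  have h2 := isUnit_two_of φ
  refine ⟨fun hb => ?_, fun hb => ?_⟩
  · have hu : IsUnit (φ (y k)) := by
      by_contra hcon
      have h3 : φ (algebraMap k (A k) b) ∈ maximalIdeal S := by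
        have := Ideal.sub_mem _ ((mem_maximalIdeal _).2 hcon) hy
        simpa using this
      exact (mem_maximalIdeal _).1 h3 (((IsUnit.mk0 b hb).map (algebraMap k (A k))).map φ)
    have h4 := diag_y h2 r1 r2 hy hu
    rw [h1]
    apply le_antisymm
    · rw [Ideal.span_le]
      rintro _ (rfl | rfl)
      · exact Ideal.subset_span rfl
      · exact h4
    · exact Ideal.span_mono (by simp)
  · subst hb
    rw [map_zero, map_zero, sub_zero] at hy
    have h4 := diag_x h2 r1 r2 hx hy
    rw [map_zero, map_zero, sub_zero] at h4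
    rw [h1, map_zero, map_zero, sub_zero]
    apply le_antisymm
    · rw [Ideal.span_le]
      rintro _ (rfl | rfl)
      · exact h4
      · exact Ideal.subset_span rfl
    · exact Ideal.span_mono (by simp)

end loc

variable [IsAlgClosed k]

theorem valuationRing_stalk (z : curve k) : ValuationRing ((curve k).presheaf.stalk z) := by
  obtain ⟨c, hc⟩ := exists_mem_range_ch z
  obtain ⟨φ, hφ⟩ := exists_toStk (ch c) z hc
  have hmax := toStk_maximalIdeal (ch c) z φ hφ
  have hp : (maximalIdeal ((curve k).presheaf.stalk z)).IsPrincipal := by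
    by_cases hbot : (maximalIdeal ((curve k).presheaf.stalk z)).comap φ.hom = ⊥
    · rw [hbot, Ideal.map_bot] at hmax
      rw [hmax]
      infer_instance
    · have h1 := isMaximal_of_ne_bot k two_ne_zero _ hbot inferInstance
      obtain ⟨a, b, h, hab⟩ := exists_ev _ h1
      have h2 := map_ker_eq φ.hom a b h (le_of_eq hab.symm)
      rw [hmax, hab]
      by_cases hb : b = 0
      · rw [h2.2 hb]
        exact ⟨_, rfl⟩
      · rw [h2.1 hb]
        exact ⟨_, rfl⟩
  exact ((tfae_of_isNoetherianRing_of_isLocalRing_of_isDomain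
    ((curve k).presheaf.stalk z)).out 4 1).1 hp

end Pool.Agent.W513.EC
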