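import Pool.Agent.W513.SpecE

/-!
# The strict transform in the blow-up
-/

set_option autoImplicit false

open CategoryTheory Limits AlgebraicGeometry IsLocalRing TopologicalSpace

namespace Pool.Agent.W513

open Pool.Agent.Helper198.Sch
open Pool.Agent.H666R3.NG
open Pool.Agent.W488.BlowB

attribute [local instance] MvPolynomial.gradedAlgebra

lemma max_of_bijective {R S : Type} [CommRing R] [CommRing S] [IsLocalRing R] [IsLocalRing S]
    (f : R →+* S) (hf : Function.Bijective f) {a : R} (h : maximalIdeal R = Ideal.span {a}) :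
    maximalIdeal S = Ideal.span {f a} := by
  have hu : ∀ r, IsUnit (f r) ↔ IsUnit r := fun r => by
    constructor
    · rintro h1
      have := h1.map (RingEquiv.ofBijective f hf).symm
      rwa [show f r = RingEquiv.ofBijective f hf r from rfl, RingEquiv.symm_apply_apply] at this
    · exact fun h1 => h1.map f
  apply le_antisymm
  · intro s hs
    obtain ⟨r, rfl⟩ := hf.2 s
    have hr : r ∈ maximalIdeal R := by
      rw [mem_maximalIdeal, mem_nonunits_iff]
      exact fun h1 => (mem_maximalIdeal _).1 hs ((hu r).2 h1)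
    rw [h] at hr
    obtain ⟨c, hc⟩ := Ideal.mem_span_singleton'.1 hr
    exact Ideal.mem_span_singleton'.2 ⟨f c, by rw [← map_mul, hc]⟩
  · rw [Ideal.span_singleton_le_iff_mem, mem_maximalIdeal, mem_nonunits_iff, hu,
      ← mem_nonunits_iff, ← mem_maximalIdeal, h]
    exact Ideal.mem_span_singleton_self a

section transfer

variable {C X Y : Scheme.{0}} [IrreducibleSpace C] (ι : C ⟶ X) (σ : X ⟶ Y) (z : C)

/-- specialisation map with the composite evaluated -/
noncomputable def tg : Y.presheaf.stalk (σ (ι z)) →+* Y.presheaf.stalk (σ (ι (genericPoint C))) :=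
  toGeneric (ι ≫ σ) z

lemma toGeneric_comp (b : Y.presheaf.stalk (σ (ι z))) :
    toGeneric ι z ((σ.stalkMap (ι z)).hom b) =
      (σ.stalkMap (ι (genericPoint C))).hom (tg ι σ z b) := by
  have h3 := Scheme.Hom.stalkSpecializes_stalkMap σ (ι (genericPoint C)) (ι z)
    ((genericPoint_specializes z).map ι.continuous)
  exact (congrArg (fun t => t.hom b) h3).symm

omit [IrreducibleSpace C] in
lemma stalk_comp : ((ι ≫ σ).stalkMap z).hom = (ι.stalkMap z).hom.comp (σ.stalkMap (ι z)).hom := by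
  have h3 := Scheme.Hom.stalkMap_comp ι σ z
  exact congrArg (fun t => t.hom) h3

/-- `ConormalOrder` with the composite evaluated -/
lemma conormalOrder_comp (h : Y.presheaf.stalk (σ (ι (genericPoint C)))) (d : ℤ) :
    ConormalOrder (ι ≫ σ) h z d ↔ ∃ g a b : Y.presheaf.stalk (σ (ι z)),
    RingHom.ker ((ι.stalkMap z).hom.comp (σ.stalkMap (ι z)).hom) = Ideal.span {g} ∧
    (ι.stalkMap z).hom ((σ.stalkMap (ι z)).hom a) ≠ 0 ∧
    (ι.stalkMap z).hom ((σ.stalkMap (ι z)).hom b) ≠ 0 ∧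
    tg ι σ z b * h = tg ι σ z a * tg ι σ z g ∧
    d = ((Ring.ord (C.presheaf.stalk z)
        ((ι.stalkMap z).hom ((σ.stalkMap (ι z)).hom a))).toNat : ℤ) -
      ((Ring.ord (C.presheaf.stalk z)
        ((ι.stalkMap z).hom ((σ.stalkMap (ι z)).hom b))).toNat : ℤ) := by
  unfold ConormalOrder
  rw [stalk_comp]
  rfl

theorem ConormalOrder.transfer (hz : Function.Bijective (σ.stalkMap (ι z)).hom)
    (h : Y.presheaf.stalk (σ (ι (genericPoint C)))) (d : ℤ)
    (H : ConormalOrder (ι ≫ σ) h z d) :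
    ConormalOrder ι ((σ.stalkMap (ι (genericPoint C))).hom h) z d := by
  obtain ⟨g, a, b, hk, ha, hb, he, hd⟩ := (conormalOrder_comp ι σ z h d).1 H
  refine ⟨(σ.stalkMap (ι z)).hom g, (σ.stalkMap (ι z)).hom a, (σ.stalkMap (ι z)).hom b, ?_, ha, hb,
    ?_, hd⟩
  · ext t
    obtain ⟨u, rfl⟩ := hz.2 t
    have h1 : (σ.stalkMap (ι z)).hom u ∈ RingHom.ker (ι.stalkMap z).hom ↔
        u ∈ RingHom.ker ((ι.stalkMap z).hom.comp (σ.stalkMap (ι z)).hom) := Iff.rfl
    rw [h1, hk, Ideal.mem_span_singleton', Ideal.mem_span_singleton']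
    constructor
    · rintro ⟨c, rfl⟩
      exact ⟨(σ.stalkMap (ι z)).hom c, (map_mul _ _ _).symm⟩
    · rintro ⟨c, hc⟩
      obtain ⟨c', rfl⟩ := hz.2 c
      exact ⟨c', hz.1 (by rw [map_mul, hc])⟩
  · rw [toGeneric_comp, toGeneric_comp, toGeneric_comp]
    have h1 := congrArg (σ.stalkMap (ι (genericPoint C))).hom he
    rw [map_mul, map_mul] at h1
    exact h1

/-- The conormal sheaf of the strict transform at the point over the centre. -/
theorem ConormalOrder.strict {C X Y : Scheme.{0}} [IsIntegral C] {σ : X ⟶ Y} {y : Y}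
    (hσ : IsBlowUpAt σ y) (ι : C ⟶ X) (z : C) (hz : σ (ι z) = y)
    (h : Y.presheaf.stalk (σ (ι (genericPoint C)))) (v h₀ b : Y.presheaf.stalk (σ (ι z)))
    (hm : maximalIdeal (Y.presheaf.stalk (σ (ι z))) = Ideal.span {v, h₀})
    (hker : RingHom.ker ((ι.stalkMap z).hom.comp (σ.stalkMap (ι z)).hom) = Ideal.span {h₀})
    (hv : (ι.stalkMap z).hom ((σ.stalkMap (ι z)).hom v) ≠ 0)
    (hmax : maximalIdeal (C.presheaf.stalk z) =
      Ideal.span {(ι.stalkMap z).hom ((σ.stalkMap (ι z)).hom v)})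
    (hb : IsUnit b) (he : tg ι σ z b * h = tg ι σ z h₀) :
    ConormalOrder ι ((σ.stalkMap (ι (genericPoint C))).hom h) z 1 := by
  obtain ⟨g, hg, hvg⟩ := ker_strict hσ ι z hz v h₀ hm hker hv
  have hu : IsUnit ((ι.stalkMap z).hom ((σ.stalkMap (ι z)).hom b)) := (hb.map _).map _
  refine ⟨g, (σ.stalkMap (ι z)).hom v, (σ.stalkMap (ι z)).hom b, hg, hv, hu.ne_zero, ?_, ?_⟩
  · rw [← map_mul, ← hvg, toGeneric_comp, toGeneric_comp, ← map_mul, he]
  · rw [ord_eq_one hmax, ord_unit hu]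
    rfl

end transfer

section main

variable {k : Type} [Field k] [CharZero k] [IsAlgClosed k]

namespace EC.IsEnd

variable {ψ : EC.curve k ⟶ EC.curve k} {s : EC.FK k →+* EC.FK k} {μ : k} (h : EC.IsEnd ψ s μ)
  [IsIntegral (cr ψ)]

include h

theorem selfIntersection {X : Scheme.{0}} (σ : X ⟶ YY k) {y : YY k} (hσ : IsBlowUpAt σ y)
    (hyc : IsClosed ({y} : Set (YY k))) (ι : cr ψ ⟶ X)
    (hj1 : (ι ≫ σ) ≫ pr1 k = pullback.fst (FQ.f k) ψ)
    (hj2 : (ι ≫ σ) ≫ pr2 k = pullback.snd (FQ.f k) ψ)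
    {a b : k} (hab : a ^ 4 + b ^ 4 + 1 = 0) (hb : b ≠ 0) (q : Spec (.of k) ⟶ cr ψ)
    (hq : q ≫ pullback.fst (FQ.f k) ψ = FQ.fpt false a b hab)
    (hz0 : σ (ι (q (closedPoint k))) = y) :
    HasSelfIntersection ι (-1) ∧ σ (ι (genericPoint (cr ψ))) ≠ y := by
  set z0 : cr ψ := q (closedPoint k) with hz0def
  have hci := isClosedImmersion_j h.str (ι ≫ σ) hj1 hj2
  have hne : ∀ z : cr ψ, z ≠ z0 → σ (ι z) ≠ y := by
    intro z hz hcon
    apply hz
    apply (ι ≫ σ).isClosedEmbedding.injective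
    exact hcon.trans hz0.symm
  obtain ⟨hη, hη1, hη2⟩ := h.exists_hη (ι ≫ σ) hj1 hj2
  obtain ⟨α1, α2, v, hα, hu, hm, hm2, hv⟩ := h.special (ι ≫ σ) hj1 hj2 hab hb q hq z0 rfl
  have hgen : genericPoint (cr ψ) ≠ z0 := by
    intro hcon
    have h1 : ∀ z : cr ψ, genericPoint (cr ψ) = z → ∀ w : (cr ψ).presheaf.stalk z,
        maximalIdeal ((cr ψ).presheaf.stalk z) = Ideal.span {w} → w = 0 := by
      rintro z rfl w hw
      by_contra hw0
      have h2 : IsUnit w := IsUnit.mk0 (G₀ := (cr ψ).functionField) w hw0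
      have h3 : w ∈ maximalIdeal ((cr ψ).presheaf.stalk (genericPoint (cr ψ))) := by
        rw [hw]
        exact Ideal.mem_span_singleton_self w
      exact (mem_maximalIdeal _).1 h3 h2
    exact hv (h1 z0 hcon _ hm2)
  have hbij := fun z hz => bijective_stalkMap hσ hyc (ι z) (hne z hz)
  refine ⟨⟨(σ.stalkMap (ι (genericPoint (cr ψ)))).hom hη,
    max_of_bijective _ (hbij _ hgen) hη1, Finsupp.single z0 1, ?_, ?_, ?_⟩, hne _ hgen⟩
  · intro z _
    by_cases hz : z = z0
    · rw [hz, Finsupp.single_eq_same]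
      have hgη := h.j_generic_mem false h.snd_generic
      obtain ⟨β1, β2, hβ⟩ := exists_Al_z (ι ≫ σ) hj1 hj2 (genericPoint (cr ψ)) false hgη
      have tgα := fun p => toGeneric_al (ι ≫ σ) z0 hα hβ p
      have t1 : ∀ p, tg ι σ z0 (α1.hom p) = β1.hom p := fun p => (tgα p).1
      have t2 : ∀ p, tg ι σ z0 (α2.hom p) = β2.hom p := fun p => (tgα p).2
      have hker := h.ker_case_A (ι ≫ σ) hj1 hj2 z0 hα hu
      rw [stalk_comp ι σ z0] at hker
      refine ConormalOrder.strict hσ ι z0 hz0 hη v (α1.hom (EC.x k) - α2.hom (EC.x k))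
        (α1.hom (EC.y k)) hm hker ?_ ?_ hu ?_
      · rw [stalk_comp ι σ z0] at hv
        exact hv
      · rw [stalk_comp ι σ z0] at hm2
        exact hm2
      · have e3 := hη2 β1 β2 hβ
        have e4 : tg ι σ z0 (α1.hom (EC.x k) - α2.hom (EC.x k)) =
            tg ι σ z0 (α1.hom (EC.x k)) - tg ι σ z0 (α2.hom (EC.x k)) := map_sub _ _ _
        rw [e4, t1, t1, t2]
        exact e3
    · rw [Finsupp.single_eq_of_ne hz]
      exact ConormalOrder.transfer ι σ z (hbij z hz) hη 0 (h.conormal (ι ≫ σ) hj1 hj2 hη hη2 z)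
  · intro z hz
    rw [Finsupp.single_eq_of_ne]
    rintro rfl
    apply hz
    have h1 : ({z0} : Set (cr ψ)) = (ι ≫ σ) ⁻¹' {y} := by
      ext w
      constructor
      · rintro rfl
        exact hz0
      · intro hw
        by_contra hcon
        exact hne w hcon hw
    rw [h1]
    exact hyc.preimage (ι ≫ σ).continuous
  · rw [Finsupp.sum_single_index rfl]

end EC.IsEnd

end main

end Pool.Agent.W513
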