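import Pool.Agent.Helper198.SchO

/-!
# Transition between the charts of a projective scheme
-/

set_option autoImplicit false

open MvPolynomial AlgebraicGeometry CategoryTheory Limits TopologicalSpace

namespace Pool.Agent.W513

open Pool.Agent.Helper198.Sch

attribute [local instance] MvPolynomial.gradedAlgebra

variable {σ : Type} {R : Type} [CommRing R] (J : HI σ R)

/-- The coordinate ring of the intersection of two charts. -/
abbrev Aw (c c' : σ) : Type :=
  HomogeneousLocalization.Away (qgrad J.toIdeal) (gen J c * gen J c')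

/-- left restriction map -/
noncomputable def awL (c c' : σ) : Ch J c →+* Aw J c c' :=
  HomogeneousLocalization.awayMap (qgrad J.toIdeal) (gen_mem J c') rfl

/-- right restriction map -/
noncomputable def awR (c c' : σ) : Ch J c' →+* Aw J c c' :=
  HomogeneousLocalization.awayMap (qgrad J.toIdeal) (gen_mem J c) (mul_comm _ _)

/-- the denominator -/
noncomputable def den (c c' : σ) : Submonoid.powers (gen J c * gen J c') :=
  ⟨(gen J c * gen J c') ^ 1, ⟨1, rfl⟩⟩

lemma val_awL (c c' a : σ) : (awL J c c' (frac J c a)).val =
    Localization.mk (gen J a * gen J c' ^ 1) (den J c c') :=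
  HomogeneousLocalization.val_awayMap_mk _ _ _ _ _ _ _

lemma val_awR (c c' a : σ) : (awR J c c' (frac J c' a)).val =
    Localization.mk (gen J a * gen J c ^ 1) (den J c c') :=
  HomogeneousLocalization.val_awayMap_mk _ _ _ _ _ _ _

lemma aw_rel (c c' a : σ) :
    awL J c c' (frac J c a) * awR J c c' (frac J c' c) = awR J c c' (frac J c' a) := by
  apply HomogeneousLocalization.val_injective
  rw [HomogeneousLocalization.val_mul, val_awL, val_awR, val_awR, Localization.mk_mul,
    Localization.mk_eq_mk_iff, Localization.r_iff_exists]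
  refine ⟨1, ?_⟩
  simp only [den, Submonoid.coe_one, Submonoid.mk_mul_mk, one_mul, pow_one]
  ring

/-- Two maps in chart coordinates which define the same morphism are related by the transition
functions. -/
lemma chart_eq_rel {B : Type} [CommRing B] (c c' : σ) (f : Ch J c →+* B) (g : Ch J c' →+* B)
    (h : Spec.map (CommRingCat.ofHom f) ≫ V.chart J c =
      Spec.map (CommRingCat.ofHom g) ≫ V.chart J c') (a : σ) :
    f (frac J c a) * g (frac J c' c) = g (frac J c' a) := by
  let p : Spec (.of B) ⟶ pullback (V.chart J c) (V.chart J c') := pullback.lift _ _ h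
  let q := p ≫ (Proj.pullbackAwayιIso (qgrad J.toIdeal) (gen_mem J c) one_pos (gen_mem J c') one_pos
    rfl).hom
  obtain ⟨w, hw⟩ := Spec.map_surjective q
  have h1 : Spec.map w ≫ Spec.map (CommRingCat.ofHom (awL J c c')) =
      Spec.map (CommRingCat.ofHom f) := by
    rw [hw]
    have := Proj.pullbackAwayιIso_hom_SpecMap_awayMap_left (qgrad J.toIdeal) (gen_mem J c) one_pos
      (gen_mem J c') one_pos rfl
    exact (Category.assoc _ _ _).trans ((congrArg (fun t => p ≫ t) this).trans
      (pullback.lift_fst _ _ h))
  have h2 : Spec.map w ≫ Spec.map (CommRingCat.ofHom (awR J c c')) =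
      Spec.map (CommRingCat.ofHom g) := by
    rw [hw]
    have := Proj.pullbackAwayιIso_hom_SpecMap_awayMap_right (qgrad J.toIdeal) (gen_mem J c) one_pos
      (gen_mem J c') one_pos rfl
    exact (Category.assoc _ _ _).trans ((congrArg (fun t => p ≫ t) this).trans
      (pullback.lift_snd _ _ h))
  rw [← Spec.map_comp] at h1 h2
  have h3 := Spec.map_injective h1
  have h4 := Spec.map_injective h2
  have h5 : ∀ z, w.hom (awL J c c' z) = f z := fun z => congrArg (fun t => t.hom z) h3
  have h6 : ∀ z, w.hom (awR J c c' z) = g z := fun z => congrArg (fun t => t.hom z) h4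
  rw [← h5, ← h6, ← h6, ← map_mul, aw_rel]

/-- If the coordinate of the second chart is invertible, then a map in the first chart can be
written in the second chart. -/
lemma exists_other_chart {B : Type} [CommRing B] (c c' : σ) (f : Ch J c →+* B)
    (hu : IsUnit (f (frac J c c'))) :
    ∃ g : Ch J c' →+* B, Spec.map (CommRingCat.ofHom f) ≫ V.chart J c =
      Spec.map (CommRingCat.ofHom g) ≫ V.chart J c' := by
  have hr : Set.range (Spec.map (CommRingCat.ofHom f) ≫ V.chart J c) ⊆
      Set.range (V.chart J c') := by
    rintro _ ⟨z, rfl⟩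
    rw [V.mem_range_chart]
    have h1 : (Spec.map (CommRingCat.ofHom f) ≫ V.chart J c) z =
      V.chart J c (Spec.map (CommRingCat.ofHom f) z) := rfl
    rw [h1, V.chart_mem_D]
    intro h2
    have h3 : f (frac J c c') ∈ z.asIdeal := h2
    exact z.isPrime.ne_top (Ideal.eq_top_of_isUnit_mem _ h3 hu)
  obtain ⟨g, hg⟩ := Spec.map_surjective (IsOpenImmersion.lift (V.chart J c')
    (Spec.map (CommRingCat.ofHom f) ≫ V.chart J c) hr)
  refine ⟨g.hom, ?_⟩
  change _ = Spec.map g ≫ _
  rw [hg, IsOpenImmersion.lift_fac]

end Pool.Agent.W513
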